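import Pool.Agent.Lib.MP_42de19_nt.CubicHyp.Basic

set_option autoImplicit false

namespace Pool.Agent.Lib.MP42.CubicHyp

open Topology Filter

namespace CubData

variable {V : Type*} [NormedAddCommGroup V] [NormedSpace ℝ V] [FiniteDimensional ℝ V]
  {D : CubData V}

theorem FlatData.F_sigma {P : V} {μ : V →ₗ[ℝ] ℝ} (hP : D.FlatData P μ) (a b c : V) :
    D.F (a - (2 * μ a) • P) (b - (2 * μ b) • P) (c - (2 * μ c) • P) = D.F a b c := by
  have h1 : ∀ u v, D.F P u v = μ u * D.F P P v + μ v * D.F P P u := hP.flat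
  have h2 : ∀ u v, D.F u P v = μ u * D.F P P v + μ v * D.F P P u := fun u v => by
    rw [D.s12, h1]
  have h3 : ∀ u v, D.F u v P = μ u * D.F P P v + μ v * D.F P P u := fun u v => by
    rw [D.s23, h2]
  have h0 : D.F P P P = 0 := hP.zero
  simp only [map_sub, map_smul, LinearMap.sub_apply, LinearMap.smul_apply, smul_eq_mul]
  rw [h3 a b, h2 a c, h1 b c, show D.F a P P = D.F P P a by rw [D.s12, D.s23],
    show D.F P b P = D.F P P b by rw [D.s23], h0]
  ring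

theorem FlatData.c_sigma {P : V} {μ : V →ₗ[ℝ] ℝ} (hP : D.FlatData P μ) {B : V} (hB : B ∈ D.X) :
    D.c B (B - (2 * μ B) • P) = (-8 * (μ B) ^ 3 * D.F P P B) • P := by
  have hB0 : D.F B B B = 0 := hB
  have h1 : D.F B B P = 2 * μ B * D.F P P B := by
    rw [D.s23, D.s12, hP.flat]; ring
  have h2 : D.F B P B = 2 * μ B * D.F P P B := by rw [D.s23, h1]
  have h3 : D.F B P P = D.F P P B := by rw [D.s12, D.s23]
  have e1 : D.F B B (B - (2 * μ B) • P) = -4 * (μ B) ^ 2 * D.F P P B := by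
    rw [map_sub, map_smul, hB0, h1, smul_eq_mul]; ring
  have e2 : D.F B (B - (2 * μ B) • P) (B - (2 * μ B) • P) = -4 * (μ B) ^ 2 * D.F P P B := by
    simp only [map_sub, map_smul, LinearMap.sub_apply, LinearMap.smul_apply, smul_eq_mul]
    rw [hB0, h1, h2, h3]; ring
  rw [c, e1, e2, ← smul_sub, sub_sub_cancel, smul_smul]
  congr 1
  ring

theorem FlatData.c_sigma' {P : V} {μ : V →ₗ[ℝ] ℝ} (hP : D.FlatData P μ) {B B₁ E : V}
    (hB : B ∈ D.X) (hB₁ : D.F B B B₁ = 0) (hE : E = B - (2 * μ B) • P) :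
    ∃ κ : ℝ, D.F B₁ E E • B + D.F B E E • B₁ - (2 * D.F B B₁ E) • E =
      κ • P + (-4 * (μ B) ^ 2) •
        (D.F P P B • (B₁ - μ B₁ • P) - D.F P P B₁ • (B - μ B • P)) := by
  have hB0 : D.F B B B = 0 := hB
  have h1 : D.F B B P = 2 * μ B * D.F P P B := by
    rw [D.s23, D.s12, hP.flat]; ring
  have h2 : D.F B P B = 2 * μ B * D.F P P B := by rw [D.s23, h1]
  have h3 : D.F B P P = D.F P P B := by rw [D.s12, D.s23]
  have e2 : D.F B E E = -4 * (μ B) ^ 2 * D.F P P B := by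
    rw [hE]
    simp only [map_sub, map_smul, LinearMap.sub_apply, LinearMap.smul_apply, smul_eq_mul]
    rw [hB0, h1, h2, h3]; ring
  have h4 : D.F B₁ B B = 0 := by rw [D.s12, D.s23, hB₁]
  have h5 : D.F B₁ B P = μ B₁ * D.F P P B + μ B * D.F P P B₁ := by
    rw [D.s23, D.s12, hP.flat]
  have h6 : D.F B₁ P B = μ B₁ * D.F P P B + μ B * D.F P P B₁ := by rw [D.s23, h5]
  have h7 : D.F B₁ P P = D.F P P B₁ := by rw [D.s12, D.s23]
  have e3 : D.F B₁ E E = -4 * μ B * μ B₁ * D.F P P B := by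
    rw [hE]
    simp only [map_sub, map_smul, LinearMap.sub_apply, LinearMap.smul_apply, smul_eq_mul]
    rw [h4, h5, h6, h7]; ring
  have h8 : D.F B B₁ B = 0 := by rw [D.s23, hB₁]
  have h9 : D.F B B₁ P = μ B * D.F P P B₁ + μ B₁ * D.F P P B := by
    rw [D.s23, D.s12, hP.flat]
  have e4 : D.F B B₁ E = -2 * μ B * (μ B * D.F P P B₁ + μ B₁ * D.F P P B) := by
    rw [hE, map_sub, map_smul, h8, h9, smul_eq_mul]; ring
  refine ⟨4 * μ B * D.F B B₁ E - 4 * (μ B) ^ 2 * (D.F P P B * μ B₁ - D.F P P B₁ * μ B), ?_⟩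
  rw [e2, e3, e4, hE]
  module

end CubData

end Pool.Agent.Lib.MP42.CubicHyp
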