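import Pool.Agent.Lib.MP_42de19_nt.CubicHyp.ConjReal
import Pool.Agent.Lib.MP_42de19_nt.CubicHyp.Sigma

set_option autoImplicit false

/-! MP_42de19_nt: the directions of the arcs through `P` given by admissible pairs. -/

namespace Pool.Agent.Lib.MP42.CubicHyp

open Topology Filter

namespace CubData

variable {V : Type*} [NormedAddCommGroup V] [NormedSpace ℝ V] [FiniteDimensional ℝ V]
  {D : CubData V}

omit [FiniteDimensional ℝ V] in
theorem hasDerivAt_line (x x' : V) (t : ℝ) : HasDerivAt (fun t : ℝ => x + t • x') x' t := by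
  have h := ((hasDerivAt_id t).smul_const x').const_add x
  simpa using h

omit [FiniteDimensional ℝ V] in
theorem contDiff_line (x x' : V) : ContDiff ℝ 2 (fun t : ℝ => x + t • x') :=
  contDiff_const.add (contDiff_id.smul contDiff_const)

/-- the derivative of `τ(A, x + t x')` at `0` -/
theorem hasDerivAt_tau (A x x' : V) :
    HasDerivAt (fun t : ℝ => D.tau A (x + t • x'))
      ((3 * D.F x x x') • A - (6 * D.F A x x') • x - (3 * D.F A x x) • x') 0 := by
  have hl := hasDerivAt_line x x' 0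
  have h1 := (D.hasDerivAt_F hl hl hl).smul_const A
  have h2 := ((D.hasDerivAt_F (hasDerivAt_const (0 : ℝ) A) hl hl).const_mul 3).smul hl
  have h3 := h1.sub h2
  refine (h3.congr_deriv ?_)
  simp only [zero_smul, add_zero, map_zero, LinearMap.zero_apply, zero_add]
  have e1 : D.F x' x x = D.F x x x' := by rw [D.s12, D.s23]
  have e2 : D.F x x' x = D.F x x x' := by rw [D.s23]
  have e3 : D.F A x' x = D.F A x x' := by rw [D.s23]
  rw [e1, e2, e3]
  module

theorem contDiff_tau (A x x' : V) : ContDiff ℝ 2 (fun t : ℝ => D.tau A (x + t • x')) := by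
  have hl := contDiff_line x x'
  exact ((D.contDiff_F hl hl hl).smul contDiff_const).sub
    ((contDiff_const.mul (D.contDiff_F contDiff_const hl hl)).smul hl)

/-- the derivative of `c(B(t), E)` -/
theorem hasDerivAt_c {B : ℝ → V} {B₁ : V} (E : V) {t : ℝ} (hB : HasDerivAt B B₁ t) :
    HasDerivAt (fun t => D.c (B t) E)
      (D.F B₁ E E • B t + D.F (B t) E E • B₁ - (2 * D.F (B t) B₁ E) • E) t := by
  have hE := hasDerivAt_const t E
  have h1 := (D.hasDerivAt_F hB hE hE).smul hB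
  have h2 := (D.hasDerivAt_F hB hB hE).smul_const E
  refine ((h1.sub h2).congr_deriv ?_)
  simp only [map_zero, LinearMap.zero_apply, add_zero]
  have e1 : D.F B₁ (B t) E = D.F (B t) B₁ E := D.s12 _ _ _
  rw [e1]
  module

theorem contDiff_c {B : ℝ → V} (E : V) (hB : ContDiff ℝ 2 B) :
    ContDiff ℝ 2 (fun t => D.c (B t) E) :=
  ((D.contDiff_F hB contDiff_const contDiff_const).smul hB).sub
    ((D.contDiff_F hB hB contDiff_const).smul contDiff_const)

theorem FlatData.star_adm {P : V} {μ : V →ₗ[ℝ] ℝ} (hP : D.FlatData P μ) (hS : D.Star P μ)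
    {w h : V} (hA : D.Adm P μ w h) {h' : V} (hμ : μ h' = 0) (hL : D.F P P h' = 0) {g : V}
    (hg : D.F P P g = 0) {ρ : V}
    (hρ : ρ = (D.Xi w h h * D.F h h h) • h' +
      (2 * D.Xi w h h' * D.F h h h - 3 * D.Xi w h h * D.F h h h') • h) :
    D.F ρ g g = 0 := by
  have hCw := hA.Cw
  obtain ⟨s, hs0, hs2⟩ : ∃ s : ℝ, 0 < s ∧ s ^ 2 = - D.F w w w / 3 := by
    have hpos : 0 < - D.F w w w / 3 := by linarith
    exact ⟨Real.sqrt (- D.F w w w / 3), Real.sqrt_pos.2 hpos, Real.sq_sqrt hpos.le⟩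
  have hs : s ≠ 0 := hs0.ne'
  have hFw : D.F w w w = -3 * s ^ 2 := by rw [hs2]; ring
  -- basic values
  have hPPP : D.F P P P = 0 := hP.zero
  have hPu : ∀ u v, D.F P u v = μ u * D.F P P v + μ v * D.F P P u := hP.flat
  set θ : V → ℝ := fun k => - D.F w w k / (2 * s) with hθ
  have hθs : ∀ k, 2 * s * θ k = - D.F w w k := by
    intro k; simp only [hθ]; field_simp
  have hwP : D.F w w P = 0 := by
    have h1 : D.F w w P = D.F P w w := by rw [D.s23, D.s12]
    rw [h1, hPu, hA.μw]; ring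
  -- values of `F` on `k + θ k P`
  have hPkk : ∀ k l : V, μ k = 0 → μ l = 0 → D.F P P k = 0 → D.F P P l = 0 → D.F P k l = 0 := by
    intro k l h1 h2 h3 h4
    rw [hPu, h1, h2]; ring
  set A : V := s • P + w with hAd
  set A' : V := -s • P + w with hAd'
  have hμA : μ A = s := by
    rw [hAd, map_add, map_smul, hP.one, hA.μw, smul_eq_mul]; ring
  have hLA : D.F P P A = 1 := by
    rw [hAd, map_add, map_smul, hPPP, hA.Lw, smul_eq_mul]; ring
  have hAA : ∀ k, μ k = 0 → D.F P P k = 0 → D.F A A (k + θ k • P) = 0 := by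
    intro k h1 h2
    have e1 : D.F P w k = 0 := by rw [hPu, hA.μw, h1]; ring
    have e2 := hθs k
    have e3 : D.F w P k = 0 := by rw [D.s12]; exact e1
    have e4 : D.F P w P = 1 := by rw [D.s23]; exact hA.Lw
    have e5 : D.F w P P = 1 := by rw [D.s12, D.s23]; exact hA.Lw
    simp only [hAd, map_add, map_smul, LinearMap.add_apply, LinearMap.smul_apply, smul_eq_mul]
    rw [hPPP, h2, e1, e3, e4, e5, hwP]
    linear_combination e2
  have hxxx : ∀ k l m, μ k = 0 → μ l = 0 → μ m = 0 → D.F P P k = 0 → D.F P P l = 0 →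
      D.F P P m = 0 → D.F (k + θ k • P) (l + θ l • P) (m + θ m • P) = D.F k l m := by
    intro k l m k1 l1 m1 k2 l2 m2
    have e1 : D.F P l m = 0 := hPkk l m l1 m1 l2 m2
    have e2 : D.F k P m = 0 := by rw [D.s12]; exact hPkk k m k1 m1 k2 m2
    have e3 : D.F k l P = 0 := by rw [D.s23, D.s12]; exact hPkk k l k1 l1 k2 l2
    have e4 : D.F k P P = 0 := by rw [D.s12, D.s23]; exact k2
    have e5 : D.F P l P = 0 := by rw [D.s23]; exact l2
    simp only [map_add, map_smul, LinearMap.add_apply, LinearMap.smul_apply, smul_eq_mul]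
    rw [hPPP, e1, e2, e3, e4, e5, m2]
    ring
  have hAxx : ∀ k l, μ k = 0 → μ l = 0 → D.F P P k = 0 → D.F P P l = 0 →
      D.F A (k + θ k • P) (l + θ l • P) = D.Xi w k l := by
    intro k l k1 l1 k2 l2
    have e1 : D.F P k l = 0 := hPkk k l k1 l1 k2 l2
    have e2 : D.F P k P = 0 := by rw [D.s23]; exact k2
    have e3 : D.F w P l = 0 := by rw [D.s12, hPu, hA.μw, l1]; ring
    have e4 : D.F w k P = 0 := by rw [D.s23, D.s12, hPu, hA.μw, k1]; ring
    have e5 : D.F w P P = 1 := by rw [D.s12, D.s23]; exact hA.Lw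
    simp only [hAd, map_add, map_smul, LinearMap.add_apply, LinearMap.smul_apply, smul_eq_mul]
    rw [hPPP, e1, e2, e3, e4, e5, l2, Xi, hFw]
    simp only [hθ]
    field_simp
    ring
  set x : V := h + θ h • P with hx
  set x' : V := h' + θ h' • P with hx'
  have hμx : μ x = θ h := by
    rw [hx, map_add, map_smul, hP.one, hA.μh, smul_eq_mul]; ring
  have hμx' : μ x' = θ h' := by
    rw [hx', map_add, map_smul, hP.one, hμ, smul_eq_mul]; ring
  have hLx : D.F P P x = 0 := by
    rw [hx, map_add, map_smul, hPPP, hA.Lh, smul_eq_mul]; ring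
  have hLx' : D.F P P x' = 0 := by
    rw [hx', map_add, map_smul, hPPP, hL, smul_eq_mul]; ring
  have hAAx : D.F A A x = 0 := hAA h hA.μh hA.Lh
  have hAAx' : D.F A A x' = 0 := hAA h' hμ hL
  have hFx : D.F x x x = D.F h h h := hxxx h h h hA.μh hA.μh hA.μh hA.Lh hA.Lh hA.Lh
  have hFx' : D.F x x x' = D.F h h h' := hxxx h h h' hA.μh hA.μh hμ hA.Lh hA.Lh hL
  have hFAx : D.F A x x = D.Xi w h h := hAxx h h hA.μh hA.μh hA.Lh hA.Lh
  have hFAx' : D.F A x x' = D.Xi w h h' := hAxx h h' hA.μh hμ hA.Lh hL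
  -- `A ∈ X`
  have hAX : D.F A A A = 0 := by
    have e1 : D.F P w w = 0 := by rw [hPu, hA.μw]; ring
    have e2 : D.F P w P = 1 := by rw [D.s23]; exact hA.Lw
    have e3 : D.F w P w = 0 := by rw [D.s12]; exact e1
    have e4 : D.F w P P = 1 := by rw [D.s12, D.s23]; exact hA.Lw
    simp only [hAd, map_add, map_smul, LinearMap.add_apply, LinearMap.smul_apply, smul_eq_mul]
    rw [hPPP, hA.Lw, e1, e2, e3, e4, hwP, hFw]
    ring
  -- the arc
  have hBX : ∀ t : ℝ, D.tau A (x + t • x') ∈ D.X := by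
    intro t
    refine D.tau_mem_X hAX ?_
    rw [map_add, map_smul, hAAx, hAAx', smul_zero, add_zero]
  set B : V := D.tau A x with hBd
  have hB0 : D.tau A (x + (0 : ℝ) • x') = B := by rw [zero_smul, add_zero]
  have hB : B ∈ D.X := by rw [← hB0]; exact hBX 0
  set B₁ : V := (3 * D.F x x x') • A - (6 * D.F A x x') • x - (3 * D.F A x x) • x' with hB₁d
  have hder := D.hasDerivAt_tau A x x'
  have hBB₁ : D.F B B B₁ = 0 := by
    have h1 := D.hasDerivAt_F hder hder hder
    have h2 : (fun t : ℝ => D.F (D.tau A (x + t • x')) (D.tau A (x + t • x'))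
        (D.tau A (x + t • x'))) = fun _ => 0 := by
      funext t; exact hBX t
    rw [h2] at h1
    have h3 := h1.unique (hasDerivAt_const (0 : ℝ) (0 : ℝ))
    rw [hB0, ← hB₁d] at h3
    have e1 : D.F B₁ B B = D.F B B B₁ := by rw [D.s12, D.s23]
    have e2 : D.F B B₁ B = D.F B B B₁ := by rw [D.s23]
    rw [e1, e2] at h3
    linarith
  set E : V := B - (2 * μ B) • P with hE
  -- `E = τ(A', σ x)`
  have hσA : A - (2 * μ A) • P = A' := by
    rw [hμA, hAd, hAd']; module
  have hτσ : D.tau A' (x - (2 * μ x) • P) = E := by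
    have e1 : D.F (x - (2 * μ x) • P) (x - (2 * μ x) • P) (x - (2 * μ x) • P) = D.F x x x :=
      hP.F_sigma x x x
    have e2 : D.F A' (x - (2 * μ x) • P) (x - (2 * μ x) • P) = D.F A x x := by
      rw [← hσA]; exact hP.F_sigma A x x
    rw [tau, e1, e2, hE, hBd, tau, ← hσA, map_sub, map_smul, map_smul, smul_eq_mul, smul_eq_mul]
    module
  have hR : ∀ t : ℝ, D.c (D.tau A (x + t • x')) E ∈ D.K := by
    intro t
    rw [← hτσ]
    refine hP.conj_real (w := w) (ω := s) hA.μw (by rw [hA.Lw]; exact one_ne_zero) hs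
      (by rw [hA.Lw, hFw]; ring) hAd hAd' ?_ ?_
    · rw [map_add, map_smul, hAAx, hAAx', smul_zero, add_zero]
    · rw [← hσA, hP.F_sigma A A x]; exact hAAx
  -- values at `0`
  have hBe : B = D.F h h h • A - (3 * D.Xi w h h) • x := by
    rw [hBd, tau, hFx, hFAx]
  have hLB : D.F P P B = D.F h h h := by
    rw [hBe, map_sub, map_smul, map_smul, hLA, hLx, smul_eq_mul, smul_eq_mul]; ring
  have hμB : μ B = D.F h h h * s - 3 * D.Xi w h h * θ h := by
    rw [hBe, map_sub, map_smul, map_smul, hμA, hμx, smul_eq_mul, smul_eq_mul]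
  have hμB0 : μ B ≠ 0 := by
    intro h0
    apply hA.b0
    have e1 := hθs h
    rw [hFw]
    have e2 : 6 * s * μ B = 0 := by rw [h0]; ring
    rw [hμB] at e2
    linear_combination e2 + 9 * D.Xi w h h * e1
  have hB₁e : B₁ = (3 * D.F h h h') • A - (6 * D.Xi w h h') • x - (3 * D.Xi w h h) • x' := by
    rw [hB₁d, hFx', hFAx', hFAx]
  have hLB₁ : D.F P P B₁ = 3 * D.F h h h' := by
    rw [hB₁e, map_sub, map_sub, map_smul, map_smul, map_smul, hLA, hLx, hLx', smul_eq_mul,
      smul_eq_mul, smul_eq_mul]; ring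
  have hμB₁ : μ B₁ = 3 * D.F h h h' * s - 6 * D.Xi w h h' * θ h - 3 * D.Xi w h h * θ h' := by
    rw [hB₁e, map_sub, map_sub, map_smul, map_smul, map_smul, hμA, hμx, hμx', smul_eq_mul,
      smul_eq_mul, smul_eq_mul]
  obtain ⟨κ, hκ⟩ := hP.c_sigma' hB hBB₁ hE
  have hcomb : D.F P P B • (B₁ - μ B₁ • P) - D.F P P B₁ • (B - μ B • P) = (-3 : ℝ) • ρ := by
    rw [hLB, hLB₁, hμB, hμB₁, hBe, hB₁e, hρ, hx, hx', hAd]
    module
  have hderR : HasDerivAt (fun t : ℝ => D.c (D.tau A (x + t • x')) E)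
      (κ • P + (12 * (μ B) ^ 2) • ρ) 0 := by
    have h1 := D.hasDerivAt_c E hder
    rw [hB0, ← hB₁d, hκ, hcomb] at h1
    refine h1.congr_deriv ?_
    module
  have hLρ : D.F P P ρ = 0 := by
    rw [hρ, map_add, map_smul, map_smul, hL, hA.Lh, smul_eq_mul, smul_eq_mul]; ring
  have hμρ : μ ρ = 0 := by
    rw [hρ, map_add, map_smul, map_smul, hμ, hA.μh, smul_eq_mul, smul_eq_mul]; ring
  have key := hS (fun t : ℝ => D.c (D.tau A (x + t • x')) E)
    (D.contDiff_c E (D.contDiff_tau A x x')) hR (-8 * (μ B) ^ 3 * D.F P P B) κ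
    ((12 * (μ B) ^ 2) • ρ)
    (by
      rw [hLB]
      exact mul_ne_zero (mul_ne_zero (by norm_num) (pow_ne_zero 3 hμB0)) hA.Ch)
    (by
      show D.c (D.tau A (x + (0 : ℝ) • x')) E = _
      rw [hB0]; exact hP.c_sigma hB)
    hderR (by rw [map_smul, hLρ, smul_zero]) (by rw [map_smul, hμρ, smul_zero]) g hg
  rw [map_smul, LinearMap.smul_apply, LinearMap.smul_apply, smul_eq_mul] at key
  rcases mul_eq_zero.1 key with h1 | h1
  · exact absurd h1 (mul_ne_zero (by norm_num) (pow_ne_zero 2 hμB0))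
  · exact h1

end CubData

end Pool.Agent.Lib.MP42.CubicHyp
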