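import Pool.Agent.Lib.MP_42de19_nt.CubicHyp.Basic

set_option autoImplicit false

namespace Pool.Agent.Lib.MP42.CubicHyp

open Topology Filter Set

/-- a large value of the parameter at which nothing vanishes -/
theorem exists_large (c a₂ a₁ a₀ : ℝ) (hc : c < 0) : ∃ T : ℝ,
    c * T ^ 3 + 3 * a₂ * T ^ 2 + 3 * a₁ * T + a₀ < 0 ∧
    4 * (c * T ^ 3 + 3 * a₂ * T ^ 2 + 3 * a₁ * T + a₀) * (c * T + a₂) -
      3 * (c * T ^ 2 + 2 * a₂ * T + a₁) ^ 2 ≠ 0 ∧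
    -8 * c * (c * T ^ 3 + 3 * a₂ * T ^ 2 + 3 * a₁ * T + a₀) ^ 2 +
      9 * (4 * (c * T ^ 3 + 3 * a₂ * T ^ 2 + 3 * a₁ * T + a₀) * (c * T + a₂) -
      3 * (c * T ^ 2 + 2 * a₂ * T + a₁) ^ 2) * (c * T ^ 2 + 2 * a₂ * T + a₁) ≠ 0 := by
  let f : ℝ → ℝ := fun x => c + 3 * a₂ * x + 3 * a₁ * x ^ 2 + a₀ * x ^ 3
  let s : ℝ → ℝ := fun x => c + a₂ * x
  let r : ℝ → ℝ := fun x => c + 2 * a₂ * x + a₁ * x ^ 2
  let u : ℝ → ℝ := fun x => 4 * f x * s x - 3 * r x ^ 2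
  let w : ℝ → ℝ := fun x => -8 * c * f x ^ 2 + 9 * u x * r x
  have hf : Continuous f := by fun_prop
  have hs : Continuous s := by fun_prop
  have hr : Continuous r := by fun_prop
  have hu : Continuous u := by fun_prop
  have hw : Continuous w := by fun_prop
  have hf0 : f 0 = c := by simp [f]
  have hs0 : s 0 = c := by simp [s]
  have hr0 : r 0 = c := by simp [r]
  have hu0 : u 0 = c ^ 2 := by
    show 4 * f 0 * s 0 - 3 * r 0 ^ 2 = c ^ 2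
    rw [hf0, hs0, hr0]; ring
  have hw0 : w 0 = c ^ 3 := by
    show -8 * c * f 0 ^ 2 + 9 * u 0 * r 0 = c ^ 3
    rw [hf0, hu0, hr0]; ring
  have e1 : ∀ᶠ x in 𝓝 (0 : ℝ), f x < 0 :=
    hf.continuousAt.eventually_lt continuousAt_const (by rw [hf0]; exact hc)
  have e2 : ∀ᶠ x in 𝓝 (0 : ℝ), u x ≠ 0 :=
    hu.continuousAt.eventually_ne (by rw [hu0]; exact pow_ne_zero 2 hc.ne)
  have e3 : ∀ᶠ x in 𝓝 (0 : ℝ), w x ≠ 0 :=
    hw.continuousAt.eventually_ne (by rw [hw0]; exact pow_ne_zero 3 hc.ne)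
  have e4 : ∀ᶠ x in 𝓝[>] (0 : ℝ), (f x < 0 ∧ u x ≠ 0 ∧ w x ≠ 0) ∧ 0 < x :=
    ((e1.and (e2.and e3)).filter_mono nhdsWithin_le_nhds).and self_mem_nhdsWithin
  obtain ⟨x, ⟨h1, h2, h3⟩, hx⟩ := e4.exists
  have hx0 : x ≠ 0 := hx.ne'
  have g1 : c * x⁻¹ ^ 3 + 3 * a₂ * x⁻¹ ^ 2 + 3 * a₁ * x⁻¹ + a₀ = f x / x ^ 3 := by
    simp only [f]; field_simp
  have g2 : c * x⁻¹ + a₂ = s x / x := by
    simp only [s]; field_simp
  have g3 : c * x⁻¹ ^ 2 + 2 * a₂ * x⁻¹ + a₁ = r x / x ^ 2 := by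
    simp only [r]; field_simp
  have g4 : 4 * (f x / x ^ 3) * (s x / x) - 3 * (r x / x ^ 2) ^ 2 = u x / x ^ 4 := by
    simp only [u]; field_simp
  refine ⟨x⁻¹, ?_, ?_, ?_⟩
  · rw [g1]; exact div_neg_of_neg_of_pos h1 (by positivity)
  · rw [g1, g2, g3, g4]; exact div_ne_zero h2 (pow_ne_zero 4 hx0)
  · rw [g1, g2, g3, g4]
    have g5 : -8 * c * (f x / x ^ 3) ^ 2 + 9 * (u x / x ^ 4) * (r x / x ^ 2) = w x / x ^ 6 := by
      simp only [w]; field_simp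
    rw [g5]; exact div_ne_zero h3 (pow_ne_zero 6 hx0)

namespace CubData

variable {V : Type*} [NormedAddCommGroup V] [NormedSpace ℝ V] [FiniteDimensional ℝ V]
  {D : CubData V}

omit [FiniteDimensional ℝ V] in
theorem FlatData.exists_adm {P : V} {μ : V →ₗ[ℝ] ℝ} (hP : D.FlatData P μ) (hH : D.NoHyp) :
    ∃ w h, D.Adm P μ w h := by
  -- a vector `k` in `ker μ ∩ ker L` with `F k < 0`
  obtain ⟨v, hv, hvF⟩ := hH _ hP.smooth
  have hz := hP.zero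
  have hk : ∃ k, μ k = 0 ∧ D.F P P k = 0 ∧ D.F k k k < 0 := by
    have hFk : D.F (v - μ v • P) (v - μ v • P) (v - μ v • P) = D.F v v v := by
      have e1 : D.F P v v = 0 := by rw [hP.flat v v, hv]; ring
      have e2 : D.F P P v = 0 := hv
      have e3 : v - μ v • P = (1 : ℝ) • v + (- μ v) • P := by module
      rw [e3, D.F_comb]
      have e4 : D.F v v P = 0 := by rw [D.s23, D.s12]; exact e1
      have e5 : D.F v P P = 0 := by rw [D.s12, D.s23]; exact e2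
      rw [e4, e5, hz]; ring
    have hμ1 : μ (v - μ v • P) = 0 := by
      rw [map_sub, map_smul, hP.one, smul_eq_mul]; ring
    have hL1 : D.F P P (v - μ v • P) = 0 := by
      rw [map_sub, map_smul, hv, hz]; simp
    rcases lt_or_gt_of_ne hvF with h1 | h1
    · exact ⟨_, hμ1, hL1, by rw [hFk]; exact h1⟩
    · refine ⟨-(v - μ v • P), by rw [map_neg, hμ1, neg_zero], by rw [map_neg, hL1, neg_zero], ?_⟩
      have : -(v - μ v • P) = (-1 : ℝ) • (v - μ v • P) := by module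
      rw [this, D.F_smul, hFk]
      nlinarith
  obtain ⟨k, hμk, hLk, hFk⟩ := hk
  -- a vector `w₀` in `ker μ` with `L w₀ = 1`
  have hw : ∃ w₀, μ w₀ = 0 ∧ D.F P P w₀ = 1 := by
    obtain ⟨e, he⟩ : ∃ e, D.F P P e ≠ 0 := by
      by_contra hcon
      push Not at hcon
      exact hP.smooth (LinearMap.ext hcon)
    refine ⟨(D.F P P e)⁻¹ • (e - μ e • P), ?_, ?_⟩
    · rw [map_smul, map_sub, map_smul, hP.one, smul_eq_mul, smul_eq_mul]; ring
    · rw [map_smul, map_sub, map_smul, hz, smul_eq_mul, smul_eq_mul, mul_zero, sub_zero,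
        inv_mul_cancel₀ he]
  obtain ⟨w₀, hμw, hLw⟩ := hw
  obtain ⟨T, hT1, hT2, hT3⟩ := exists_large (D.F k k k) (D.F w₀ k k) (D.F w₀ w₀ k)
    (D.F w₀ w₀ w₀) hFk
  have i1 : D.F (w₀ + T • k) (w₀ + T • k) (w₀ + T • k) = D.F k k k * T ^ 3 +
      3 * D.F w₀ k k * T ^ 2 + 3 * D.F w₀ w₀ k * T + D.F w₀ w₀ w₀ := by
    have : w₀ + T • k = (1 : ℝ) • w₀ + T • k := by module
    rw [this, D.F_comb]; ring
  have i2 : D.F (w₀ + T • k) k k = D.F k k k * T + D.F w₀ k k := by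
    rw [map_add, map_smul]
    simp only [LinearMap.add_apply, LinearMap.smul_apply, smul_eq_mul]
    ring
  have i3 : D.F (w₀ + T • k) (w₀ + T • k) k = D.F k k k * T ^ 2 + 2 * D.F w₀ k k * T +
      D.F w₀ w₀ k := by
    simp only [map_add, map_smul, LinearMap.add_apply, LinearMap.smul_apply, smul_eq_mul,
      CubData.s12, CubData.s23]
    ring
  have hC : D.F (w₀ + T • k) (w₀ + T • k) (w₀ + T • k) ≠ 0 := by
    rw [i1]; exact hT1.ne
  have i4 : 4 * D.F (w₀ + T • k) (w₀ + T • k) (w₀ + T • k) * D.Xi (w₀ + T • k) k k =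
      4 * D.F (w₀ + T • k) (w₀ + T • k) (w₀ + T • k) * D.F (w₀ + T • k) k k -
        3 * D.F (w₀ + T • k) (w₀ + T • k) k ^ 2 := by
    rw [Xi]; field_simp
  refine ⟨w₀ + T • k, k, ?_, ?_, ?_, hμk, hLk, hFk.ne, ?_, ?_⟩
  · rw [map_add, map_smul, hμw, hμk]; simp
  · rw [map_add, map_smul, hLw, hLk]; simp
  · rw [i1]; exact hT1
  · intro h0
    rw [h0, mul_zero, i1, i2, i3] at i4
    exact hT2 i4.symm
  · intro h0
    apply hT3
    have i5 : 4 * D.F (w₀ + T • k) (w₀ + T • k) (w₀ + T • k) *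
        (-2 * D.F (w₀ + T • k) (w₀ + T • k) (w₀ + T • k) * D.F k k k +
          9 * D.Xi (w₀ + T • k) k k * D.F (w₀ + T • k) (w₀ + T • k) k) =
        -8 * D.F k k k * D.F (w₀ + T • k) (w₀ + T • k) (w₀ + T • k) ^ 2 +
          9 * (4 * D.F (w₀ + T • k) (w₀ + T • k) (w₀ + T • k) * D.Xi (w₀ + T • k) k k) *
            D.F (w₀ + T • k) (w₀ + T • k) k := by ring
    rw [h0, mul_zero, i4, i1, i2, i3] at i5
    exact i5.symm

end CubData

end Pool.Agent.Lib.MP42.CubicHyp
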