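import Pool.Agent.Lib.MP_42de19_nt.CubicHyp.Basic

set_option autoImplicit false

/-! Piece A2: tangent directions at points of `K` and at rational double points. -/

namespace Pool.Agent.Lib.MP42.CubicHyp

open Topology Filter Set

namespace CubData

variable {V : Type*} [NormedAddCommGroup V] [NormedSpace ℝ V] [FiniteDimensional ℝ V]
  (D : CubData V)

theorem tau_mem_K {a v : V} (ha : a ∈ D.K) (hs : D.F a a ≠ 0) (hv : D.F a a v = 0) :
    D.tau a v ∈ D.K := by
  obtain ⟨e₀, he₀⟩ : ∃ e, D.F a a e ≠ 0 := by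
    by_contra h
    push Not at h
    exact hs (LinearMap.ext h)
  have hopen : IsOpen {e : V | D.F a a e ≠ 0} :=
    isOpen_ne.preimage (D.cont_F continuous_const continuous_const continuous_id)
  obtain ⟨e, heQ, he⟩ : ∃ e ∈ D.Q, D.F a a e ≠ 0 := by
    obtain ⟨e, h1, h2⟩ := D.denseQ.inter_open_nonempty _ hopen ⟨e₀, he₀⟩
    exact ⟨e, h2, h1⟩
  have hopen2 : IsOpen {p : V × V | D.F p.1 p.1 e ≠ 0} :=
    isOpen_ne.preimage (D.cont_F continuous_fst continuous_fst continuous_const)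
  have hw : ContinuousAt (fun p : V × V => p.2 - (D.F p.1 p.1 p.2 / D.F p.1 p.1 e) • e)
      (a, v) := by
    refine continuousAt_snd.sub (ContinuousAt.smul (ContinuousAt.div ?_ ?_ he) continuousAt_const)
    · exact (D.cont_F continuous_fst continuous_fst continuous_snd).continuousAt
    · exact (D.cont_F continuous_fst continuous_fst continuous_const).continuousAt
  have hΦ : ContinuousAt (fun p : V × V =>
      D.tau p.1 (p.2 - (D.F p.1 p.1 p.2 / D.F p.1 p.1 e) • e)) (a, v) := by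
    unfold tau
    exact ((D.contAt_F hw hw hw).smul continuousAt_fst).sub
      ((continuousAt_const.mul (D.contAt_F continuousAt_fst hw hw)).smul hw)
  have hcl : (a, v) ∈ closure ({p : V × V | D.F p.1 p.1 e ≠ 0} ∩ D.ratX ×ˢ (D.Q : Set V)) := by
    refine hopen2.inter_closure ⟨he, ?_⟩
    rw [closure_prod_eq]
    exact ⟨ha, D.denseQ v⟩
  suffices hM : MapsTo (fun p : V × V => D.tau p.1 (p.2 - (D.F p.1 p.1 p.2 / D.F p.1 p.1 e) • e))
      ({p : V × V | D.F p.1 p.1 e ≠ 0} ∩ D.ratX ×ˢ (D.Q : Set V)) D.ratX by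
    have key := hΦ.continuousWithinAt.mem_closure hcl hM
    have h2 : D.tau a v ∈ closure D.ratX := by simpa [hv] using key
    exact h2
  rintro ⟨x, y⟩ ⟨hx, hx1, hy⟩
  have hx' : D.F x x e ≠ 0 := hx
  have hxX : D.F x x x = 0 := hx1.2
  have hxQ : x ∈ D.Q := hx1.1
  have hyQ : y ∈ D.Q := hy
  have hwQ : y - (D.F x x y / D.F x x e) • e ∈ D.Q := by
    refine D.sub_mem_Q hyQ (D.smul_mem_Q heQ ?_)
    obtain ⟨r, hr⟩ := D.ratQ x hxQ x hxQ y hyQ
    obtain ⟨s, hs⟩ := D.ratQ x hxQ x hxQ e heQ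
    exact ⟨r / s, by rw [hr, hs]; push_cast; rfl⟩
  refine ⟨D.tau_mem_Q hxQ hwQ, D.tau_mem_X hxX ?_⟩
  rw [map_sub, map_smul, smul_eq_mul, div_mul_cancel₀ _ hx', sub_self]

theorem mem_K_of_tangent {a y : V} (ha : a ∈ D.K) (hs : D.F a a ≠ 0) (hy : y ∈ D.X)
    (h1 : D.F a a y = 0) (h2 : D.F a y y ≠ 0) : y ∈ D.K := by
  have h3 := D.tau_mem_K ha hs h1
  have hy' : D.F y y y = 0 := hy
  have h4 : D.tau a y = (-(3 * D.F a y y)) • y := by
    rw [tau, hy', zero_smul, zero_sub, neg_smul]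
  rw [h4] at h3
  exact D.mem_K_of_smul (neg_ne_zero.mpr (mul_ne_zero (by norm_num) h2)) h3

theorem tau_mem_K_of_double {a v : V} (ha : a ∈ D.Q) (hs : D.F a a = 0) :
    D.tau a v ∈ D.K := by
  have hc : Continuous fun v : V => D.tau a v := by
    unfold tau
    exact ((D.cont_F continuous_id continuous_id continuous_id).smul continuous_const).sub
      ((continuous_const.mul (D.cont_F continuous_const continuous_id continuous_id)).smul
        continuous_id)
  refine (hc.continuousWithinAt (s := (D.Q : Set V))).mem_closure (x := v) (D.denseQ v) ?_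
  intro y hy
  refine ⟨D.tau_mem_Q ha hy, ?_⟩
  have h0 : ∀ z, D.F a a z = 0 := fun z => by rw [hs]; rfl
  have : D.tau a y = D.F y y y • a + (- (3 * D.F a y y)) • y := by
    rw [tau, neg_smul, sub_eq_add_neg]
  show D.F (D.tau a y) (D.tau a y) (D.tau a y) = 0
  rw [this, F_comb, h0, h0]
  ring

theorem mem_K_of_double {a y : V} (ha : a ∈ D.Q) (hs : D.F a a = 0) (hy : y ∈ D.X)
    (h2 : D.F a y y ≠ 0) : y ∈ D.K := by
  have h3 := D.tau_mem_K_of_double (v := y) ha hs
  have hy' : D.F y y y = 0 := hy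
  have h4 : D.tau a y = (-(3 * D.F a y y)) • y := by
    rw [tau, hy', zero_smul, zero_sub, neg_smul]
  rw [h4] at h3
  exact D.mem_K_of_smul (neg_ne_zero.mpr (mul_ne_zero (by norm_num) h2)) h3

end CubData

end Pool.Agent.Lib.MP42.CubicHyp
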