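import Pool.Agent.Lib.MP_42de19_nt.CubicHyp.Basic
import Pool.Agent.Lib.MP_42de19_nt.CubicHyp.Tangent

set_option autoImplicit false

namespace Pool.Agent.Lib.MP42.CubicHyp

open Topology Filter

namespace CubData

variable {V : Type*} [NormedAddCommGroup V] [NormedSpace ℝ V] [FiniteDimensional ℝ V]
  (D : CubData V)

/-- Arc lemma -/
theorem hasInt_of_sign {R : ℝ → V} {t₀ : ℝ}
    (hRc : ∀ᶠ t in 𝓝 t₀, ContinuousAt R t)
    (hK : ∀ᶠ t in 𝓝 t₀, R t ∈ D.K) (hs : D.F (R t₀) (R t₀) ≠ 0) {z : V} (hz : z ∈ D.X)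
    (g : ℝ) (hg : HasDerivAt (fun t => D.F (R t) (R t) z) g t₀) (hg0 : g ≠ 0)
    (h0 : D.F (R t₀) (R t₀) z = 0) (h1 : D.F (R t₀) z z ≠ 0) : D.HasInt := by
  have hR0 : ContinuousAt R t₀ := hRc.self_of_nhds
  obtain ⟨u, hu⟩ : ∃ u, D.F (R t₀) (R t₀) u ≠ 0 := by
    by_contra hcon
    push Not at hcon
    exact hs (LinearMap.ext fun u => by simpa using hcon u)
  have hzs : z ∈ D.Xs := by
    refine ⟨hz, fun hcon => h1 ?_⟩
    rw [D.s12, D.s23, hcon, LinearMap.zero_apply]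
  -- eventually in `t`: `F (R t) (R t) u ≠ 0`
  have e1 : ∀ᶠ t in 𝓝 t₀, D.F (R t) (R t) u ≠ 0 :=
    (D.contAt_F hR0 hR0 continuousAt_const).eventually_ne hu
  -- eventually in `(t, z')`
  have e2 : ∀ᶠ p : ℝ × V in 𝓝 (t₀, z), D.F (R p.1) p.2 p.2 ≠ 0 := by
    have hc : ContinuousAt (fun p : ℝ × V => D.F (R p.1) p.2 p.2) (t₀, z) :=
      D.contAt_F (ContinuousAt.comp (f := fun p : ℝ × V => p.1) (x := (t₀, z)) hR0
        continuousAt_fst) continuousAt_snd continuousAt_snd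
    exact hc.eventually_ne h1
  rw [nhds_prod_eq, Filter.eventually_prod_iff] at e2
  obtain ⟨pa, hpa, pb, hpb, hab⟩ := e2
  -- slope
  have e3 : ∀ᶠ t in 𝓝[≠] t₀, 0 < slope (fun t => D.F (R t) (R t) z) t₀ t * g := by
    have h := (hasDerivAt_iff_tendsto_slope.mp hg).mul_const g
    exact h.eventually (lt_mem_nhds (mul_self_pos.mpr hg0))
  rw [eventually_nhdsWithin_iff] at e3
  have hall := ((hRc.and hK).and (e1.and hpa)).and e3
  rw [Metric.eventually_nhds_iff] at hall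
  obtain ⟨δ, hδ, hall⟩ := hall
  have hin : ∀ t, |t - t₀| ≤ δ / 2 → ContinuousAt R t ∧ R t ∈ D.K ∧ D.F (R t) (R t) u ≠ 0 ∧ pa t ∧
      (t ≠ t₀ → 0 < slope (fun t => D.F (R t) (R t) z) t₀ t * g) := by
    intro t ht
    have := hall (y := t) (by rw [Real.dist_eq]; linarith)
    exact ⟨this.1.1.1, this.1.1.2, this.1.2.1, this.1.2.2, this.2⟩
  have h2 : 0 < D.F (R (t₀ + δ / 2)) (R (t₀ + δ / 2)) z * g := by
    have hh := (hin (t₀ + δ / 2) (by rw [add_sub_cancel_left, abs_of_pos (by linarith)])).2.2.2.2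
      (by linarith)
    rw [slope_def_field, h0, sub_zero, add_sub_cancel_left, div_mul_eq_mul_div] at hh
    have := mul_pos hh (show (0 : ℝ) < δ / 2 by linarith)
    rwa [div_mul_cancel₀ _ (by positivity)] at this
  have h3 : D.F (R (t₀ - δ / 2)) (R (t₀ - δ / 2)) z * g < 0 := by
    have hh := (hin (t₀ - δ / 2) (by rw [sub_sub_cancel_left, abs_neg, abs_of_pos (by linarith)])).2.2.2.2
      (by linarith)
    rw [slope_def_field, h0, sub_zero, sub_sub_cancel_left, div_mul_eq_mul_div] at hh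
    have := mul_pos hh (show (0 : ℝ) < δ / 2 by linarith)
    rw [div_neg, neg_mul, div_mul_cancel₀ _ (by positivity)] at this
    linarith
  -- eventually in `z'`
  have e4 : ∀ᶠ z' in 𝓝 z, 0 < D.F (R (t₀ + δ / 2)) (R (t₀ + δ / 2)) z' * g := by
    have hc : ContinuousAt (fun z' => D.F (R (t₀ + δ / 2)) (R (t₀ + δ / 2)) z' * g) z :=
      (D.contAt_F continuousAt_const continuousAt_const continuousAt_id).mul continuousAt_const
    exact hc.eventually (lt_mem_nhds h2)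
  have e5 : ∀ᶠ z' in 𝓝 z, D.F (R (t₀ - δ / 2)) (R (t₀ - δ / 2)) z' * g < 0 := by
    have hc : ContinuousAt (fun z' => D.F (R (t₀ - δ / 2)) (R (t₀ - δ / 2)) z' * g) z :=
      (D.contAt_F continuousAt_const continuousAt_const continuousAt_id).mul continuousAt_const
    exact hc.eventually (gt_mem_nhds h3)
  obtain ⟨O, hO, hOo, hzO⟩ := eventually_nhds_iff.mp ((e4.and e5).and hpb)
  refine ⟨z, hzs, O, hOo, hzO, ?_⟩
  rintro z' ⟨hz'O, hz'X⟩
  obtain ⟨⟨h4, h5⟩, h6⟩ := hO z' hz'O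
  have hle : t₀ - δ / 2 ≤ t₀ + δ / 2 := by linarith
  have hcont : ContinuousOn (fun t => D.F (R t) (R t) z' * g) (Set.Icc (t₀ - δ / 2) (t₀ + δ / 2)) := by
    intro t ht
    have hR : ContinuousAt R t := (hin t (by
      rw [abs_le]; constructor <;> linarith [ht.1, ht.2])).1
    exact ((D.contAt_F hR hR continuousAt_const).mul continuousAt_const).continuousWithinAt
  obtain ⟨t, ht, ht0⟩ := intermediate_value_Icc hle hcont (Set.mem_Icc.mpr ⟨h5.le, h4.le⟩)
  have htin := hin t (by rw [abs_le]; constructor <;> linarith [ht.1, ht.2])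
  refine D.mem_K_of_tangent htin.2.1 (fun hcon => htin.2.2.1 ?_) hz'X ?_ (hab htin.2.2.2.1 h6)
  · rw [hcon, LinearMap.zero_apply]
  · exact (mul_eq_zero.mp ht0).resolve_right hg0

/-- good arcs -/
theorem hasInt_of_arc {R : ℝ → V} {R' : V} {t₀ : ℝ} (hRc : ∀ᶠ t in 𝓝 t₀, ContinuousAt R t)
    (hK : ∀ᶠ t in 𝓝 t₀, R t ∈ D.K) (hs : D.F (R t₀) (R t₀) ≠ 0) (hd : HasDerivAt R R' t₀)
    (h1 : D.F (R t₀) R' R' ≠ 0) : D.HasInt := by
  have haX : R t₀ ∈ D.X := D.K_subset_X hK.self_of_nhds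
  have ha : D.F (R t₀) (R t₀) (R t₀) = 0 := haX
  have hav : D.F (R t₀) (R t₀) R' = 0 := by
    have hd1 := D.hasDerivAt_F hd hd hd
    have hd2 : HasDerivAt (fun t => D.F (R t) (R t) (R t)) 0 t₀ := by
      refine (hasDerivAt_const t₀ (0 : ℝ)).congr_of_eventuallyEq ?_
      filter_upwards [hK] with t ht
      exact D.K_subset_X ht
    have h := hd1.unique hd2
    have e1 : D.F R' (R t₀) (R t₀) = D.F (R t₀) (R t₀) R' := by rw [D.s12, D.s23]
    have e2 : D.F (R t₀) R' (R t₀) = D.F (R t₀) (R t₀) R' := by rw [D.s23]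
    rw [e1, e2] at h
    linarith
  have hva : D.F (R t₀) R' (R t₀) = 0 := by rw [D.s23, hav]
  have hz : D.tau (R t₀) R' ∈ D.X := D.tau_mem_X haX hav
  have hFaa : D.F (R t₀) (R t₀) (D.tau (R t₀) R') = 0 := by
    rw [tau, map_sub, map_smul, map_smul, ha, hav, smul_zero, smul_zero, sub_zero]
  have hFav : D.F (R t₀) R' (D.tau (R t₀) R') = -3 * (D.F (R t₀) R' R') ^ 2 := by
    rw [tau, map_sub, map_smul, map_smul, hva, smul_eq_mul, smul_eq_mul]
    ring
  have hFzz : D.F (R t₀) (D.tau (R t₀) R') (D.tau (R t₀) R') = 9 * (D.F (R t₀) R' R') ^ 3 := by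
    conv_lhs => rw [show D.F (R t₀) (D.tau (R t₀) R') = D.F R' R' R' • D.F (R t₀) (R t₀) -
      (3 * D.F (R t₀) R' R') • D.F (R t₀) R' by rw [tau, map_sub, map_smul, map_smul]]
    rw [LinearMap.sub_apply, LinearMap.smul_apply, LinearMap.smul_apply, hFaa, hFav,
      smul_eq_mul, smul_eq_mul]
    ring
  refine D.hasInt_of_sign hRc hK hs hz (-6 * (D.F (R t₀) R' R') ^ 2) ?_ ?_ hFaa ?_
  · have h := D.hasDerivAt_F hd hd (hasDerivAt_const t₀ (D.tau (R t₀) R'))
    convert h using 1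
    rw [map_zero, add_zero, D.s12 R', hFav]
    ring
  · have := pow_ne_zero 2 h1
    intro h
    apply this
    linarith
  · rw [hFzz]
    exact mul_ne_zero (by norm_num) (pow_ne_zero 3 h1)

end CubData

end Pool.Agent.Lib.MP42.CubicHyp
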