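import Pool.Agent.Lib.MP_42de19_nt.CubicHyp.Defs

set_option autoImplicit false

namespace Pool.Agent.Lib.MP42.CubicHyp

open Topology Filter Set

namespace CubData

section
variable {V : Type*} [NormedAddCommGroup V] [NormedSpace ℝ V] (D : CubData V)

/-! ### Continuity and derivatives -/

theorem F_eq_sum {n : ℕ} (b : Module.Basis (Fin n) ℝ V) (u v w : V) : D.F u v w =
    ∑ i, ∑ j, ∑ k, (b.repr u i * b.repr v j * b.repr w k) * D.F (b i) (b j) (b k) := by
  conv_lhs => rw [← b.sum_repr u, ← b.sum_repr v, ← b.sum_repr w]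
  simp only [map_sum, LinearMap.sum_apply, map_smul, LinearMap.smul_apply, smul_eq_mul,
    Finset.mul_sum]
  rw [Finset.sum_comm]
  refine Eq.trans (Finset.sum_congr rfl fun j _ => Finset.sum_comm) ?_
  rw [Finset.sum_comm]
  refine Finset.sum_congr rfl fun i _ => Finset.sum_congr rfl fun j _ =>
    Finset.sum_congr rfl fun k _ => ?_
  ring

end

variable {V : Type*} [NormedAddCommGroup V] [NormedSpace ℝ V] [FiniteDimensional ℝ V]
  (D : CubData V)

theorem continuous_lin {V : Type*} [NormedAddCommGroup V] [NormedSpace ℝ V]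
    [FiniteDimensional ℝ V] (l : V →ₗ[ℝ] ℝ) : Continuous l :=
  l.continuous_of_finiteDimensional

theorem continuous_F : Continuous fun p : V × V × V => D.F p.1 p.2.1 p.2.2 := by
  let b := Module.finBasis ℝ V
  have h : (fun p : V × V × V => D.F p.1 p.2.1 p.2.2) = fun p : V × V × V =>
      ∑ i, ∑ j, ∑ k, (b.coord i p.1 * b.coord j p.2.1 * b.coord k p.2.2) *
        D.F (b i) (b j) (b k) := by
    funext p; exact D.F_eq_sum b _ _ _
  rw [h]
  refine continuous_finsetSum _ fun i _ => continuous_finsetSum _ fun j _ =>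
    continuous_finsetSum _ fun k _ => ?_
  exact ((((continuous_lin (b.coord i)).comp continuous_fst).mul
    ((continuous_lin (b.coord j)).comp (continuous_fst.comp continuous_snd))).mul
    ((continuous_lin (b.coord k)).comp (continuous_snd.comp continuous_snd))).mul
    continuous_const

theorem cont_F {Y : Type*} [TopologicalSpace Y] {f g h : Y → V} (hf : Continuous f)
    (hg : Continuous g) (hh : Continuous h) : Continuous fun x => D.F (f x) (g x) (h x) :=
  D.continuous_F.comp (hf.prodMk (hg.prodMk hh))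

theorem contAt_F {Y : Type*} [TopologicalSpace Y] {f g h : Y → V} {x : Y} (hf : ContinuousAt f x)
    (hg : ContinuousAt g x) (hh : ContinuousAt h x) :
    ContinuousAt (fun x => D.F (f x) (g x) (h x)) x :=
  ContinuousAt.comp (f := fun x => (f x, g x, h x)) D.continuous_F.continuousAt
    (hf.prodMk (hg.prodMk hh))

theorem contWithinAt_F {Y : Type*} [TopologicalSpace Y] {f g h : Y → V} {s : Set Y} {x : Y}
    (hf : ContinuousWithinAt f s x) (hg : ContinuousWithinAt g s x)
    (hh : ContinuousWithinAt h s x) :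
    ContinuousWithinAt (fun x => D.F (f x) (g x) (h x)) s x :=
  ContinuousAt.comp_continuousWithinAt (f := fun x => (f x, g x, h x)) D.continuous_F.continuousAt
    (hf.prodMk (hg.prodMk hh))

theorem tendsto_F {Y : Type*} {l : Filter Y} {f g h : Y → V} {a b c : V} (hf : Tendsto f l (𝓝 a))
    (hg : Tendsto g l (𝓝 b)) (hh : Tendsto h l (𝓝 c)) :
    Tendsto (fun x => D.F (f x) (g x) (h x)) l (𝓝 (D.F a b c)) :=
  (D.continuous_F.tendsto (a, b, c)).comp (hf.prodMk_nhds (hg.prodMk_nhds hh))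

theorem hasDerivAt_F {f g h : ℝ → V} {f' g' h' : V} {t : ℝ} (hf : HasDerivAt f f' t)
    (hg : HasDerivAt g g' t) (hh : HasDerivAt h h' t) :
    HasDerivAt (fun t => D.F (f t) (g t) (h t))
      (D.F f' (g t) (h t) + D.F (f t) g' (h t) + D.F (f t) (g t) h') t := by
  let b := Module.finBasis ℝ V
  have hl : ∀ (l : V →ₗ[ℝ] ℝ) {φ : ℝ → V} {φ' : V}, HasDerivAt φ φ' t →
      HasDerivAt (fun s => l (φ s)) (l φ') t := by
    intro l φ φ' hφ
    exact (l.toContinuousLinearMap.hasFDerivAt (x := φ t)).comp_hasDerivAt t hφ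
  have h1 : (fun t => D.F (f t) (g t) (h t)) = fun t =>
      ∑ i, ∑ j, ∑ k, (b.coord i (f t) * b.coord j (g t) * b.coord k (h t)) *
        D.F (b i) (b j) (b k) := by
    funext t; exact D.F_eq_sum b _ _ _
  have h2 : D.F f' (g t) (h t) + D.F (f t) g' (h t) + D.F (f t) (g t) h' =
      ∑ i, ∑ j, ∑ k, ((b.coord i f' * b.coord j (g t) + b.coord i (f t) * b.coord j g') *
        b.coord k (h t) + (b.coord i (f t) * b.coord j (g t)) * b.coord k h') *
        D.F (b i) (b j) (b k) := by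
    rw [D.F_eq_sum b f', D.F_eq_sum b (f t) g', D.F_eq_sum b (f t) (g t) h']
    simp only [← Finset.sum_add_distrib]
    refine Finset.sum_congr rfl fun i _ => Finset.sum_congr rfl fun j _ =>
      Finset.sum_congr rfl fun k _ => ?_
    simp only [Module.Basis.coord_apply]
    ring
  rw [h1, h2]
  refine HasDerivAt.fun_sum fun i _ => HasDerivAt.fun_sum fun j _ =>
    HasDerivAt.fun_sum fun k _ => ?_
  exact (((hl _ hf).mul (hl _ hg)).mul (hl _ hh)).mul_const _

theorem contDiff_F {n : WithTop ℕ∞} {f g h : ℝ → V} (hf : ContDiff ℝ n f) (hg : ContDiff ℝ n g)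
    (hh : ContDiff ℝ n h) : ContDiff ℝ n (fun t => D.F (f t) (g t) (h t)) := by
  let b := Module.finBasis ℝ V
  have hl : ∀ (l : V →ₗ[ℝ] ℝ) {φ : ℝ → V}, ContDiff ℝ n φ → ContDiff ℝ n (fun s => l (φ s)) :=
    fun l φ hφ => l.toContinuousLinearMap.contDiff.comp hφ
  have h1 : (fun t => D.F (f t) (g t) (h t)) = fun t =>
      ∑ i, ∑ j, ∑ k, (b.coord i (f t) * b.coord j (g t) * b.coord k (h t)) *
        D.F (b i) (b j) (b k) := by
    funext t; exact D.F_eq_sum b _ _ _
  rw [h1]
  exact ContDiff.sum fun i _ => ContDiff.sum fun j _ => ContDiff.sum fun k _ =>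
    (((hl _ hf).mul (hl _ hg)).mul (hl _ hh)).mul contDiff_const

/-! ### `K` and `X` -/

omit [FiniteDimensional ℝ V] in
theorem isClosed_K : IsClosed D.K := isClosed_closure

omit [FiniteDimensional ℝ V] in
theorem ratX_subset_K : D.ratX ⊆ D.K := subset_closure

theorem isClosed_X : IsClosed D.X :=
  isClosed_singleton.preimage (D.cont_F continuous_id continuous_id continuous_id)

theorem K_subset_X : D.K ⊆ D.X := closure_minimal (fun _ h => h.2) D.isClosed_X

omit [FiniteDimensional ℝ V] in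
/-- expansion of the cubic form -/
theorem F_comb (a b : V) (x y : ℝ) : D.F (x • a + y • b) (x • a + y • b) (x • a + y • b) =
    x ^ 3 * D.F a a a + 3 * x ^ 2 * y * D.F a a b + 3 * x * y ^ 2 * D.F a b b +
      y ^ 3 * D.F b b b := by
  simp only [map_add, map_sub, map_neg, map_smul,
    map_zero, LinearMap.add_apply, LinearMap.sub_apply, LinearMap.neg_apply, LinearMap.smul_apply,
    LinearMap.zero_apply, smul_eq_mul, CubData.s12, CubData.s23]; ring

omit [FiniteDimensional ℝ V] in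
theorem F_add (a b : V) : D.F (a + b) (a + b) (a + b) =
    D.F a a a + 3 * D.F a a b + 3 * D.F a b b + D.F b b b := by
  simp only [map_add, map_sub, map_neg, map_smul,
    map_zero, LinearMap.add_apply, LinearMap.sub_apply, LinearMap.neg_apply, LinearMap.smul_apply,
    LinearMap.zero_apply, smul_eq_mul, CubData.s12, CubData.s23]; ring

omit [FiniteDimensional ℝ V] in
theorem F_smul (r : ℝ) (v : V) : D.F (r • v) (r • v) (r • v) = r ^ 3 * D.F v v v := by
  simp only [map_add, map_sub, map_neg, map_smul,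
    map_zero, LinearMap.add_apply, LinearMap.sub_apply, LinearMap.neg_apply, LinearMap.smul_apply,
    LinearMap.zero_apply, smul_eq_mul, CubData.s12, CubData.s23]; ring

omit [FiniteDimensional ℝ V] in
theorem smul_mem_K {v : V} (hv : v ∈ D.K) (r : ℝ) : r • v ∈ D.K := by
  have h1 : (r, v) ∈ closure ((Set.range (fun q : ℚ => (q : ℝ))) ×ˢ D.ratX) := by
    rw [closure_prod_eq]
    exact ⟨Rat.denseRange_cast r, hv⟩
  have hc : Continuous fun p : ℝ × V => p.1 • p.2 := continuous_smul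
  refine (hc.continuousWithinAt (s := (Set.range (fun q : ℚ => (q : ℝ))) ×ˢ D.ratX)).mem_closure
    (x := (r, v)) h1 ?_
  rintro ⟨s, u⟩ ⟨⟨q, rfl⟩, hu⟩
  exact ⟨D.smulQ q u hu.1, by rw [F_smul, hu.2, mul_zero]⟩

omit [FiniteDimensional ℝ V] in
theorem mem_K_of_smul {v : V} {r : ℝ} (hr : r ≠ 0) (hv : r • v ∈ D.K) : v ∈ D.K := by
  have := D.smul_mem_K hv r⁻¹
  rwa [smul_smul, inv_mul_cancel₀ hr, one_smul] at this

omit [FiniteDimensional ℝ V] in
theorem smul_mem_X {v : V} (hv : v ∈ D.X) (r : ℝ) : r • v ∈ D.X := by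
  show D.F _ _ _ = 0
  rw [F_smul, show D.F v v v = 0 from hv, mul_zero]

omit [FiniteDimensional ℝ V] in
theorem c_mem_X {a b : V} (ha : a ∈ D.X) (hb : b ∈ D.X) : D.c a b ∈ D.X := by
  have ha' : D.F a a a = 0 := ha
  have hb' : D.F b b b = 0 := hb
  show D.F _ _ _ = 0
  have : D.c a b = D.F a b b • a + (- D.F a a b) • b := by
    rw [c, neg_smul, sub_eq_add_neg]
  rw [this, F_comb, ha', hb']
  ring

omit [FiniteDimensional ℝ V] in
theorem tau_mem_X {a v : V} (ha : a ∈ D.X) (hv : D.F a a v = 0) : D.tau a v ∈ D.X := by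
  have ha' : D.F a a a = 0 := ha
  show D.F _ _ _ = 0
  have : D.tau a v = D.F v v v • a + (- (3 * D.F a v v)) • v := by
    rw [tau, neg_smul, sub_eq_add_neg]
  rw [this, F_comb, ha', hv]
  ring

omit [FiniteDimensional ℝ V] in
theorem add_mem_Q {a b : V} (ha : a ∈ D.Q) (hb : b ∈ D.Q) : a + b ∈ D.Q := D.Q.add_mem ha hb

omit [FiniteDimensional ℝ V] in
theorem sub_mem_Q {a b : V} (ha : a ∈ D.Q) (hb : b ∈ D.Q) : a - b ∈ D.Q := D.Q.sub_mem ha hb

omit [FiniteDimensional ℝ V] in
/-- scalar multiples with a rational scalar -/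
theorem smul_mem_Q {a : V} (ha : a ∈ D.Q) {x : ℝ} (hx : ∃ r : ℚ, x = r) : x • a ∈ D.Q := by
  obtain ⟨r, rfl⟩ := hx
  exact D.smulQ r a ha

omit [FiniteDimensional ℝ V] in
theorem c_mem_Q {a b : V} (ha : a ∈ D.Q) (hb : b ∈ D.Q) : D.c a b ∈ D.Q :=
  D.sub_mem_Q (D.smul_mem_Q ha (D.ratQ a ha b hb b hb)) (D.smul_mem_Q hb (D.ratQ a ha a ha b hb))

omit [FiniteDimensional ℝ V] in
theorem tau_mem_Q {a v : V} (ha : a ∈ D.Q) (hv : v ∈ D.Q) : D.tau a v ∈ D.Q := by
  refine D.sub_mem_Q (D.smul_mem_Q ha (D.ratQ v hv v hv v hv)) (D.smul_mem_Q hv ?_)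
  obtain ⟨r, hr⟩ := D.ratQ a ha v hv v hv
  exact ⟨3 * r, by rw [hr]; push_cast; ring⟩

theorem continuous_c {Y : Type*} [TopologicalSpace Y] {f g : Y → V} (hf : Continuous f)
    (hg : Continuous g) : Continuous fun x => D.c (f x) (g x) :=
  ((D.cont_F hf hg hg).smul hf).sub ((D.cont_F hf hf hg).smul hg)

theorem c_mem_K {a b : V} (ha : a ∈ D.K) (hb : b ∈ D.K) : D.c a b ∈ D.K := by
  have hc : Continuous fun p : V × V => D.c p.1 p.2 := D.continuous_c continuous_fst continuous_snd
  have h1 : (a, b) ∈ closure (D.ratX ×ˢ D.ratX) := by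
    rw [closure_prod_eq]; exact ⟨ha, hb⟩
  refine (hc.continuousWithinAt (s := D.ratX ×ˢ D.ratX)).mem_closure (x := (a, b)) h1 ?_
  rintro ⟨u, v⟩ ⟨hu, hv⟩
  exact ⟨D.c_mem_Q hu.1 hv.1, D.c_mem_X hu.2 hv.2⟩

omit [FiniteDimensional ℝ V] in
/-- the involution identity -/
theorem c_c {a z : V} (ha : a ∈ D.X) (hz : z ∈ D.X) :
    D.c (D.c a z) z = (D.F a z z) ^ 3 • a := by
  have ha' : D.F a a a = 0 := ha
  have hz' : D.F z z z = 0 := hz
  have h1 : D.F (D.c a z) z z = (D.F a z z) ^ 2 := by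
    rw [c]; simp only [map_add, map_sub, map_neg, map_smul,
    map_zero, LinearMap.add_apply, LinearMap.sub_apply, LinearMap.neg_apply, LinearMap.smul_apply,
    LinearMap.zero_apply, smul_eq_mul, CubData.s12, CubData.s23]
    rw [hz']; ring
  have h2 : D.F (D.c a z) (D.c a z) z = - (D.F a z z) ^ 2 * D.F a a z := by
    rw [c]; simp only [map_add, map_sub, map_neg, map_smul,
    map_zero, LinearMap.add_apply, LinearMap.sub_apply, LinearMap.neg_apply, LinearMap.smul_apply,
    LinearMap.zero_apply, smul_eq_mul, CubData.s12, CubData.s23]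
    rw [hz']; ring
  rw [c, h1, h2]
  conv_lhs => rw [c]
  module

end CubData

end Pool.Agent.Lib.MP42.CubicHyp
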