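import Pool.Agent.Lib.MP_42de19_nt.CubicHyp.Near

set_option autoImplicit false

/-! Cubic hypersurfaces (MP_42de19_nt), piece B3: choice of the auxiliary point. -/

namespace Pool.Agent.Lib.MP42.CubicHyp

open Topology Filter

namespace CubData

variable {V : Type*} [NormedAddCommGroup V] [NormedSpace ℝ V] [FiniteDimensional ℝ V]
  (D : CubData V)

/-- first step: `F x x` does not vanish on `O ∩ X` -/
private theorem choose_step1 (hH : D.NoHyp) {x : V} (hx : x ∈ D.Xs) {y₀ : V} (hy₀ : y₀ ∈ D.Xs)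
    {O : Set V} (hO : IsOpen O) (hyO : y₀ ∈ O) : ∃ y ∈ D.X, y ∈ O ∧ D.F x x y ≠ 0 := by
  by_contra hcon
  push Not at hcon
  have hxx : D.F x x ≠ 0 := hx.2
  have hyy : D.F y₀ y₀ ≠ 0 := hy₀.2
  obtain ⟨e, he1, he2⟩ : ∃ e, D.F y₀ y₀ e ≠ 0 ∧ D.F x x e ≠ 0 := by
    obtain ⟨e₁, h1⟩ : ∃ e, D.F y₀ y₀ e ≠ 0 := by
      by_contra h
      push Not at h
      exact hyy (LinearMap.ext h)
    obtain ⟨e₂, h2⟩ : ∃ e, D.F x x e ≠ 0 := by
      by_contra h
      push Not at h
      exact hxx (LinearMap.ext h)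
    by_cases h3 : D.F x x e₁ = 0
    · by_cases h4 : D.F y₀ y₀ e₂ = 0
      · exact ⟨e₁ + e₂, by rw [map_add, h4, add_zero]; exact h1,
          by rw [map_add, h3, zero_add]; exact h2⟩
      · exact ⟨e₂, h4, h2⟩
    · exact ⟨e₁, h1, h3⟩
  -- a neighbourhood
  obtain ⟨r, hr, hball⟩ := Metric.isOpen_iff.1 hO y₀ hyO
  have he0 : e ≠ 0 := by
    rintro rfl
    simp at he1
  have hen : 0 < ‖e‖ := norm_pos_iff.2 he0
  obtain ⟨δ, hδ, hnear⟩ := D.exists_near_point hy₀.1 he1 (r / 2 / ‖e‖) (by positivity)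
  have hy0x : D.F x x y₀ = 0 := hcon y₀ hy₀.1 hyO
  have hzero : ∀ v : V, D.F x x v = 0 → ‖v‖ < δ → ‖v‖ < r / 2 → D.F (y₀ + v) (y₀ + v) (y₀ + v) = 0 := by
    intro v hv hvδ hvr
    obtain ⟨s, hs, hX⟩ := hnear v hvδ
    have hin : y₀ + v + s • e ∈ O := by
      apply hball
      rw [Metric.mem_ball, dist_eq_norm]
      calc ‖y₀ + v + s • e - y₀‖ = ‖v + s • e‖ := by congr 1; abel
        _ ≤ ‖v‖ + ‖s • e‖ := norm_add_le _ _
        _ = ‖v‖ + |s| * ‖e‖ := by rw [norm_smul, Real.norm_eq_abs]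
        _ < r / 2 + r / 2 := by
            have : |s| * ‖e‖ < r / 2 := by
              rwa [← lt_div_iff₀ hen]
            linarith
        _ = r := by ring
    have h1 := hcon _ hX hin
    rw [map_add, map_add, map_smul, hy0x, hv, smul_eq_mul] at h1
    have hs0 : s = 0 := by
      rcases mul_eq_zero.1 (by linarith : s * D.F x x e = 0) with h | h
      · exact h
      · exact absurd h he2
    have h2 : D.F (y₀ + v + s • e) (y₀ + v + s • e) (y₀ + v + s • e) = 0 := hX
    rwa [hs0, zero_smul, add_zero] at h2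
  obtain ⟨v, hv, hF⟩ := hH (D.F x x) hxx
  apply hF
  -- the polynomial in t
  have hy00 : D.F y₀ y₀ y₀ = 0 := hy₀.1
  have hpoly : ∀ t : ℝ, D.F (y₀ + t • v) (y₀ + t • v) (y₀ + t • v) =
      3 * t * D.F y₀ y₀ v + 3 * t ^ 2 * D.F y₀ v v + t ^ 3 * D.F v v v := by
    intro t
    simp only [map_add, map_sub, map_neg, map_smul, map_zero, LinearMap.add_apply,
      LinearMap.sub_apply, LinearMap.neg_apply, LinearMap.smul_apply, LinearMap.zero_apply,
      smul_eq_mul, CubData.s12, CubData.s23]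
    rw [hy00]
    ring
  set τ : ℝ := min δ (r / 2) / (4 * (1 + ‖v‖)) with hτ
  have hτ0 : 0 < τ := by
    have : 0 < min δ (r / 2) := lt_min hδ (by positivity)
    positivity
  have hsmall : ∀ t : ℝ, |t| ≤ 3 * τ →
      3 * t * D.F y₀ y₀ v + 3 * t ^ 2 * D.F y₀ v v + t ^ 3 * D.F v v v = 0 := by
    intro t ht
    rw [← hpoly]
    have hm : 0 < min δ (r / 2) := lt_min hδ (by positivity)
    have hn : ‖t • v‖ < min δ (r / 2) := by
      rw [norm_smul, Real.norm_eq_abs]
      calc |t| * ‖v‖ ≤ 3 * τ * ‖v‖ := mul_le_mul_of_nonneg_right ht (norm_nonneg _)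
        _ ≤ 3 * τ * (1 + ‖v‖) := by
            apply mul_le_mul_of_nonneg_left _ (by positivity)
            linarith
        _ = 3 / 4 * min δ (r / 2) := by
            rw [hτ]
            field_simp
        _ < min δ (r / 2) := by linarith
    exact hzero _ (by rw [map_smul, hv, smul_zero]) (hn.trans_le (min_le_left _ _))
      (hn.trans_le (min_le_right _ _))
  have k1 := hsmall τ (by rw [abs_of_pos hτ0]; linarith)
  have k2 := hsmall (2 * τ) (by rw [abs_of_pos (by positivity)]; linarith)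
  have k3 := hsmall (3 * τ) (by rw [abs_of_pos (by positivity)])
  have k4 : τ ^ 3 * D.F v v v = 0 := by linarith
  rcases mul_eq_zero.1 k4 with h | h
  · exact absurd h (by positivity)
  · exact h

/-- choice of the auxiliary point -/
theorem exists_aux (hH : D.NoHyp) {x : V} (hx : x ∈ D.Xs) {y₀ : V} (hy₀ : y₀ ∈ D.Xs) {O : Set V}
    (hO : IsOpen O) (hyO : y₀ ∈ O) : ∃ y ∈ D.X, y ∈ O ∧ D.F x y y ≠ 0 ∧ D.F x x y ≠ 0 := by
  obtain ⟨e, he⟩ : ∃ e, D.F y₀ y₀ e ≠ 0 := by
    by_contra h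
    push Not at h
    exact hy₀.2 (LinearMap.ext h)
  have hO1 : IsOpen (O ∩ {y | D.F y y e ≠ 0}) :=
    hO.inter (isOpen_ne.preimage (D.cont_F continuous_id continuous_id continuous_const))
  obtain ⟨y₁, hX, ⟨hyO1, hye⟩, hxy⟩ := D.choose_step1 hH hx hy₀ hO1 ⟨hyO, he⟩
  by_contra hcon
  push Not at hcon
  have h0 : D.F x y₁ y₁ = 0 := by
    by_contra h
    exact hxy (hcon y₁ hX hyO1 h)
  have htan : D.F y₁ y₁ x = 0 := by
    rw [D.s23, D.s12]
    exact h0
  obtain ⟨C, hC, δ, hδ, hpt⟩ := D.exists_tangent_point (show D.F y₁ y₁ y₁ = 0 from hX) hye htan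
  -- the open condition
  have hO2 : IsOpen (O ∩ {y | D.F x x y ≠ 0}) :=
    hO.inter (isOpen_ne.preimage (D.cont_F continuous_const continuous_const continuous_id))
  have hc : Continuous fun p : ℝ × ℝ => y₁ + p.1 • x + p.2 • e := by fun_prop
  have hmem : ∀ᶠ p : ℝ × ℝ in 𝓝 (0, 0), y₁ + p.1 • x + p.2 • e ∈ O ∩ {y | D.F x x y ≠ 0} := by
    apply hc.continuousAt.eventually_mem
    apply hO2.mem_nhds
    simp only [zero_smul, add_zero]
    exact ⟨hyO1, hxy⟩
  obtain ⟨η, hη, hball⟩ := Metric.eventually_nhds_iff.1 hmem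
  -- bound
  have hbound : ∀ t : ℝ, 0 < t → t < min (min δ 1) (min η (η / C)) →
      |2 * D.F x y₁ x| ≤ t * (2 * C * |D.F x y₁ e| + |D.F x x x| + 2 * C * |D.F x x e| +
        C ^ 2 * |D.F x e e|) := by
    intro t ht htm
    have ht1 : t < δ := htm.trans_le ((min_le_left _ _).trans (min_le_left _ _))
    have ht2 : t < 1 := htm.trans_le ((min_le_left _ _).trans (min_le_right _ _))
    have ht3 : t < η := htm.trans_le ((min_le_right _ _).trans (min_le_left _ _))
    have ht4 : t < η / C := htm.trans_le ((min_le_right _ _).trans (min_le_right _ _))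
    obtain ⟨s, hs, hsX⟩ := hpt t (by rwa [abs_of_pos ht])
    have hs2 : |s| < η := by
      have h1 : C * t ^ 2 ≤ C * t := by
        apply mul_le_mul_of_nonneg_left _ hC.le
        nlinarith
      have h2 : C * t < η := by
        rw [lt_div_iff₀ hC] at ht4
        linarith
      linarith
    have hin := @hball (t, s) (by
      rw [Prod.dist_eq, Real.dist_eq, Real.dist_eq, sub_zero, sub_zero]
      exact max_lt (by rwa [abs_of_pos ht]) hs2)
    have hF : D.F x (y₁ + t • x + s • e) (y₁ + t • x + s • e) = 0 := by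
      by_contra h
      exact hin.2 (hcon _ hsX hin.1 h)
    have hexp : D.F x (y₁ + t • x + s • e) (y₁ + t • x + s • e) =
        t * (2 * D.F x y₁ x) + 2 * s * D.F x y₁ e + t ^ 2 * D.F x x x + 2 * t * s * D.F x x e +
          s ^ 2 * D.F x e e := by
      simp only [map_add, map_sub, map_neg, map_smul, map_zero, LinearMap.add_apply,
      LinearMap.sub_apply, LinearMap.neg_apply, LinearMap.smul_apply, LinearMap.zero_apply,
      smul_eq_mul, CubData.s12, CubData.s23]
      rw [h0]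
      ring
    rw [hexp] at hF
    have h5 : t * (2 * D.F x y₁ x) = -(2 * s * D.F x y₁ e + t ^ 2 * D.F x x x +
      2 * t * s * D.F x x e + s ^ 2 * D.F x e e) := by linarith
    have h6 : t * |2 * D.F x y₁ x| ≤ t * (t * (2 * C * |D.F x y₁ e| + |D.F x x x| +
        2 * C * |D.F x x e| + C ^ 2 * |D.F x e e|)) := by
      calc t * |2 * D.F x y₁ x| = |t * (2 * D.F x y₁ x)| := by rw [abs_mul t, abs_of_pos ht]
        _ = |2 * s * D.F x y₁ e + t ^ 2 * D.F x x x +
            2 * t * s * D.F x x e + s ^ 2 * D.F x e e| := by rw [h5, abs_neg]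
        _ ≤ |2 * s * D.F x y₁ e + t ^ 2 * D.F x x x +
            2 * t * s * D.F x x e| + |s ^ 2 * D.F x e e| := abs_add_le _ _
        _ ≤ |2 * s * D.F x y₁ e + t ^ 2 * D.F x x x| +
            |2 * t * s * D.F x x e| + |s ^ 2 * D.F x e e| := by
            gcongr
            exact abs_add_le _ _
        _ ≤ |2 * s * D.F x y₁ e| + |t ^ 2 * D.F x x x| +
            |2 * t * s * D.F x x e| + |s ^ 2 * D.F x e e| := by
            gcongr
            exact abs_add_le _ _
        _ = 2 * |s| * |D.F x y₁ e| + t ^ 2 * |D.F x x x| +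
            2 * t * |s| * |D.F x x e| + |s| ^ 2 * |D.F x e e| := by
            simp only [abs_mul, abs_pow, abs_of_pos ht, abs_two]
        _ ≤ 2 * (C * t ^ 2) * |D.F x y₁ e| + t ^ 2 * |D.F x x x| +
            2 * 1 * (C * t ^ 2) * |D.F x x e| + (C * t) ^ 2 * |D.F x e e| := by
            have hs3 : |s| ≤ C * t := hs.trans (by
              apply mul_le_mul_of_nonneg_left _ hC.le
              nlinarith)
            gcongr
        _ = t * (t * (2 * C * |D.F x y₁ e| + |D.F x x x| +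
            2 * C * |D.F x x e| + C ^ 2 * |D.F x e e|)) := by ring
    exact le_of_mul_le_mul_left h6 ht
  set M := 2 * C * |D.F x y₁ e| + |D.F x x x| + 2 * C * |D.F x x e| + C ^ 2 * |D.F x e e| with hM
  have hM0 : 0 ≤ M := by positivity
  have hzero : D.F x y₁ x = 0 := by
    by_contra hne
    have hpos : 0 < |2 * D.F x y₁ x| := abs_pos.2 (by simpa using hne)
    have hm : 0 < min (min δ 1) (min η (η / C)) :=
      lt_min (lt_min hδ one_pos) (lt_min hη (by positivity))
    set t := min (min (min δ 1) (min η (η / C)) / 2) (|2 * D.F x y₁ x| / (2 * (M + 1))) with ht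
    have ht0 : 0 < t := lt_min (by positivity) (by positivity)
    have h1 := hbound t ht0 (lt_of_le_of_lt (min_le_left _ _) (by linarith))
    have h2 : t * M ≤ |2 * D.F x y₁ x| / (2 * (M + 1)) * M :=
      mul_le_mul_of_nonneg_right (min_le_right _ _) hM0
    have h3 : |2 * D.F x y₁ x| / (2 * (M + 1)) * M ≤ |2 * D.F x y₁ x| / 2 := by
      rw [div_mul_eq_mul_div, div_le_div_iff₀ (by positivity) (by norm_num)]
      nlinarith
    linarith
  apply hxy
  rw [D.s23]
  exact hzero

end CubData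

end Pool.Agent.Lib.MP42.CubicHyp
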