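import Pool.Agent.Lib.MP_42de19_nt.CubicHyp.Coord

set_option autoImplicit false

/-! Pairs of quadratic forms. -/

namespace Pool.Agent.Lib.MP42.CubicHyp

open Topology Filter Set

/-- rational symmetric bilinear forms on `ℝ^N` -/
structure RatB {N : ℕ} (q : (Fin N → ℝ) →ₗ[ℝ] (Fin N → ℝ) →ₗ[ℝ] ℝ) : Prop where
  symm : ∀ u v, q u v = q v u
  rat : ∀ u ∈ ratV N, ∀ v ∈ ratV N, ∃ r : ℚ, q u v = r

/-- rational linear functionals on `ℝ^N` -/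
def RatL {N : ℕ} (l : (Fin N → ℝ) →ₗ[ℝ] ℝ) : Prop := ∀ v ∈ ratV N, ∃ r : ℚ, l v = r

/-- subspaces of `ℝ^N` defined by finitely many rational linear equations -/
def RatW {N : ℕ} (W : Submodule ℝ (Fin N → ℝ)) : Prop :=
  ∃ (m : ℕ) (l : Fin m → (Fin N → ℝ) →ₗ[ℝ] ℝ), (∀ i, RatL (l i)) ∧ W = ⨅ i, LinearMap.ker (l i)

/-- closure of the rational common zeros of two quadratic forms on a subspace -/
def K2 {N : ℕ} (q₁ q₂ : (Fin N → ℝ) →ₗ[ℝ] (Fin N → ℝ) →ₗ[ℝ] ℝ)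
    (W : Submodule ℝ (Fin N → ℝ)) : Set (Fin N → ℝ) :=
  closure {v | v ∈ ratV N ∧ v ∈ W ∧ q₁ v v = 0 ∧ q₂ v v = 0}

end Pool.Agent.Lib.MP42.CubicHyp
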