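import Pool.Agent.Lib.MP_42de19_nt.CubicHyp.Coord
import Pool.Agent.Lib.MP_42de19_nt.CubicHyp.QuadDefs
import Pool.Agent.Lib.MP_42de19_nt.Conic

set_option autoImplicit false

/-! Affine zeros and the cone over the projective closure. -/

namespace Pool.Agent.Lib.MP42.CubicHyp

open Topology Filter Set

private theorem cone_closure {n : ℕ} {Z : Set (Fin (n + 1) → ℝ)} {Z₀ : Set (Fin n → ℝ)}
    (h1 : ∀ x ∈ Z₀, (Fin.cons 1 x : Fin (n + 1) → ℝ) ∈ Z)
    (h2 : ∀ u ∈ Z, u 0 ≠ 0 → (fun i : Fin n => u i.succ / u 0) ∈ Z₀) :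
    closure Z₀ = (fun x : Fin n → ℝ => (Fin.cons 1 x : Fin (n + 1) → ℝ)) ⁻¹' closure Z := by
  have hc : Continuous (fun x : Fin n → ℝ => (Fin.cons 1 x : Fin (n + 1) → ℝ)) := by
    refine continuous_pi fun i => ?_
    refine Fin.cases ?_ (fun j => ?_) i
    · simpa using continuous_const
    · simpa using continuous_apply j
  ext x
  rw [mem_preimage]
  constructor
  · intro hx
    exact hc.continuousWithinAt.mem_closure hx h1
  · intro hx
    have h3 : ∀ᶠ u in 𝓝 (Fin.cons 1 x : Fin (n + 1) → ℝ), u 0 ≠ 0 := by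
      refine (continuous_apply (0 : Fin (n + 1))).continuousAt.eventually_ne ?_
      simp
    have h4 : (Fin.cons 1 x : Fin (n + 1) → ℝ) ∈ closure (Z ∩ {u | u 0 ≠ 0}) := by
      rw [mem_closure_iff_frequently] at hx ⊢
      exact hx.and_eventually h3
    have h5 : ContinuousAt (fun u : Fin (n + 1) → ℝ => fun i : Fin n => u i.succ / u 0)
        (Fin.cons 1 x) := by
      refine continuousAt_pi.2 fun i => ?_
      refine (continuous_apply _).continuousAt.div (continuous_apply _).continuousAt ?_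
      simp
    have h6 := h5.continuousWithinAt.mem_closure h4 (fun u hu => h2 u hu.1 hu.2)
    have h7 : (fun i : Fin n => (Fin.cons 1 x : Fin (n + 1) → ℝ) i.succ /
        (Fin.cons 1 x : Fin (n + 1) → ℝ) 0) = x := by
      funext i
      simp
    rwa [h7] at h6

private theorem cons_castV {n : ℕ} (q : Fin n → ℚ) :
    (Fin.cons 1 (castV q) : Fin (n + 1) → ℝ) = castV (Fin.cons 1 q) := by
  funext i
  refine Fin.cases ?_ (fun j => ?_) i
  · simp [castV]
  · simp [castV]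

private theorem cons_div {n : ℕ} {u : Fin (n + 1) → ℝ} (h : u 0 ≠ 0) :
    (Fin.cons 1 (fun i : Fin n => u i.succ / u 0) : Fin (n + 1) → ℝ) = (u 0)⁻¹ • u := by
  funext i
  refine Fin.cases ?_ (fun j => ?_) i
  · simp [h]
  · simp [div_eq_inv_mul]

private theorem div_castV {n : ℕ} (p : Fin (n + 1) → ℚ) :
    (fun i : Fin n => castV p i.succ / castV p 0) = castV (fun i : Fin n => p i.succ / p 0) := by
  funext i
  simp [castV]

theorem ratClosure_eq {n : ℕ} (f : MvPolynomial (Fin n) ℚ) (T : SymT (n + 1))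
    (hT : ∀ x : Fin n → ℝ, (MvPolynomial.aeval x f : ℝ) =
      (cub T).F (Fin.cons 1 x) (Fin.cons 1 x) (Fin.cons 1 x)) :
    ratClosure {f} = (fun x : Fin n → ℝ => (Fin.cons 1 x : Fin (n + 1) → ℝ)) ⁻¹' (cub T).K := by
  refine cone_closure ?_ ?_
  · rintro x ⟨q, hq, hx⟩
    have hx' : x = castV q := funext hx
    subst hx'
    refine ⟨⟨Fin.cons 1 q, (cons_castV q).symm⟩, ?_⟩
    rw [← hT]
    have h1 := aeval_ratCast f q
    have h2 : (MvPolynomial.aeval (castV q) f : ℝ) = (MvPolynomial.eval q f : ℚ) := h1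
    rw [h2, hq f rfl, Rat.cast_zero]
  · rintro u ⟨⟨p, rfl⟩, hu⟩ h0
    refine ⟨fun i : Fin n => p i.succ / p 0, ?_, fun i => by simp [castV]⟩
    rintro g rfl
    have h1 := aeval_ratCast g (fun i : Fin n => p i.succ / p 0)
    have h2 : (MvPolynomial.aeval (castV (fun i : Fin n => p i.succ / p 0)) g : ℝ) =
      (MvPolynomial.eval (fun i : Fin n => p i.succ / p 0) g : ℚ) := h1
    rw [hT, ← div_castV, cons_div h0, CubData.F_smul, hu, mul_zero] at h2
    exact_mod_cast h2.symm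

theorem ratClosure_pair {n : ℕ} (f₁ f₂ : MvPolynomial (Fin n) ℚ)
    (q₁ q₂ : (Fin (n + 1) → ℝ) →ₗ[ℝ] (Fin (n + 1) → ℝ) →ₗ[ℝ] ℝ)
    (h₁ : ∀ x : Fin n → ℝ, (MvPolynomial.aeval x f₁ : ℝ) = q₁ (Fin.cons 1 x) (Fin.cons 1 x))
    (h₂ : ∀ x : Fin n → ℝ, (MvPolynomial.aeval x f₂ : ℝ) = q₂ (Fin.cons 1 x) (Fin.cons 1 x)) :
    ratClosure {f₁, f₂} =
      (fun x : Fin n → ℝ => (Fin.cons 1 x : Fin (n + 1) → ℝ)) ⁻¹' K2 q₁ q₂ ⊤ := by
  refine cone_closure ?_ ?_
  · rintro x ⟨q, hq, hx⟩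
    have hx' : x = castV q := funext hx
    subst hx'
    refine ⟨⟨Fin.cons 1 q, (cons_castV q).symm⟩, trivial, ?_, ?_⟩
    · rw [← h₁]
      have h2 : (MvPolynomial.aeval (castV q) f₁ : ℝ) = (MvPolynomial.eval q f₁ : ℚ) :=
        aeval_ratCast f₁ q
      rw [h2, hq f₁ (by simp), Rat.cast_zero]
    · rw [← h₂]
      have h2 : (MvPolynomial.aeval (castV q) f₂ : ℝ) = (MvPolynomial.eval q f₂ : ℚ) :=
        aeval_ratCast f₂ q
      rw [h2, hq f₂ (by simp), Rat.cast_zero]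
  · rintro u ⟨⟨p, rfl⟩, -, hu1, hu2⟩ h0
    refine ⟨fun i : Fin n => p i.succ / p 0, ?_, fun i => by simp [castV]⟩
    rintro g (hg | hg)
    · subst hg
      have h2 : (MvPolynomial.aeval (castV (fun i : Fin n => p i.succ / p 0)) g : ℝ) =
        (MvPolynomial.eval (fun i : Fin n => p i.succ / p 0) g : ℚ) := aeval_ratCast g _
      rw [h₁, ← div_castV, cons_div h0] at h2
      simp only [map_smul, LinearMap.smul_apply, hu1, smul_eq_mul, mul_zero] at h2
      exact_mod_cast h2.symm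
    · rw [mem_singleton_iff] at hg
      subst hg
      have h2 : (MvPolynomial.aeval (castV (fun i : Fin n => p i.succ / p 0)) g : ℝ) =
        (MvPolynomial.eval (fun i : Fin n => p i.succ / p 0) g : ℚ) := aeval_ratCast g _
      rw [h₂, ← div_castV, cons_div h0] at h2
      simp only [map_smul, LinearMap.smul_apply, hu2, smul_eq_mul, mul_zero] at h2
      exact_mod_cast h2.symm

end Pool.Agent.Lib.MP42.CubicHyp
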