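import Pool.Agent.Lib.MP_42de19_nt.CubicHyp.Basic

set_option autoImplicit false

/-! H2: conjugate points over a quadratic extension -/

namespace Pool.Agent.Lib.MP42.CubicHyp

open Topology Filter

namespace CubData

/-- conjugate numbers `p + ω q`, `p - ω q` -/
def ConjS (ω a a' : ℝ) : Prop := ∃ p q : ℚ, a = p + ω * q ∧ a' = p - ω * q

theorem ConjS.symm {ω a a' : ℝ} (h : ConjS ω a a') : ConjS ω a' a := by
  obtain ⟨p, q, h1, h2⟩ := h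
  exact ⟨p, -q, by rw [h2]; push_cast; ring, by rw [h1]; push_cast; ring⟩

theorem ConjS.const (ω : ℝ) (p : ℚ) : ConjS ω p p := ⟨p, 0, by simp, by simp⟩

theorem ConjS.add {ω a a' b b' : ℝ} (ha : ConjS ω a a') (hb : ConjS ω b b') :
    ConjS ω (a + b) (a' + b') := by
  obtain ⟨p, q, h1, h2⟩ := ha
  obtain ⟨r, s, h3, h4⟩ := hb
  exact ⟨p + r, q + s, by rw [h1, h3]; push_cast; ring, by rw [h2, h4]; push_cast; ring⟩

theorem ConjS.mul {ω a a' b b' : ℝ} {d : ℚ} (hd : ω ^ 2 = d) (ha : ConjS ω a a')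
    (hb : ConjS ω b b') : ConjS ω (a * b) (a' * b') := by
  obtain ⟨p, q, h1, h2⟩ := ha
  obtain ⟨r, s, h3, h4⟩ := hb
  refine ⟨p * r + d * q * s, p * s + q * r, ?_, ?_⟩
  · rw [h1, h3]; push_cast; rw [← hd]; ring
  · rw [h2, h4]; push_cast; rw [← hd]; ring

theorem ConjS.inv {ω a a' : ℝ} {d : ℚ} (hd : ω ^ 2 = d) (ha : ConjS ω a a') (h : a ≠ 0)
    (h' : a' ≠ 0) : ConjS ω a⁻¹ a'⁻¹ := by
  obtain ⟨p, q, h1, h2⟩ := ha
  have hN : a * a' = ((p ^ 2 - d * q ^ 2 : ℚ) : ℝ) := by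
    rw [h1, h2]; push_cast; rw [← hd]; ring
  have hN0 : ((p ^ 2 - d * q ^ 2 : ℚ) : ℝ) ≠ 0 := by rw [← hN]; exact mul_ne_zero h h'
  refine ⟨p / (p ^ 2 - d * q ^ 2), -q / (p ^ 2 - d * q ^ 2), ?_, ?_⟩
  · have : a⁻¹ = a' / (a * a') := by field_simp
    rw [this, hN, h2]; push_cast at hN0 ⊢; field_simp; ring
  · have : a'⁻¹ = a / (a * a') := by field_simp
    rw [this, hN, h1]; push_cast at hN0 ⊢; field_simp; ring

variable {V : Type*} [NormedAddCommGroup V] [NormedSpace ℝ V] (D : CubData V)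

/-- conjugate vectors -/
def ConjV (ω : ℝ) (v v' : V) : Prop := ∃ v₁ ∈ D.Q, ∃ v₂ ∈ D.Q, v = v₁ + ω • v₂ ∧ v' = v₁ - ω • v₂

variable {D}

theorem ConjV.symm {ω : ℝ} {v v' : V} (h : D.ConjV ω v v') : D.ConjV ω v' v := by
  obtain ⟨a, ha, b, hb, h1, h2⟩ := h
  exact ⟨a, ha, -b, D.Q.neg_mem hb, by rw [h2]; module, by rw [h1]; module⟩

theorem ConjV.const {ω : ℝ} {v : V} (hv : v ∈ D.Q) : D.ConjV ω v v :=
  ⟨v, hv, 0, D.Q.zero_mem, by simp, by simp⟩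

theorem ConjV.add {ω : ℝ} {u u' v v' : V} (hu : D.ConjV ω u u') (hv : D.ConjV ω v v') :
    D.ConjV ω (u + v) (u' + v') := by
  obtain ⟨a, ha, b, hb, h1, h2⟩ := hu
  obtain ⟨c, hc, d, hd, h3, h4⟩ := hv
  exact ⟨a + c, D.Q.add_mem ha hc, b + d, D.Q.add_mem hb hd, by rw [h1, h3]; module,
    by rw [h2, h4]; module⟩

theorem ConjV.smul {ω a a' : ℝ} {d : ℚ} (hd : ω ^ 2 = d) {v v' : V} (ha : ConjS ω a a')
    (hv : D.ConjV ω v v') : D.ConjV ω (a • v) (a' • v') := by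
  obtain ⟨p, q, h1, h2⟩ := ha
  obtain ⟨v₁, hv₁, v₂, hv₂, h3, h4⟩ := hv
  refine ⟨(p : ℝ) • v₁ + ((d * q : ℚ) : ℝ) • v₂, D.Q.add_mem (D.smulQ _ _ hv₁) (D.smulQ _ _ hv₂),
    (p : ℝ) • v₂ + (q : ℝ) • v₁, D.Q.add_mem (D.smulQ _ _ hv₂) (D.smulQ _ _ hv₁), ?_, ?_⟩
  · rw [h1, h3]; push_cast; rw [← hd]; module
  · rw [h2, h4]; push_cast; rw [← hd]; module

theorem ConjV.neg {ω : ℝ} {v v' : V} (hv : D.ConjV ω v v') : D.ConjV ω (-v) (-v') := by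
  obtain ⟨a, ha, b, hb, h1, h2⟩ := hv
  exact ⟨-a, D.Q.neg_mem ha, -b, D.Q.neg_mem hb, by rw [h1]; module, by rw [h2]; module⟩

theorem ConjV.sub {ω : ℝ} {u u' v v' : V} (hu : D.ConjV ω u u') (hv : D.ConjV ω v v') :
    D.ConjV ω (u - v) (u' - v') := by
  rw [sub_eq_add_neg, sub_eq_add_neg]; exact hu.add hv.neg

theorem ConjV.F {ω : ℝ} {d : ℚ} (hd : ω ^ 2 = d) {a a' b b' c c' : V} (ha : D.ConjV ω a a')
    (hb : D.ConjV ω b b') (hc : D.ConjV ω c c') : ConjS ω (D.F a b c) (D.F a' b' c') := by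
  obtain ⟨a₁, ha₁, a₂, ha₂, h1, h2⟩ := ha
  obtain ⟨b₁, hb₁, b₂, hb₂, h3, h4⟩ := hb
  obtain ⟨c₁, hc₁, c₂, hc₂, h5, h6⟩ := hc
  obtain ⟨r111, e111⟩ := D.ratQ a₁ ha₁ b₁ hb₁ c₁ hc₁
  obtain ⟨r112, e112⟩ := D.ratQ a₁ ha₁ b₁ hb₁ c₂ hc₂
  obtain ⟨r121, e121⟩ := D.ratQ a₁ ha₁ b₂ hb₂ c₁ hc₁
  obtain ⟨r122, e122⟩ := D.ratQ a₁ ha₁ b₂ hb₂ c₂ hc₂
  obtain ⟨r211, e211⟩ := D.ratQ a₂ ha₂ b₁ hb₁ c₁ hc₁
  obtain ⟨r212, e212⟩ := D.ratQ a₂ ha₂ b₁ hb₁ c₂ hc₂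
  obtain ⟨r221, e221⟩ := D.ratQ a₂ ha₂ b₂ hb₂ c₁ hc₁
  obtain ⟨r222, e222⟩ := D.ratQ a₂ ha₂ b₂ hb₂ c₂ hc₂
  refine ⟨r111 + d * (r122 + r212 + r221), r112 + r121 + r211 + d * r222, ?_, ?_⟩
  · rw [h1, h3, h5]
    simp only [map_add, map_smul, LinearMap.add_apply, LinearMap.smul_apply, smul_eq_mul, e111,
      e112, e121, e122, e211, e212, e221, e222]
    push_cast; rw [← hd]; ring
  · rw [h2, h4, h6]
    simp only [map_sub, map_smul, LinearMap.sub_apply, LinearMap.smul_apply, smul_eq_mul, e111,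
      e112, e121, e122, e211, e212, e221, e222]
    push_cast; rw [← hd]; ring

theorem ConjV.tau {ω : ℝ} {d : ℚ} (hd : ω ^ 2 = d) {a a' v v' : V} (ha : D.ConjV ω a a')
    (hv : D.ConjV ω v v') : D.ConjV ω (D.tau a v) (D.tau a' v') := by
  unfold CubData.tau
  have h3 : ConjS ω 3 3 := by simpa using ConjS.const ω 3
  exact ((ha.smul hd (hv.F hd hv hv))).sub (hv.smul hd (h3.mul hd (ha.F hd hv hv)))

theorem ConjV.c {ω : ℝ} {d : ℚ} (hd : ω ^ 2 = d) {a a' v v' : V} (ha : D.ConjV ω a a')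
    (hv : D.ConjV ω v v') : D.ConjV ω (D.c a v) (D.c a' v') := by
  unfold CubData.c
  exact (ha.smul hd (ha.F hd hv hv)).sub (hv.smul hd (ha.F hd ha hv))

theorem conj_c_antisymm (a b : V) : D.c b a = - D.c a b := by
  unfold c
  have h1 : D.F b a a = D.F a a b := by simp only [D.s12, D.s23]
  have h2 : D.F b b a = D.F a b b := by
    rw [D.s23 b b a, D.s12 b a b]
  rw [h1, h2]; module

theorem FlatData.conj_rat {P : V} {μ : V →ₗ[ℝ] ℝ} (hP : D.FlatData P μ) {w y₁ y₂ : V} {ω : ℝ}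
    (hw : w ∈ D.Q) (hμ : μ w = 0) (hL : D.F P P w ≠ 0) (hω : ω ≠ 0)
    (hA : 3 * ω ^ 2 * D.F P P w + D.F w w w = 0) (hy₁ : y₁ ∈ D.Q) (hy₂ : y₂ ∈ D.Q)
    {A A' y y' x x' : V} (hAd : A = ω • P + w) (hAd' : A' = -ω • P + w) (hy : y = y₁ + ω • y₂)
    (hy' : y' = y₁ - ω • y₂) (hx : x = y - (D.F A A y / D.F A A P) • P)
    (hx' : x' = y' - (D.F A' A' y' / D.F A' A' P) • P) :
    D.c (D.tau A x) (D.tau A' x') ∈ D.K := by
  -- `ω²` is rational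
  obtain ⟨a, ha⟩ := D.ratQ P hP.memQ P hP.memQ w hw
  obtain ⟨b, hb⟩ := D.ratQ w hw w hw w hw
  have hd : ω ^ 2 = ((-b / (3 * a) : ℚ) : ℝ) := by
    rw [ha] at hL hA
    rw [hb] at hA
    push_cast
    rw [eq_div_iff (by positivity)]
    linarith
  have hz := hP.zero
  have hPw : D.F P w w = 0 := by rw [hP.flat w w, hμ]; ring
  have e1 : ∀ t : ℝ, D.F (t • P + w) (t • P + w) P = 2 * t * D.F P P w := by
    intro t
    have h2 : D.F (t • P + w) (t • P + w) P =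
        t ^ 2 * D.F P P P + 2 * t * D.F P P w + D.F P w w := by simp only [map_add, map_sub, map_neg, map_smul, map_zero, LinearMap.add_apply, LinearMap.sub_apply, LinearMap.neg_apply, LinearMap.smul_apply, LinearMap.zero_apply, smul_eq_mul, CubData.s12, CubData.s23]; ring
    rw [h2, hz, hPw]; ring
  have e2 : ∀ t : ℝ, t ^ 2 = ω ^ 2 → D.F (t • P + w) (t • P + w) (t • P + w) = 0 := by
    intro t ht
    have h2 : D.F (t • P + w) (t • P + w) (t • P + w) =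
        t ^ 3 * D.F P P P + 3 * t ^ 2 * D.F P P w + 3 * t * D.F P w w + D.F w w w := by
      simp only [map_add, map_sub, map_neg, map_smul, map_zero, LinearMap.add_apply, LinearMap.sub_apply, LinearMap.neg_apply, LinearMap.smul_apply, LinearMap.zero_apply, smul_eq_mul, CubData.s12, CubData.s23]; ring
    rw [h2, hz, hPw, ht]; linarith
  have hAX : D.F A A A = 0 := by rw [hAd]; exact e2 ω rfl
  have hAX' : D.F A' A' A' = 0 := by rw [hAd']; exact e2 (-ω) (by ring)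
  have hAP : D.F A A P ≠ 0 := by
    rw [hAd, e1]; exact mul_ne_zero (mul_ne_zero two_ne_zero hω) hL
  have hAP' : D.F A' A' P ≠ 0 := by
    rw [hAd', e1]; exact mul_ne_zero (mul_ne_zero two_ne_zero (neg_ne_zero.mpr hω)) hL
  have hAx : D.F A A x = 0 := by
    rw [hx, map_sub, map_smul, smul_eq_mul]; field_simp; ring
  have hAx' : D.F A' A' x' = 0 := by
    rw [hx', map_sub, map_smul, smul_eq_mul]; field_simp; ring
  -- conjugate points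
  have cA : D.ConjV ω A A' := ⟨w, hw, P, hP.memQ, by rw [hAd]; module, by rw [hAd']; module⟩
  have cy : D.ConjV ω y y' := ⟨y₁, hy₁, y₂, hy₂, hy, hy'⟩
  have cP : D.ConjV ω P P := ConjV.const hP.memQ
  have cx : D.ConjV ω x x' := by
    rw [hx, hx', div_eq_mul_inv, div_eq_mul_inv]
    exact cy.sub (cP.smul hd ((cA.F hd cA cy).mul hd ((cA.F hd cA cP).inv hd hAP hAP')))
  have cB : D.ConjV ω (D.tau A x) (D.tau A' x') := cA.tau hd cx
  obtain ⟨v₁, hv₁, v₂, hv₂, h1, h2⟩ := cB.c hd cB.symm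
  rw [conj_c_antisymm, h1] at h2
  have h3 : v₁ = 0 := by
    have : (2 : ℝ) • v₁ = 0 := by
      have h4 : -(v₁ + ω • v₂) + (v₁ + ω • v₂) = (v₁ - ω • v₂) + (v₁ + ω • v₂) := by rw [h2]
      rw [neg_add_cancel] at h4
      rw [h4]; module
    simpa using this
  rw [h3, zero_add] at h1
  have hX : D.c (D.tau A x) (D.tau A' x') ∈ D.X :=
    D.c_mem_X (D.tau_mem_X hAX hAx) (D.tau_mem_X hAX' hAx')
  rw [h1] at hX ⊢
  refine D.smul_mem_K (D.ratX_subset_K ⟨hv₂, ?_⟩) ω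
  have h5 : D.F (ω • v₂) (ω • v₂) (ω • v₂) = 0 := hX
  rw [F_smul] at h5
  exact (mul_eq_zero.mp h5).resolve_left (pow_ne_zero 3 hω)

end CubData

end Pool.Agent.Lib.MP42.CubicHyp
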