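import Pool.Agent.Lib.MP_42de19_nt.CubicHyp.RatSub
import Pool.Agent.Lib.MP_42de19_nt.CubicHyp.Conj

set_option autoImplicit false

/-! Conjugate points, real version (by density). -/

namespace Pool.Agent.Lib.MP42.CubicHyp

open Topology Filter Set

namespace CubData

variable {V : Type*} [NormedAddCommGroup V] [NormedSpace ℝ V] [FiniteDimensional ℝ V]
  {D : CubData V}

theorem FlatData.conj_real {P : V} {μ : V →ₗ[ℝ] ℝ} (hP : D.FlatData P μ) {w : V} {ω : ℝ}
    (hμ : μ w = 0) (hL : D.F P P w ≠ 0) (hω : ω ≠ 0)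
    (hA : 3 * ω ^ 2 * D.F P P w + D.F w w w = 0) {A A' x x' : V} (hAd : A = ω • P + w)
    (hAd' : A' = -ω • P + w) (hx : D.F A A x = 0) (hx' : D.F A' A' x' = 0) :
    D.c (D.tau A x) (D.tau A' x') ∈ D.K := by
  have hω0 : 0 < |ω| := abs_pos.2 hω
  set s : ℝ := ω / |ω| with hs
  have hs1 : s * |ω| = ω := by rw [hs]; field_simp
  have hs2 : s ^ 2 = 1 := by
    have h1 : (s * |ω|) ^ 2 = ω ^ 2 := by rw [hs1]
    rw [mul_pow, sq_abs] at h1
    have h2 : ω ^ 2 ≠ 0 := pow_ne_zero 2 hω
    exact mul_right_cancel₀ h2 (by rw [h1, one_mul])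
  -- the square of the irrational number
  set q : V → ℝ := fun w' => -D.F w' w' w' / (3 * D.F P P w') with hq
  have hqw : q w = ω ^ 2 := by
    simp only [hq]
    rw [div_eq_iff (mul_ne_zero (by norm_num) hL)]
    linarith
  have hqc : ContinuousAt q w := by
    have h1 : Continuous fun w' => -D.F w' w' w' :=
      (D.cont_F continuous_id continuous_id continuous_id).neg
    have h2 : Continuous fun w' => 3 * D.F P P w' :=
      continuous_const.mul (D.cont_F continuous_const continuous_const continuous_id)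
    exact h1.continuousAt.div h2.continuousAt (mul_ne_zero (by norm_num) hL)
  set om : V → ℝ := fun w' => s * √(q w') with hom
  have homw : om w = ω := by
    simp only [hom]
    rw [hqw, Real.sqrt_sq_eq_abs, hs1]
  have homc : ContinuousAt om w := continuousAt_const.mul hqc.sqrt
  -- the value of `F A A P`
  have hfl : ∀ w' : V, μ w' = 0 → D.F P w' w' = 0 := by
    intro w' h
    rw [hP.flat w' w', h]
    ring
  have hAP : ∀ (w' : V) (z : ℝ), μ w' = 0 →
      D.F (z • P + w') (z • P + w') P = 2 * z * D.F P P w' := by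
    intro w' z h
    have h1 := hfl w' h
    have h2 := hP.zero
    have h3 : D.F w' w' P = 0 := by rw [D.s23, D.s12]; exact h1
    have h4 : D.F P w' P = D.F P P w' := D.s23 _ _ _
    have h5 : D.F w' P P = D.F P P w' := by rw [D.s12, D.s23]
    simp only [map_add, map_smul, LinearMap.add_apply, LinearMap.smul_apply, smul_eq_mul]
    rw [h2, h3, h4, h5]
    ring
  have hAP1 : D.F A A P ≠ 0 := by
    rw [hAd, hAP w ω hμ]
    exact mul_ne_zero (mul_ne_zero two_ne_zero hω) hL
  have hAP2 : D.F A' A' P ≠ 0 := by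
    rw [hAd', hAP w (-ω) hμ]
    exact mul_ne_zero (mul_ne_zero two_ne_zero (neg_ne_zero.2 hω)) hL
  -- the map
  set A1 : V × V × V → V := fun p => om p.1 • P + p.1 with hA1
  set A2 : V × V × V → V := fun p => -om p.1 • P + p.1 with hA2
  set y1 : V × V × V → V := fun p => p.2.1 + om p.1 • p.2.2 with hy1
  set y2 : V × V × V → V := fun p => p.2.1 - om p.1 • p.2.2 with hy2
  set x1 : V × V × V → V := fun p =>
    y1 p - (D.F (A1 p) (A1 p) (y1 p) / D.F (A1 p) (A1 p) P) • P with hx1
  set x2 : V × V × V → V := fun p =>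
    y2 p - (D.F (A2 p) (A2 p) (y2 p) / D.F (A2 p) (A2 p) P) • P with hx2
  set p0 : V × V × V := (w, (1 / 2 : ℝ) • (x + x'), (1 / (2 * ω)) • (x - x')) with hp0
  have e1 : A1 p0 = A := by
    simp only [hA1, hp0, homw]
    rw [hAd]
  have e2 : A2 p0 = A' := by
    simp only [hA2, hp0, homw]
    rw [hAd']
  have e3 : y1 p0 = x := by
    simp only [hy1, hp0, homw]
    rw [smul_smul]
    have : ω * (1 / (2 * ω)) = 1 / 2 := by field_simp
    rw [this]
    module
  have e4 : y2 p0 = x' := by
    simp only [hy2, hp0, homw]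
    rw [smul_smul]
    have : ω * (1 / (2 * ω)) = 1 / 2 := by field_simp
    rw [this]
    module
  have e5 : x1 p0 = x := by
    simp only [hx1]
    rw [e1, e3, hx, zero_div, zero_smul, sub_zero]
  have e6 : x2 p0 = x' := by
    simp only [hx2]
    rw [e2, e4, hx', zero_div, zero_smul, sub_zero]
  -- continuity
  have c0 : ContinuousAt (fun p : V × V × V => om p.1) p0 :=
    ContinuousAt.comp (f := fun p : V × V × V => p.1) (g := om) homc continuousAt_fst
  have cf : ContinuousAt (fun p : V × V × V => p.1) p0 := continuousAt_fst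
  have cg : ContinuousAt (fun p : V × V × V => p.2.1) p0 :=
    (continuous_fst.comp continuous_snd).continuousAt
  have ch : ContinuousAt (fun p : V × V × V => p.2.2) p0 :=
    (continuous_snd.comp continuous_snd).continuousAt
  have c1 : ContinuousAt A1 p0 := (c0.smul continuousAt_const).add cf
  have c2 : ContinuousAt A2 p0 := (c0.neg.smul continuousAt_const).add cf
  have c3 : ContinuousAt y1 p0 := cg.add (c0.smul ch)
  have c4 : ContinuousAt y2 p0 := cg.sub (c0.smul ch)
  have c5 : ContinuousAt x1 p0 := by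
    refine c3.sub (ContinuousAt.smul (ContinuousAt.div (D.contAt_F c1 c1 c3)
      (D.contAt_F c1 c1 continuousAt_const) ?_) continuousAt_const)
    rw [e1]; exact hAP1
  have c6 : ContinuousAt x2 p0 := by
    refine c4.sub (ContinuousAt.smul (ContinuousAt.div (D.contAt_F c2 c2 c4)
      (D.contAt_F c2 c2 continuousAt_const) ?_) continuousAt_const)
    rw [e2]; exact hAP2
  have ct : ∀ {f g : V × V × V → V}, ContinuousAt f p0 → ContinuousAt g p0 →
      ContinuousAt (fun p => D.tau (f p) (g p)) p0 := fun hf hg =>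
    ((D.contAt_F hg hg hg).smul hf).sub
      ((continuousAt_const.mul (D.contAt_F hf hg hg)).smul hg)
  have cc : ∀ {f g : V × V × V → V}, ContinuousAt f p0 → ContinuousAt g p0 →
      ContinuousAt (fun p => D.c (f p) (g p)) p0 := fun hf hg =>
    ((D.contAt_F hf hg hg).smul hf).sub ((D.contAt_F hf hf hg).smul hg)
  have cΦ : ContinuousAt (fun p => D.c (D.tau (A1 p) (x1 p)) (D.tau (A2 p) (x2 p))) p0 :=
    cc (ct c1 c5) (ct c2 c6)
  -- density
  set S1 : Set V := {w' | (w' ∈ D.Q ∧ μ w' = 0) ∧ D.F P P w' ≠ 0 ∧ 0 < q w'} with hS1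
  have hd1 : w ∈ closure S1 := by
    have h1 := mem_closure_iff_frequently.1 (D.dense_ker hP.rat hμ)
    have h2 : ∀ᶠ w' in 𝓝 w, D.F P P w' ≠ 0 :=
      (D.cont_F continuous_const continuous_const continuous_id).continuousAt.eventually_ne hL
    have h3 : ∀ᶠ w' in 𝓝 w, 0 < q w' := by
      refine hqc.eventually (lt_mem_nhds ?_)
      rw [hqw]; positivity
    exact mem_closure_iff_frequently.2 (h1.and_eventually (h2.and h3))
  have hd : p0 ∈ closure (S1 ×ˢ ((D.Q : Set V) ×ˢ (D.Q : Set V))) := by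
    rw [closure_prod_eq, closure_prod_eq]
    exact ⟨hd1, D.denseQ _, D.denseQ _⟩
  have hmaps : MapsTo (fun p => D.c (D.tau (A1 p) (x1 p)) (D.tau (A2 p) (x2 p)))
      (S1 ×ˢ ((D.Q : Set V) ×ˢ (D.Q : Set V))) D.K := by
    rintro ⟨w', z1, z2⟩ ⟨⟨⟨hw1, hw2⟩, hw3, hw4⟩, hz1, hz2⟩
    refine hP.conj_rat (w := w') (ω := om w') hw1 hw2 hw3 ?_ ?_ hz1 hz2 rfl rfl rfl rfl rfl rfl
    · simp only [hom]
      refine mul_ne_zero ?_ (Real.sqrt_ne_zero'.2 hw4)
      intro h0
      rw [h0] at hs2
      norm_num at hs2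
    · simp only [hom]
      rw [mul_pow, hs2, Real.sq_sqrt hw4.le, one_mul]
      simp only [hq]
      field_simp
      ring
  have hfin := cΦ.continuousWithinAt.mem_closure hd hmaps
  rw [D.isClosed_K.closure_eq] at hfin
  rw [e1, e2, e5, e6] at hfin
  exact hfin

end CubData

end Pool.Agent.Lib.MP42.CubicHyp
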