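import Pool.Agent.Lib.MP_42de19_nt.CubicHyp.Basic
import Pool.Agent.Lib.MP_42de19_nt.Semialg
import Pool.Agent.Lib.MP_42de19_nt.Defs

set_option autoImplicit false

/-! Coordinates: rational symmetric tensors and the associated `CubData`; rational polynomial
functions. -/

namespace Pool.Agent.Lib.MP42.CubicHyp

open Topology Filter Set

/-- the vector of `ℝ^N` with given rational coordinates -/
def castV {N : ℕ} (q : Fin N → ℚ) : Fin N → ℝ := fun i => (q i : ℝ)

/-- rational vectors of `ℝ^N` -/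
def ratV (N : ℕ) : AddSubgroup (Fin N → ℝ) where
  carrier := Set.range castV
  zero_mem' := ⟨0, by funext i; simp [castV]⟩
  add_mem' := by
    rintro _ _ ⟨a, rfl⟩ ⟨b, rfl⟩
    exact ⟨a + b, by funext i; simp [castV]⟩
  neg_mem' := by
    rintro _ ⟨a, rfl⟩
    exact ⟨-a, by funext i; simp [castV]⟩

theorem mem_ratV {N : ℕ} {v : Fin N → ℝ} : v ∈ ratV N ↔ ∃ q : Fin N → ℚ, castV q = v := Iff.rfl

theorem dense_ratV (N : ℕ) : Dense (ratV N : Set (Fin N → ℝ)) := by
  have h : DenseRange (fun q : Fin N → ℚ => fun i => (q i : ℝ)) :=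
    DenseRange.piMap (f := fun (_ : Fin N) (q : ℚ) => (q : ℝ)) (fun _ => Rat.denseRange_cast)
  exact h

/-- symmetric tensors -/
structure SymT (N : ℕ) where
  T : Fin N → Fin N → Fin N → ℚ
  s12 : ∀ i j k, T i j k = T j i k
  s23 : ∀ i j k, T i j k = T i k j

/-- the trilinear form of a tensor -/
noncomputable def triForm {N : ℕ} (T : Fin N → Fin N → Fin N → ℚ) :
    (Fin N → ℝ) →ₗ[ℝ] (Fin N → ℝ) →ₗ[ℝ] (Fin N → ℝ) →ₗ[ℝ] ℝ :=
  ∑ i, ∑ j, ∑ k, (T i j k : ℝ) •
    (LinearMap.proj (R := ℝ) (φ := fun _ : Fin N => ℝ) i).smulRight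
      ((LinearMap.proj (R := ℝ) (φ := fun _ : Fin N => ℝ) j).smulRight
        (LinearMap.proj (R := ℝ) (φ := fun _ : Fin N => ℝ) k))

theorem triForm_apply {N : ℕ} (T : Fin N → Fin N → Fin N → ℚ) (a b c : Fin N → ℝ) :
    triForm T a b c = ∑ i, ∑ j, ∑ k, (T i j k : ℝ) * (a i * b j * c k) := by
  simp only [triForm, LinearMap.sum_apply, LinearMap.smul_apply,
    LinearMap.smulRight_apply, LinearMap.proj_apply, smul_eq_mul]
  refine Finset.sum_congr rfl fun i _ => Finset.sum_congr rfl fun j _ =>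
    Finset.sum_congr rfl fun k _ => ?_
  ring

/-- the `CubData` of a symmetric tensor -/
noncomputable def cub {N : ℕ} (T : SymT N) : CubData (Fin N → ℝ) where
  F := triForm T.T
  s12 := by
    intro a b c
    rw [triForm_apply, triForm_apply, Finset.sum_comm]
    refine Finset.sum_congr rfl fun i _ => Finset.sum_congr rfl fun j _ =>
      Finset.sum_congr rfl fun k _ => ?_
    rw [T.s12 j i k]; ring
  s23 := by
    intro a b c
    rw [triForm_apply, triForm_apply]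
    refine Finset.sum_congr rfl fun i _ => ?_
    rw [Finset.sum_comm]
    refine Finset.sum_congr rfl fun j _ => Finset.sum_congr rfl fun k _ => ?_
    rw [T.s23 i k j]; ring
  Q := ratV N
  smulQ := by
    rintro r _ ⟨q, rfl⟩
    exact ⟨r • q, by funext i; simp [castV]⟩
  denseQ := dense_ratV N
  ratQ := by
    rintro _ ⟨a, rfl⟩ _ ⟨b, rfl⟩ _ ⟨c, rfl⟩
    refine ⟨∑ i, ∑ j, ∑ k, T.T i j k * (a i * b j * c k), ?_⟩
    rw [triForm_apply]
    push_cast
    rfl

theorem cub_F {N : ℕ} (T : SymT N) (a b c : Fin N → ℝ) :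
    (cub T).F a b c = ∑ i, ∑ j, ∑ k, (T.T i j k : ℝ) * (a i * b j * c k) :=
  triForm_apply _ _ _ _

/-! ### Rational polynomial functions -/

/-- functions given by polynomials with rational coefficients -/
def IsPoly {N : ℕ} (g : (Fin N → ℝ) → ℝ) : Prop :=
  ∃ p : MvPolynomial (Fin N) ℚ, ∀ x, evR N p x = g x

namespace IsPoly

variable {N : ℕ}

theorem const (r : ℚ) : IsPoly (fun _ : Fin N → ℝ => (r : ℝ)) :=
  ⟨MvPolynomial.C r, fun x => by rw [evR_apply, MvPolynomial.aeval_C]; rfl⟩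

theorem coord (i : Fin N) : IsPoly (fun x : Fin N → ℝ => x i) :=
  ⟨MvPolynomial.X i, fun x => by rw [evR_apply, MvPolynomial.aeval_X]⟩

theorem add {g h : (Fin N → ℝ) → ℝ} (hg : IsPoly g) (hh : IsPoly h) :
    IsPoly (fun x => g x + h x) := by
  obtain ⟨p, hp⟩ := hg
  obtain ⟨q, hq⟩ := hh
  exact ⟨p + q, fun x => by rw [map_add, Pi.add_apply, hp, hq]⟩

theorem mul {g h : (Fin N → ℝ) → ℝ} (hg : IsPoly g) (hh : IsPoly h) :
    IsPoly (fun x => g x * h x) := by
  obtain ⟨p, hp⟩ := hg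
  obtain ⟨q, hq⟩ := hh
  exact ⟨p * q, fun x => by rw [map_mul, Pi.mul_apply, hp, hq]⟩

theorem neg {g : (Fin N → ℝ) → ℝ} (hg : IsPoly g) : IsPoly (fun x => - g x) := by
  obtain ⟨p, hp⟩ := hg
  exact ⟨-p, fun x => by rw [map_neg, Pi.neg_apply, hp]⟩

theorem sub {g h : (Fin N → ℝ) → ℝ} (hg : IsPoly g) (hh : IsPoly h) :
    IsPoly (fun x => g x - h x) := by
  obtain ⟨p, hp⟩ := hg
  obtain ⟨q, hq⟩ := hh
  exact ⟨p - q, fun x => by rw [map_sub, Pi.sub_apply, hp, hq]⟩

theorem pow {g : (Fin N → ℝ) → ℝ} (hg : IsPoly g) (n : ℕ) : IsPoly (fun x => g x ^ n) := by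
  obtain ⟨p, hp⟩ := hg
  exact ⟨p ^ n, fun x => by rw [map_pow, Pi.pow_apply, hp]⟩

theorem sum {ι : Type*} (s : Finset ι) {g : ι → (Fin N → ℝ) → ℝ} (hg : ∀ i ∈ s, IsPoly (g i)) :
    IsPoly (fun x => ∑ i ∈ s, g i x) := by
  classical
  induction s using Finset.induction_on with
  | empty => simpa using const (N := N) 0
  | insert a s ha ih =>
    have := (hg a (by simp)).add (ih fun i hi => hg i (by simp [hi]))
    simpa only [Finset.sum_insert ha] using this

theorem congr {g h : (Fin N → ℝ) → ℝ} (hg : IsPoly g) (hh : ∀ x, g x = h x) : IsPoly h := by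
  obtain ⟨p, hp⟩ := hg
  exact ⟨p, fun x => by rw [hp, hh]⟩

theorem continuous {g : (Fin N → ℝ) → ℝ} (hg : IsPoly g) : Continuous g := by
  obtain ⟨p, hp⟩ := hg
  have : g = evR N p := by funext x; exact (hp x).symm
  rw [this]; exact continuous_evR p

theorem sa_eq_zero {g : (Fin N → ℝ) → ℝ} (hg : IsPoly g) : SA (evR N) {x | g x = 0} := by
  obtain ⟨p, hp⟩ := hg
  have : {x | g x = 0} = {x | evR N p x = 0} := by ext x; simp only [mem_ofPred_eq, hp]
  rw [this]; exact SA.eq_zero p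

theorem sa_ne_zero {g : (Fin N → ℝ) → ℝ} (hg : IsPoly g) : SA (evR N) {x | g x ≠ 0} :=
  hg.sa_eq_zero.compl

theorem sa_pos {g : (Fin N → ℝ) → ℝ} (hg : IsPoly g) : SA (evR N) {x | 0 < g x} := by
  obtain ⟨p, hp⟩ := hg
  have : {x | 0 < g x} = {x | 0 < evR N p x} := by ext x; simp only [mem_ofPred_eq, hp]
  rw [this]; exact SA.pos p

/-- substitution -/
theorem comp {M : ℕ} {g : (Fin M → ℝ) → ℝ} (hg : IsPoly g) {φ : (Fin N → ℝ) → (Fin M → ℝ)}
    (hφ : ∀ i, IsPoly (fun x => φ x i)) : IsPoly (fun x => g (φ x)) := by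
  obtain ⟨p, hp⟩ := hg
  choose ψ hψ using hφ
  refine ⟨MvPolynomial.bind₁ ψ p, fun x => ?_⟩
  show _ = g (φ x)
  rw [← hp, evR_apply, evR_apply, MvPolynomial.aeval_bind₁]
  congr 2
  funext i
  rw [← evR_apply, hψ]

end IsPoly

/-- Pull back of an `SA` set along a polynomial map. -/
theorem SA.comap_poly {N M : ℕ} {S : Set (Fin M → ℝ)} (hS : SA (evR M) S)
    {φ : (Fin N → ℝ) → (Fin M → ℝ)} (hφ : ∀ i, IsPoly (fun x => φ x i)) :
    SA (evR N) (φ ⁻¹' S) := by
  choose ψ hψ using hφ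
  refine hS.comap (ψ := fun a => MvPolynomial.bind₁ ψ a) φ ?_
  intro p x
  rw [evR_apply, evR_apply, MvPolynomial.aeval_bind₁]
  congr 2
  funext i
  rw [← evR_apply, hψ]

/-- values of the trilinear form along polynomial maps -/
theorem isPoly_F {N M : ℕ} (T : SymT N) {a b c : (Fin M → ℝ) → (Fin N → ℝ)}
    (ha : ∀ i, IsPoly (fun x => a x i)) (hb : ∀ i, IsPoly (fun x => b x i))
    (hc : ∀ i, IsPoly (fun x => c x i)) : IsPoly (fun x => (cub T).F (a x) (b x) (c x)) := by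
  refine IsPoly.congr (IsPoly.sum Finset.univ fun i _ => IsPoly.sum Finset.univ fun j _ =>
    IsPoly.sum Finset.univ fun k _ => (IsPoly.const (T.T i j k)).mul
      (((ha i).mul (hb j)).mul (hc k))) ?_
  intro x
  rw [cub_F]

theorem isPoly_castV {N M : ℕ} (q : Fin N → ℚ) (i : Fin N) :
    IsPoly (fun _ : Fin M → ℝ => castV q i) := IsPoly.const (q i)

theorem isPoly_of_mem_ratV {N M : ℕ} {v : Fin N → ℝ} (hv : v ∈ ratV N) (i : Fin N) :
    IsPoly (fun _ : Fin M → ℝ => v i) := by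
  obtain ⟨q, rfl⟩ := hv
  exact IsPoly.const (q i)

/-- rational functionals are rational polynomials -/
theorem isPoly_of_ratFun {N : ℕ} (l : (Fin N → ℝ) →ₗ[ℝ] ℝ)
    (hl : ∀ v ∈ ratV N, ∃ r : ℚ, l v = r) : IsPoly (fun x => l x) := by
  classical
  have h1 : ∀ i : Fin N, ∃ r : ℚ, l (Pi.single i 1) = r := by
    intro i
    refine hl _ ⟨Pi.single i 1, ?_⟩
    funext j
    by_cases h : j = i
    · subst h; simp [castV]
    · simp [castV, h]
  choose r hr using h1
  refine IsPoly.congr (IsPoly.sum Finset.univ fun i _ => (IsPoly.const (r i)).mul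
    (IsPoly.coord i)) ?_
  intro x
  have hx : x = ∑ i, x i • (Pi.single i (1 : ℝ) : Fin N → ℝ) := by
    funext j
    simp [Finset.sum_apply, Pi.single_apply]
  conv_rhs => rw [hx]
  rw [map_sum]
  refine Finset.sum_congr rfl fun i _ => ?_
  rw [map_smul, smul_eq_mul, hr]
  ring

/-- rational bilinear forms are rational polynomials -/
theorem isPoly_of_ratBil {N M : ℕ} (q : (Fin N → ℝ) →ₗ[ℝ] (Fin N → ℝ) →ₗ[ℝ] ℝ)
    (hq : ∀ u ∈ ratV N, ∀ v ∈ ratV N, ∃ r : ℚ, q u v = r) {a b : (Fin M → ℝ) → (Fin N → ℝ)}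
    (ha : ∀ i, IsPoly (fun x => a x i)) (hb : ∀ i, IsPoly (fun x => b x i)) :
    IsPoly (fun x => q (a x) (b x)) := by
  classical
  have h0 : ∀ i : Fin N, (Pi.single i 1 : Fin N → ℝ) ∈ ratV N := by
    intro i
    refine ⟨Pi.single i 1, ?_⟩
    funext j
    by_cases h : j = i
    · subst h; simp [castV]
    · simp [castV, h]
  have h1 : ∀ i j : Fin N, ∃ r : ℚ, q (Pi.single i 1) (Pi.single j 1) = r :=
    fun i j => hq _ (h0 i) _ (h0 j)
  choose r hr using h1
  refine IsPoly.congr (IsPoly.sum Finset.univ fun i _ => IsPoly.sum Finset.univ fun j _ =>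
    (IsPoly.const (r i j)).mul ((ha i).mul (hb j))) ?_
  intro x
  have hx : ∀ y : Fin N → ℝ, y = ∑ i, y i • (Pi.single i (1 : ℝ) : Fin N → ℝ) := by
    intro y
    funext j
    simp [Finset.sum_apply, Pi.single_apply]
  conv_rhs => rw [hx (a x), hx (b x)]
  simp only [map_sum, LinearMap.sum_apply, map_smul, LinearMap.smul_apply, smul_eq_mul,
    Finset.mul_sum]
  rw [Finset.sum_comm]
  refine Finset.sum_congr rfl fun i _ => Finset.sum_congr rfl fun j _ => ?_
  rw [hr]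
  ring

end Pool.Agent.Lib.MP42.CubicHyp
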