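import Pool.Agent.Lib.MP_42de19_nt.CubicHyp.Coord

set_option autoImplicit false

/-! Pull back of semialgebraic sets along rational maps with a common denominator. -/

namespace Pool.Agent.Lib.MP42.CubicHyp

open Topology Filter Set

/-- clearing denominators in `p (φ / g)` -/
private theorem clear_denom {N M : ℕ} {g : (Fin N → ℝ) → ℝ} (hg : IsPoly g)
    {φ : (Fin N → ℝ) → (Fin M → ℝ)} (hφ : ∀ i, IsPoly (fun x => φ x i))
    (p : MvPolynomial (Fin M) ℚ) :
    ∃ (d : ℕ) (h : (Fin N → ℝ) → ℝ), IsPoly h ∧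
      ∀ x, g x ≠ 0 → h x = g x ^ d * evR M p (fun i => φ x i / g x) := by
  induction p using MvPolynomial.induction_on with
  | C a =>
    refine ⟨0, fun _ => (a : ℝ), IsPoly.const a, fun x _ => ?_⟩
    rw [evR_apply, MvPolynomial.aeval_C, pow_zero, one_mul]
    rfl
  | add p q hp hq =>
    obtain ⟨d1, h1, i1, e1⟩ := hp
    obtain ⟨d2, h2, i2, e2⟩ := hq
    refine ⟨d1 + d2, fun x => g x ^ d2 * h1 x + g x ^ d1 * h2 x,
      ((hg.pow d2).mul i1).add ((hg.pow d1).mul i2), fun x hx => ?_⟩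
    show g x ^ d2 * h1 x + g x ^ d1 * h2 x = _
    rw [map_add, Pi.add_apply, e1 x hx, e2 x hx, pow_add]
    ring
  | mul_X p i hp =>
    obtain ⟨d, h, i1, e1⟩ := hp
    refine ⟨d + 1, fun x => h x * φ x i, i1.mul (hφ i), fun x hx => ?_⟩
    have e2 : evR M (MvPolynomial.X i) (fun i => φ x i / g x) = φ x i / g x := by
      rw [evR_apply, MvPolynomial.aeval_X]
    show h x * φ x i = _
    rw [map_mul, Pi.mul_apply, e2, e1 x hx, pow_succ]
    field_simp

theorem SA.comap_div {N M : ℕ} {S : Set (Fin M → ℝ)} (hS : SA (evR M) S)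
    {g : (Fin N → ℝ) → ℝ} (hg : IsPoly g) {φ : (Fin N → ℝ) → (Fin M → ℝ)}
    (hφ : ∀ i, IsPoly (fun x => φ x i)) :
    SA (evR N) {x | g x ≠ 0 ∧ (fun i => φ x i / g x) ∈ S} := by
  induction hS with
  | pos a =>
    obtain ⟨d, h, hh, e⟩ := clear_denom hg hφ a
    have h1 := hg.sa_ne_zero.inter ((hg.pow d).mul hh).sa_pos
    have h2 : {x | g x ≠ 0 ∧ (fun i => φ x i / g x) ∈ {y | 0 < evR M a y}} =
        {x | g x ≠ 0} ∩ {x | 0 < g x ^ d * h x} := by
      ext x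
      constructor
      · rintro ⟨hx, hx'⟩
        refine ⟨hx, ?_⟩
        have h3 : 0 < evR M a (fun i => φ x i / g x) := hx'
        show 0 < g x ^ d * h x
        rw [e x hx, ← mul_assoc]
        have h4 : 0 < g x ^ d * g x ^ d := mul_self_pos.mpr (pow_ne_zero _ hx)
        exact mul_pos h4 h3
      · rintro ⟨hx, hx'⟩
        refine ⟨hx, ?_⟩
        have h3 : 0 < g x ^ d * h x := hx'
        rw [e x hx, ← mul_assoc] at h3
        have h4 : 0 < g x ^ d * g x ^ d := mul_self_pos.mpr (pow_ne_zero _ hx)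
        exact (mul_pos_iff_of_pos_left h4).mp h3
    rw [h2]
    exact h1
  | compl _ ih =>
    rename_i S _
    have h2 : {x | g x ≠ 0 ∧ (fun i => φ x i / g x) ∈ Sᶜ} =
        {x | g x ≠ 0} \ {x | g x ≠ 0 ∧ (fun i => φ x i / g x) ∈ S} := by
      ext x
      constructor
      · rintro ⟨hx, hx'⟩
        exact ⟨hx, fun h => hx' h.2⟩
      · rintro ⟨hx, hx'⟩
        exact ⟨hx, fun h => hx' ⟨hx, h⟩⟩
    rw [h2]
    exact hg.sa_ne_zero.diff ih
  | inter _ _ ih1 ih2 =>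
    rename_i S T _ _
    have h2 : {x | g x ≠ 0 ∧ (fun i => φ x i / g x) ∈ S ∩ T} =
        {x | g x ≠ 0 ∧ (fun i => φ x i / g x) ∈ S} ∩
        {x | g x ≠ 0 ∧ (fun i => φ x i / g x) ∈ T} := by
      ext x
      constructor
      · rintro ⟨hx, h1, h2⟩
        exact ⟨⟨hx, h1⟩, ⟨hx, h2⟩⟩
      · rintro ⟨⟨hx, h1⟩, ⟨-, h2⟩⟩
        exact ⟨hx, h1, h2⟩
    rw [h2]
    exact ih1.inter ih2

end Pool.Agent.Lib.MP42.CubicHyp
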