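import Pool.Agent.Lib.MP_42de19_nt.CubicHyp.Basic

set_option autoImplicit false

/-! Cubic hypersurfaces (MP_42de19_nt), piece A3: rational functionals and subspaces with dense
rational vectors. -/

namespace Pool.Agent.Lib.MP42.CubicHyp

open Topology Filter

namespace CubData

variable {V : Type*} [NormedAddCommGroup V] [NormedSpace ℝ V] [FiniteDimensional ℝ V] (D : CubData V)

theorem exists_mem_Q_ne {l : V →ₗ[ℝ] ℝ} (hl : l ≠ 0) : ∃ e ∈ D.Q, l e ≠ 0 := by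
  by_contra h
  push Not at h
  apply hl
  have h1 : (l : V → ℝ) = fun _ => 0 :=
    Continuous.ext_on D.denseQ (continuous_lin l) continuous_const fun v hv => h v hv
  ext v
  rw [h1]
  rfl

omit [FiniteDimensional ℝ V] in
theorem ratFun_F {a b : V} (ha : a ∈ D.Q) (hb : b ∈ D.Q) : D.RatFun (D.F a b) :=
  fun v hv => D.ratQ a ha b hb v hv

omit [FiniteDimensional ℝ V] in
theorem ratSub_top : D.RatSub ⊤ := by
  intro v _
  have h1 : {u : V | u ∈ D.Q ∧ u ∈ (⊤ : Submodule ℝ V)} = (D.Q : Set V) := by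
    ext u
    simp
  rw [h1]
  exact D.denseQ v

variable {D} in
theorem RatSub.inf_ker {M : Submodule ℝ V} (hM : D.RatSub M) {l : V →ₗ[ℝ] ℝ} (hl : D.RatFun l) :
    D.RatSub (M ⊓ LinearMap.ker l) := by
  intro v hv
  have hvM : v ∈ M := hv.1
  have hvl : l v = 0 := hv.2
  by_cases h : ∃ e, e ∈ D.Q ∧ e ∈ M ∧ l e ≠ 0
  · obtain ⟨e, heQ, heM, hle⟩ := h
    have hc : Continuous fun u : V => u - (l u / l e) • e :=
      continuous_id.sub (((continuous_lin l).div_const _).smul continuous_const)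
    have h1 := map_mem_closure hc (hM v hvM)
      (t := {u : V | u ∈ D.Q ∧ u ∈ M ⊓ LinearMap.ker l}) (by
        rintro u ⟨huQ, huM⟩
        refine ⟨D.sub_mem_Q huQ (D.smul_mem_Q heQ ?_), M.sub_mem huM (M.smul_mem _ heM), ?_⟩
        · obtain ⟨r, hr⟩ := hl u huQ
          obtain ⟨s, hs⟩ := hl e heQ
          exact ⟨r / s, by rw [hr, hs]; push_cast; rfl⟩
        · show l (u - (l u / l e) • e) = 0
          rw [map_sub, map_smul, smul_eq_mul, div_mul_cancel₀ _ hle, sub_self])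
    beta_reduce at h1
    rwa [hvl, zero_div, zero_smul, sub_zero] at h1
  · push Not at h
    refine closure_mono ?_ (hM v hvM)
    rintro u ⟨huQ, huM⟩
    exact ⟨huQ, huM, h u huQ huM⟩

variable {D} in
theorem RatSub.inf_iInf_ker {M : Submodule ℝ V} (hM : D.RatSub M) {ι : Type*} (s : Finset ι)
    (l : ι → V →ₗ[ℝ] ℝ) (hl : ∀ i ∈ s, D.RatFun (l i)) :
    D.RatSub (M ⊓ ⨅ i ∈ s, LinearMap.ker (l i)) := by
  classical
  induction s using Finset.induction_on with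
  | empty =>
    simpa using hM
  | insert a s ha ih =>
    have h1 := (ih fun i hi => hl i (Finset.mem_insert_of_mem hi)).inf_ker
      (hl a (Finset.mem_insert_self a s))
    rw [Finset.iInf_insert, inf_comm (LinearMap.ker (l a)), ← inf_assoc]
    exact h1

/-- rational vectors are dense in the kernel of a rational functional -/
theorem dense_ker {l : V →ₗ[ℝ] ℝ} (hl : D.RatFun l) {v : V} (hv : l v = 0) :
    v ∈ closure {u : V | u ∈ D.Q ∧ l u = 0} := by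
  refine closure_mono ?_ (D.ratSub_top.inf_ker hl v ⟨trivial, hv⟩)
  rintro u ⟨huQ, -, hu⟩
  exact ⟨huQ, hu⟩

theorem dense_ker2 {l₁ l₂ : V →ₗ[ℝ] ℝ} (h₁ : D.RatFun l₁) (h₂ : D.RatFun l₂) {v : V}
    (hv₁ : l₁ v = 0) (hv₂ : l₂ v = 0) :
    v ∈ closure {u : V | u ∈ D.Q ∧ l₁ u = 0 ∧ l₂ u = 0} := by
  refine closure_mono ?_ ((D.ratSub_top.inf_ker h₁).inf_ker h₂ v ⟨⟨trivial, hv₁⟩, hv₂⟩)
  rintro u ⟨huQ, ⟨-, hu1⟩, hu2⟩
  exact ⟨huQ, hu1, hu2⟩

variable {D} in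
omit [FiniteDimensional ℝ V] in
/-- a real subspace with dense rational vectors that lies in `X` lies in `K` -/
theorem RatSub.subset_K {M : Submodule ℝ V} (hM : D.RatSub M) (h : ∀ v ∈ M, D.F v v v = 0) :
    (M : Set V) ⊆ D.K := by
  intro v hv
  refine closure_mono ?_ (hM v hv)
  rintro u ⟨huQ, huM⟩
  exact ⟨huQ, h u huM⟩

theorem exists_three (hdim : 4 ≤ Module.finrank ℝ V)
    (l₁ l₂ l₃ : V →ₗ[ℝ] ℝ) : ∃ v : V, v ≠ 0 ∧ l₁ v = 0 ∧ l₂ v = 0 ∧ l₃ v = 0 := by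
  have h1 : LinearMap.ker (LinearMap.pi ![l₁, l₂, l₃]) ≠ ⊥ := by
    apply LinearMap.ker_ne_bot_of_finrank_lt
    rw [Module.finrank_fin_fun]
    omega
  obtain ⟨v, hv, hv0⟩ := Submodule.exists_mem_ne_zero_of_ne_bot h1
  rw [LinearMap.mem_ker] at hv
  exact ⟨v, hv0, congrFun hv 0, congrFun hv 1, congrFun hv 2⟩

theorem exists_three_Q (hdim : 4 ≤ Module.finrank ℝ V)
    {l₁ l₂ l₃ : V →ₗ[ℝ] ℝ} (h₁ : D.RatFun l₁) (h₂ : D.RatFun l₂) (h₃ : D.RatFun l₃) :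
    ∃ v ∈ D.Q, v ≠ 0 ∧ l₁ v = 0 ∧ l₂ v = 0 ∧ l₃ v = 0 := by
  obtain ⟨v, hv0, hv1, hv2, hv3⟩ := exists_three hdim l₁ l₂ l₃
  have h4 := ((D.ratSub_top.inf_ker h₁).inf_ker h₂).inf_ker h₃ v ⟨⟨⟨trivial, hv1⟩, hv2⟩, hv3⟩
  obtain ⟨u, hu0, huQ, ⟨⟨-, hu1⟩, hu2⟩, hu3⟩ :=
    mem_closure_iff.1 h4 {u | u ≠ 0} isOpen_ne hv0
  exact ⟨u, huQ, hu0, hu1, hu2, hu3⟩

end CubData

end Pool.Agent.Lib.MP42.CubicHyp
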