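import Pool.Agent.Lib.MP_42de19_nt.CubicHyp.Coord
import Pool.Agent.Lib.MP_42de19_nt.CubicHyp.RatSub
import Pool.Agent.Lib.MP_42de19_nt.CubicHyp.Div
import Pool.Agent.Lib.MP_42de19_nt.Old.ProductCover

set_option autoImplicit false

/-! Plane cubic curves with a smooth rational point (piece S5). -/

namespace Pool.Agent.Lib.MP42.CubicHyp

open Topology Filter Set

namespace Curve

/-- the functional `v ↦ det (a, b, v)` -/
noncomputable def detL (a b : Fin 3 → ℝ) : (Fin 3 → ℝ) →ₗ[ℝ] ℝ :=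
  (a 1 * b 2 - a 2 * b 1) • (LinearMap.proj (R := ℝ) (φ := fun _ : Fin 3 => ℝ) 0) +
  (a 2 * b 0 - a 0 * b 2) • (LinearMap.proj (R := ℝ) (φ := fun _ : Fin 3 => ℝ) 1) +
  (a 0 * b 1 - a 1 * b 0) • (LinearMap.proj (R := ℝ) (φ := fun _ : Fin 3 => ℝ) 2)

theorem detL_apply (a b v : Fin 3 → ℝ) : detL a b v =
    (a 1 * b 2 - a 2 * b 1) * v 0 + (a 2 * b 0 - a 0 * b 2) * v 1 +
      (a 0 * b 1 - a 1 * b 0) * v 2 := by
  simp only [detL, LinearMap.add_apply, LinearMap.smul_apply, LinearMap.proj_apply, smul_eq_mul]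

theorem detL_rat {a b : Fin 3 → ℝ} (ha : a ∈ ratV 3) (hb : b ∈ ratV 3) :
    ∀ v ∈ ratV 3, ∃ r : ℚ, detL a b v = r := by
  rintro v hv
  obtain ⟨qa, rfl⟩ := ha
  obtain ⟨qb, rfl⟩ := hb
  obtain ⟨qv, rfl⟩ := hv
  refine ⟨(qa 1 * qb 2 - qa 2 * qb 1) * qv 0 + (qa 2 * qb 0 - qa 0 * qb 2) * qv 1 +
      (qa 0 * qb 1 - qa 1 * qb 0) * qv 2, ?_⟩
  rw [detL_apply]
  simp only [castV]
  push_cast
  ring

theorem cramer (a b c v : Fin 3 → ℝ) :
    detL a b c • v = detL b c v • a + detL c a v • b + detL a b v • c := by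
  funext i
  simp only [Pi.add_apply, Pi.smul_apply, smul_eq_mul, detL_apply]
  fin_cases i <;> simp only [Fin.zero_eta, Fin.mk_one, Fin.reduceFinMk] <;> ring

/-- rational coordinates -/
theorem exists_coords (T : SymT 3) {P e : Fin 3 → ℝ} (hP : P ∈ ratV 3) (he : e ∈ ratV 3)
    (l : (Fin 3 → ℝ) →ₗ[ℝ] ℝ) (hl : ∀ v ∈ ratV 3, ∃ r : ℚ, l v = r) (lP : l P = 0) (le : l e = 1)
    (hP0 : P ≠ 0) :
    ∃ u ∈ ratV 3, l u = 0 ∧ ∃ x y : (Fin 3 → ℝ) →ₗ[ℝ] ℝ, (∀ v ∈ ratV 3, ∃ r : ℚ, x v = r) ∧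
      (∀ v ∈ ratV 3, ∃ r : ℚ, y v = r) ∧ ∀ v, v = x v • P + l v • e + y v • u := by
  set w : Fin 3 → ℝ := ![P 1 * e 2 - P 2 * e 1, P 2 * e 0 - P 0 * e 2, P 0 * e 1 - P 1 * e 0]
    with hw
  have w0 : w 0 = P 1 * e 2 - P 2 * e 1 := rfl
  have w1 : w 1 = P 2 * e 0 - P 0 * e 2 := rfl
  have w2 : w 2 = P 0 * e 1 - P 1 * e 0 := rfl
  have hwQ : w ∈ ratV 3 := by
    obtain ⟨qa, rfl⟩ := hP
    obtain ⟨qb, rfl⟩ := he
    refine ⟨![qa 1 * qb 2 - qa 2 * qb 1, qa 2 * qb 0 - qa 0 * qb 2, qa 0 * qb 1 - qa 1 * qb 0], ?_⟩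
    funext i
    rw [hw]
    fin_cases i <;> simp [castV]
  set u : Fin 3 → ℝ := w - l w • e with hu
  have huQ : u ∈ ratV 3 := (cub T).sub_mem_Q hwQ ((cub T).smul_mem_Q he (hl w hwQ))
  have hlu : l u = 0 := by rw [hu, map_sub, map_smul, le, smul_eq_mul, mul_one, sub_self]
  have hd : detL P e u = w 0 ^ 2 + w 1 ^ 2 + w 2 ^ 2 := by
    rw [hu, map_sub, map_smul, detL_apply, detL_apply, w0, w1, w2, smul_eq_mul]
    ring
  have hd0 : detL P e u ≠ 0 := by
    intro h0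
    rw [hd] at h0
    have z0 : w 0 = 0 := by nlinarith [sq_nonneg (w 0), sq_nonneg (w 1), sq_nonneg (w 2)]
    have z1 : w 1 = 0 := by nlinarith [sq_nonneg (w 0), sq_nonneg (w 1), sq_nonneg (w 2)]
    have z2 : w 2 = 0 := by nlinarith [sq_nonneg (w 0), sq_nonneg (w 1), sq_nonneg (w 2)]
    rw [w0] at z0
    rw [w1] at z1
    rw [w2] at z2
    have hv : ∀ j : Fin 3, e j • P = P j • e := by
      intro j
      funext i
      simp only [Pi.smul_apply, smul_eq_mul]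
      fin_cases j <;> fin_cases i <;>
        simp only [Fin.zero_eta, Fin.mk_one, Fin.reduceFinMk] <;> linarith
    apply hP0
    funext j
    have h1 := congrArg l (hv j)
    rw [map_smul, map_smul, lP, le, smul_zero, smul_eq_mul, mul_one] at h1
    exact h1.symm
  refine ⟨u, huQ, hlu, (detL P e u)⁻¹ • detL e u, (detL P e u)⁻¹ • detL P e, ?_, ?_, ?_⟩
  · intro v hv
    obtain ⟨r, hr⟩ := detL_rat he huQ v hv
    obtain ⟨s, hs⟩ := detL_rat hP he u huQ
    exact ⟨s⁻¹ * r, by rw [LinearMap.smul_apply, smul_eq_mul, hr, hs]; push_cast; rfl⟩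
  · intro v hv
    obtain ⟨r, hr⟩ := detL_rat hP he v hv
    obtain ⟨s, hs⟩ := detL_rat hP he u huQ
    exact ⟨s⁻¹ * r, by rw [LinearMap.smul_apply, smul_eq_mul, hr, hs]; push_cast; rfl⟩
  · intro v
    have hc := cramer P e u v
    have h1 := congrArg l hc
    rw [map_add, map_add, map_smul, map_smul, map_smul, map_smul, lP, le, hlu] at h1
    simp only [smul_eq_mul, mul_zero, mul_one, zero_add, add_zero] at h1
    have h2 : v = (detL P e u)⁻¹ • (detL P e u • v) := by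
      rw [smul_smul, inv_mul_cancel₀ hd0, one_smul]
    conv_lhs => rw [h2, hc]
    rw [← h1]
    simp only [LinearMap.smul_apply, smul_add, smul_smul, smul_eq_mul]
    rw [← mul_assoc, inv_mul_cancel₀ hd0, one_mul]

/-- the rational points of the curve `z² = p(t)` -/
def crv (p : Polynomial ℚ) : Set (Fin 2 → ℝ) :=
  {w | ∃ q : Fin 2 → ℚ, q 1 ^ 2 = p.eval (q 0) ∧ ∀ i, w i = (q i : ℝ)}

theorem sa_W (p : Polynomial ℚ) (hp : p.natDegree ≤ 4) : SA (evR 2) (closure (crv p)) := by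
  have h := Pool.Agent.Results.MP_42de19_nt.ProductCover.result 1 1 (fun _ => p) (fun _ => hp)
    (fun _ => 1) (fun _ => {0}) Set.univ (fun _ _ _ _ _ => Set.mem_univ _)
  have he : {w : Fin (1 + 1) → ℝ | ∃ q : Fin (1 + 1) → ℚ,
      (∀ j, MvPolynomial.eval q (Pool.Agent.Results.MP_42de19_nt.ProductCover.productCover
        (fun _ => p) (fun _ => 1) (fun _ => {0}) j) = 0) ∧
      (fun i : Fin 1 => ((fun _ : Fin 1 => p) i).eval (q (Fin.castAdd 1 i))) ∈
        (Set.univ : Set (Fin 1 → ℚ)) ∧ ∀ i, w i = (q i : ℝ)} = crv p := by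
    ext w
    constructor
    · rintro ⟨q, h1, -, h3⟩
      refine ⟨q, ?_, h3⟩
      have := h1 0
      rw [Pool.Agent.Results.MP_42de19_nt.ProductCover.eval_productCover, Finset.prod_singleton,
        one_mul] at this
      exact sub_eq_zero.mp this
    · rintro ⟨q, h1, h3⟩
      refine ⟨q, fun j => ?_, Set.mem_univ _, h3⟩
      refine (Pool.Agent.Results.MP_42de19_nt.ProductCover.eval_productCover (n := 1) (k := 1)
        (fun _ => p) (fun _ => 1) (fun _ => {0}) j q).trans ?_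
      rw [Finset.prod_singleton, one_mul, sub_eq_zero]
      have hj : j = 0 := Subsingleton.elim _ _
      subst hj
      exact h1
  rw [he] at h
  exact IsSemialg.sa h

section gen
variable {V : Type*} [NormedAddCommGroup V] [NormedSpace ℝ V] (D : CubData V)

theorem F_comb3 (a b c : V) (x s y : ℝ) :
    D.F (x • a + s • b + y • c) (x • a + s • b + y • c) (x • a + s • b + y • c) =
      x ^ 3 * D.F a a a + s ^ 3 * D.F b b b + y ^ 3 * D.F c c c + 3 * x ^ 2 * s * D.F a a b +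
      3 * x ^ 2 * y * D.F a a c + 3 * x * s ^ 2 * D.F a b b + 3 * x * y ^ 2 * D.F a c c +
      3 * s ^ 2 * y * D.F b b c + 3 * s * y ^ 2 * D.F b c c + 6 * x * s * y * D.F a b c := by
  simp only [map_add, map_sub, map_neg, map_smul, map_zero, LinearMap.add_apply,
    LinearMap.sub_apply, LinearMap.neg_apply, LinearMap.smul_apply, LinearMap.zero_apply,
    smul_eq_mul, CubData.s12, CubData.s23]
  ring

theorem F_pair (a b c : V) (s y : ℝ) :
    D.F a (s • b + y • c) (s • b + y • c) =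
      s ^ 2 * D.F a b b + 2 * s * y * D.F a b c + y ^ 2 * D.F a c c := by
  simp only [map_add, map_sub, map_neg, map_smul, map_zero, LinearMap.add_apply,
    LinearMap.sub_apply, LinearMap.neg_apply, LinearMap.smul_apply, LinearMap.zero_apply,
    smul_eq_mul, CubData.s12, CubData.s23]
  ring

end gen

end Curve

open Curve in
theorem sa_curve (T : SymT 3) {P : Fin 3 → ℝ} (hP : P ∈ ratV 3) (hPX : (cub T).F P P P = 0)
    (hPs : (cub T).F P P ≠ 0) : SA (evR 3) (cub T).K := by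
  set D := cub T with hD
  have hLrat : D.RatFun (D.F P P) := D.ratFun_F hP hP
  have hP0 : P ≠ 0 := by
    rintro rfl
    exact hPs (by rw [map_zero])
  obtain ⟨e₀, he₀, hLe₀⟩ := D.exists_mem_Q_ne hPs
  set L := D.F P P with hL
  obtain ⟨r₀, hr₀⟩ := hLrat e₀ he₀
  set e : Fin 3 → ℝ := (L e₀)⁻¹ • e₀ with he
  have heQ : e ∈ ratV 3 := D.smul_mem_Q he₀ ⟨r₀⁻¹, by rw [hr₀]; push_cast; rfl⟩
  have hLe : L e = 1 := by rw [he, map_smul, smul_eq_mul, inv_mul_cancel₀ hLe₀]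
  obtain ⟨u, huQ, hLu, x, y, hx, hy, hdec⟩ := exists_coords T hP heQ L hLrat hPX hLe hP0
  obtain ⟨α₀, hα₀⟩ := D.ratQ P hP e heQ e heQ
  obtain ⟨α₁, hα₁⟩ := D.ratQ P hP e heQ u huQ
  obtain ⟨α₂, hα₂⟩ := D.ratQ P hP u huQ u huQ
  obtain ⟨β₀, hβ₀⟩ := D.ratQ e heQ e heQ e heQ
  obtain ⟨β₁, hβ₁⟩ := D.ratQ e heQ e heQ u huQ
  obtain ⟨β₂, hβ₂⟩ := D.ratQ e heQ u huQ u huQ
  obtain ⟨β₃, hβ₃⟩ := D.ratQ u huQ u huQ u huQ
  -- the cubic form in the coordinates
  have hF : ∀ a b c : ℝ, D.F (a • P + b • e + c • u) (a • P + b • e + c • u)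
      (a • P + b • e + c • u) = 3 * a ^ 2 * b + 3 * a * (b ^ 2 * α₀ + 2 * b * c * α₁ + c ^ 2 * α₂) +
        (b ^ 3 * β₀ + 3 * b ^ 2 * c * β₁ + 3 * b * c ^ 2 * β₂ + c ^ 3 * β₃) := by
    intro a b c
    have hLe' : D.F P P e = 1 := hLe
    have hLu' : D.F P P u = 0 := hLu
    rw [F_comb3, hPX, hLe', hLu', hα₀, hα₁, hα₂, hβ₀, hβ₁, hβ₂, hβ₃]
    ring
  have hA : ∀ b c : ℝ, D.F P (b • e + c • u) (b • e + c • u) =
      b ^ 2 * α₀ + 2 * b * c * α₁ + c ^ 2 * α₂ := by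
    intro b c
    rw [F_pair, hα₀, hα₁, hα₂]
  -- the quartic polynomial
  set p : Polynomial ℚ := Polynomial.C (9 * α₂ ^ 2) * Polynomial.X ^ 4 +
    Polynomial.C (36 * α₁ * α₂ - 12 * β₃) * Polynomial.X ^ 3 +
    Polynomial.C (9 * (4 * α₁ ^ 2 + 2 * α₀ * α₂) - 36 * β₂) * Polynomial.X ^ 2 +
    Polynomial.C (36 * α₀ * α₁ - 36 * β₁) * Polynomial.X +
    Polynomial.C (9 * α₀ ^ 2 - 12 * β₀) with hp
  have hpdeg : p.natDegree ≤ 4 := by
    rw [hp]
    compute_degree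
  have hpe : ∀ t : ℚ, ((p.eval t : ℚ) : ℝ) = 9 * ((α₀ : ℝ) + 2 * t * α₁ + t ^ 2 * α₂) ^ 2 -
      12 * ((β₀ : ℝ) + 3 * t * β₁ + 3 * t ^ 2 * β₂ + t ^ 3 * β₃) := by
    intro t
    rw [hp]
    simp only [Polynomial.eval_add, Polynomial.eval_mul, Polynomial.eval_C, Polynomial.eval_pow,
      Polynomial.eval_X]
    push_cast
    ring
  have hW := sa_W p hpdeg
  -- polynomial functions
  have pL : IsPoly (fun v : Fin 3 → ℝ => L v) := isPoly_of_ratFun L hLrat
  have px : IsPoly (fun v : Fin 3 → ℝ => x v) := isPoly_of_ratFun x hx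
  have py : IsPoly (fun v : Fin 3 → ℝ => y v) := isPoly_of_ratFun y hy
  have pc : ∀ r : ℚ, IsPoly (fun _ : Fin 3 → ℝ => (r : ℝ)) := fun r => IsPoly.const r
  have pA : IsPoly (fun v : Fin 3 → ℝ => (L v) ^ 2 * α₀ + 2 * L v * y v * α₁ + (y v) ^ 2 * α₂) := by
    refine IsPoly.congr ((((pL.pow 2).mul (pc α₀)).add ((((pc 2).mul pL).mul py).mul (pc α₁))).add
      ((py.pow 2).mul (pc α₂))) fun v => ?_
    push_cast
    ring
  set φ : (Fin 3 → ℝ) → (Fin 2 → ℝ) := fun v => ![y v * L v,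
    6 * x v * L v + 3 * ((L v) ^ 2 * α₀ + 2 * L v * y v * α₁ + (y v) ^ 2 * α₂)] with hφ
  have pφ : ∀ i, IsPoly (fun v => φ v i) := by
    intro i
    fin_cases i
    · exact py.mul pL
    · refine IsPoly.congr ((((pc 6).mul px).mul pL).add ((pc 3).mul pA)) fun v => ?_
      push_cast
      rfl
  have hdiv := SA.comap_div hW (pL.pow 2) pφ
  have hcont : ∀ l : (Fin 3 → ℝ) →ₗ[ℝ] ℝ, Continuous l := fun l =>
    l.continuous_of_finiteDimensional
  -- the part with `L ≠ 0`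
  have hset : D.K ∩ {v | L v ≠ 0} =
      {v | (L v) ^ 2 ≠ 0 ∧ (fun i => φ v i / (L v) ^ 2) ∈ closure (crv p)} := by
    apply Set.Subset.antisymm
    · rintro v ⟨hv, hLv⟩
      have hLv' : L v ≠ 0 := hLv
      refine ⟨pow_ne_zero 2 hLv', ?_⟩
      have hopen : IsOpen {v : Fin 3 → ℝ | L v ≠ 0} := isOpen_ne.preimage (hcont L)
      have h1 : v ∈ closure (D.ratX ∩ {v | L v ≠ 0}) := by
        rw [mem_closure_iff]
        intro O hO hvO
        obtain ⟨w, hw1, hw2⟩ := mem_closure_iff.mp hv (O ∩ {v | L v ≠ 0}) (hO.inter hopen)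
          ⟨hvO, hLv'⟩
        exact ⟨w, hw1.1, hw2, hw1.2⟩
      have h2 : ContinuousAt (fun v : Fin 3 → ℝ => (fun i => φ v i / (L v) ^ 2 : Fin 2 → ℝ)) v := by
        rw [continuousAt_pi]
        intro i
        exact ((pφ i).continuous.continuousAt).div ((hcont L).pow 2).continuousAt
          (pow_ne_zero 2 hLv')
      refine h2.continuousWithinAt.mem_closure h1 ?_
      rintro w ⟨⟨hwQ, hwX⟩, hLw⟩
      have hLw' : L w ≠ 0 := hLw
      obtain ⟨rx, hrx⟩ := hx w hwQ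
      obtain ⟨ry, hry⟩ := hy w hwQ
      obtain ⟨rL, hrL⟩ := hLrat w hwQ
      have hFw := hwX
      rw [hdec w, hF, hrx, hry, hrL] at hFw
      have hrL0 : (rL : ℝ) ≠ 0 := by rw [← hrL]; exact hLw'
      refine ⟨![ry * rL / rL ^ 2, (6 * rx * rL + 3 * (rL ^ 2 * α₀ + 2 * rL * ry * α₁ + ry ^ 2 * α₂))
        / rL ^ 2], ?_, ?_⟩
      · have h3 : (((![ry * rL / rL ^ 2, (6 * rx * rL + 3 * (rL ^ 2 * α₀ + 2 * rL * ry * α₁ +
            ry ^ 2 * α₂)) / rL ^ 2] : Fin 2 → ℚ) 1 ^ 2 : ℚ) : ℝ) =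
            ((p.eval ((![ry * rL / rL ^ 2, (6 * rx * rL + 3 * (rL ^ 2 * α₀ + 2 * rL * ry * α₁ +
            ry ^ 2 * α₂)) / rL ^ 2] : Fin 2 → ℚ) 0) : ℚ) : ℝ) := by
          rw [hpe]
          simp only [Matrix.cons_val_zero, Matrix.cons_val_one]
          push_cast
          field_simp
          linear_combination (12 * (rL : ℝ)) * hFw
        exact_mod_cast h3
      · intro i
        fin_cases i
        · simp [hφ, hry, hrL]
        · simp [hφ, hrx, hry, hrL]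
    · rintro v ⟨hLv, hv⟩
      have hLv' : L v ≠ 0 := fun h => hLv (by rw [h]; norm_num)
      refine ⟨?_, hLv'⟩
      set Ψ : (Fin 2 → ℝ) → (Fin 3 → ℝ) := fun w =>
        ((w 1 - 3 * ((α₀ : ℝ) + 2 * w 0 * α₁ + (w 0) ^ 2 * α₂)) / 6) • P + (1 : ℝ) • e + w 0 • u
        with hΨ
      have hc : Continuous Ψ := by
        rw [hΨ]
        fun_prop
      have h1 : Ψ (fun i => φ v i / (L v) ^ 2) ∈ D.K := by
        refine hc.continuousWithinAt.mem_closure hv ?_
        rintro w ⟨q, hq, hwq⟩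
        have hq' : ((q 1 : ℝ)) ^ 2 = ((p.eval (q 0) : ℚ) : ℝ) := by
          rw [← hq]
          push_cast
          rfl
        rw [hpe] at hq'
        refine ⟨?_, ?_⟩
        · rw [hΨ]
          refine D.add_mem_Q (D.add_mem_Q (D.smul_mem_Q hP ⟨(q 1 - 3 * (α₀ + 2 * q 0 * α₁ +
            (q 0) ^ 2 * α₂)) / 6, ?_⟩) (D.smul_mem_Q heQ ⟨1, ?_⟩)) (D.smul_mem_Q huQ ⟨q 0, hwq 0⟩)
          · rw [hwq 0, hwq 1]
            push_cast
            rfl
          · push_cast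
            rfl
        · rw [hΨ]
          simp only
          rw [hF, hwq 0, hwq 1]
          linear_combination (1 / 12) * hq'
      have h2 : v = L v • Ψ (fun i => φ v i / (L v) ^ 2) := by
        conv_lhs => rw [hdec v]
        rw [hΨ, hφ]
        simp only [Matrix.cons_val_zero, Matrix.cons_val_one, smul_add, smul_smul, mul_one]
        congr 1
        · congr 1
          congr 1
          field_simp
          ring
        · congr 1
          field_simp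
      rw [h2]
      exact D.smul_mem_K h1 _
  -- the part with `L = 0`
  have hline : D.X ∩ {v | L v = 0} ⊆ D.K := by
    rintro v ⟨hv, hLv⟩
    have hLv' : L v = 0 := hLv
    have hv' : D.F v v v = 0 := hv
    have key : ∀ m : (Fin 3 → ℝ) →ₗ[ℝ] ℝ, D.RatFun m → m v = 0 →
        (∀ w, L w = 0 → m w = 0 → (y w) ^ 2 * (3 * x w * α₂ + y w * β₃) = 0) → v ∈ D.K := by
      intro m hm hmv hmw
      refine closure_mono ?_ (D.dense_ker2 hLrat hm hLv' hmv)
      rintro w ⟨hwQ, hLw, hmw'⟩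
      refine ⟨hwQ, ?_⟩
      rw [hdec w, hF, hLw]
      linear_combination hmw w hLw hmw'
    have hprod : (y v) ^ 2 * (3 * x v * α₂ + y v * β₃) = 0 := by
      rw [hdec v, hF, hLv'] at hv'
      linear_combination hv'
    rcases mul_eq_zero.mp hprod with h | h
    · exact key y hy (pow_eq_zero_iff (by norm_num) |>.mp h) fun w _ hw => by rw [hw]; ring
    · refine key ((3 * (α₂ : ℝ)) • x + (β₃ : ℝ) • y) ?_ ?_ fun w _ hw => ?_
      · intro w hw
        obtain ⟨rx, hrx⟩ := hx w hw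
        obtain ⟨ry, hry⟩ := hy w hw
        refine ⟨3 * α₂ * rx + β₃ * ry, ?_⟩
        rw [LinearMap.add_apply, LinearMap.smul_apply, LinearMap.smul_apply, smul_eq_mul,
          smul_eq_mul, hrx, hry]
        push_cast
        rfl
      · rw [LinearMap.add_apply, LinearMap.smul_apply, LinearMap.smul_apply, smul_eq_mul,
          smul_eq_mul]
        linear_combination h
      · rw [LinearMap.add_apply, LinearMap.smul_apply, LinearMap.smul_apply, smul_eq_mul,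
          smul_eq_mul] at hw
        linear_combination (y w) ^ 2 * hw
  -- conclusion
  have hK : D.K = (D.K ∩ {v | L v ≠ 0}) ∪ (D.X ∩ {v | L v = 0}) := by
    apply Set.Subset.antisymm
    · intro v hv
      by_cases h : L v = 0
      · exact Or.inr ⟨D.K_subset_X hv, h⟩
      · exact Or.inl ⟨hv, h⟩
    · rintro v (hv | hv)
      · exact hv.1
      · exact hline hv
  rw [hK, hset]
  refine hdiv.union (SA.inter ?_ pL.sa_eq_zero)
  have pX : IsPoly (fun v : Fin 3 → ℝ => D.F v v v) :=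
    isPoly_F T (a := fun v => v) (b := fun v => v) (c := fun v => v)
      (fun i => IsPoly.coord i) (fun i => IsPoly.coord i) (fun i => IsPoly.coord i)
  exact pX.sa_eq_zero

end Pool.Agent.Lib.MP42.CubicHyp
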