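import Mathlib

set_option autoImplicit false

/-! Cubic hypersurfaces (MP_42de19_nt): symmetric trilinear forms on a real vector space with a
dense set of rational vectors. -/

namespace Pool.Agent.Lib.MP42.CubicHyp

/-- A symmetric (continuous) trilinear form on a real vector space `V`, together with a dense
`ℚ`-subspace `Q` of `V` (the rational vectors) on which the form has rational values. -/
structure CubData (V : Type*) [NormedAddCommGroup V] [NormedSpace ℝ V] where
  F : V →ₗ[ℝ] V →ₗ[ℝ] V →ₗ[ℝ] ℝ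
  s12 : ∀ a b c, F a b c = F b a c
  s23 : ∀ a b c, F a b c = F a c b
  Q : AddSubgroup V
  smulQ : ∀ (r : ℚ) (v : V), v ∈ Q → (r : ℝ) • v ∈ Q
  denseQ : Dense (Q : Set V)
  ratQ : ∀ a ∈ Q, ∀ b ∈ Q, ∀ c ∈ Q, ∃ r : ℚ, F a b c = r

namespace CubData

variable {V : Type*} [NormedAddCommGroup V] [NormedSpace ℝ V] (D : CubData V)

/-- the real points of the (cone over the) cubic hypersurface -/
def X : Set V := {v | D.F v v v = 0}

/-- its smooth real points -/
def Xs : Set V := {v | D.F v v v = 0 ∧ D.F v v ≠ 0}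

/-- its rational points -/
def ratX : Set V := {v | v ∈ D.Q ∧ D.F v v v = 0}

/-- the closure of the rational points -/
def K : Set V := closure D.ratX

/-- third intersection point of the line through `a`, `b` (for `a b ∈ X`) -/
noncomputable def c (a b : V) : V := D.F a b b • a - D.F a a b • b

/-- third intersection point of the tangent line at `a` in direction `v` (for `a ∈ X`,
`F a a v = 0`) -/
noncomputable def tau (a v : V) : V := D.F v v v • a - (3 * D.F a v v) • v

/-- `K` has interior in the smooth locus -/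
def HasInt : Prop := ∃ y ∈ D.Xs, ∃ O : Set V, IsOpen O ∧ y ∈ O ∧ O ∩ D.X ⊆ D.K

/-- rational linear functionals -/
def RatFun (l : V →ₗ[ℝ] ℝ) : Prop := ∀ v ∈ D.Q, ∃ r : ℚ, l v = r

/-- subspaces with a dense set of rational vectors -/
def RatSub (M : Submodule ℝ V) : Prop := ∀ v ∈ M, v ∈ closure {u : V | u ∈ D.Q ∧ u ∈ M}

/-- the form does not vanish on a real hyperplane -/
def NoHyp : Prop := ∀ l : V →ₗ[ℝ] ℝ, l ≠ 0 → ∃ v, l v = 0 ∧ D.F v v v ≠ 0

/-- the form does not vanish on a rational hyperplane -/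
def NoRatHyp : Prop := ∀ l : V →ₗ[ℝ] ℝ, D.RatFun l → l ≠ 0 → ∃ v, l v = 0 ∧ D.F v v v ≠ 0

/-- no (real) vertex -/
def NoVertex : Prop := ∀ v : V, v ≠ 0 → D.F v ≠ 0

/-- no nonzero rational singular point -/
def NoRatDouble : Prop := ∀ a ∈ D.Q, a ≠ 0 → D.F a a ≠ 0

/-- `P` is flat: the second fundamental form of the hypersurface vanishes at `P` -/
def Flat (P : V) : Prop := ∀ v, D.F P P v = 0 → D.F P v v = 0

/-- Data attached to a flat rational smooth point `P`: a rational functional `μ` with `μ P = 1` and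
`F P u v = μ u * F P P v + μ v * F P P u`. -/
structure FlatData (P : V) (μ : V →ₗ[ℝ] ℝ) : Prop where
  memQ : P ∈ D.Q
  zero : D.F P P P = 0
  smooth : D.F P P ≠ 0
  rat : D.RatFun μ
  one : μ P = 1
  flat : ∀ u v, D.F P u v = μ u * D.F P P v + μ v * D.F P P u

/-- The property of `(P, μ)` that is used to find a contradiction: the direction `ρ` in which a
curve in `K` leaves a multiple of `P` satisfies `F ρ g g = 0` on the tangent space of `P`. -/
def Star (P : V) (μ : V →ₗ[ℝ] ℝ) : Prop :=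
  ∀ R : ℝ → V, ContDiff ℝ 2 R → (∀ t, R t ∈ D.K) → ∀ (r κ : ℝ) (ρ : V), r ≠ 0 → R 0 = r • P →
    HasDerivAt R (κ • P + ρ) 0 → D.F P P ρ = 0 → μ ρ = 0 → ∀ g, D.F P P g = 0 → D.F ρ g g = 0

/-- The quadratic form `Ξ_w` (polarised): `C(w,h,h') - 3 C(w,w,h) C(w,w,h') / (4 C(w))`. -/
noncomputable def Xi (w h h' : V) : ℝ :=
  D.F w h h' - 3 * D.F w w h * D.F w w h' / (4 * D.F w w w)

/-- admissible pairs `(w, h)` for flat data `(P, μ)` -/
structure Adm (P : V) (μ : V →ₗ[ℝ] ℝ) (w h : V) : Prop where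
  μw : μ w = 0
  Lw : D.F P P w = 1
  Cw : D.F w w w < 0
  μh : μ h = 0
  Lh : D.F P P h = 0
  Ch : D.F h h h ≠ 0
  Xih : D.Xi w h h ≠ 0
  b0 : -2 * D.F w w w * D.F h h h + 9 * D.Xi w h h * D.F w w h ≠ 0

end CubData

end Pool.Agent.Lib.MP42.CubicHyp
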