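import Pool.Agent.Lib.MP_42de19_nt.CubicHyp.Basic

set_option autoImplicit false

/-! Piece G2: the coefficient of `t` in `Δ(v + t w, w)`. -/

namespace Pool.Agent.Lib.MP42.CubicHyp

open Topology Filter

namespace CubData

theorem delta_poly (q0 q1 q2 c0 c1 c2 c3 : ℝ) (hq : q0 ≠ 0)
    (h : ∀ t : ℝ, q0 + 2 * t * q1 + t ^ 2 * q2 ≠ 0 →
      3 * (q0 + 2 * t * q1 + t ^ 2 * q2) ^ 2 * (c2 + t * c3)
        - 6 * (q0 + 2 * t * q1 + t ^ 2 * q2) * (q1 + t * q2) * (c1 + 2 * t * c2 + t ^ 2 * c3)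
        - (q0 + 2 * t * q1 + t ^ 2 * q2) * q2 * (c0 + 3 * t * c1 + 3 * t ^ 2 * c2 + t ^ 3 * c3)
        + 4 * (q1 + t * q2) ^ 2 * (c0 + 3 * t * c1 + 3 * t ^ 2 * c2 + t ^ 3 * c3) = 0) :
    c3 * q0 ^ 2 = q2 * (3 * c1 * q0 - 2 * c0 * q1) := by
  set f : ℝ → ℝ := fun t => 3 * (q0 + 2 * t * q1 + t ^ 2 * q2) ^ 2 * (c2 + t * c3)
        - 6 * (q0 + 2 * t * q1 + t ^ 2 * q2) * (q1 + t * q2) * (c1 + 2 * t * c2 + t ^ 2 * c3)
        - (q0 + 2 * t * q1 + t ^ 2 * q2) * q2 * (c0 + 3 * t * c1 + 3 * t ^ 2 * c2 + t ^ 3 * c3)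
        + 4 * (q1 + t * q2) ^ 2 * (c0 + 3 * t * c1 + 3 * t ^ 2 * c2 + t ^ 3 * c3) with hf
  have hev : f =ᶠ[𝓝 0] fun _ => (0 : ℝ) := by
    have hc : Continuous fun t : ℝ => q0 + 2 * t * q1 + t ^ 2 * q2 := by fun_prop
    have h0 : (fun t : ℝ => q0 + 2 * t * q1 + t ^ 2 * q2) 0 ≠ 0 := by simpa using hq
    filter_upwards [hc.continuousAt.eventually_ne h0] with t ht
    exact h t ht
  have hd : HasDerivAt f (3 * (c3 * q0 ^ 2 - q2 * (3 * c1 * q0 - 2 * c0 * q1))) 0 := by
    have hq' : HasDerivAt (fun t : ℝ => q0 + 2 * t * q1 + t ^ 2 * q2) (2 * q1) 0 := by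
      have h1 := ((((hasDerivAt_id (0 : ℝ)).const_mul 2).mul_const q1).const_add q0).add
        (((hasDerivAt_id (0 : ℝ)).pow 2).mul_const q2)
      refine (HasDerivAt.congr_deriv (f := fun t : ℝ => q0 + 2 * t * q1 + t ^ 2 * q2) h1 ?_)
      simp
    have hl : ∀ a b : ℝ, HasDerivAt (fun t : ℝ => a + t * b) b 0 := by
      intro a b
      have h1 := (((hasDerivAt_id (0 : ℝ)).mul_const b).const_add a)
      refine (HasDerivAt.congr_deriv (f := fun t : ℝ => a + t * b) h1 ?_)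
      simp
    have hc1 : HasDerivAt (fun t : ℝ => c1 + 2 * t * c2 + t ^ 2 * c3) (2 * c2) 0 := by
      have h1 := ((((hasDerivAt_id (0 : ℝ)).const_mul 2).mul_const c2).const_add c1).add
        (((hasDerivAt_id (0 : ℝ)).pow 2).mul_const c3)
      refine (HasDerivAt.congr_deriv (f := fun t : ℝ => c1 + 2 * t * c2 + t ^ 2 * c3) h1 ?_)
      simp
    have hc0 : HasDerivAt (fun t : ℝ => c0 + 3 * t * c1 + 3 * t ^ 2 * c2 + t ^ 3 * c3)
        (3 * c1) 0 := by
      have h1 := (((((hasDerivAt_id (0 : ℝ)).const_mul 3).mul_const c1).const_add c0).add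
        ((((hasDerivAt_id (0 : ℝ)).pow 2).const_mul 3).mul_const c2)).add
        (((hasDerivAt_id (0 : ℝ)).pow 3).mul_const c3)
      refine (HasDerivAt.congr_deriv
        (f := fun t : ℝ => c0 + 3 * t * c1 + 3 * t ^ 2 * c2 + t ^ 3 * c3) h1 ?_)
      simp
    have h1 := ((((hq'.pow 2).const_mul 3).mul (hl c2 c3)).sub
      (((hq'.const_mul 6).mul (hl q1 q2)).mul hc1)).sub ((hq'.mul_const q2).mul hc0)
    have h2 := h1.add ((((hl q1 q2).pow 2).const_mul 4).mul hc0)
    refine (HasDerivAt.congr_deriv (f := f) h2 ?_)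
    simp only [Pi.pow_apply]
    norm_num
    ring
  have h0 : HasDerivAt f 0 0 := (hasDerivAt_const (0 : ℝ) (0 : ℝ)).congr_of_eventuallyEq hev
  have := hd.unique h0
  linarith

variable {V : Type*} [NormedAddCommGroup V] [NormedSpace ℝ V] [FiniteDimensional ℝ V] (D : CubData V)

omit [FiniteDimensional ℝ V] in
theorem delta_coeff {P v w : V} (hv : D.F P P v = 0) (hw : D.F P P w = 0) (hq : D.F P v v ≠ 0)
    (hΔ : ∀ v' w', D.F P P v' = 0 → D.F P P w' = 0 → D.F P v' v' ≠ 0 →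
      3 * (D.F P v' v') ^ 2 * D.F v' w' w' - 6 * D.F P v' v' * D.F P v' w' * D.F v' v' w'
      - D.F P v' v' * D.F P w' w' * D.F v' v' v' + 4 * (D.F P v' w') ^ 2 * D.F v' v' v' = 0) :
    D.F w w w * (D.F P v v) ^ 2 =
      D.F P w w * (3 * D.F v v w * D.F P v v - 2 * D.F v v v * D.F P v w) := by
  refine delta_poly (D.F P v v) (D.F P v w) (D.F P w w) (D.F v v v) (D.F v v w) (D.F v w w)
    (D.F w w w) hq fun t ht => ?_
  have e1 : D.F P (v + t • w) (v + t • w) =
      D.F P v v + 2 * t * D.F P v w + t ^ 2 * D.F P w w := by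
        simp only [map_add, map_sub, map_neg, map_smul, map_zero, LinearMap.add_apply,
          LinearMap.sub_apply, LinearMap.neg_apply, LinearMap.smul_apply, LinearMap.zero_apply,
          smul_eq_mul, CubData.s12, CubData.s23]
        ring
  have e2 : D.F (v + t • w) w w = D.F v w w + t * D.F w w w := by
    simp only [map_add, map_sub, map_neg, map_smul, map_zero, LinearMap.add_apply,
      LinearMap.sub_apply, LinearMap.neg_apply, LinearMap.smul_apply, LinearMap.zero_apply,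
      smul_eq_mul, CubData.s12, CubData.s23]
  have e3 : D.F P (v + t • w) w = D.F P v w + t * D.F P w w := by
    simp only [map_add, map_sub, map_neg, map_smul, map_zero, LinearMap.add_apply,
      LinearMap.sub_apply, LinearMap.neg_apply, LinearMap.smul_apply, LinearMap.zero_apply,
      smul_eq_mul, CubData.s12, CubData.s23]
  have e4 : D.F (v + t • w) (v + t • w) w =
      D.F v v w + 2 * t * D.F v w w + t ^ 2 * D.F w w w := by
        simp only [map_add, map_sub, map_neg, map_smul, map_zero, LinearMap.add_apply,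
          LinearMap.sub_apply, LinearMap.neg_apply, LinearMap.smul_apply, LinearMap.zero_apply,
          smul_eq_mul, CubData.s12, CubData.s23]
        ring
  have e5 : D.F (v + t • w) (v + t • w) (v + t • w) =
      D.F v v v + 3 * t * D.F v v w + 3 * t ^ 2 * D.F v w w + t ^ 3 * D.F w w w := by
    simp only [map_add, map_sub, map_neg, map_smul, map_zero, LinearMap.add_apply,
      LinearMap.sub_apply, LinearMap.neg_apply, LinearMap.smul_apply, LinearMap.zero_apply,
      smul_eq_mul, CubData.s12, CubData.s23]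
    ring
  have h1 := hΔ (v + t • w) w (by rw [map_add, map_smul, hv, hw, smul_zero, add_zero]) hw
    (by rw [e1]; exact ht)
  rw [e1, e2, e3, e4, e5] at h1
  exact h1

end CubData

end Pool.Agent.Lib.MP42.CubicHyp
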