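import Pool.Agent.Lib.MP_42de19_nt.CubicHyp.Arc

set_option autoImplicit false

/-! [G3] The L-lemma and the constant direction lemma. -/

namespace Pool.Agent.Lib.MP42.CubicHyp

open Topology Filter

namespace CubData

variable {V : Type*} [NormedAddCommGroup V] [NormedSpace ℝ V] [FiniteDimensional ℝ V] (D : CubData V)

/-- a functional whose kernel contains the kernel of a nonzero functional is a multiple of it -/
theorem eq_smul_of_ker {V : Type*} [AddCommGroup V] [Module ℝ V] {f g : V →ₗ[ℝ] ℝ} (hg : g ≠ 0)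
    (h : ∀ v, g v = 0 → f v = 0) : ∃ c : ℝ, f = c • g := by
  obtain ⟨e, he⟩ : ∃ e, g e ≠ 0 := by
    by_contra hcon
    push Not at hcon
    exact hg (LinearMap.ext hcon)
  refine ⟨f e / g e, LinearMap.ext fun v => ?_⟩
  have h1 : f (v - (g v / g e) • e) = 0 := by
    apply h
    rw [map_sub, map_smul, smul_eq_mul, div_mul_cancel₀ _ he, sub_self]
  rw [map_sub, map_smul, smul_eq_mul, sub_eq_zero] at h1
  rw [h1, LinearMap.smul_apply, smul_eq_mul]
  ring

/-- `F` vanishes on a subspace contained in `K` -/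
theorem F_eq_zero_of_M {M : Submodule ℝ V} (hM : (M : Set V) ⊆ D.K) {a b : V} (ha : a ∈ M)
    (hb : b ∈ M) : D.F a a a = 0 ∧ D.F a a b = 0 ∧ D.F a b b = 0 ∧ D.F b b b = 0 := by
  have h : ∀ v ∈ M, D.F v v v = 0 := fun v hv => D.K_subset_X (hM hv)
  have h1 := h a ha
  have h2 := h b hb
  have h3 := h (a + b) (M.add_mem ha hb)
  have h4 := h (a - b) (M.sub_mem ha hb)
  have h5 : D.F (a - b) (a - b) (a - b) =
      D.F a a a - 3 * D.F a a b + 3 * D.F a b b - D.F b b b := by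
    simp only [map_add, map_sub, map_neg, map_smul, map_zero, LinearMap.add_apply, LinearMap.sub_apply, LinearMap.neg_apply, LinearMap.smul_apply, LinearMap.zero_apply, smul_eq_mul, CubData.s12, CubData.s23]; ring
  rw [D.F_add] at h3
  rw [h5] at h4
  refine ⟨h1, ?_, ?_, h2⟩
  · linarith
  · linarith

/-- L-lemma -/
theorem hasInt_of_M {M : Submodule ℝ V} (hM : (M : Set V) ⊆ D.K) {R ρ e : V} (hR : R ∈ M)
    (hρ : ρ ∈ M) (h1 : D.F R R ≠ 0) (h2 : D.F R R e = 0) (h3 : D.F R ρ e ≠ 0) :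
    D.HasInt := by
  obtain ⟨s, hs0, hκ⟩ : ∃ s : ℝ, s ≠ 0 ∧ 2 * s * D.F R ρ e + D.F R e e ≠ 0 := by
    by_cases hc : 2 * D.F R ρ e + D.F R e e = 0
    · refine ⟨2, by norm_num, ?_⟩
      intro h
      apply h3
      linarith
    · exact ⟨1, one_ne_zero, by rwa [mul_one]⟩
  obtain ⟨r1, r2, r3, r4⟩ := D.F_eq_zero_of_M hM hR (M.smul_mem s hρ)
  set ρ' : V := s • ρ with hρ'
  have hρ'M : ρ' ∈ M := M.smul_mem s hρ
  have h3' : D.F R ρ' e = s * D.F R ρ e := by
    rw [hρ', map_smul, LinearMap.smul_apply, smul_eq_mul]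
  have hκ' : 2 * D.F R ρ' e + D.F R e e ≠ 0 := by rw [h3', ← mul_assoc]; exact hκ
  set κ := 2 * D.F R ρ' e + D.F R e e with hκdef
  set x : ℝ := -(3 * D.F ρ' ρ' e + 3 * D.F ρ' e e + D.F e e e) / (3 * κ) with hx
  have hx' : 3 * κ * x = -(3 * D.F ρ' ρ' e + 3 * D.F ρ' e e + D.F e e e) := by
    rw [hx]; field_simp
  have hz : D.F (x • R + ρ' + e) (x • R + ρ' + e) (x • R + ρ' + e) = 0 := by
    have : D.F (x • R + ρ' + e) (x • R + ρ' + e) (x • R + ρ' + e) =
        x ^ 3 * D.F R R R + 3 * x ^ 2 * D.F R R ρ' + 3 * x ^ 2 * D.F R R e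
        + 3 * x * (D.F R ρ' ρ' + 2 * D.F R ρ' e + D.F R e e)
        + D.F ρ' ρ' ρ' + 3 * D.F ρ' ρ' e + 3 * D.F ρ' e e + D.F e e e := by
      simp only [map_add, map_sub, map_neg, map_smul, map_zero, LinearMap.add_apply, LinearMap.sub_apply, LinearMap.neg_apply, LinearMap.smul_apply, LinearMap.zero_apply, smul_eq_mul, CubData.s12, CubData.s23]; ring
    rw [this, r1, r2, r3, r4, h2]
    linear_combination hx'
  have hRz : D.F R R (x • R + ρ' + e) = 0 := by
    have : D.F R R (x • R + ρ' + e) = x * D.F R R R + D.F R R ρ' + D.F R R e := by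
      simp only [map_add, map_smul, smul_eq_mul]
    rw [this, r1, r2, h2]; ring
  have hRρz : D.F R ρ' (x • R + ρ' + e) = D.F R ρ' e := by
    have : D.F R ρ' (x • R + ρ' + e) = x * D.F R R ρ' + D.F R ρ' ρ' + D.F R ρ' e := by
      simp only [map_add, map_sub, map_neg, map_smul, map_zero, LinearMap.add_apply, LinearMap.sub_apply, LinearMap.neg_apply, LinearMap.smul_apply, LinearMap.zero_apply, smul_eq_mul, CubData.s12, CubData.s23]
    rw [this, r2, r3]; ring
  have hRzz : D.F R (x • R + ρ' + e) (x • R + ρ' + e) = κ := by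
    have : D.F R (x • R + ρ' + e) (x • R + ρ' + e) = x ^ 2 * D.F R R R + 2 * x * D.F R R ρ'
        + 2 * x * D.F R R e + D.F R ρ' ρ' + 2 * D.F R ρ' e + D.F R e e := by
      simp only [map_add, map_sub, map_neg, map_smul, map_zero, LinearMap.add_apply, LinearMap.sub_apply, LinearMap.neg_apply, LinearMap.smul_apply, LinearMap.zero_apply, smul_eq_mul, CubData.s12, CubData.s23]; ring
    rw [this, r1, r2, r3, h2, hκdef]; ring
  have hd : ∀ t : ℝ, HasDerivAt (fun t : ℝ => R + t • ρ') ρ' t := by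
    intro t
    have := ((hasDerivAt_id t).smul_const ρ').const_add R
    simpa using this
  refine D.hasInt_of_sign (R := fun t : ℝ => R + t • ρ') (t₀ := 0)
    (Eventually.of_forall fun t => (hd t).continuousAt)
    (Eventually.of_forall fun t => hM (M.add_mem hR (M.smul_mem t hρ'M))) ?_
    (z := x • R + ρ' + e) hz (2 * D.F R ρ' e) ?_ ?_ ?_ ?_
  · simpa using h1
  · have := D.hasDerivAt_F (hd 0) (hd 0) (hasDerivAt_const (0 : ℝ) (x • R + ρ' + e))
    refine this.congr_deriv ?_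
    simp only [zero_smul, add_zero]
    rw [D.s12 ρ' R, hRρz, map_zero]
    ring
  · rw [h3']
    exact mul_ne_zero two_ne_zero (mul_ne_zero hs0 h3)
  · simpa using hRz
  · simp only [zero_smul, add_zero]
    rw [hRzz]
    exact hκ'

theorem const_dir_diag {M : Submodule ℝ V} (hM : (M : Set V) ⊆ D.K) (hI : ¬ D.HasInt) {R : V}
    (hR : R ∈ M) (h1 : D.F R R ≠ 0) {ρ : V} (hρ : ρ ∈ M) :
    ∃ c : ℝ, D.F ρ ρ = c • D.F R R := by
  have key : ∀ R' ∈ M, D.F R' R' ≠ 0 → ∃ c : ℝ, D.F R' ρ = c • D.F R' R' := by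
    intro R' hR' h1'
    refine eq_smul_of_ker h1' fun e he => ?_
    by_contra hne
    exact hI (D.hasInt_of_M hM hR' hρ h1' he hne)
  obtain ⟨c, hc⟩ := key R hR h1
  by_contra hcon
  push Not at hcon
  obtain ⟨s, hs0, hs1⟩ : ∃ s : ℝ, s ≠ 0 ∧ s * c ≠ -1 := by
    by_cases h : c = -1
    · exact ⟨2, by norm_num, by rw [h]; norm_num⟩
    · exact ⟨1, one_ne_zero, by rwa [one_mul]⟩
  have e1 : D.F (R + s • ρ) (R + s • ρ) = (1 + 2 * s * c) • D.F R R + s ^ 2 • D.F ρ ρ := by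
    ext v
    have hcv : D.F R ρ v = c * D.F R R v := by rw [hc]; rfl
    have : D.F (R + s • ρ) (R + s • ρ) v = D.F R R v + 2 * s * D.F R ρ v + s ^ 2 * D.F ρ ρ v := by
      simp only [map_add, map_sub, map_neg, map_smul, map_zero, LinearMap.add_apply, LinearMap.sub_apply, LinearMap.neg_apply, LinearMap.smul_apply, LinearMap.zero_apply, smul_eq_mul, CubData.s12, CubData.s23]; ring
    rw [this, hcv]
    simp only [LinearMap.add_apply, LinearMap.smul_apply, smul_eq_mul]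
    ring
  have e2 : D.F (R + s • ρ) ρ = c • D.F R R + s • D.F ρ ρ := by
    rw [map_add, LinearMap.add_apply, map_smul, LinearMap.smul_apply, hc]
  have hR' : R + s • ρ ∈ M := M.add_mem hR (M.smul_mem s hρ)
  have hne : D.F (R + s • ρ) (R + s • ρ) ≠ 0 := by
    intro h0
    rw [e1] at h0
    apply hcon (-(1 + 2 * s * c) / s ^ 2)
    have h0' : s ^ 2 • D.F ρ ρ = (-(1 + 2 * s * c)) • D.F R R := by
      ext v
      have := LinearMap.congr_fun h0 v
      simp only [LinearMap.add_apply, LinearMap.smul_apply, smul_eq_mul,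
        LinearMap.zero_apply] at this ⊢
      linarith
    have : D.F ρ ρ = (s ^ 2)⁻¹ • (s ^ 2 • D.F ρ ρ) := by
      rw [smul_smul, inv_mul_cancel₀ (pow_ne_zero 2 hs0), one_smul]
    rw [this, h0', smul_smul]
    congr 1
    ring
  obtain ⟨k, hk⟩ := key _ hR' hne
  rw [e1, e2] at hk
  -- `(s - k s²) Φ = (k (1 + 2 s c) - c) Ψ`
  have h5 : (s - k * s ^ 2) • D.F ρ ρ = (k * (1 + 2 * s * c) - c) • D.F R R := by
    ext v
    have := LinearMap.congr_fun hk v
    simp only [LinearMap.add_apply, LinearMap.smul_apply, smul_eq_mul] at this ⊢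
    linear_combination this
  by_cases h7 : s - k * s ^ 2 = 0
  · have h8 : k * s = 1 := by
      have : s * (1 - k * s) = 0 := by linear_combination h7
      rcases mul_eq_zero.mp this with h | h
      · exact absurd h hs0
      · linarith
    rw [h7, zero_smul] at h5
    have h9 : k * (1 + 2 * s * c) - c = 0 := by
      rcases smul_eq_zero.mp h5.symm with h | h
      · exact h
      · exact absurd h h1
    apply hs1
    linear_combination s * h9 - (1 + 2 * s * c) * h8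
  · apply hcon ((k * (1 + 2 * s * c) - c) / (s - k * s ^ 2))
    have : D.F ρ ρ = (s - k * s ^ 2)⁻¹ • ((s - k * s ^ 2) • D.F ρ ρ) := by
      rw [smul_smul, inv_mul_cancel₀ h7, one_smul]
    rw [this, h5, smul_smul]
    congr 1
    rw [div_eq_inv_mul]

/-- constant direction -/
theorem const_dir {M : Submodule ℝ V} (hM : (M : Set V) ⊆ D.K) (hI : ¬ D.HasInt) {R : V}
    (hR : R ∈ M) (h1 : D.F R R ≠ 0) {ρ ρ' : V} (hρ : ρ ∈ M) (hρ' : ρ' ∈ M) :
    ∃ c : ℝ, D.F ρ ρ' = c • D.F R R := by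
  obtain ⟨a, ha⟩ := D.const_dir_diag hM hI hR h1 hρ
  obtain ⟨b, hb⟩ := D.const_dir_diag hM hI hR h1 hρ'
  obtain ⟨d, hd⟩ := D.const_dir_diag hM hI hR h1 (M.add_mem hρ hρ')
  refine ⟨(d - a - b) / 2, ?_⟩
  ext v
  have ha' : D.F ρ ρ v = a * D.F R R v := by rw [ha]; rfl
  have hb' : D.F ρ' ρ' v = b * D.F R R v := by rw [hb]; rfl
  have hd' : D.F (ρ + ρ') (ρ + ρ') v = d * D.F R R v := by rw [hd]; rfl
  have e1 : D.F (ρ + ρ') (ρ + ρ') v = D.F ρ ρ v + 2 * D.F ρ ρ' v + D.F ρ' ρ' v := by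
    simp only [map_add, LinearMap.add_apply]
    rw [D.s12 ρ' ρ]
    ring
  rw [LinearMap.smul_apply, smul_eq_mul]
  linear_combination (-1/2 : ℝ) * e1 + (1/2 : ℝ) * hd' - (1/2 : ℝ) * ha' - (1/2 : ℝ) * hb'

end CubData

end Pool.Agent.Lib.MP42.CubicHyp
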