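import Pool.Agent.Lib.MP_42de19_nt.CubicHyp.Tangent
import Pool.Agent.Lib.MP_42de19_nt.CubicHyp.Arc

set_option autoImplicit false

/-! Piece G1: the arcs `τ(P, v + t w)` through a non-flat point. -/

namespace Pool.Agent.Lib.MP42.CubicHyp

open Topology Filter

namespace CubData

variable {V : Type*} [NormedAddCommGroup V] [NormedSpace ℝ V]

theorem nonflat_arc_alg1 (D : CubData V) {P v : V} (hP : D.F P P P = 0) (hv : D.F P P v = 0)
    (a b : ℝ) : D.F (a • P - b • v) (a • P - b • v) P = b ^ 2 * D.F P v v := by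
  simp only [map_add, map_sub, map_neg, map_smul, map_zero, LinearMap.add_apply,
    LinearMap.sub_apply, LinearMap.neg_apply, LinearMap.smul_apply, LinearMap.zero_apply,
    smul_eq_mul, CubData.s12, CubData.s23]
  rw [hP, hv]
  ring

theorem nonflat_arc_alg2 (D : CubData V) {P v w : V} (hP : D.F P P P = 0) (hv : D.F P P v = 0)
    (hw : D.F P P w = 0) (a b c d e : ℝ) :
    D.F (a • P - b • v) (c • P - d • v - e • w) (c • P - d • v - e • w) =
      a * (d ^ 2 * D.F P v v + 2 * d * e * D.F P v w + e ^ 2 * D.F P w w) +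
      b * (2 * c * d * D.F P v v + 2 * c * e * D.F P v w - d ^ 2 * D.F v v v
        - 2 * d * e * D.F v v w - e ^ 2 * D.F v w w) := by
  simp only [map_add, map_sub, map_neg, map_smul, map_zero, LinearMap.add_apply,
    LinearMap.sub_apply, LinearMap.neg_apply, LinearMap.smul_apply, LinearMap.zero_apply,
    smul_eq_mul, CubData.s12, CubData.s23]
  rw [hP, hv, hw]
  ring

variable [FiniteDimensional ℝ V] (D : CubData V)

/-- the arcs `τ(P, v + t w)` -/
theorem nonflat_arc {P v w : V} (hP : P ∈ D.K) (hPs : D.F P P ≠ 0) (hv : D.F P P v = 0)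
    (hw : D.F P P w = 0) (hq : D.F P v v ≠ 0)
    (hΔ : 3 * (D.F P v v) ^ 2 * D.F v w w - 6 * D.F P v v * D.F P v w * D.F v v w
      - D.F P v v * D.F P w w * D.F v v v + 4 * (D.F P v w) ^ 2 * D.F v v v ≠ 0) :
    D.HasInt := by
  have hPX : D.F P P P = 0 := D.K_subset_X hP
  have hcR : Continuous fun t : ℝ => D.tau P (v + t • w) := by
    have h1 : Continuous fun t : ℝ => v + t • w := by fun_prop
    have h2 : Continuous fun t : ℝ => D.F (v + t • w) (v + t • w) (v + t • w) :=
      D.cont_F h1 h1 h1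
    have h3 : Continuous fun t : ℝ => D.F P (v + t • w) (v + t • w) :=
      D.cont_F continuous_const h1 h1
    exact (h2.smul continuous_const).sub ((continuous_const.mul h3).smul h1)
  have hK : ∀ t : ℝ, D.tau P (v + t • w) ∈ D.K := by
    intro t
    refine D.tau_mem_K hP hPs ?_
    rw [map_add, map_smul, hv, hw, smul_zero, add_zero]
  have hR0 : D.tau P (v + (0 : ℝ) • w) = (D.F v v v) • P - (3 * D.F P v v) • v := by
    simp [CubData.tau]
  have hd : HasDerivAt (fun t : ℝ => D.tau P (v + t • w))
      ((3 * D.F v v w) • P - (6 * D.F P v w) • v - (3 * D.F P v v) • w) 0 := by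
    have h1 : HasDerivAt (fun t : ℝ => v + t • w) w 0 := by
      have := ((hasDerivAt_id (0 : ℝ)).smul_const w).const_add v
      simpa using this
    have h2 := D.hasDerivAt_F h1 h1 h1
    have hc : HasDerivAt (fun _ : ℝ => P) (0 : V) 0 := hasDerivAt_const _ _
    have h3 := D.hasDerivAt_F hc h1 h1
    have h4 := (h2.smul_const P).sub ((h3.const_mul 3).smul h1)
    have e : (fun t : ℝ => D.tau P (v + t • w)) =
        fun t : ℝ => D.F (v + t • w) (v + t • w) (v + t • w) • P -
        (3 * D.F P (v + t • w) (v + t • w)) • (v + t • w) := rfl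
    rw [e]
    refine HasDerivAt.congr_deriv (f := fun t : ℝ => D.F (v + t • w) (v + t • w) (v + t • w) • P -
        (3 * D.F P (v + t • w) (v + t • w)) • (v + t • w)) h4 ?_
    simp only [zero_smul, add_zero, map_zero, LinearMap.zero_apply, zero_add]
    have e1 : D.F w v v = D.F v v w := by rw [D.s12 w v v, D.s23 v w v]
    have e2 : D.F v w v = D.F v v w := D.s23 v w v
    have e3 : D.F P w v = D.F P v w := D.s23 P w v
    rw [e1, e2, e3]
    module
  refine D.hasInt_of_arc (R := fun t : ℝ => D.tau P (v + t • w)) (t₀ := 0)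
    (Eventually.of_forall fun t => hcR.continuousAt)
    (Eventually.of_forall hK) ?_ hd ?_
  · rw [hR0]
    intro h
    have h1 := D.nonflat_arc_alg1 hPX hv (D.F v v v) (3 * D.F P v v)
    rw [h] at h1
    have h2 : (D.F P v v) ^ 3 = 0 := by
      have : (0 : ℝ) = (3 * D.F P v v) ^ 2 * D.F P v v := h1
      linarith
    exact hq (by simpa using h2)
  · rw [hR0, D.nonflat_arc_alg2 hPX hv hw]
    intro h
    apply hΔ
    have h1 : -9 * D.F P v v * (3 * (D.F P v v) ^ 2 * D.F v w w -
        6 * D.F P v v * D.F P v w * D.F v v w - D.F P v v * D.F P w w * D.F v v v +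
        4 * (D.F P v w) ^ 2 * D.F v v v) = 0 := by
      rw [← h]; ring
    rcases mul_eq_zero.1 h1 with h2 | h2
    · exact absurd (by linarith : D.F P v v = 0) hq
    · exact h2

end CubData

end Pool.Agent.Lib.MP42.CubicHyp
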