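import Pool.Agent.Lib.MP_42de19_nt.CubicHyp.RatSub
import Pool.Agent.Lib.MP_42de19_nt.CubicHyp.NonflatArc
import Pool.Agent.Lib.MP_42de19_nt.CubicHyp.Delta
import Pool.Agent.Lib.MP_42de19_nt.CubicHyp.LLemma

set_option autoImplicit false

/-! G4: if the interior is empty and some rational smooth point is not flat, then there is a flat
rational smooth point on whose tangent space the cubic form is a cube. -/

namespace Pool.Agent.Lib.MP42.CubicHyp

open Topology Filter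

namespace CubData

variable {V : Type*} [NormedAddCommGroup V] [NormedSpace ℝ V] [FiniteDimensional ℝ V] (D : CubData V)

omit [FiniteDimensional ℝ V] in
theorem dich_polar_zero {M : Submodule ℝ V} (h : ∀ v ∈ M, D.F v v v = 0) {a b c : V} (ha : a ∈ M)
    (hb : b ∈ M) (hc : c ∈ M) : D.F a b c = 0 := by
  have h2 : ∀ a ∈ M, ∀ b ∈ M, D.F a a b = 0 := by
    intro a ha b hb
    have e1 := h _ (M.add_mem ha hb)
    have e2 := h _ (M.sub_mem ha hb)
    rw [F_add, h a ha, h b hb] at e1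
    have e3 : D.F (a - b) (a - b) (a - b) =
        D.F a a a - 3 * D.F a a b + 3 * D.F a b b - D.F b b b := by
      simp only [map_add, map_sub, map_neg, map_smul, map_zero, LinearMap.add_apply, LinearMap.sub_apply, LinearMap.neg_apply, LinearMap.smul_apply, LinearMap.zero_apply, smul_eq_mul, CubData.s12, CubData.s23]; ring
    rw [e3, h a ha, h b hb] at e2
    linarith
  have e1 := h2 _ (M.add_mem ha hb) c hc
  have e2 : D.F (a + b) (a + b) c = D.F a a c + 2 * D.F a b c + D.F b b c := by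
    simp only [map_add, map_sub, map_neg, map_smul, map_zero, LinearMap.add_apply, LinearMap.sub_apply, LinearMap.neg_apply, LinearMap.smul_apply, LinearMap.zero_apply, smul_eq_mul, CubData.s12, CubData.s23]; ring
  rw [e2, h2 a ha c hc, h2 b hb c hc] at e1
  linarith

omit [FiniteDimensional ℝ V] in
theorem dich_ratFun_smul {l : V →ₗ[ℝ] ℝ} (hl : D.RatFun l) {x : ℝ} (hx : ∃ r : ℚ, x = r) :
    D.RatFun (x • l) := by
  intro v hv
  obtain ⟨r, hr⟩ := hl v hv
  obtain ⟨s, hs⟩ := hx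
  exact ⟨s * r, by rw [LinearMap.smul_apply, hr, hs, smul_eq_mul]; push_cast; ring⟩

omit [FiniteDimensional ℝ V] in
theorem dich_ratFun_sub {l l' : V →ₗ[ℝ] ℝ} (hl : D.RatFun l) (hl' : D.RatFun l') :
    D.RatFun (l - l') := by
  intro v hv
  obtain ⟨r, hr⟩ := hl v hv
  obtain ⟨s, hs⟩ := hl' v hv
  exact ⟨r - s, by rw [LinearMap.sub_apply, hr, hs]; push_cast; ring⟩

omit [FiniteDimensional ℝ V] in
theorem dich_F_sub_smul (v e : V) (t : ℝ) : D.F (v - t • e) e e = D.F v e e - t * D.F e e e := by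
  simp only [map_add, map_sub, map_neg, map_smul, map_zero, LinearMap.add_apply, LinearMap.sub_apply, LinearMap.neg_apply, LinearMap.smul_apply, LinearMap.zero_apply, smul_eq_mul, CubData.s12, CubData.s23]

omit [FiniteDimensional ℝ V] in
theorem dich_F_smul_add (l e : V) (κ : ℝ) : D.F (κ • l + e) (κ • l + e) l =
    κ ^ 2 * D.F l l l + 2 * κ * D.F l l e + D.F l e e := by
  simp only [map_add, map_sub, map_neg, map_smul, map_zero, LinearMap.add_apply, LinearMap.sub_apply, LinearMap.neg_apply, LinearMap.smul_apply, LinearMap.zero_apply, smul_eq_mul, CubData.s12, CubData.s23]; ring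

omit [FiniteDimensional ℝ V] in
theorem dich_F_add_smul (R l e : V) (t : ℝ) : D.F R (l + t • e) (l + t • e) =
    D.F R l l + 2 * t * D.F R l e + t ^ 2 * D.F R e e := by
  simp only [map_add, map_sub, map_neg, map_smul, map_zero, LinearMap.add_apply, LinearMap.sub_apply, LinearMap.neg_apply, LinearMap.smul_apply, LinearMap.zero_apply, smul_eq_mul, CubData.s12, CubData.s23]; ring

theorem exists_flat_cube (hdim : 4 ≤ Module.finrank ℝ V)
    (hI : ¬ D.HasInt) (hdbl : D.NoRatDouble) {P : V} (hP : P ∈ D.Q) (hPX : D.F P P P = 0)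
    (hPs : D.F P P ≠ 0) (hnf : ¬ D.Flat P) :
    ∃ R ∈ D.Q, D.F R R R = 0 ∧ D.F R R ≠ 0 ∧ D.Flat R ∧
      ∃ (l : V →ₗ[ℝ] ℝ) (γ : ℝ), ∀ v, D.F R R v = 0 → D.F v v v = γ * (l v) ^ 3 := by
  have hPK : P ∈ D.K := D.ratX_subset_K ⟨hP, hPX⟩
  have hΔ : ∀ v' w', D.F P P v' = 0 → D.F P P w' = 0 → D.F P v' v' ≠ 0 →
      3 * (D.F P v' v') ^ 2 * D.F v' w' w' - 6 * D.F P v' v' * D.F P v' w' * D.F v' v' w'
      - D.F P v' v' * D.F P w' w' * D.F v' v' v' + 4 * (D.F P v' w') ^ 2 * D.F v' v' v' = 0 := by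
    intro v' w' h1 h2 h3
    by_contra h4
    exact hI (D.nonflat_arc hPK hPs h1 h2 h3 h4)
  -- a rational tangent vector `v0` with `q(v0) ≠ 0`
  obtain ⟨v0, hv0Q, hv0T, hq0⟩ : ∃ v0 ∈ D.Q, D.F P P v0 = 0 ∧ D.F P v0 v0 ≠ 0 := by
    unfold Flat at hnf
    push Not at hnf
    obtain ⟨v, hv1, hv2⟩ := hnf
    have h1 := D.dense_ker (D.ratFun_F hP hP) hv1
    rw [mem_closure_iff] at h1
    obtain ⟨u, hu1, hu2, hu3⟩ := h1 {u | D.F P u u ≠ 0}
      (isOpen_ne_fun (D.cont_F continuous_const continuous_id continuous_id) continuous_const) hv2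
    exact ⟨u, hu2, hu3, hu1⟩
  set q0 : ℝ := D.F P v0 v0 with hq0d
  set c0 : ℝ := D.F v0 v0 v0 with hc0d
  have rq0 : ∃ r : ℚ, q0 = r := D.ratQ P hP v0 hv0Q v0 hv0Q
  have rc0 : ∃ r : ℚ, c0 = r := D.ratQ v0 hv0Q v0 hv0Q v0 hv0Q
  -- the functional `lam`
  let lam : V →ₗ[ℝ] ℝ := (1 / q0) • D.F v0 v0 - (2 * c0 / (3 * q0 ^ 2)) • D.F P v0
  have hlam : ∀ v, lam v = (1 / q0) * D.F v0 v0 v - (2 * c0 / (3 * q0 ^ 2)) * D.F P v0 v := by
    intro v; rfl
  have rlam : D.RatFun lam := by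
    obtain ⟨a, ha⟩ := rq0
    obtain ⟨b, hb⟩ := rc0
    refine D.dich_ratFun_sub (D.dich_ratFun_smul (D.ratFun_F hv0Q hv0Q) ⟨1 / a, ?_⟩)
      (D.dich_ratFun_smul (D.ratFun_F hP hv0Q) ⟨2 * b / (3 * a ^ 2), ?_⟩)
    · rw [ha]; push_cast; ring
    · rw [ha, hb]; push_cast; ring
  have hcub : ∀ w, D.F P P w = 0 → D.F w w w = 3 * D.F P w w * lam w := by
    intro w hw
    have h1 := D.delta_coeff hv0T hw hq0 hΔ
    rw [hlam]
    rw [← hq0d, ← hc0d] at h1
    field_simp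
    linear_combination h1
  have hlamP : lam P = 1 := by
    rw [hlam]
    have h1 : D.F v0 v0 P = q0 := by
      rw [hq0d, D.s23 v0 v0 P, D.s12 v0 P v0]
    have h2 : D.F P v0 P = 0 := by
      rw [D.s23 P v0 P]; exact hv0T
    rw [h1, h2, mul_zero, sub_zero, one_div, inv_mul_cancel₀ hq0]
  have rL : D.RatFun (D.F P P) := D.ratFun_F hP hP
  -- the subspace `M`
  let M : Submodule ℝ V := (⊤ ⊓ LinearMap.ker (D.F P P)) ⊓ LinearMap.ker lam
  have hM : ∀ v, v ∈ M ↔ D.F P P v = 0 ∧ lam v = 0 := by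
    intro v
    simp [M, Submodule.mem_inf, LinearMap.mem_ker]
  have rM : D.RatSub M := (D.ratSub_top.inf_ker rL).inf_ker rlam
  have hFM : ∀ v ∈ M, D.F v v v = 0 := by
    intro v hv
    rw [hcub v ((hM v).1 hv).1, ((hM v).1 hv).2, mul_zero]
  have hMK : (M : Set V) ⊆ D.K := rM.subset_K hFM
  obtain ⟨R0, hR0Q, hR0, hR01, hR02, _⟩ := D.exists_three_Q hdim rL rlam rlam
  have hR0M : R0 ∈ M := (hM R0).2 ⟨hR01, hR02⟩
  have hR0s : D.F R0 R0 ≠ 0 := hdbl R0 hR0Q hR0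
  have rl0 : D.RatFun (D.F R0 R0) := D.ratFun_F hR0Q hR0Q
  have hl0M : ∀ v ∈ M, D.F R0 R0 v = 0 := fun v hv => D.dich_polar_zero hFM hR0M hR0M hv
  have hdir : ∀ ρ ∈ M, ∀ ρ' ∈ M, ∃ c : ℝ, D.F ρ ρ' = c • D.F R0 R0 :=
    fun ρ hρ ρ' hρ' => D.const_dir hMK hI hR0M hR0s hρ hρ'
  -- `e1`
  obtain ⟨e', he'Q, he'⟩ := D.exists_mem_Q_ne hPs
  set e1 : V := (1 / D.F P P e') • e' - (lam ((1 / D.F P P e') • e')) • P with he1d
  have re'' : (1 / D.F P P e') • e' ∈ D.Q := by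
    obtain ⟨r, hr⟩ := rL e' he'Q
    exact D.smul_mem_Q he'Q ⟨1 / r, by rw [hr]; push_cast; ring⟩
  have he1Q : e1 ∈ D.Q := D.sub_mem_Q re'' (D.smul_mem_Q hP (rlam _ re''))
  have hLe1 : D.F P P e1 = 1 := by
    rw [he1d, map_sub, map_smul, map_smul, hPX, smul_eq_mul, smul_eq_mul, mul_zero, sub_zero,
      one_div, inv_mul_cancel₀ he']
  have hlame1 : lam e1 = 0 := by
    rw [he1d, map_sub, map_smul lam (lam _) P, hlamP, smul_eq_mul, mul_one, sub_self]
  have hLP : D.F P P P = 0 := hPX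
  set α : ℝ := D.F R0 R0 e1 with hα
  set β : ℝ := D.F R0 R0 P with hβ
  have rα : ∃ r : ℚ, α = r := rl0 e1 he1Q
  have rβ : ∃ r : ℚ, β = r := rl0 P hP
  have hl0 : ∀ v, D.F R0 R0 v = D.F P P v * α + lam v * β := by
    intro v
    have h1 : v - (D.F P P v) • e1 - (lam v) • P ∈ M := by
      rw [hM]
      refine ⟨?_, ?_⟩
      · rw [map_sub, map_sub, map_smul, map_smul, hLe1, hLP]
        simp
      · rw [map_sub, map_sub, map_smul, map_smul, hlame1, hlamP]
        simp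
    have h2 := hl0M _ h1
    rw [map_sub, map_sub, map_smul, map_smul, ← hα, ← hβ, smul_eq_mul, smul_eq_mul] at h2
    linarith
  have hN : α ^ 2 + β ^ 2 ≠ 0 := by
    intro h
    have h1 : α = 0 := by nlinarith [sq_nonneg α, sq_nonneg β]
    have h2 : β = 0 := by nlinarith [sq_nonneg α, sq_nonneg β]
    apply hR0s
    ext v
    rw [hl0 v, h1, h2]
    simp
  set e : V := β • e1 - α • P with hed
  have heQ : e ∈ D.Q := D.sub_mem_Q (D.smul_mem_Q he1Q rβ) (D.smul_mem_Q hP rα)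
  have hl0e : D.F R0 R0 e = 0 := by
    rw [hed, map_sub, map_smul, map_smul, ← hα, ← hβ, smul_eq_mul, smul_eq_mul]
    ring
  have hLe : D.F P P e = β := by
    rw [hed, map_sub, map_smul, map_smul, hLe1, hLP]
    simp
  have hlame : lam e = -α := by
    rw [hed, map_sub, map_smul, map_smul, hlame1, hlamP]
    simp
  let s : V →ₗ[ℝ] ℝ := (β / (α ^ 2 + β ^ 2)) • D.F P P - (α / (α ^ 2 + β ^ 2)) • lam
  have hs : ∀ v, s v = (β / (α ^ 2 + β ^ 2)) * D.F P P v - (α / (α ^ 2 + β ^ 2)) * lam v :=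
    fun v => rfl
  have rs : D.RatFun s := by
    obtain ⟨a, ha⟩ := rα
    obtain ⟨b, hb⟩ := rβ
    refine D.dich_ratFun_sub (D.dich_ratFun_smul rL ⟨b / (a ^ 2 + b ^ 2), ?_⟩)
      (D.dich_ratFun_smul rlam ⟨a / (a ^ 2 + b ^ 2), ?_⟩)
    · rw [ha, hb]; push_cast; ring
    · rw [ha, hb]; push_cast; ring
  have hse : s e = 1 := by
    rw [hs, hLe, hlame]
    field_simp
    ring
  have hsM : ∀ v ∈ M, s v = 0 := by
    intro v hv
    rw [hs, ((hM v).1 hv).1, ((hM v).1 hv).2]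
    ring
  have hdec : ∀ v, D.F R0 R0 v = 0 → v - s v • e ∈ M := by
    intro v hv
    rw [hl0 v] at hv
    rw [hM]
    refine ⟨?_, ?_⟩
    · rw [map_sub, map_smul, hLe, smul_eq_mul, hs]
      field_simp
      linear_combination α * hv
    · rw [map_sub, map_smul, hlame, smul_eq_mul, hs]
      field_simp
      linear_combination β * hv
  have hlle : ∀ l ∈ M, ∀ l' ∈ M, D.F l l' e = 0 := by
    intro l hl l' hl'
    obtain ⟨c, hc⟩ := hdir l hl l' hl'
    rw [hc, LinearMap.smul_apply, hl0e, smul_zero]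
  have hFv : ∀ l ∈ M, ∀ t : ℝ, D.F (l + t • e) (l + t • e) (l + t • e) =
      3 * t ^ 2 * D.F l e e + t ^ 3 * D.F e e e := by
    intro l hl t
    have h1 := D.F_comb l e 1 t
    rw [one_smul] at h1
    rw [h1, hFM l hl, hlle l hl l hl]
    ring
  by_cases hm : ∀ l ∈ M, D.F l e e = 0
  · -- case A
    refine ⟨R0, hR0Q, hFM R0 hR0M, hR0s, ?_, s, D.F e e e, ?_⟩
    · intro v hv
      have h1 := hdec v hv
      obtain ⟨l, hl, hvl⟩ : ∃ l ∈ M, v = l + s v • e := ⟨_, h1, by abel⟩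
      rw [hvl]
      generalize s v = t
      rw [D.dich_F_add_smul, D.dich_polar_zero hFM hR0M hl hl, hlle R0 hR0M l hl, hm R0 hR0M]
      ring
    · intro v hv
      have h1 := hdec v hv
      have h2 := hFv _ h1 (s v)
      rw [sub_add_cancel, hm _ h1] at h2
      rw [h2]
      ring
  · -- case B
    exfalso
    push Not at hm
    obtain ⟨l1, hl1, hm1⟩ := hm
    have rFe : ∃ r : ℚ, D.F e e e = r := D.ratQ e heQ e heQ e heQ
    let t1 : V →ₗ[ℝ] ℝ := (3 : ℝ) • D.F e e - (2 * D.F e e e) • s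
    have ht1 : ∀ v, t1 v = 3 * D.F e e v - (2 * D.F e e e) * s v := fun v => rfl
    have rt1 : D.RatFun t1 := by
      refine D.dich_ratFun_sub (D.dich_ratFun_smul (D.ratFun_F heQ heQ) ⟨3, by norm_num⟩)
        (D.dich_ratFun_smul rs ?_)
      obtain ⟨r, hr⟩ := rFe
      exact ⟨2 * r, by rw [hr]; push_cast; ring⟩
    let M1 : Submodule ℝ V := (⊤ ⊓ LinearMap.ker (D.F R0 R0)) ⊓ LinearMap.ker t1
    have hM1 : ∀ v, v ∈ M1 ↔ D.F R0 R0 v = 0 ∧ t1 v = 0 := by
      intro v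
      simp [M1, Submodule.mem_inf, LinearMap.mem_ker]
    have rM1 : D.RatSub M1 := (D.ratSub_top.inf_ker rl0).inf_ker rt1
    have hee : ∀ v, D.F e e v = D.F v e e := fun v => by
      rw [D.s23 e e v, D.s12 e v e]
    have hFM1 : ∀ v ∈ M1, D.F v v v = 0 := by
      intro v hv
      obtain ⟨h1, h2⟩ := (hM1 v).1 hv
      have h3 := hdec v h1
      have h4 := hFv _ h3 (s v)
      rw [sub_add_cancel] at h4
      rw [h4]
      rw [ht1, hee] at h2
      have h5 : D.F v e e = D.F (v - s v • e) e e + s v * D.F e e e := by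
        rw [D.dich_F_sub_smul v e (s v)]; ring
      rw [h5] at h2
      linear_combination (s v) ^ 2 * h2
    have hM1K : (M1 : Set V) ⊆ D.K := rM1.subset_K hFM1
    obtain ⟨R, hRQ, hR0', hR1, hR2, hR3⟩ := D.exists_three_Q hdim rL rlam (D.ratFun_F heQ heQ)
    have hRM : R ∈ M := (hM R).2 ⟨hR1, hR2⟩
    have hRM1 : R ∈ M1 := by
      rw [hM1]
      refine ⟨hl0M R hRM, ?_⟩
      rw [ht1, hR3, hsM R hRM]
      ring
    have hRs : D.F R R ≠ 0 := hdbl R hRQ hR0'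
    set κ : ℝ := -(D.F e e e / (3 * D.F l1 e e)) with hκ
    have hκl : κ • l1 ∈ M := M.smul_mem κ hl1
    have hρM1 : κ • l1 + e ∈ M1 := by
      rw [hM1]
      refine ⟨?_, ?_⟩
      · rw [map_add, hl0M _ hκl, hl0e, add_zero]
      · rw [ht1, map_add, map_add s, hsM _ hκl, hse, map_smul, hee l1, smul_eq_mul, hκ]
        field_simp
        ring
    obtain ⟨c, hc⟩ := D.const_dir hM1K hI hRM1 hRs hρM1 hρM1
    have h1 : D.F (κ • l1 + e) (κ • l1 + e) l1 = 0 := by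
      rw [hc, LinearMap.smul_apply, D.dich_polar_zero hFM hRM hRM hl1, smul_zero]
    rw [D.dich_F_smul_add, hFM l1 hl1, hlle l1 hl1 l1 hl1] at h1
    apply hm1
    linarith

end CubData

end Pool.Agent.Lib.MP42.CubicHyp
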