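import Pool.Agent.Lib.MP_42de19_nt.CubicHyp.Tangent

set_option autoImplicit false

/-! A rational double point gives interior (E1). -/

namespace Pool.Agent.Lib.MP42.CubicHyp

open Topology Filter

namespace CubData

variable {V : Type*} [NormedAddCommGroup V] [NormedSpace ℝ V] [FiniteDimensional ℝ V] (D : CubData V)

theorem hasInt_of_double {a : V} (ha : a ∈ D.Q) (h1 : D.F a a = 0) (h2 : D.F a ≠ 0) :
    D.HasInt := by
  -- a direction with `F a v v ≠ 0`
  obtain ⟨v, hv⟩ : ∃ v, D.F a v v ≠ 0 := by
    by_contra hcon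
    push Not at hcon
    apply h2
    ext u w
    have e1 := hcon (u + w)
    have e2 := hcon u
    have e3 := hcon w
    have e4 : D.F a (u + w) (u + w) = D.F a u u + 2 * D.F a u w + D.F a w w := by
      simp only [map_add, LinearMap.add_apply]
      rw [D.s23 a w u]; ring
    rw [e4, e2, e3] at e1
    simp only [LinearMap.zero_apply]
    linarith
  have ha0 : ∀ u, D.F a a u = 0 := fun u => by rw [h1]; rfl
  obtain ⟨y, hy⟩ : ∃ y, y = v - (D.F v v v / (3 * D.F a v v)) • a := ⟨_, rfl⟩
  have f1 : D.F a y y = D.F a v v := by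
    have e : D.F a y y = D.F a v v - 2 * (D.F v v v / (3 * D.F a v v)) * D.F a a v +
        (D.F v v v / (3 * D.F a v v)) ^ 2 * D.F a a a := by
      rw [hy]; simp only [map_add, map_sub, map_neg, map_smul, map_zero, LinearMap.add_apply, LinearMap.sub_apply, LinearMap.neg_apply, LinearMap.smul_apply, LinearMap.zero_apply, smul_eq_mul, CubData.s12, CubData.s23]; ring
    rw [e, ha0, ha0]; ring
  have f2 : D.F y y y = 0 := by
    have e : D.F y y y = D.F v v v - 3 * (D.F v v v / (3 * D.F a v v)) * D.F a v v +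
        3 * (D.F v v v / (3 * D.F a v v)) ^ 2 * D.F a a v -
          (D.F v v v / (3 * D.F a v v)) ^ 3 * D.F a a a := by
      rw [hy]; simp only [map_add, map_sub, map_neg, map_smul, map_zero, LinearMap.add_apply, LinearMap.sub_apply, LinearMap.neg_apply, LinearMap.smul_apply, LinearMap.zero_apply, smul_eq_mul, CubData.s12, CubData.s23]; ring
    rw [e, ha0, ha0]; field_simp; ring
  refine ⟨y, ⟨f2, ?_⟩, {z | D.F a z z ≠ 0}, ?_, ?_, ?_⟩
  · intro h
    have h3 : D.F y y a = D.F a y y := by rw [D.s23 y y a, D.s12 y a y]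
    rw [h] at h3
    rw [f1] at h3
    exact hv h3.symm
  · exact isOpen_ne.preimage (D.cont_F continuous_const continuous_id continuous_id)
  · show D.F a y y ≠ 0
    rw [f1]; exact hv
  · rintro z ⟨hz, hzX⟩
    exact D.mem_K_of_double ha h1 hzX hz

end CubData

end Pool.Agent.Lib.MP42.CubicHyp
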