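import Pool.Agent.Lib.MP_42de19_nt.CubicHyp.Basic

set_option autoImplicit false

/-! Cubic hypersurfaces (MP_42de19_nt), piece H8: the final contradiction (helper99). -/

namespace Pool.Agent.Lib.MP42.CubicHyp

open Topology Filter

namespace CubData

variable {V : Type*} [NormedAddCommGroup V] [NormedSpace ℝ V] [FiniteDimensional ℝ V] {D : CubData V}

private theorem final_three (hdim : 4 ≤ Module.finrank ℝ V)
    (l₁ l₂ l₃ : V →ₗ[ℝ] ℝ) : ∃ v : V, v ≠ 0 ∧ l₁ v = 0 ∧ l₂ v = 0 ∧ l₃ v = 0 := by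
  let f : V →ₗ[ℝ] (Fin 3 → ℝ) := LinearMap.pi ![l₁, l₂, l₃]
  have h1 : LinearMap.ker f ≠ ⊥ := by
    apply LinearMap.ker_ne_bot_of_finrank_lt
    rw [Module.finrank_fin_fun]
    omega
  obtain ⟨v, hv, hv0⟩ := Submodule.exists_mem_ne_zero_of_ne_bot h1
  have h2 : f v = 0 := hv
  refine ⟨v, hv0, ?_, ?_, ?_⟩
  · exact congrFun h2 0
  · exact congrFun h2 1
  · exact congrFun h2 2

/-- admissibility is open along lines -/
private theorem final_open {P : V} {μ : V →ₗ[ℝ] ℝ} {w₁ h₁ : V} (h1 : D.Adm P μ w₁ h₁) {g k : V}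
    (hg : μ g = 0) (hg' : D.F P P g = 0) (hk : μ k = 0) (hk' : D.F P P k = 0) :
    ∀ᶠ p : ℝ × ℝ in 𝓝 (0, 0), D.Adm P μ (w₁ + p.1 • g) (h₁ + p.2 • k) := by
  have cw : Continuous fun p : ℝ × ℝ => w₁ + p.1 • g := by fun_prop
  have ch : Continuous fun p : ℝ × ℝ => h₁ + p.2 • k := by fun_prop
  have c1 := D.cont_F cw cw cw
  have c2 := D.cont_F ch ch ch
  have c3 := D.cont_F cw ch ch
  have c4 := D.cont_F cw cw ch
  have z1 : (fun p : ℝ × ℝ => w₁ + p.1 • g) (0, 0) = w₁ := by simp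
  have z2 : (fun p : ℝ × ℝ => h₁ + p.2 • k) (0, 0) = h₁ := by simp
  have e1 : ∀ᶠ p : ℝ × ℝ in 𝓝 (0, 0), D.F (w₁ + p.1 • g) (w₁ + p.1 • g) (w₁ + p.1 • g) < 0 := by
    refine c1.continuousAt.eventually_lt_const ?_
    simpa using h1.Cw
  have e2 : ∀ᶠ p : ℝ × ℝ in 𝓝 (0, 0), D.F (h₁ + p.2 • k) (h₁ + p.2 • k) (h₁ + p.2 • k) ≠ 0 := by
    refine c2.continuousAt.eventually_ne ?_
    simpa using h1.Ch
  have c5 : ContinuousAt (fun p : ℝ × ℝ => D.Xi (w₁ + p.1 • g) (h₁ + p.2 • k) (h₁ + p.2 • k))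
      (0, 0) := by
    unfold Xi
    refine c3.continuousAt.sub (((continuousAt_const.mul c4.continuousAt).mul
      c4.continuousAt).div (continuousAt_const.mul c1.continuousAt) ?_)
    simpa using h1.Cw.ne
  have e3 : ∀ᶠ p : ℝ × ℝ in 𝓝 (0, 0),
      D.Xi (w₁ + p.1 • g) (h₁ + p.2 • k) (h₁ + p.2 • k) ≠ 0 := by
    refine c5.eventually_ne ?_
    simpa using h1.Xih
  have e4 : ∀ᶠ p : ℝ × ℝ in 𝓝 (0, 0),
      -2 * D.F (w₁ + p.1 • g) (w₁ + p.1 • g) (w₁ + p.1 • g)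
        * D.F (h₁ + p.2 • k) (h₁ + p.2 • k) (h₁ + p.2 • k)
      + 9 * D.Xi (w₁ + p.1 • g) (h₁ + p.2 • k) (h₁ + p.2 • k)
        * D.F (w₁ + p.1 • g) (w₁ + p.1 • g) (h₁ + p.2 • k) ≠ 0 := by
    refine ContinuousAt.eventually_ne (((continuousAt_const.mul c1.continuousAt).mul
      c2.continuousAt).add ((continuousAt_const.mul c5).mul c4.continuousAt)) ?_
    simpa using h1.b0
  filter_upwards [e1, e2, e3, e4] with p a1 a2 a3 a4
  exact
    { μw := by rw [map_add, map_smul, h1.μw, hg]; simp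
      Lw := by rw [map_add, map_smul, h1.Lw, hg']; simp
      Cw := a1
      μh := by rw [map_add, map_smul, h1.μh, hk]; simp
      Lh := by rw [map_add, map_smul, h1.Lh, hk']; simp
      Ch := a2
      Xih := a3
      b0 := a4 }

theorem FlatData.final (hdim : 4 ≤ Module.finrank ℝ V)
    {P : V} {μ : V →ₗ[ℝ] ℝ} (hP : D.FlatData P μ) (hV : D.NoVertex) {w₁ h₁ : V}
    (h1 : D.Adm P μ w₁ h₁)
    (hstar : ∀ w h h' g ρ, D.Adm P μ w h → μ h' = 0 → D.F P P h' = 0 → D.F P P g = 0 →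
      ρ = (D.Xi w h h * D.F h h h) • h' +
        (2 * D.Xi w h h' * D.F h h h - 3 * D.Xi w h h * D.F h h h') • h → D.F ρ g g = 0) :
    False := by
  obtain ⟨h', hh0, hL', hμ', hν'⟩ := final_three hdim (D.F P P) μ (D.F h₁ h₁)
  have hC := h1.Ch
  have hX := h1.Xih
  -- the vector k
  obtain ⟨k, hk⟩ : ∃ k, k = (D.Xi w₁ h₁ h₁ * D.F h₁ h₁ h₁) • h' +
      (2 * D.Xi w₁ h₁ h' * D.F h₁ h₁ h₁ - 3 * D.Xi w₁ h₁ h₁ * D.F h₁ h₁ h') • h₁ := ⟨_, rfl⟩
  have hkL : D.F P P k = 0 := by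
    rw [hk, map_add, map_smul, map_smul, hL', h1.Lh]; simp
  have hkμ : μ k = 0 := by
    rw [hk, map_add, map_smul, map_smul, hμ', h1.μh]; simp
  have hk0 : k ≠ 0 := by
    intro h0
    have e1 : D.F h₁ h₁ k = 0 := by rw [h0, map_zero]
    rw [hk, map_add, map_smul, map_smul, hν', smul_zero, zero_add, mul_zero, sub_zero,
      smul_eq_mul] at e1
    have e2 : 2 * D.Xi w₁ h₁ h' * D.F h₁ h₁ h₁ = 0 := by
      rcases mul_eq_zero.mp e1 with h | h
      · exact h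
      · exact absurd h hC
    rw [hk, hν', mul_zero, sub_zero, e2, zero_smul, add_zero] at h0
    rcases smul_eq_zero.mp h0 with h | h
    · rcases mul_eq_zero.mp h with h | h
      · exact hX h
      · exact hC h
    · exact hh0 h
  have hkg : ∀ g, D.F P P g = 0 → D.F k g g = 0 := fun g hg =>
    hstar w₁ h₁ h' g k h1 hμ' hL' hg hk
  have hkgg : ∀ g g', D.F P P g = 0 → D.F P P g' = 0 → D.F k g g' = 0 := by
    intro g g' hg hg'
    have e := hkg (g + g') (by rw [map_add, hg, hg', add_zero])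
    simp only [map_add, LinearMap.add_apply] at e
    rw [hkg g hg, hkg g' hg', D.s23 k g' g] at e
    linarith
  -- the quadratic relation
  have hQ : ∀ w h, D.Adm P μ w h →
      4 * D.F w w w * D.F w h k - 3 * D.F w w h * D.F w w k = 0 := by
    intro w h hA
    have e1 := hstar w h k h _ hA hkμ hkL hA.Lh rfl
    have e2 : D.F k h h = 0 := hkg h hA.Lh
    have e3 : D.F h h k = 0 := by rw [D.s23 h h k, D.s12 h k h]; exact e2
    rw [e3, mul_zero, sub_zero] at e1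
    simp only [map_add, map_smul, LinearMap.add_apply, LinearMap.smul_apply, smul_eq_mul] at e1
    rw [e2, mul_zero, zero_add] at e1
    have hCh := hA.Ch
    have e4 : D.Xi w h k = 0 := by
      rcases mul_eq_zero.mp e1 with h5 | h5
      · rcases mul_eq_zero.mp h5 with h6 | h6
        · linarith
        · exact absurd h6 hCh
      · exact absurd h5 hCh
    have hCw : D.F w w w ≠ 0 := hA.Cw.ne
    unfold Xi at e4
    have e5 : D.F w h k = 3 * D.F w w h * D.F w w k / (4 * D.F w w w) := by linarith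
    rw [e5]
    field_simp
    ring
  -- along lines
  have hline : ∀ g, μ g = 0 → D.F P P g = 0 → ∃ δ : ℝ, 0 < δ ∧ ∀ t : ℝ, |t| < δ →
      4 * D.F (w₁ + t • g) (w₁ + t • g) (w₁ + t • g) * D.F (w₁ + t • g) k k
        - 3 * D.F (w₁ + t • g) (w₁ + t • g) k ^ 2 = 0 := by
    intro g hg hg'
    have h2 := final_open h1 hg hg' hkμ hkL
    rw [nhds_prod_eq, Filter.eventually_prod_iff] at h2
    obtain ⟨pa, hpa, pb, hpb, hab⟩ := h2
    obtain ⟨δ, hδ, hδ'⟩ := Metric.eventually_nhds_iff.mp hpa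
    obtain ⟨δ2, hδ2, hδ2'⟩ := Metric.eventually_nhds_iff.mp hpb
    refine ⟨δ, hδ, fun t ht => ?_⟩
    have ha : pa t := hδ' (by rwa [Real.dist_eq, sub_zero])
    have hb0 : pb 0 := hδ2' (by rwa [dist_self])
    have hb1 : pb (δ2 / 2) := hδ2' (by rw [Real.dist_eq, sub_zero, abs_of_pos (by linarith)]; linarith)
    have q0 := hQ _ _ (hab ha hb0)
    have q1 := hQ _ _ (hab ha hb1)
    simp only [zero_smul, add_zero] at q0
    simp only [map_add, map_smul, LinearMap.add_apply, LinearMap.smul_apply, smul_eq_mul] at q0 q1 ⊢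
    have hδ3 : δ2 / 2 ≠ 0 := by linarith
    apply mul_left_cancel₀ hδ3
    rw [mul_zero]
    linear_combination q1 - q0
  -- g = h₁
  have hw1kk : D.F w₁ k k = 0 := by
    obtain ⟨δ, hδ, hl⟩ := hline h₁ h1.μh h1.Lh
    have q0 := hl 0 (by rw [abs_zero]; exact hδ)
    have q1 := hl (δ / 4) (by rw [abs_of_pos (by linarith)]; linarith)
    have q2 := hl (2 * (δ / 4)) (by rw [abs_of_pos (by linarith)]; linarith)
    have q3 := hl (3 * (δ / 4)) (by rw [abs_of_pos (by linarith)]; linarith)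
    have z1 : D.F h₁ k k = 0 := by rw [D.s12]; exact hkgg _ _ h1.Lh hkL
    have z2 : D.F h₁ h₁ k = 0 := by rw [D.s23, D.s12]; exact hkgg _ _ h1.Lh h1.Lh
    have s1 : D.F h₁ w₁ k = D.F w₁ h₁ k := D.s12 _ _ _
    have s2 : D.F h₁ w₁ w₁ = D.F w₁ w₁ h₁ := by rw [D.s12, D.s23]
    have s3 : D.F w₁ h₁ w₁ = D.F w₁ w₁ h₁ := D.s23 _ _ _
    have s4 : D.F h₁ w₁ h₁ = D.F w₁ h₁ h₁ := D.s12 _ _ _
    have s5 : D.F h₁ h₁ w₁ = D.F w₁ h₁ h₁ := by rw [D.s23, D.s12]
    simp only [map_add, map_smul, LinearMap.add_apply, LinearMap.smul_apply, smul_eq_mul, z1, z2,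
      s1, s2, s3, s4, s5, zero_mul, mul_zero, add_zero] at q0 q1 q2 q3
    have hδ3 : (δ / 4) ≠ 0 := by linarith
    have e : (24 * (δ / 4) ^ 3 * D.F h₁ h₁ h₁) * D.F w₁ k k = 0 := by
      linear_combination q3 - 3 * q2 + 3 * q1 - q0
    rcases mul_eq_zero.mp e with h | h
    · exfalso
      rcases mul_eq_zero.mp h with h | h
      · exact absurd h (by positivity)
      · exact hC h
    · exact h
  -- general g
  have hgen : ∀ g, μ g = 0 → D.F P P g = 0 → D.F w₁ w₁ k = 0 ∧ D.F w₁ g k = 0 := by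
    intro g hg hg'
    obtain ⟨δ, hδ, hl⟩ := hline g hg hg'
    have q0 := hl 0 (by rw [abs_zero]; exact hδ)
    have q1 := hl (δ / 2) (by rw [abs_of_pos (by linarith)]; linarith)
    have z1 : D.F g k k = 0 := by rw [D.s12]; exact hkgg _ _ hg' hkL
    have z2 : D.F g g k = 0 := by rw [D.s23, D.s12]; exact hkgg _ _ hg' hg'
    have s1 : D.F g w₁ k = D.F w₁ g k := D.s12 _ _ _
    simp only [map_add, map_smul, LinearMap.add_apply, LinearMap.smul_apply, smul_eq_mul, z1, z2,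
      s1, hw1kk, zero_mul, mul_zero, add_zero, zero_sub, neg_eq_zero] at q0 q1
    have e0 : D.F w₁ w₁ k = 0 := by
      have : D.F w₁ w₁ k ^ 2 = 0 := by linarith
      exact pow_eq_zero_iff (two_ne_zero) |>.mp this
    refine ⟨e0, ?_⟩
    rw [e0] at q1
    have e1 : (δ * D.F w₁ g k) ^ 2 = 0 := by
      linear_combination (1 / 3) * q1
    have e2 := pow_eq_zero_iff (two_ne_zero) |>.mp e1
    rcases mul_eq_zero.mp e2 with h | h
    · exact absurd h hδ.ne'
    · exact h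
  -- conclusion: F k = 0
  apply hV k hk0
  have hdec : ∀ v : V, ∃ g, μ g = 0 ∧ D.F P P g = 0 ∧ v = μ v • P + (D.F P P v) • w₁ + g := by
    intro v
    refine ⟨v - μ v • P - (D.F P P v) • w₁, ?_, ?_, by abel⟩
    · rw [map_sub, map_sub, map_smul, map_smul, hP.one, h1.μw]; simp
    · rw [map_sub, map_sub, map_smul, map_smul, hP.zero, h1.Lw]; simp
  have hkP : ∀ v, D.F k P v = 0 := by
    intro v
    rw [D.s12, hP.flat k v, hkμ, hkL]; simp
  have hww : D.F k w₁ w₁ = 0 := by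
    rw [D.s12, D.s23]; exact (hgen k hkμ hkL).1
  have hwg : ∀ g, μ g = 0 → D.F P P g = 0 → D.F k w₁ g = 0 := by
    intro g hg hg'
    rw [D.s12, D.s23]; exact (hgen g hg hg').2
  ext a b
  obtain ⟨g, hg1, hg2, hg3⟩ := hdec a
  obtain ⟨g', hg1', hg2', hg3'⟩ := hdec b
  rw [hg3, hg3']
  simp only [map_add, map_smul, LinearMap.add_apply, LinearMap.smul_apply, smul_eq_mul, hkP, hww,
    hwg g' hg1' hg2', D.s23 k _ P, hkgg g g' hg2 hg2', D.s23 k g w₁, hwg g hg1 hg2]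
  simp

end CubData

end Pool.Agent.Lib.MP42.CubicHyp
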