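import Pool.Agent.Lib.MP_42de19_nt.CubicHyp.Basic

set_option autoImplicit false

namespace Pool.Agent.Lib.MP42.CubicHyp

open Topology Filter

namespace CubData

variable {V : Type*} [NormedAddCommGroup V] [NormedSpace ℝ V] [FiniteDimensional ℝ V]
  (D : CubData V)

private theorem exists_memQ_ne_aux {l : V →ₗ[ℝ] ℝ} (hl : l ≠ 0) : ∃ e ∈ D.Q, l e ≠ 0 := by
  obtain ⟨v, hv⟩ : ∃ v, l v ≠ 0 := by
    by_contra hcon
    push Not at hcon
    exact hl (LinearMap.ext fun u => by simpa using hcon u)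
  have hopen : IsOpen {v : V | l v ≠ 0} :=
    isOpen_ne_fun (continuous_lin l) continuous_const
  obtain ⟨e, he, heQ⟩ := D.denseQ.exists_mem_open hopen ⟨v, hv⟩
  exact ⟨e, he, heQ⟩

theorem Flat.exists_data {P : V} (hP : P ∈ D.Q) (hPX : D.F P P P = 0)
    (hPs : D.F P P ≠ 0) (hf : D.Flat P) : ∃ μ : V →ₗ[ℝ] ℝ, D.FlatData P μ := by
  obtain ⟨e₀, he₀, hne⟩ := exists_memQ_ne_aux D hPs
  obtain ⟨r, hr⟩ := D.ratQ P hP P hP e₀ he₀
  obtain ⟨e, he, hLe⟩ : ∃ e ∈ D.Q, D.F P P e = 1 := by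
    refine ⟨((r⁻¹ : ℚ) : ℝ) • e₀, D.smulQ _ _ he₀, ?_⟩
    rw [map_smul, smul_eq_mul, Rat.cast_inv, ← hr, inv_mul_cancel₀ hne]
  -- polarised flatness
  have hpol : ∀ u v, D.F P P u = 0 → D.F P P v = 0 → D.F P u v = 0 := by
    intro u v hu hv
    have h1 := hf (u + v) (by rw [map_add, hu, hv, add_zero])
    have h2 := hf u hu
    have h3 := hf v hv
    have h4 : D.F P v u = D.F P u v := by rw [D.s23]
    rw [map_add, map_add, LinearMap.add_apply, LinearMap.add_apply, h2, h3, h4] at h1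
    linarith
  refine ⟨(D.F P).flip e - ((1 / 2 : ℝ) * D.F P e e) • D.F P P, hP, hPX, hPs, ?_, ?_, ?_⟩
  · intro v hv
    obtain ⟨a, ha⟩ := D.ratQ P hP v hv e he
    obtain ⟨b, hb⟩ := D.ratQ P hP e he e he
    obtain ⟨c, hc⟩ := D.ratQ P hP P hP v hv
    refine ⟨a - 1 / 2 * b * c, ?_⟩
    rw [LinearMap.sub_apply, LinearMap.flip_apply, LinearMap.smul_apply, ha, hb, hc, smul_eq_mul]
    push_cast
    ring
  · rw [LinearMap.sub_apply, LinearMap.flip_apply, LinearMap.smul_apply, hPX, hLe, smul_zero,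
      sub_zero]
  · intro u v
    have hu0 : D.F P P (u - D.F P P u • e) = 0 := by
      rw [map_sub, map_smul, hLe, smul_eq_mul, mul_one, sub_self]
    have hv0 : D.F P P (v - D.F P P v • e) = 0 := by
      rw [map_sub, map_smul, hLe, smul_eq_mul, mul_one, sub_self]
    have h := hpol _ _ hu0 hv0
    simp only [map_sub, map_smul, LinearMap.sub_apply, LinearMap.smul_apply, smul_eq_mul] at h
    have hs : D.F P e v = D.F P v e := by rw [D.s23]
    rw [hs] at h
    simp only [LinearMap.sub_apply, LinearMap.flip_apply, LinearMap.smul_apply, smul_eq_mul]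
    linarith

end CubData

end Pool.Agent.Lib.MP42.CubicHyp
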