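import Pool.Agent.Lib.MP_42de19_nt.CubicHyp.Coord
import Pool.Agent.Lib.MP_42de19_nt.CubicHyp.QuadDefs

set_option autoImplicit false

/-! Homogenisation (S1): a polynomial of degree at most three (two) in `x` is a cubic (quadratic)
form in `(1, x)`. -/

namespace Pool.Agent.Lib.MP42.CubicHyp

open Topology Filter Set

/-- a monomial of degree at most `m` in `x` is a product of `m` coordinates of `(1, x)` -/
theorem exists_idx {n : ℕ} (m : ℕ) : ∀ s : Fin n → ℕ, ∑ i, s i ≤ m →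
    ∃ a : Fin m → Fin (n + 1), ∀ x : Fin n → ℝ,
      ∏ i, x i ^ s i = ∏ t, (Fin.cons 1 x : Fin (n + 1) → ℝ) (a t) := by
  induction m with
  | zero =>
    intro s hs
    have h0 : ∀ i, s i = 0 := fun i =>
      Finset.sum_eq_zero_iff.mp (Nat.le_zero.mp hs) i (Finset.mem_univ i)
    refine ⟨Fin.elim0, fun x => ?_⟩
    simp [h0]
  | succ m ih =>
    intro s hs
    by_cases h0 : ∀ i, s i = 0
    · refine ⟨fun _ => 0, fun x => ?_⟩
      simp [h0]
    · push Not at h0
      obtain ⟨i, hi⟩ := h0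
      obtain ⟨t, ht⟩ : ∃ t : Fin n → ℕ, s = t + Pi.single i 1 := by
        refine ⟨s - Pi.single i 1, ?_⟩
        funext j
        simp only [Pi.add_apply, Pi.sub_apply]
        by_cases hj : j = i
        · subst hj
          simp only [Pi.single_eq_same]
          omega
        · simp [Pi.single_eq_of_ne hj]
      subst ht
      have hsum : ∑ j, (t + Pi.single i 1 : Fin n → ℕ) j = ∑ j, t j + 1 := by
        simp only [Pi.add_apply, Finset.sum_add_distrib]
        congr 1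
        rw [Finset.sum_eq_single i]
        · simp
        · intro j _ hj; exact Pi.single_eq_of_ne hj 1
        · intro h; exact absurd (Finset.mem_univ i) h
      obtain ⟨a, ha⟩ := ih t (by omega)
      refine ⟨Fin.cons i.succ a, fun x => ?_⟩
      rw [Fin.prod_univ_succ]
      simp only [Fin.cons_zero, Fin.cons_succ]
      rw [← ha x]
      simp only [Pi.add_apply, pow_add, Finset.prod_mul_distrib]
      rw [mul_comm]
      congr 1
      rw [Finset.prod_eq_single i]
      · simp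
      · intro j _ hj; rw [Pi.single_eq_of_ne hj 1, pow_zero]
      · intro h; exact absurd (Finset.mem_univ i) h

/-- a polynomial of degree at most `m` as a combination of products of `m` coordinates of
`(1, x)` -/
theorem exists_expand {n : ℕ} (m : ℕ) (f : MvPolynomial (Fin n) ℚ) (hf : f.totalDegree ≤ m) :
    ∃ a : (Fin n →₀ ℕ) → Fin m → Fin (n + 1), ∀ x : Fin n → ℝ,
      (MvPolynomial.aeval x f : ℝ) =
        ∑ s ∈ f.support, ((f.coeff s : ℚ) : ℝ) * ∏ t, (Fin.cons 1 x : Fin (n + 1) → ℝ) (a s t) := by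
  have h1 : ∀ s : Fin n →₀ ℕ, ∃ a : Fin m → Fin (n + 1), s ∈ f.support → ∀ x : Fin n → ℝ,
      ∏ i, x i ^ s i = ∏ t, (Fin.cons 1 x : Fin (n + 1) → ℝ) (a t) := by
    intro s
    by_cases hs : s ∈ f.support
    · have h2 : ∑ i, s i ≤ m := by
        have h3 := (MvPolynomial.le_totalDegree hs).trans hf
        rw [Finsupp.sum_fintype _ _ (fun _ => rfl)] at h3
        exact h3
      obtain ⟨a, ha⟩ := exists_idx m (fun i => s i) h2
      exact ⟨a, fun _ => ha⟩
    · exact ⟨fun _ => 0, fun h => absurd h hs⟩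
  choose a ha using h1
  refine ⟨a, fun x => ?_⟩
  rw [MvPolynomial.aeval_def, MvPolynomial.eval₂_eq']
  refine Finset.sum_congr rfl fun s hs => ?_
  rw [ha s hs x]
  rfl

theorem exists_symT {n : ℕ} (f : MvPolynomial (Fin n) ℚ) (hf : f.totalDegree ≤ 3) :
    ∃ T : SymT (n + 1), ∀ x : Fin n → ℝ, (MvPolynomial.aeval x f : ℝ) =
      (cub T).F (Fin.cons 1 x) (Fin.cons 1 x) (Fin.cons 1 x) := by
  classical
  obtain ⟨a, ha⟩ := exists_expand 3 f hf
  let D : Fin (n + 1) → Fin (n + 1) → ℚ := fun i j => if i = j then 1 else 0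
  let U : Fin (n + 1) → Fin (n + 1) → Fin (n + 1) → ℚ := fun i j k =>
    ∑ s ∈ f.support, f.coeff s * (D i (a s 0) * D j (a s 1) * D k (a s 2))
  let T : SymT (n + 1) :=
    { T := fun i j k => (U i j k + U i k j + U j i k + U j k i + U k i j + U k j i) / 6
      s12 := fun i j k => by ring
      s23 := fun i j k => by ring }
  have hD : ∀ (y : Fin (n + 1) → ℝ) (j : Fin (n + 1)), ∑ i, (D i j : ℝ) * y i = y j := by
    intro y j
    rw [Finset.sum_eq_single j]
    · simp [D]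
    · intro i _ hi; simp [D, hi]
    · intro h; exact absurd (Finset.mem_univ j) h
  have hU : ∀ y : Fin (n + 1) → ℝ, ∑ i, ∑ j, ∑ k, (U i j k : ℝ) * (y i * y j * y k) =
      ∑ s ∈ f.support, ((f.coeff s : ℚ) : ℝ) * (y (a s 0) * y (a s 1) * y (a s 2)) := by
    intro y
    have h1 : ∀ i j k, (U i j k : ℝ) * (y i * y j * y k) = ∑ s ∈ f.support,
        ((f.coeff s : ℚ) : ℝ) * (((D i (a s 0) : ℝ) * y i) * ((D j (a s 1) : ℝ) * y j) *
          ((D k (a s 2) : ℝ) * y k)) := by
      intro i j k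
      simp only [U]
      push_cast
      rw [Finset.sum_mul]
      refine Finset.sum_congr rfl fun s _ => ?_
      ring
    simp only [h1]
    have h2 : ∀ i j, ∑ k, ∑ s ∈ f.support,
        ((f.coeff s : ℚ) : ℝ) * (((D i (a s 0) : ℝ) * y i) * ((D j (a s 1) : ℝ) * y j) *
          ((D k (a s 2) : ℝ) * y k)) = ∑ s ∈ f.support,
        ((f.coeff s : ℚ) : ℝ) * (((D i (a s 0) : ℝ) * y i) * ((D j (a s 1) : ℝ) * y j) *
          y (a s 2)) := by
      intro i j
      rw [Finset.sum_comm]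
      refine Finset.sum_congr rfl fun s _ => ?_
      rw [← Finset.mul_sum, ← Finset.mul_sum, hD]
    simp only [h2]
    have h3 : ∀ i, ∑ j, ∑ s ∈ f.support,
        ((f.coeff s : ℚ) : ℝ) * (((D i (a s 0) : ℝ) * y i) * ((D j (a s 1) : ℝ) * y j) *
          y (a s 2)) = ∑ s ∈ f.support,
        ((f.coeff s : ℚ) : ℝ) * (((D i (a s 0) : ℝ) * y i) * y (a s 1) * y (a s 2)) := by
      intro i
      rw [Finset.sum_comm]
      refine Finset.sum_congr rfl fun s _ => ?_
      rw [← Finset.mul_sum, ← Finset.sum_mul, ← Finset.mul_sum, hD]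
    simp only [h3]
    rw [Finset.sum_comm]
    refine Finset.sum_congr rfl fun s _ => ?_
    rw [← Finset.mul_sum, ← Finset.sum_mul, ← Finset.sum_mul, hD]
  -- the six permutations give the same cubic form
  have hsym : ∀ (y : Fin (n + 1) → ℝ) (W : Fin (n + 1) → Fin (n + 1) → Fin (n + 1) → ℝ),
      (∑ i, ∑ j, ∑ k, W i k j * (y i * y j * y k) = ∑ i, ∑ j, ∑ k, W i j k * (y i * y j * y k)) ∧
      (∑ i, ∑ j, ∑ k, W j i k * (y i * y j * y k) = ∑ i, ∑ j, ∑ k, W i j k * (y i * y j * y k)) := by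
    intro y W
    constructor
    · refine Finset.sum_congr rfl fun i _ => ?_
      rw [Finset.sum_comm]
      refine Finset.sum_congr rfl fun j _ => Finset.sum_congr rfl fun k _ => ?_
      ring
    · rw [Finset.sum_comm]
      refine Finset.sum_congr rfl fun i _ => Finset.sum_congr rfl fun j _ =>
        Finset.sum_congr rfl fun k _ => ?_
      ring
  refine ⟨T, fun x => ?_⟩
  rw [ha x, cub_F]
  set y : Fin (n + 1) → ℝ := Fin.cons 1 x with hy
  have e0 : ∑ s ∈ f.support, ((f.coeff s : ℚ) : ℝ) * ∏ t, y (a s t) =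
      ∑ i, ∑ j, ∑ k, (U i j k : ℝ) * (y i * y j * y k) := by
    rw [hU y]
    refine Finset.sum_congr rfl fun s _ => ?_
    rw [Fin.prod_univ_three]
  rw [e0]
  set Z := ∑ i, ∑ j, ∑ k, (U i j k : ℝ) * (y i * y j * y k) with hZ
  have e1 : ∑ i, ∑ j, ∑ k, (U i k j : ℝ) * (y i * y j * y k) = Z :=
    (hsym y (fun i j k => (U i j k : ℝ))).1
  have e2 : ∑ i, ∑ j, ∑ k, (U j i k : ℝ) * (y i * y j * y k) = Z :=
    (hsym y (fun i j k => (U i j k : ℝ))).2
  have e3 : ∑ i, ∑ j, ∑ k, (U j k i : ℝ) * (y i * y j * y k) = Z := by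
    have := (hsym y (fun i j k => (U i k j : ℝ))).2
    exact this.trans e1
  have e4 : ∑ i, ∑ j, ∑ k, (U k i j : ℝ) * (y i * y j * y k) = Z := by
    have := (hsym y (fun i j k => (U j i k : ℝ))).1
    exact this.trans e2
  have e5 : ∑ i, ∑ j, ∑ k, (U k j i : ℝ) * (y i * y j * y k) = Z := by
    have := (hsym y (fun i j k => (U k i j : ℝ))).2
    exact this.trans e4
  have e6 : ∀ i j k, (T.T i j k : ℝ) * (y i * y j * y k) =
      (1 / 6) * ((U i j k : ℝ) * (y i * y j * y k) + (U i k j : ℝ) * (y i * y j * y k) +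
      (U j i k : ℝ) * (y i * y j * y k) + (U j k i : ℝ) * (y i * y j * y k) +
      (U k i j : ℝ) * (y i * y j * y k) + (U k j i : ℝ) * (y i * y j * y k)) := by
    intro i j k
    simp only [T]
    push_cast
    ring
  simp only [e6, ← Finset.mul_sum, Finset.sum_add_distrib]
  rw [e1, e2, e3, e4, e5, ← hZ]
  ring

theorem exists_ratB {n : ℕ} (f : MvPolynomial (Fin n) ℚ) (hf : f.totalDegree ≤ 2) :
    ∃ q : (Fin (n + 1) → ℝ) →ₗ[ℝ] (Fin (n + 1) → ℝ) →ₗ[ℝ] ℝ, RatB q ∧
      ∀ x : Fin n → ℝ, (MvPolynomial.aeval x f : ℝ) = q (Fin.cons 1 x) (Fin.cons 1 x) := by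
  classical
  obtain ⟨a, ha⟩ := exists_expand 2 f hf
  let D : Fin (n + 1) → Fin (n + 1) → ℚ := fun i j => if i = j then 1 else 0
  let U : Fin (n + 1) → Fin (n + 1) → ℚ := fun i j =>
    ∑ s ∈ f.support, f.coeff s * (D i (a s 0) * D j (a s 1))
  let B : Fin (n + 1) → Fin (n + 1) → ℚ := fun i j => (U i j + U j i) / 2
  have hB : ∀ i j, B i j = B j i := fun i j => by simp only [B]; ring
  let q : (Fin (n + 1) → ℝ) →ₗ[ℝ] (Fin (n + 1) → ℝ) →ₗ[ℝ] ℝ :=
    ∑ i, ∑ j, (B i j : ℝ) •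
      (LinearMap.proj (R := ℝ) (φ := fun _ : Fin (n + 1) => ℝ) i).smulRight
        (LinearMap.proj (R := ℝ) (φ := fun _ : Fin (n + 1) => ℝ) j)
  have hq : ∀ u v, q u v = ∑ i, ∑ j, (B i j : ℝ) * (u i * v j) := by
    intro u v
    simp only [q, LinearMap.sum_apply, LinearMap.smul_apply,
      LinearMap.smulRight_apply, LinearMap.proj_apply, smul_eq_mul]
  have hD : ∀ (y : Fin (n + 1) → ℝ) (j : Fin (n + 1)), ∑ i, (D i j : ℝ) * y i = y j := by
    intro y j
    rw [Finset.sum_eq_single j]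
    · simp [D]
    · intro i _ hi; simp [D, hi]
    · intro h; exact absurd (Finset.mem_univ j) h
  have hU : ∀ y : Fin (n + 1) → ℝ, ∑ i, ∑ j, (U i j : ℝ) * (y i * y j) =
      ∑ s ∈ f.support, ((f.coeff s : ℚ) : ℝ) * (y (a s 0) * y (a s 1)) := by
    intro y
    have h1 : ∀ i j, (U i j : ℝ) * (y i * y j) = ∑ s ∈ f.support,
        ((f.coeff s : ℚ) : ℝ) * (((D i (a s 0) : ℝ) * y i) * ((D j (a s 1) : ℝ) * y j)) := by
      intro i j
      simp only [U]
      push_cast
      rw [Finset.sum_mul]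
      refine Finset.sum_congr rfl fun s _ => ?_
      ring
    simp only [h1]
    have h3 : ∀ i, ∑ j, ∑ s ∈ f.support,
        ((f.coeff s : ℚ) : ℝ) * (((D i (a s 0) : ℝ) * y i) * ((D j (a s 1) : ℝ) * y j)) =
        ∑ s ∈ f.support, ((f.coeff s : ℚ) : ℝ) * (((D i (a s 0) : ℝ) * y i) * y (a s 1)) := by
      intro i
      rw [Finset.sum_comm]
      refine Finset.sum_congr rfl fun s _ => ?_
      rw [← Finset.mul_sum, ← Finset.mul_sum, hD]
    simp only [h3]
    rw [Finset.sum_comm]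
    refine Finset.sum_congr rfl fun s _ => ?_
    rw [← Finset.mul_sum, ← Finset.sum_mul, hD]
  refine ⟨q, ⟨?_, ?_⟩, fun x => ?_⟩
  · intro u v
    rw [hq, hq, Finset.sum_comm]
    refine Finset.sum_congr rfl fun i _ => Finset.sum_congr rfl fun j _ => ?_
    rw [hB j i]; ring
  · rintro _ ⟨u, rfl⟩ _ ⟨v, rfl⟩
    refine ⟨∑ i, ∑ j, B i j * (u i * v j), ?_⟩
    rw [hq]
    push_cast
    rfl
  · rw [ha x, hq]
    set y : Fin (n + 1) → ℝ := Fin.cons 1 x with hy
    have e0 : ∑ s ∈ f.support, ((f.coeff s : ℚ) : ℝ) * ∏ t, y (a s t) =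
        ∑ i, ∑ j, (U i j : ℝ) * (y i * y j) := by
      rw [hU y]
      refine Finset.sum_congr rfl fun s _ => ?_
      rw [Fin.prod_univ_two]
    rw [e0]
    set Z := ∑ i, ∑ j, (U i j : ℝ) * (y i * y j) with hZ
    have e1 : ∑ i, ∑ j, (U j i : ℝ) * (y i * y j) = Z := by
      rw [Finset.sum_comm]
      refine Finset.sum_congr rfl fun i _ => Finset.sum_congr rfl fun j _ => ?_
      ring
    have e6 : ∀ i j, (B i j : ℝ) * (y i * y j) =
        (1 / 2) * ((U i j : ℝ) * (y i * y j) + (U j i : ℝ) * (y i * y j)) := by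
      intro i j
      simp only [B]
      push_cast
      ring
    simp only [e6, ← Finset.mul_sum, Finset.sum_add_distrib]
    rw [e1, ← hZ]
    ring

end Pool.Agent.Lib.MP42.CubicHyp
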