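import Pool.Agent.Lib.MP_42de19_nt.CubicHyp.Coord
import Pool.Agent.Lib.MP_42de19_nt.CubicHyp.RatSub

set_option autoImplicit false

/-! Closure of the rational zeros of a rational quadratic form. -/

namespace Pool.Agent.Lib.MP42.CubicHyp

open Topology Filter Set

namespace Quadric

variable {N : ℕ}

theorem single_mem (i : Fin N) : (Pi.single i 1 : Fin N → ℝ) ∈ ratV N := by
  refine ⟨Pi.single i 1, ?_⟩
  funext j
  by_cases h : j = i
  · subst h; simp [castV]
  · simp [castV, h]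

theorem eq_sum (y : Fin N → ℝ) : y = ∑ i, y i • (Pi.single i (1 : ℝ) : Fin N → ℝ) := by
  funext j
  simp [Finset.sum_apply, Pi.single_apply]

theorem lin_eq_zero {l : (Fin N → ℝ) →ₗ[ℝ] ℝ} (h : ∀ i, l (Pi.single i 1) = 0) : l = 0 := by
  refine LinearMap.ext fun y => ?_
  rw [eq_sum y, map_sum]
  refine (Finset.sum_eq_zero fun i _ => ?_).trans (LinearMap.zero_apply _).symm
  rw [map_smul, h, smul_zero]

variable (q : (Fin N → ℝ) →ₗ[ℝ] (Fin N → ℝ) →ₗ[ℝ] ℝ)

theorem continuous_bil : Continuous fun p : (Fin N → ℝ) × (Fin N → ℝ) => q p.1 p.2 := by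
  have h : (fun p : (Fin N → ℝ) × (Fin N → ℝ) => q p.1 p.2) =
      fun p => ∑ i, p.1 i * q (Pi.single i 1) p.2 := by
    funext p
    conv_lhs => rw [eq_sum p.1]
    simp only [map_sum, LinearMap.sum_apply, map_smul, LinearMap.smul_apply, smul_eq_mul]
  rw [h]
  refine continuous_finsetSum _ fun i _ => ?_
  exact ((continuous_apply i).comp continuous_fst).mul
    ((q (Pi.single i 1)).continuous_of_finiteDimensional.comp continuous_snd)

theorem isClosed_zero : IsClosed {v | q v v = 0} :=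
  isClosed_singleton.preimage ((continuous_bil q).comp (continuous_id.prodMk continuous_id))

theorem isClosed_rad : IsClosed {v | q v = 0} := by
  have h : {v | q v = 0} = ⋂ i : Fin N, {v | q v (Pi.single i 1) = 0} := by
    ext v
    simp only [mem_iInter, mem_ofPred_eq]
    constructor
    · intro h i
      rw [h, LinearMap.zero_apply]
    · intro h
      exact lin_eq_zero h
  rw [h]
  refine isClosed_iInter fun i => ?_
  exact isClosed_singleton.preimage ((continuous_bil q).comp (continuous_id.prodMk continuous_const))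

/-- the reflection -/
noncomputable def Φ (a v : Fin N → ℝ) : Fin N → ℝ := q v v • a - (2 * q a v) • v

variable {q}

theorem Φ_zero (hs : ∀ u v, q u v = q v u) {a v : Fin N → ℝ} (ha : q a a = 0) :
    q (Φ q a v) (Φ q a v) = 0 := by
  unfold Φ
  simp only [map_sub, map_smul, LinearMap.sub_apply, LinearMap.smul_apply, smul_eq_mul]
  rw [ha, hs v a]
  ring

/-- rational zeros -/
def R (q : (Fin N → ℝ) →ₗ[ℝ] (Fin N → ℝ) →ₗ[ℝ] ℝ) : Set (Fin N → ℝ) :=
  {v | v ∈ ratV N ∧ q v v = 0}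

theorem smul_mem_ratV {v : Fin N → ℝ} (hv : v ∈ ratV N) {x : ℝ} (hx : ∃ r : ℚ, x = r) :
    x • v ∈ ratV N := by
  obtain ⟨r, rfl⟩ := hx
  obtain ⟨w, rfl⟩ := hv
  exact ⟨r • w, by funext i; simp [castV]⟩

theorem Φ_mem_R (hs : ∀ u v, q u v = q v u)
    (hq : ∀ u ∈ ratV N, ∀ v ∈ ratV N, ∃ r : ℚ, q u v = r) {a v : Fin N → ℝ} (ha : a ∈ R q)
    (hv : v ∈ ratV N) : Φ q a v ∈ R q := by
  refine ⟨?_, Φ_zero hs ha.2⟩
  refine (ratV N).sub_mem (smul_mem_ratV ha.1 (hq v hv v hv)) (smul_mem_ratV hv ?_)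
  obtain ⟨r, hr⟩ := hq a ha.1 v hv
  exact ⟨2 * r, by rw [hr]; push_cast; ring⟩

theorem Φ_mem (hs : ∀ u v, q u v = q v u)
    (hq : ∀ u ∈ ratV N, ∀ v ∈ ratV N, ∃ r : ℚ, q u v = r) {a : Fin N → ℝ}
    (ha : a ∈ closure (R q)) (v : Fin N → ℝ) : Φ q a v ∈ closure (R q) := by
  have hc : Continuous fun p : (Fin N → ℝ) × (Fin N → ℝ) => Φ q p.1 p.2 := by
    unfold Φ
    exact (((continuous_bil q).comp (continuous_snd.prodMk continuous_snd)).smul
      continuous_fst).sub ((continuous_const.mul (continuous_bil q)).smul continuous_snd)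
  have h1 : (a, v) ∈ closure (R q ×ˢ (ratV N : Set (Fin N → ℝ))) := by
    rw [closure_prod_eq]
    exact ⟨ha, dense_ratV N v⟩
  refine (hc.continuousWithinAt (s := R q ×ˢ (ratV N : Set (Fin N → ℝ)))).mem_closure
    (x := (a, v)) h1 ?_
  rintro ⟨u, w⟩ ⟨hu, hw⟩
  exact Φ_mem_R hs hq hu hw

theorem smul_mem {v : Fin N → ℝ} (hv : v ∈ closure (R q)) (r : ℝ) : r • v ∈ closure (R q) := by
  have h1 : (r, v) ∈ closure ((Set.range (fun q : ℚ => (q : ℝ))) ×ˢ R q) := by
    rw [closure_prod_eq]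
    exact ⟨Rat.denseRange_cast r, hv⟩
  have hc : Continuous fun p : ℝ × (Fin N → ℝ) => p.1 • p.2 := continuous_smul
  refine (hc.continuousWithinAt (s := (Set.range (fun q : ℚ => (q : ℝ))) ×ˢ R q)).mem_closure
    (x := (r, v)) h1 ?_
  rintro ⟨s, u⟩ ⟨⟨t, rfl⟩, hu⟩
  refine ⟨smul_mem_ratV hu.1 ⟨t, rfl⟩, ?_⟩
  simp only [map_smul, LinearMap.smul_apply, smul_eq_mul]
  rw [hu.2]
  ring

/-- rational vectors are dense in the radical -/
theorem dense_rad (hs : ∀ u v, q u v = q v u)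
    (hq : ∀ u ∈ ratV N, ∀ v ∈ ratV N, ∃ r : ℚ, q u v = r) {y : Fin N → ℝ} (hy : q y = 0) :
    y ∈ closure {v | v ∈ ratV N ∧ q v = 0} := by
  let D := cub (N := N) ⟨fun _ _ _ => 0, fun _ _ _ => rfl, fun _ _ _ => rfl⟩
  have h1 : D.RatSub (⊤ ⊓ ⨅ i ∈ (Finset.univ : Finset (Fin N)),
      LinearMap.ker (q (Pi.single i 1))) :=
    CubData.RatSub.inf_iInf_ker D.ratSub_top Finset.univ (fun i => q (Pi.single i 1))
      fun i _ v hv => hq _ (single_mem i) v hv
  have h2 : ∀ v : Fin N → ℝ, v ∈ (⊤ ⊓ ⨅ i ∈ (Finset.univ : Finset (Fin N)),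
      LinearMap.ker (q (Pi.single i 1)) : Submodule ℝ (Fin N → ℝ)) ↔ q v = 0 := by
    intro v
    simp only [top_inf_eq, Finset.mem_univ, iInf_pos, Submodule.mem_iInf, LinearMap.mem_ker]
    constructor
    · intro h
      refine lin_eq_zero fun i => ?_
      rw [hs, h]
    · intro h i
      rw [hs, h, LinearMap.zero_apply]
  have h3 := h1 y ((h2 y).2 hy)
  refine closure_mono ?_ h3
  rintro u ⟨hu1, hu2⟩
  exact ⟨hu1, (h2 u).1 hu2⟩

end Quadric

open Quadric in
theorem closure_quadric {N : ℕ} (q : (Fin N → ℝ) →ₗ[ℝ] (Fin N → ℝ) →ₗ[ℝ] ℝ)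
    (hs : ∀ u v, q u v = q v u)
    (hq : ∀ u ∈ ratV N, ∀ v ∈ ratV N, ∃ r : ℚ, q u v = r) :
    closure {v | v ∈ ratV N ∧ q v v = 0} = {v | q v v = 0} ∨
      closure {v | v ∈ ratV N ∧ q v v = 0} = {v | q v = 0} := by
  have hrad : {v | v ∈ ratV N ∧ q v = 0} ⊆ {v | v ∈ ratV N ∧ q v v = 0} := by
    rintro v ⟨h1, h2⟩
    exact ⟨h1, by rw [h2, LinearMap.zero_apply]⟩
  by_cases h : ∃ a ∈ R q, q a ≠ 0
  · left
    obtain ⟨a, ha, ha0⟩ := h
    refine Subset.antisymm (closure_minimal (fun _ h => h.2) (isClosed_zero q)) ?_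
    intro y hy
    have hy' : q y y = 0 := hy
    by_cases h1 : ∃ b ∈ closure (R q), q b y ≠ 0
    · obtain ⟨b, hb, hby⟩ := h1
      have h2 := Φ_mem hs hq hb y
      have h3 : Φ q b y = (-(2 * q b y)) • y := by
        unfold Φ
        rw [hy', zero_smul, zero_sub, neg_smul]
      rw [h3] at h2
      have h4 := smul_mem h2 (-(2 * q b y))⁻¹
      rw [smul_smul, inv_mul_cancel₀ (neg_ne_zero.2 (mul_ne_zero two_ne_zero hby)), one_smul] at h4
      exact h4
    · push Not at h1
      have h2 : ∀ v, q a v ≠ 0 → q v y = 0 := by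
        intro v hv
        have h3 := h1 _ (Φ_mem hs hq (subset_closure ha) v)
        have h4 := h1 a (subset_closure ha)
        unfold Φ at h3
        simp only [map_sub, map_smul, LinearMap.sub_apply, LinearMap.smul_apply,
          smul_eq_mul] at h3
        rw [h4, mul_zero, zero_sub, neg_eq_zero] at h3
        exact (mul_eq_zero.1 h3).resolve_left (mul_ne_zero two_ne_zero hv)
      obtain ⟨e, he⟩ : ∃ e, q a e ≠ 0 := by
        by_contra hcon
        push Not at hcon
        exact ha0 (LinearMap.ext fun e => by rw [hcon, LinearMap.zero_apply])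
      have h3 : q y = 0 := by
        refine LinearMap.ext fun v => ?_
        rw [LinearMap.zero_apply, hs]
        by_cases hv : q a v = 0
        · have h4 := h2 (v + e) (by rw [map_add, hv, zero_add]; exact he)
          rw [map_add, LinearMap.add_apply, h2 e he, add_zero] at h4
          exact h4
        · exact h2 v hv
      exact closure_mono hrad (dense_rad hs hq h3)
  · right
    push Not at h
    refine Subset.antisymm (closure_minimal (fun v hv => h v hv) (isClosed_rad q)) ?_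
    intro y hy
    exact closure_mono hrad (dense_rad hs hq hy)

open Quadric in
theorem sa_quadric {N : ℕ} (q : (Fin N → ℝ) →ₗ[ℝ] (Fin N → ℝ) →ₗ[ℝ] ℝ)
    (hs : ∀ u v, q u v = q v u)
    (hq : ∀ u ∈ ratV N, ∀ v ∈ ratV N, ∃ r : ℚ, q u v = r) :
    SA (evR N) (closure {v | v ∈ ratV N ∧ q v v = 0}) := by
  rcases closure_quadric q hs hq with h | h
  · rw [h]
    exact (isPoly_of_ratBil q hq (a := fun x => x) (b := fun x => x) (fun i => IsPoly.coord i)
      (fun i => IsPoly.coord i)).sa_eq_zero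
  · rw [h]
    have h1 : {v | q v = 0} = ⋂ i : Fin N, {v | q v (Pi.single i 1) = 0} := by
      ext v
      simp only [mem_iInter, mem_ofPred_eq]
      constructor
      · intro h i
        rw [h, LinearMap.zero_apply]
      · intro h
        exact lin_eq_zero h
    rw [h1]
    refine SA.iInter_finite _ fun i => ?_
    exact (isPoly_of_ratBil q hq (a := fun x => x) (b := fun _ => Pi.single i 1)
      (fun i => IsPoly.coord i) (fun j => isPoly_of_mem_ratV (single_mem i) j)).sa_eq_zero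

end Pool.Agent.Lib.MP42.CubicHyp
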