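import Pool.Agent.Lib.MP_42de19_nt.CubicHyp.RatSub
import Pool.Agent.Lib.MP_42de19_nt.CubicHyp.Quadric

set_option autoImplicit false

/-! S8, S9: cubic forms vanishing on a rational hyperplane; small dimensions. -/

namespace Pool.Agent.Lib.MP42.CubicHyp

open Topology Filter Set

/-- the quadratic factor of a cubic form which vanishes on the hyperplane `l = 0` -/
noncomputable def hypQ {V : Type*} [NormedAddCommGroup V] [NormedSpace ℝ V] (D : CubData V)
    (l : V →ₗ[ℝ] ℝ) (e : V) : V →ₗ[ℝ] V →ₗ[ℝ] ℝ :=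
  LinearMap.mk₂ ℝ (fun u v => 3 * D.F (u - l u • e) (v - l v • e) e +
    3 / 2 * (l u * D.F (v - l v • e) e e + l v * D.F (u - l u • e) e e) + l u * l v * D.F e e e)
    (by intro a b c; simp only [map_add, map_sub, map_smul, LinearMap.add_apply,
          LinearMap.sub_apply, LinearMap.smul_apply, smul_eq_mul]; ring)
    (by intro r a b; simp only [map_sub, map_smul,
          LinearMap.sub_apply, LinearMap.smul_apply, smul_eq_mul]; ring)
    (by intro a b c; simp only [map_add, map_sub, map_smul, LinearMap.add_apply,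
          LinearMap.sub_apply, LinearMap.smul_apply, smul_eq_mul]; ring)
    (by intro r a b; simp only [map_sub, map_smul,
          LinearMap.sub_apply, LinearMap.smul_apply, smul_eq_mul]; ring)

theorem hypQ_apply {V : Type*} [NormedAddCommGroup V] [NormedSpace ℝ V] (D : CubData V)
    (l : V →ₗ[ℝ] ℝ) (e u v : V) : hypQ D l e u v =
      3 * D.F (u - l u • e) (v - l v • e) e +
      3 / 2 * (l u * D.F (v - l v • e) e e + l v * D.F (u - l u • e) e e) +
        l u * l v * D.F e e e := rfl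

theorem hypQ_symm {V : Type*} [NormedAddCommGroup V] [NormedSpace ℝ V] (D : CubData V)
    (l : V →ₗ[ℝ] ℝ) (e u v : V) : hypQ D l e u v = hypQ D l e v u := by
  rw [hypQ_apply, hypQ_apply, D.s12 (u - l u • e)]
  ring

theorem hypQ_factor {V : Type*} [NormedAddCommGroup V] [NormedSpace ℝ V] (D : CubData V)
    (l : V →ₗ[ℝ] ℝ) (e : V) (he : l e = 1) (h : ∀ v, l v = 0 → D.F v v v = 0) (v : V) :
    D.F v v v = l v * hypQ D l e v v := by
  have h1 : l (v - l v • e) = 0 := by rw [map_sub, map_smul, he, smul_eq_mul, mul_one, sub_self]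
  have h2 := h _ h1
  have h3 : ∀ w : V, D.F (w + l v • e) (w + l v • e) (w + l v • e) = D.F w w w
      + 3 * l v * D.F w w e + 3 * (l v) ^ 2 * D.F w e e + (l v) ^ 3 * D.F e e e := by
    intro w
    have := D.F_comb w e 1 (l v)
    rw [one_smul] at this
    rw [this]; ring
  have h4 := h3 (v - l v • e)
  rw [sub_add_cancel, h2] at h4
  rw [h4, hypQ_apply]
  ring

theorem sa_hyp {N : ℕ} (T : SymT N) (l : (Fin N → ℝ) →ₗ[ℝ] ℝ) (hl : (cub T).RatFun l)
    (hl0 : l ≠ 0) (h : ∀ v, l v = 0 → (cub T).F v v v = 0) : SA (evR N) (cub T).K := by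
  obtain ⟨e', he', hle⟩ := (cub T).exists_mem_Q_ne hl0
  obtain ⟨r, hr⟩ := hl e' he'
  set e : Fin N → ℝ := ((r⁻¹ : ℚ) : ℝ) • e' with he_def
  have heQ : e ∈ (cub T).Q := (cub T).smulQ _ _ he'
  have he1 : l e = 1 := by
    rw [he_def, map_smul, hr, smul_eq_mul]
    rw [hr] at hle
    push_cast
    exact inv_mul_cancel₀ hle
  have hpQ : ∀ u ∈ (cub T).Q, u - l u • e ∈ (cub T).Q := fun u hu =>
    (cub T).sub_mem_Q hu ((cub T).smul_mem_Q heQ (hl u hu))
  have hq : ∀ u ∈ ratV N, ∀ v ∈ ratV N, ∃ s : ℚ, hypQ (cub T) l e u v = s := by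
    intro u hu v hv
    obtain ⟨a1, h1⟩ := (cub T).ratQ _ (hpQ u hu) _ (hpQ v hv) _ heQ
    obtain ⟨a2, h2⟩ := (cub T).ratQ _ (hpQ v hv) _ heQ _ heQ
    obtain ⟨a3, h3⟩ := (cub T).ratQ _ (hpQ u hu) _ heQ _ heQ
    obtain ⟨a4, h4⟩ := (cub T).ratQ _ heQ _ heQ _ heQ
    obtain ⟨a5, h5⟩ := hl u hu
    obtain ⟨a6, h6⟩ := hl v hv
    refine ⟨3 * a1 + 3 / 2 * (a5 * a2 + a6 * a3) + a5 * a6 * a4, ?_⟩
    rw [hypQ_apply, h1, h2, h3, h4, h5, h6]
    push_cast
    ring
  have hX : (cub T).ratX = {v | v ∈ (cub T).Q ∧ l v = 0} ∪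
      {v | v ∈ ratV N ∧ hypQ (cub T) l e v v = 0} := by
    ext v
    constructor
    · rintro ⟨h1, h2⟩
      rw [hypQ_factor (cub T) l e he1 h v] at h2
      rcases mul_eq_zero.mp h2 with h3 | h3
      · exact Or.inl ⟨h1, h3⟩
      · exact Or.inr ⟨h1, h3⟩
    · rintro (⟨h1, h2⟩ | ⟨h1, h2⟩)
      · exact ⟨h1, h v h2⟩
      · refine ⟨h1, ?_⟩
        rw [hypQ_factor (cub T) l e he1 h v]
        exact mul_eq_zero_of_right _ h2
  have hcl : closure {v | v ∈ (cub T).Q ∧ l v = 0} = {v | l v = 0} := by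
    apply subset_antisymm
    · refine closure_minimal (fun v hv => hv.2) ?_
      exact isClosed_singleton.preimage (CubData.continuous_lin l)
    · intro v hv
      exact (cub T).dense_ker hl hv
  show SA (evR N) (closure (cub T).ratX)
  rw [hX, closure_union, hcl]
  exact (isPoly_of_ratFun l hl).sa_eq_zero.union
    (sa_quadric (hypQ (cub T) l e) (hypQ_symm (cub T) l e) hq)

theorem sa_small {N : ℕ} (hN : N ≤ 2) (T : SymT N) {P : Fin N → ℝ} (hP : P ∈ ratV N)
    (hPX : (cub T).F P P P = 0) (hPs : (cub T).F P P ≠ 0) : SA (evR N) (cub T).K := by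
  refine sa_hyp T ((cub T).F P P) ((cub T).ratFun_F hP hP) hPs fun v hv => ?_
  have h1 : Module.finrank ℝ (LinearMap.ker ((cub T).F P P)) + 1 =
      Module.finrank ℝ (Fin N → ℝ) :=
    Module.Dual.finrank_ker_add_one_of_ne_zero (f := (cub T).F P P) hPs
  rw [Module.finrank_fin_fun] at h1
  have h2 : Module.finrank ℝ (LinearMap.ker ((cub T).F P P)) ≤ 1 := by omega
  obtain ⟨⟨g, hg⟩, hgen⟩ := finrank_le_one_iff.mp h2
  obtain ⟨c, hc⟩ := hgen ⟨P, hPX⟩
  obtain ⟨d, hd⟩ := hgen ⟨v, hv⟩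
  have hc' : c • g = P := congrArg Subtype.val hc
  have hd' : d • g = v := congrArg Subtype.val hd
  have hc0 : c ≠ 0 := by
    rintro rfl
    apply hPs
    rw [← hc', zero_smul, map_zero]
  have hgX : (cub T).F g g g = 0 := by
    rw [← hc', CubData.F_smul] at hPX
    exact (mul_eq_zero.mp hPX).resolve_left (pow_ne_zero 3 hc0)
  rw [← hd', CubData.F_smul, hgX, mul_zero]

end Pool.Agent.Lib.MP42.CubicHyp
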