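import Pool.Agent.Lib.MP_42de19_nt.CubicHyp.Basic

set_option autoImplicit false

/-! A cubic form which vanishes on the zeros of an indefinite quadratic form contains a
hyperplane. -/

namespace Pool.Agent.Lib.MP42.CubicHyp

open Topology Filter

namespace CubData

theorem continuous_bilin {V : Type*} [NormedAddCommGroup V] [NormedSpace ℝ V]
    [FiniteDimensional ℝ V] (q : V →ₗ[ℝ] V →ₗ[ℝ] ℝ) : Continuous fun v : V => q v v := by
  let Q : V →ₗ[ℝ] (V →L[ℝ] ℝ) := (LinearMap.toContinuousLinearMap (E := V) (F' := ℝ) (𝕜 := ℝ)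
    ).toLinearMap ∘ₗ q
  have hQ : Continuous Q := Q.continuous_of_finiteDimensional
  have h : Continuous fun v : V => Q v v := hQ.clm_apply continuous_id
  exact h

/-- a continuous function that vanishes off a hyperplane vanishes -/
theorem eq_zero_of_ne {V : Type*} [NormedAddCommGroup V] [NormedSpace ℝ V]
    {l : V →ₗ[ℝ] ℝ} {e : V} (he : l e ≠ 0) {f : V → ℝ} (hf : Continuous f)
    (h : ∀ v, l v ≠ 0 → f v = 0) (v : V) : f v = 0 := by
  have hg : Continuous fun t : ℝ => f (v + t • e) := by fun_prop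
  have h1 : (fun t : ℝ => f (v + t • e)) = fun _ => 0 := by
    refine Continuous.ext_on (dense_compl_singleton (-(l v) / l e)) hg continuous_const ?_
    intro t ht
    refine h _ ?_
    intro h0
    apply ht
    rw [map_add, map_smul, smul_eq_mul] at h0
    rw [Set.mem_singleton_iff, eq_div_iff he]
    linarith
  have h2 := congrFun h1 0
  simpa using h2

theorem finite_quad {a b c : ℝ} (hc : c ≠ 0) : {t : ℝ | a + b * t + c * t ^ 2 = 0}.Finite := by
  let p : Polynomial ℝ := Polynomial.C a + Polynomial.C b * Polynomial.X +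
    Polynomial.C c * Polynomial.X ^ 2
  have hp : p ≠ 0 := by
    intro h
    have h2 := congrArg (fun r : Polynomial ℝ => r.coeff 2) h
    simp [p] at h2
    exact hc h2
  refine (Polynomial.finite_setOfPred_isRoot hp).subset ?_
  intro t ht
  simp only [Set.mem_ofPred_eq] at ht
  simp only [Set.mem_ofPred_eq, Polynomial.IsRoot, p, Polynomial.eval_add, Polynomial.eval_mul,
    Polynomial.eval_C, Polynomial.eval_X, Polynomial.eval_pow]
  exact ht

/-- a continuous function on a hyperplane that vanishes where a nonzero quadratic form does not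
vanish is zero -/
theorem eq_zero_of_quad_ne {V : Type*} [NormedAddCommGroup V] [NormedSpace ℝ V]
    {m : V →ₗ[ℝ] ℝ} {q : V →ₗ[ℝ] V →ₗ[ℝ] ℝ} (hq : ∀ a b, q a b = q b a) {v₀ : V}
    (hm : m v₀ = 0) (hq₀ : q v₀ v₀ ≠ 0) {f : V → ℝ} (hf : Continuous f)
    (h : ∀ v, m v = 0 → q v v ≠ 0 → f v = 0) (v : V) (hv : m v = 0) : f v = 0 := by
  have hg : Continuous fun t : ℝ => f (v + t • v₀) := by fun_prop
  have h1 : (fun t : ℝ => f (v + t • v₀)) = fun _ => 0 := by
    refine Continuous.ext_on
      ((finite_quad (a := q v v) (b := 2 * q v v₀) (c := q v₀ v₀) hq₀).countable.dense_compl ℝ)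
      hg continuous_const ?_
    intro t ht
    refine h _ ?_ ?_
    · rw [map_add, map_smul, hv, hm]; simp
    · intro h0
      apply ht
      simp only [map_add, map_smul, LinearMap.add_apply, LinearMap.smul_apply, smul_eq_mul] at h0
      rw [hq v₀ v] at h0
      simp only [Set.mem_ofPred_eq]
      linear_combination h0
  have h2 := congrFun h1 0
  simpa using h2

variable {V : Type*} [NormedAddCommGroup V] [NormedSpace ℝ V] [FiniteDimensional ℝ V] (D : CubData V)

theorem not_indefinite (hH : D.NoHyp) (q : V →ₗ[ℝ] V →ₗ[ℝ] ℝ) (hq : ∀ a b, q a b = q b a)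
    (hz : ∀ v, q v v = 0 → D.F v v v = 0) {v₁ v₂ : V} (h1 : 0 < q v₁ v₁) (h2 : q v₂ v₂ < 0) :
    False := by
  -- isotropic vectors
  obtain ⟨e, y, hee, -, hey⟩ : ∃ e y, q e e = 0 ∧ q y y = 0 ∧ q e y ≠ 0 := by
    have hΔ : 0 < (q v₁ v₂) ^ 2 - q v₁ v₁ * q v₂ v₂ := by nlinarith [sq_nonneg (q v₁ v₂)]
    obtain ⟨s, hs0, hs⟩ : ∃ s : ℝ, 0 < s ∧ s ^ 2 = (q v₁ v₂) ^ 2 - q v₁ v₁ * q v₂ v₂ :=
      ⟨Real.sqrt _, Real.sqrt_pos.2 hΔ, Real.sq_sqrt hΔ.le⟩
    refine ⟨q v₂ v₂ • v₁ + (-(q v₁ v₂) + s) • v₂, q v₂ v₂ • v₁ + (-(q v₁ v₂) - s) • v₂, ?_, ?_, ?_⟩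
    · simp only [map_add, map_smul, LinearMap.add_apply, LinearMap.smul_apply, smul_eq_mul]
      rw [hq v₂ v₁]
      linear_combination (q v₂ v₂) * hs
    · simp only [map_add, map_smul, LinearMap.add_apply, LinearMap.smul_apply, smul_eq_mul]
      rw [hq v₂ v₁]
      linear_combination (q v₂ v₂) * hs
    · intro h0
      simp only [map_add, map_smul, LinearMap.add_apply, LinearMap.smul_apply, smul_eq_mul] at h0
      rw [hq v₂ v₁] at h0
      have : s ^ 2 * q v₂ v₂ = 0 := by linear_combination (-1 / 2) * h0 + (1 / 2) * q v₂ v₂ * hs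
      rcases mul_eq_zero.1 this with h | h
      · exact (pow_pos hs0 2).ne' h
      · exact h2.ne h
  obtain ⟨m, hm⟩ : ∃ m : V →ₗ[ℝ] ℝ, ∀ v, m v = q e v := ⟨q e, fun _ => rfl⟩
  have hy : m y ≠ 0 := by rw [hm]; exact hey
  have hFe : D.F e e e = 0 := hz e hee
  have hcq : Continuous fun v : V => q v v := continuous_bilin q
  have hcm : Continuous fun v : V => m v := m.continuous_of_finiteDimensional
  have hcF : Continuous fun v : V => D.F v v v := D.cont_F continuous_id continuous_id continuous_id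
  have hcF2 : Continuous fun v : V => D.F v v e :=
    D.cont_F continuous_id continuous_id continuous_const
  have hcF1 : Continuous fun v : V => D.F v e e :=
    D.cont_F continuous_id continuous_const continuous_const
  -- (*)
  have hstar : ∀ v, 4 * (m v) ^ 2 * D.F v v v - 6 * m v * q v v * D.F v v e +
      3 * (q v v) ^ 2 * D.F v e e = 0 := by
    refine eq_zero_of_ne hy ((((continuous_const.mul (hcm.pow 2)).mul hcF).sub
      (((continuous_const.mul hcm).mul hcq).mul hcF2)).add
      ((continuous_const.mul (hcq.pow 2)).mul hcF1)) ?_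
    intro v hv
    have h0 : D.F ((2 * m v) • v + (-(q v v)) • e) ((2 * m v) • v + (-(q v v)) • e)
        ((2 * m v) • v + (-(q v v)) • e) = 0 := by
      apply hz
      simp only [map_add, map_smul, LinearMap.add_apply, LinearMap.smul_apply, smul_eq_mul]
      rw [hq v e, hee, hm]
      ring
    rw [D.F_comb, hFe] at h0
    have h3 : m v * (4 * (m v) ^ 2 * D.F v v v - 6 * m v * q v v * D.F v v e +
      3 * (q v v) ^ 2 * D.F v e e) = 0 := by linear_combination (1 / 2) * h0
    exact (mul_eq_zero.1 h3).resolve_left hv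
  have hm0 : m ≠ 0 := by
    intro h; apply hy; rw [h]; rfl
  obtain ⟨v₀, hv₀, hFv₀⟩ := hH m hm0
  have hqv₀ : q v₀ v₀ ≠ 0 := fun h => hFv₀ (hz v₀ h)
  -- F(v,e,e) = 0 on ker m
  have hker : ∀ v, m v = 0 → D.F v e e = 0 := by
    refine eq_zero_of_quad_ne hq hv₀ hqv₀ hcF1 ?_
    intro v hv hqv
    have h3 := hstar v
    rw [hv] at h3
    have h4 : (q v v) ^ 2 * D.F v e e = 0 := by linear_combination (1 / 3) * h3
    exact (mul_eq_zero.1 h4).resolve_left (pow_ne_zero 2 hqv)
  obtain ⟨e', he'⟩ : ∃ e', m e' = 1 := ⟨(m y)⁻¹ • y, by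
    rw [map_smul, smul_eq_mul, inv_mul_cancel₀ hy]⟩
  obtain ⟨lam, hlam⟩ : ∃ lam : ℝ, ∀ v, D.F v e e = lam * m v := by
    refine ⟨D.F e' e e, fun v => ?_⟩
    have h3 := hker (v - m v • e') (by rw [map_sub, map_smul, he']; simp)
    simp only [map_sub, map_smul, LinearMap.sub_apply, LinearMap.smul_apply, smul_eq_mul] at h3
    linear_combination h3
  -- divide by m
  have hstar2 : ∀ v, 4 * m v * D.F v v v - 6 * q v v * D.F v v e + 3 * lam * (q v v) ^ 2 = 0 := by
    refine eq_zero_of_ne hy ((((continuous_const.mul hcm).mul hcF).sub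
      ((continuous_const.mul hcq).mul hcF2)).add (continuous_const.mul (hcq.pow 2))) ?_
    intro v hv
    have h3 := hstar v
    rw [hlam] at h3
    have h4 : m v * (4 * m v * D.F v v v - 6 * q v v * D.F v v e + 3 * lam * (q v v) ^ 2) = 0 := by
      linear_combination h3
    exact (mul_eq_zero.1 h4).resolve_left hv
  have hG : ∀ v, m v = 0 → 2 * D.F v v e - lam * q v v = 0 := by
    refine eq_zero_of_quad_ne hq hv₀ hqv₀
      ((continuous_const.mul hcF2).sub (continuous_const.mul hcq)) ?_
    intro v hv hqv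
    have h3 := hstar2 v
    rw [hv] at h3
    have h4 : q v v * (2 * D.F v v e - lam * q v v) = 0 := by linear_combination (-1 / 3) * h3
    exact (mul_eq_zero.1 h4).resolve_left hqv
  -- the linear functional ν
  obtain ⟨ν, hν⟩ : ∃ ν : V →ₗ[ℝ] ℝ, ∀ v, ν v = 2 * (2 * D.F e e' v - lam * q e' v) -
      m v * (2 * D.F e' e' e - lam * q e' e') := by
    refine ⟨(4 : ℝ) • D.F e e' - (2 * lam) • q e' - (2 * D.F e' e' e - lam * q e' e') • m, ?_⟩
    intro v
    simp only [LinearMap.sub_apply, LinearMap.smul_apply, smul_eq_mul]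
    ring
  have hGν : ∀ v, 2 * D.F v v e - lam * q v v = m v * ν v := by
    intro v
    have h3 := hG (v - m v • e') (by rw [map_sub, map_smul, he']; simp)
    rw [hν]
    rw [show D.F e e' v = D.F v e' e by simp only [CubData.s12, CubData.s23],
      hq e' v]
    have e1 : D.F (v - m v • e') (v - m v • e') e = D.F v v e - 2 * m v * D.F v e' e +
        (m v) ^ 2 * D.F e' e' e := by
      rw [show D.F v e' e = D.F e' v e from D.s12 _ _ _]
      simp only [map_sub, map_smul, LinearMap.sub_apply, LinearMap.smul_apply, smul_eq_mul]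
      rw [show D.F v e' e = D.F e' v e from D.s12 _ _ _]
      ring
    have e2 : q (v - m v • e') (v - m v • e') = q v v - 2 * m v * q v e' +
        (m v) ^ 2 * q e' e' := by
      simp only [map_sub, map_smul, LinearMap.sub_apply, LinearMap.smul_apply, smul_eq_mul]
      rw [hq e' v]
      ring
    rw [e1, e2] at h3
    linear_combination h3
  have hcν : Continuous fun v : V => ν v := ν.continuous_of_finiteDimensional
  have hfin : ∀ v, 4 * D.F v v v - 3 * q v v * ν v = 0 := by
    refine eq_zero_of_ne hy ((continuous_const.mul hcF).sub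
      ((continuous_const.mul hcq).mul hcν)) ?_
    intro v hv
    have h3 := hstar2 v
    have h4 := hGν v
    have h5 : m v * (4 * D.F v v v - 3 * q v v * ν v) = 0 := by
      linear_combination h3 + 3 * q v v * h4
    exact (mul_eq_zero.1 h5).resolve_left hv
  have hν0 : ν ≠ 0 := by
    intro h
    have h3 := hfin v₀
    rw [h] at h3
    apply hFv₀
    simp at h3
    exact h3
  obtain ⟨u, hu, hFu⟩ := hH ν hν0
  apply hFu
  have h3 := hfin u
  rw [hu] at h3
  linarith

end CubData

end Pool.Agent.Lib.MP42.CubicHyp
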