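import Pool.Agent.Lib.MP_42de19_nt.CubicHyp.Arc

set_option autoImplicit false

/-! Piece H6 of the cubic hypersurface project (MP_42de19_nt). -/

namespace Pool.Agent.Lib.MP42.CubicHyp

open Topology Filter

namespace CubData

variable {V : Type*} [NormedAddCommGroup V] [NormedSpace ℝ V] [FiniteDimensional ℝ V] {D : CubData V}

theorem star_of_cube {P : V} {μ : V →ₗ[ℝ] ℝ} (hP : D.FlatData P μ) (hI : ¬ D.HasInt)
    (hH : D.NoHyp) {l : V →ₗ[ℝ] ℝ} {γ : ℝ}
    (hc : ∀ v, D.F P P v = 0 → D.F v v v = γ * (l v) ^ 3) : D.Star P μ := by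
  intro R hR hK r κ ρ hr hR0 hd hLρ hμρ g hg
  -- `γ ≠ 0`
  have hγ : γ ≠ 0 := by
    intro h0
    obtain ⟨v, hv1, hv2⟩ := hH (D.F P P) hP.smooth
    apply hv2
    rw [hc v hv1, h0, zero_mul]
  -- derivatives
  have h2 : ContDiff ℝ (1 + 1) R := by
    have : (1 + 1 : WithTop ℕ∞) = 2 := by norm_num
    rw [this]; exact hR
  have hRd : Differentiable ℝ R := h2.differentiable (by norm_num)
  have hR1 : ContDiff ℝ 1 (deriv R) := (contDiff_succ_iff_deriv.1 h2).2.2
  have hR1d : Differentiable ℝ (deriv R) := hR1.differentiable (by norm_num)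
  have hd1 : ∀ t, HasDerivAt R (deriv R t) t := fun t => (hRd t).hasDerivAt
  have hd2 : ∀ t, HasDerivAt (deriv R) (deriv (deriv R) t) t := fun t => (hR1d t).hasDerivAt
  have hR0' : deriv R 0 = κ • P + ρ := hd.deriv
  -- smooth near 0
  obtain ⟨u, hu⟩ : ∃ u, D.F P P u ≠ 0 := by
    by_contra h
    push Not at h
    exact hP.smooth (LinearMap.ext h)
  have hsm : ∀ᶠ t in 𝓝 (0 : ℝ), D.F (R t) (R t) ≠ 0 := by
    have hc1 : ContinuousAt (fun t => D.F (R t) (R t) u) 0 :=
      D.contAt_F hRd.continuous.continuousAt hRd.continuous.continuousAt continuousAt_const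
    have hne : D.F (R 0) (R 0) u ≠ 0 := by
      rw [hR0]
      simp only [map_smul, LinearMap.smul_apply, smul_eq_mul]
      exact mul_ne_zero hr (mul_ne_zero hr hu)
    have := hc1.eventually_ne hne
    filter_upwards [this] with t ht h0
    exact ht (by rw [h0]; rfl)
  -- the arcs give no interior
  have harc : ∀ᶠ t in 𝓝 (0 : ℝ), D.F (R t) (deriv R t) (deriv R t) = 0 := by
    filter_upwards [hsm] with t ht
    by_contra hne
    exact hI (D.hasInt_of_arc (R := R) (t₀ := t)
      (Filter.Eventually.of_forall fun s => hRd.continuous.continuousAt)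
      (Filter.Eventually.of_forall fun s => hK s) ht (hd1 t) hne)
  have hX : ∀ t, D.F (R t) (R t) (R t) = 0 := fun t => D.K_subset_X (hK t)
  have hT : ∀ t, D.F (R t) (R t) (deriv R t) = 0 := by
    intro t
    have h := D.hasDerivAt_F (hd1 t) (hd1 t) (hd1 t)
    have h0 : HasDerivAt (fun t => D.F (R t) (R t) (R t)) 0 t := by
      have : (fun t => D.F (R t) (R t) (R t)) = fun _ => (0 : ℝ) := funext hX
      rw [this]; exact hasDerivAt_const t 0
    have h1 := h.unique h0
    have e1 : D.F (deriv R t) (R t) (R t) = D.F (R t) (R t) (deriv R t) := by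
      rw [D.s12, D.s23]
    have e2 : D.F (R t) (deriv R t) (R t) = D.F (R t) (R t) (deriv R t) := by rw [D.s23]
    rw [e1, e2] at h1
    linarith
  have ha : D.F (R 0) (deriv R 0) (deriv R 0) = 0 := harc.self_of_nhds
  -- `L (R'' 0) = 0`
  have hL2 : D.F P P (deriv (deriv R) 0) = 0 := by
    have h := D.hasDerivAt_F (hd1 0) (hd1 0) (hd2 0)
    have h0 : HasDerivAt (fun t => D.F (R t) (R t) (deriv R t)) 0 0 := by
      have : (fun t => D.F (R t) (R t) (deriv R t)) = fun _ => (0 : ℝ) := funext hT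
      rw [this]; exact hasDerivAt_const 0 0
    have h1 := h.unique h0
    have e1 : D.F (deriv R 0) (R 0) (deriv R 0) = D.F (R 0) (deriv R 0) (deriv R 0) := by
      rw [D.s12]
    rw [e1, ha, hR0] at h1
    simp only [map_smul, LinearMap.smul_apply, smul_eq_mul] at h1
    have h3 : r * (r * D.F P P (deriv (deriv R) 0)) = 0 := by linarith
    rcases mul_eq_zero.1 h3 with h4 | h4
    · exact absurd h4 hr
    · rcases mul_eq_zero.1 h4 with h5 | h5
      · exact absurd h5 hr
      · exact h5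
  -- differentiate the second relation
  have hcub : D.F (deriv R 0) (deriv R 0) (deriv R 0) = 0 := by
    have h := D.hasDerivAt_F (hd1 0) (hd2 0) (hd2 0)
    have h0 : HasDerivAt (fun t => D.F (R t) (deriv R t) (deriv R t)) 0 0 := by
      refine (hasDerivAt_const (0 : ℝ) (0 : ℝ)).congr_of_eventuallyEq ?_
      filter_upwards [harc] with t ht
      exact ht
    have h1 := h.unique h0
    have e1 : D.F (R 0) (deriv R 0) (deriv (deriv R) 0) =
        D.F (R 0) (deriv (deriv R) 0) (deriv R 0) := by rw [D.s23]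
    have e2 : D.F (R 0) (deriv (deriv R) 0) (deriv R 0) = 0 := by
      rw [hR0, hR0']
      simp only [map_smul, map_add, LinearMap.smul_apply, smul_eq_mul]
      have e3 : D.F P (deriv (deriv R) 0) P = 0 := by rw [D.s23, hL2]
      rw [e3, hP.flat, hLρ, hL2]
      ring
    rw [e1, e2] at h1
    linarith
  have hρ3 : D.F ρ ρ ρ = 0 := by
    rw [hR0'] at hcub
    have h1 : D.F (κ • P + (1 : ℝ) • ρ) (κ • P + (1 : ℝ) • ρ) (κ • P + (1 : ℝ) • ρ) = 0 := by
      rw [one_smul]; exact hcub
    rw [D.F_comb, hP.zero, hLρ, hP.flat, hLρ] at h1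
    linarith
  have hlρ : l ρ = 0 := by
    have h1 := hc ρ hLρ
    rw [hρ3] at h1
    rcases mul_eq_zero.1 h1.symm with h2 | h2
    · exact absurd h2 hγ
    · exact pow_eq_zero_iff (by norm_num) |>.1 h2
  have key : ∀ t : ℝ, 3 * t * D.F ρ ρ g + 3 * t ^ 2 * D.F ρ g g = 0 := by
    intro t
    have h1 := hc ((1 : ℝ) • ρ + t • g) (by
      simp only [map_add, map_smul, smul_eq_mul, hLρ, hg]; ring)
    rw [D.F_comb, hρ3] at h1
    simp only [map_add, map_smul, smul_eq_mul, hlρ] at h1
    have h2 := hc g hg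
    rw [h2] at h1
    linarith
  have k1 := key 1
  have k2 := key (-1)
  linarith

end CubData

end Pool.Agent.Lib.MP42.CubicHyp
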