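import Pool.Agent.Lib.MP_42de19_nt.CubicHyp.Basic

set_option autoImplicit false

/-! H5: if all smooth rational points are flat, then `Star` holds. -/

namespace Pool.Agent.Lib.MP42.CubicHyp

open Topology Filter Set

namespace CubData

variable {V : Type*} [NormedAddCommGroup V] [NormedSpace ℝ V] [FiniteDimensional ℝ V]
  {D : CubData V}

/-- flatness of all smooth rational points, as an identity on `K` -/
theorem starFlat_phi (hall : ∀ R ∈ D.Q, D.F R R R = 0 → D.F R R ≠ 0 → D.Flat R) {x : V}
    (hx : x ∈ D.K) (e v : V) :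
    D.F x x e * D.F x (D.F x x e • v - D.F x x v • e) (D.F x x e • v - D.F x x v • e) = 0 := by
  have h1 : ∀ w : V, Continuous fun x : V => D.F x x w := fun w =>
    D.cont_F continuous_id continuous_id continuous_const
  have h2 : Continuous fun x : V => D.F x x e • v - D.F x x v • e :=
    ((h1 e).smul continuous_const).sub ((h1 v).smul continuous_const)
  have h3 : Continuous fun x : V => D.F x x e *
      D.F x (D.F x x e • v - D.F x x v • e) (D.F x x e • v - D.F x x v • e) :=
    (h1 e).mul (D.cont_F continuous_id h2 h2)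
  have h4 : IsClosed {x : V | D.F x x e *
      D.F x (D.F x x e • v - D.F x x v • e) (D.F x x e • v - D.F x x v • e) = 0} :=
    isClosed_singleton.preimage h3
  refine closure_minimal (fun y hy => ?_) h4 hx
  obtain ⟨hyQ, hyX⟩ := hy
  show _ = _
  by_cases he : D.F y y e = 0
  · rw [he, zero_mul]
  · have hs : D.F y y ≠ 0 := fun h => he (by rw [h]; rfl)
    rw [hall y hyQ hyX hs _ ?_, mul_zero]
    simp only [map_add, map_sub, map_neg, map_smul, map_zero, LinearMap.add_apply, LinearMap.sub_apply, LinearMap.neg_apply, LinearMap.smul_apply, LinearMap.zero_apply, smul_eq_mul, CubData.s12, CubData.s23]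
    ring

theorem star_of_flat {P : V} {μ : V →ₗ[ℝ] ℝ} (hP : D.FlatData P μ)
    (hall : ∀ R ∈ D.Q, D.F R R R = 0 → D.F R R ≠ 0 → D.Flat R) : D.Star P μ := by
  intro R hRc hRK r κ ρ hr hR0 hRd hρ hμρ g hg
  obtain ⟨w, hw⟩ : ∃ w, D.F P P w ≠ 0 := by
    by_contra h
    push Not at h
    exact hP.smooth (LinearMap.ext h)
  have da : ∀ z : V, HasDerivAt (fun t => D.F (R t) (R t) z)
      (D.F (κ • P + ρ) (R 0) z + D.F (R 0) (κ • P + ρ) z + D.F (R 0) (R 0) 0) 0 := fun z =>
    D.hasDerivAt_F hRd hRd (hasDerivAt_const (0 : ℝ) z)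
  have du : HasDerivAt (fun t => D.F (R t) (R t) w • g - D.F (R t) (R t) g • w)
      ((D.F (κ • P + ρ) (R 0) w + D.F (R 0) (κ • P + ρ) w + D.F (R 0) (R 0) 0) • g
        - (D.F (κ • P + ρ) (R 0) g + D.F (R 0) (κ • P + ρ) g + D.F (R 0) (R 0) 0) • w) 0 :=
    ((da w).smul_const g).sub ((da g).smul_const w)
  have dF := D.hasDerivAt_F hRd du du
  have hev : (fun t => D.F (R t) (D.F (R t) (R t) w • g - D.F (R t) (R t) g • w)
      (D.F (R t) (R t) w • g - D.F (R t) (R t) g • w)) =ᶠ[𝓝 0] fun _ => (0 : ℝ) := by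
    have h1 : ContinuousAt (fun t => D.F (R t) (R t) w) 0 := (da w).continuousAt
    have h2 : D.F (R 0) (R 0) w ≠ 0 := by
      rw [hR0]
      have e : D.F (r • P) (r • P) w = r ^ 2 * D.F P P w := by simp only [map_add, map_sub, map_neg, map_smul, map_zero, LinearMap.add_apply, LinearMap.sub_apply, LinearMap.neg_apply, LinearMap.smul_apply, LinearMap.zero_apply, smul_eq_mul, CubData.s12, CubData.s23]; ring
      rw [e]
      exact mul_ne_zero (pow_ne_zero 2 hr) hw
    filter_upwards [h1.eventually_ne h2] with t ht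
    have h3 := starFlat_phi hall (hRK t) w g
    exact (mul_eq_zero.mp h3).resolve_left ht
  have h0 : HasDerivAt (fun t => D.F (R t) (D.F (R t) (R t) w • g - D.F (R t) (R t) g • w)
      (D.F (R t) (R t) w • g - D.F (R t) (R t) g • w)) 0 0 :=
    (hasDerivAt_const (0 : ℝ) (0 : ℝ)).congr_of_eventuallyEq hev
  have key := dF.unique h0
  rw [hR0] at key
  have f1 : D.F P ρ g = 0 := by rw [hP.flat, hμρ, hρ, zero_mul, mul_zero, add_zero]
  have f2 : D.F P g g = 0 := by rw [hP.flat, hg, mul_zero, add_zero]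
  have f3 : D.F P g ρ = 0 := by rw [D.s23]; exact f1
  have f4 : D.F ρ P g = 0 := by rw [D.s12]; exact f1
  have e0 : D.F (r • P) (r • P) w = r ^ 2 * D.F P P w := by simp only [map_add, map_sub, map_neg, map_smul, map_zero, LinearMap.add_apply, LinearMap.sub_apply, LinearMap.neg_apply, LinearMap.smul_apply, LinearMap.zero_apply, smul_eq_mul, CubData.s12, CubData.s23]; ring
  have e1 : D.F (r • P) (r • P) g = 0 := by
    have : D.F (r • P) (r • P) g = r ^ 2 * D.F P P g := by simp only [map_add, map_sub, map_neg, map_smul, map_zero, LinearMap.add_apply, LinearMap.sub_apply, LinearMap.neg_apply, LinearMap.smul_apply, LinearMap.zero_apply, smul_eq_mul, CubData.s12, CubData.s23]; ring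
    rw [this, hg, mul_zero]
  have e2 : D.F (κ • P + ρ) (r • P) g = 0 := by
    have : D.F (κ • P + ρ) (r • P) g = κ * r * D.F P P g + r * D.F ρ P g := by
      simp only [map_add, map_smul, LinearMap.add_apply, LinearMap.smul_apply, smul_eq_mul]
      ring
    rw [this, hg, f4]; ring
  have e3 : D.F (r • P) (κ • P + ρ) g = 0 := by rw [D.s12]; exact e2
  rw [e0, e1, e2, e3] at key
  set a1 : ℝ := D.F (κ • P + ρ) (r • P) w + D.F (r • P) (κ • P + ρ) w + D.F (r • P) (r • P) 0
    with ha1
  have e4 : D.F (r • P) (r • P) 0 = 0 := map_zero _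
  rw [e4] at key
  simp only [zero_smul, add_zero, sub_zero, map_add, map_smul, LinearMap.add_apply,
    LinearMap.smul_apply, smul_eq_mul, f2, mul_zero, zero_add] at key
  have h5 : (r ^ 2 * D.F P P w) ^ 2 * D.F ρ g g = 0 := by linear_combination key
  have h6 : (r ^ 2 * D.F P P w) ^ 2 ≠ 0 := pow_ne_zero 2 (mul_ne_zero (pow_ne_zero 2 hr) hw)
  exact (mul_eq_zero.mp h5).resolve_left h6

end CubData

end Pool.Agent.Lib.MP42.CubicHyp
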