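import Pool.Agent.Lib.MP_42de19_nt.CubicHyp.Dichotomy
import Pool.Agent.Lib.MP_42de19_nt.CubicHyp.FlatData
import Pool.Agent.Lib.MP_42de19_nt.CubicHyp.AdmDir
import Pool.Agent.Lib.MP_42de19_nt.CubicHyp.StarFlat
import Pool.Agent.Lib.MP_42de19_nt.CubicHyp.StarCube
import Pool.Agent.Lib.MP_42de19_nt.CubicHyp.AdmExists
import Pool.Agent.Lib.MP_42de19_nt.CubicHyp.Final

set_option autoImplicit false

namespace Pool.Agent.Lib.MP42.CubicHyp

open Topology Filter Set

namespace CubData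

variable {V : Type*} [NormedAddCommGroup V] [NormedSpace ℝ V] [FiniteDimensional ℝ V]
  (D : CubData V)

/-- Existence of interior points: a cubic hypersurface in at least four (homogeneous) variables
with a smooth rational point, no vertex, no rational double point and no hyperplane inside. -/
theorem interior (hdim : 4 ≤ Module.finrank ℝ V) (hH : D.NoHyp)
    (hV : D.NoVertex) (hdbl : D.NoRatDouble) {P : V} (hP : P ∈ D.Q) (hPX : D.F P P P = 0)
    (hPs : D.F P P ≠ 0) : D.HasInt := by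
  by_contra hI
  by_cases hall : ∀ R ∈ D.Q, D.F R R R = 0 → D.F R R ≠ 0 → D.Flat R
  · obtain ⟨μ, hμ⟩ := Flat.exists_data D hP hPX hPs (hall P hP hPX hPs)
    have hS := star_of_flat hμ hall
    obtain ⟨w, h, hA⟩ := hμ.exists_adm hH
    exact hμ.final hdim hV hA fun w h h' g ρ hA' h1 h2 h3 h4 => hμ.star_adm hS hA' h1 h2 h3 h4
  · push Not at hall
    obtain ⟨P', h1, h2, h3, h4⟩ := hall
    obtain ⟨R, hR1, hR2, hR3, hR4, l, γ, hl⟩ := D.exists_flat_cube hdim hI hdbl h1 h2 h3 h4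
    obtain ⟨μ, hμ⟩ := Flat.exists_data D hR1 hR2 hR3 hR4
    have hS := star_of_cube hμ hI hH hl
    obtain ⟨w, h, hA⟩ := hμ.exists_adm hH
    exact hμ.final hdim hV hA fun w h h' g ρ hA' h1 h2 h3 h4 => hμ.star_adm hS hA' h1 h2 h3 h4

end CubData

end Pool.Agent.Lib.MP42.CubicHyp
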