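import Pool.Agent.Lib.MP_42de19_nt.CubicHyp.Basic
import Pool.Agent.Lib.MP_42de19_nt.CubicHyp.Tangent
import Pool.Agent.Lib.MP_42de19_nt.CubicHyp.Indef

set_option autoImplicit false

namespace Pool.Agent.Lib.MP42.CubicHyp

open Topology Filter

namespace CubData

variable {V : Type*} [NormedAddCommGroup V] [NormedSpace ℝ V] [FiniteDimensional ℝ V] (D : CubData V)

/-! ## E3 (Isolated.lean) -/

/-- if `F b v₀ v₀ = 0` and `F v₀ ≠ 0` then the double point `b` is a limit of smooth points -/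
private theorem isolated_aux {b : V} (hb : b ∈ D.Q) (hb1 : D.F b b = 0) (hFb : D.F b ≠ 0)
    {v₀ : V} (h0 : D.F b v₀ v₀ = 0) (hv₀ : D.F v₀ v₀ v₀ ≠ 0) : b ∈ closure (D.K ∩ D.Xs) := by
  -- a vector with `F b u u ≠ 0`
  obtain ⟨u, hu⟩ : ∃ u, D.F b u u ≠ 0 := by
    by_contra hcon
    push Not at hcon
    apply hFb
    ext x y
    have h1 := hcon (x + y)
    have h2 := hcon x
    have h3 := hcon y
    have h4 : D.F b (x + y) (x + y) = D.F b x x + 2 * D.F b x y + D.F b y y := by
      have h5 : D.F b y x = D.F b x y := D.s23 b y x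
      simp only [map_add, LinearMap.add_apply, h5]
      ring
    rw [h1, h2, h3] at h4
    simp only [LinearMap.zero_apply]
    linarith
  have hb1' : ∀ x, D.F b b x = 0 := fun x => by rw [hb1]; rfl
  set g : ℝ → V := fun t => b + (-(3 * D.F b (v₀ + t • u) (v₀ + t • u)) *
    (D.F (v₀ + t • u) (v₀ + t • u) (v₀ + t • u))⁻¹) • (v₀ + t • u) with hg
  have hc : Continuous fun t : ℝ => v₀ + t • u := by fun_prop
  have hcF : Continuous fun t : ℝ => D.F (v₀ + t • u) (v₀ + t • u) (v₀ + t • u) :=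
    D.cont_F hc hc hc
  have hcb : Continuous fun t : ℝ => D.F b (v₀ + t • u) (v₀ + t • u) :=
    D.cont_F continuous_const hc hc
  have hF0 : D.F (v₀ + (0 : ℝ) • u) (v₀ + (0 : ℝ) • u) (v₀ + (0 : ℝ) • u) ≠ 0 := by
    simpa using hv₀
  have hgc : ContinuousAt g 0 := by
    refine continuousAt_const.add (ContinuousAt.smul ?_ hc.continuousAt)
    exact ((hcb.continuousAt.const_mul 3).neg).mul (hcF.continuousAt.inv₀ hF0)
  have hg0 : g 0 = b := by
    simp only [hg, zero_smul, add_zero, h0]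
    simp
  have ht : Tendsto g (𝓝[≠] (0 : ℝ)) (𝓝 b) := by
    have := hgc.tendsto
    rw [hg0] at this
    exact this.mono_left nhdsWithin_le_nhds
  refine mem_closure_of_tendsto ht ?_
  have e1 : ∀ᶠ t : ℝ in 𝓝[≠] 0, D.F (v₀ + t • u) (v₀ + t • u) (v₀ + t • u) ≠ 0 :=
    (hcF.continuousAt.eventually_ne hF0).filter_mono nhdsWithin_le_nhds
  have e2 : ∀ᶠ t : ℝ in 𝓝[≠] 0, t ≠ 0 := self_mem_nhdsWithin
  have e3 : ∀ᶠ t : ℝ in 𝓝[≠] 0, t ≠ -(2 * D.F b v₀ u) / D.F b u u := by
    by_cases h : -(2 * D.F b v₀ u) / D.F b u u = 0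
    · rw [h]; exact e2
    · exact (eventually_ne_nhds (Ne.symm h)).filter_mono nhdsWithin_le_nhds
  filter_upwards [e1, e2, e3] with t h1 h2 h3
  have hq : D.F b (v₀ + t • u) (v₀ + t • u) ≠ 0 := by
    have h5 : D.F b u v₀ = D.F b v₀ u := D.s23 b u v₀
    have e : D.F b (v₀ + t • u) (v₀ + t • u) = t * (2 * D.F b v₀ u + t * D.F b u u) := by
      simp only [map_add, LinearMap.add_apply, map_smul, LinearMap.smul_apply, smul_eq_mul, h5, h0]
      ring
    rw [e]
    refine mul_ne_zero h2 fun h6 => h3 ?_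
    rw [eq_div_iff hu]
    linarith
  set v : V := v₀ + t • u with hv
  have hK : D.tau b v ∈ D.K := D.tau_mem_K_of_double hb hb1
  have hgt : g t = (D.F v v v)⁻¹ • D.tau b v := by
    simp only [hg, tau, smul_sub, smul_smul]
    rw [inv_mul_cancel₀ h1, one_smul, sub_eq_add_neg, ← neg_smul]
    congr 2
    ring
  have hgK : g t ∈ D.K := by
    rw [hgt]
    exact D.smul_mem_K hK _
  refine ⟨hgK, D.K_subset_X hgK, fun hcon => ?_⟩
  have h7 : D.F (g t) (g t) b = 0 := by rw [hcon]; rfl
  rw [hgt] at h7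
  have h8 : D.F (D.tau b v) (D.tau b v) b = 9 * (D.F b v v) ^ 3 := by
    have a1 : D.F b b b = 0 := hb1' b
    have a2 : D.F b b v = 0 := hb1' v
    have a3 : D.F b v b = 0 := by rw [D.s23]; exact a2
    have a4 : D.F v b b = 0 := by rw [D.s12]; exact a3
    have a5 : D.F v v b = D.F b v v := by rw [D.s23, D.s12]
    simp only [tau, map_sub, LinearMap.sub_apply, map_smul, LinearMap.smul_apply, smul_eq_mul,
      a1, a3, a4, a5]
    ring
  simp only [map_smul, LinearMap.smul_apply, smul_eq_mul, h8] at h7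
  have h9 : (D.F v v v)⁻¹ ≠ 0 := inv_ne_zero h1
  have h10 : (D.F b v v) ^ 3 ≠ 0 := pow_ne_zero 3 hq
  exact (mul_ne_zero h9 (mul_ne_zero h9 (mul_ne_zero (by norm_num) h10))) h7

/-- rational double points which are not limits of smooth rational points -/
theorem isolated_double (hH : D.NoHyp) (hV : D.NoVertex) {b : V} (hb : b ∈ D.Q)
    (hb1 : D.F b b = 0) (hb2 : b ∉ closure (D.K ∩ D.Xs)) (hb0 : b ≠ 0)
    (hR : D.RatSub (LinearMap.ker (D.F b))) :
    (∀ v, D.F b v v = 0 → D.F b v = 0) ∧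
      ∀ l l', D.F b l = 0 → D.F b l' = 0 → D.F l l' = 0 := by
  have hFb : D.F b ≠ 0 := hV b hb0
  have hz : ∀ v, D.F b v v = 0 → D.F v v v = 0 := by
    intro v h0
    by_contra hv
    exact hb2 (D.isolated_aux hb hb1 hFb h0 hv)
  have hsym : ∀ x y, D.F b x y = D.F b y x := fun x y => D.s23 b x y
  -- semidefinite
  have hsemi : (∀ v, 0 ≤ D.F b v v) ∨ (∀ v, D.F b v v ≤ 0) := by
    by_contra hcon
    push Not at hcon
    obtain ⟨⟨v₂, h2⟩, ⟨v₁, h1⟩⟩ := hcon
    exact D.not_indefinite hH (D.F b) hsym hz h1 h2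
  have first : ∀ v, D.F b v v = 0 → D.F b v = 0 := by
    intro v h0
    ext w
    simp only [LinearMap.zero_apply]
    have key : ∀ t : ℝ, D.F b (v + t • w) (v + t • w) = 2 * t * D.F b v w + t ^ 2 * D.F b w w := by
      intro t
      simp only [map_add, LinearMap.add_apply, map_smul, LinearMap.smul_apply, smul_eq_mul, h0,
        hsym w v]
      ring
    by_contra hne
    rcases hsemi with hs | hs
    · -- q(v + t w) ≥ 0
      have hw : 0 ≤ D.F b w w := hs w
      have h1 := hs (v + (-(D.F b v w) / (D.F b w w + 1)) • w)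
      rw [key] at h1
      have h2 : 0 < D.F b w w + 1 := by linarith
      have h3 : 2 * (-(D.F b v w) / (D.F b w w + 1)) * D.F b v w
          + (-(D.F b v w) / (D.F b w w + 1)) ^ 2 * D.F b w w
          = - (D.F b v w) ^ 2 * (D.F b w w + 2) / (D.F b w w + 1) ^ 2 := by
        field_simp
        ring
      rw [h3] at h1
      have h4 : 0 < (D.F b v w) ^ 2 := by positivity
      have h5 : - (D.F b v w) ^ 2 * (D.F b w w + 2) / (D.F b w w + 1) ^ 2 < 0 := by
        apply div_neg_of_neg_of_pos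
        · nlinarith
        · positivity
      linarith
    · have hw : D.F b w w ≤ 0 := hs w
      have h1 := hs (v + (-(D.F b v w) / (D.F b w w - 1)) • w)
      rw [key] at h1
      have h2 : D.F b w w - 1 < 0 := by linarith
      have h2' : D.F b w w - 1 ≠ 0 := h2.ne
      have h3 : 2 * (-(D.F b v w) / (D.F b w w - 1)) * D.F b v w
          + (-(D.F b v w) / (D.F b w w - 1)) ^ 2 * D.F b w w
          = (D.F b v w) ^ 2 * (2 - D.F b w w) / (D.F b w w - 1) ^ 2 := by
        field_simp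
        ring
      rw [h3] at h1
      have h4 : 0 < (D.F b v w) ^ 2 := by positivity
      have h5 : 0 < (D.F b v w) ^ 2 * (2 - D.F b w w) / (D.F b w w - 1) ^ 2 := by
        apply div_pos
        · nlinarith
        · positivity
      linarith
  refine ⟨first, ?_⟩
  have second : ∀ l, D.F b l = 0 → D.F l l = 0 := by
    intro l₀ hl₀
    by_contra hne
    obtain ⟨u, hu⟩ : ∃ u, D.F l₀ l₀ u ≠ 0 := by
      by_contra hcon
      push Not at hcon
      exact hne (LinearMap.ext hcon)
    have hmem := hR l₀ (LinearMap.mem_ker.mpr hl₀)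
    have hopen : IsOpen {l : V | D.F l l u ≠ 0} :=
      isOpen_ne_fun (D.cont_F continuous_id continuous_id continuous_const) continuous_const
    obtain ⟨l, hl1, hl2⟩ := mem_closure_iff.mp hmem _ hopen hu
    have hlQ : l ∈ D.Q := hl2.1
    have hlk : D.F b l = 0 := LinearMap.mem_ker.mp hl2.2
    have hll : D.F l l l = 0 := hz l (by rw [hlk]; rfl)
    apply hb2
    have ht : Tendsto (fun n : ℕ => b + (1 / ((n : ℝ) + 1)) • l) atTop (𝓝 b) := by
      have h1 : Tendsto (fun n : ℕ => 1 / ((n : ℝ) + 1)) atTop (𝓝 0) :=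
        tendsto_one_div_add_atTop_nhds_zero_nat
      have h2 := (h1.smul_const l).const_add b
      simpa using h2
    refine mem_closure_of_tendsto ht (Eventually.of_forall fun n => ?_)
    have hε : (1 / ((n : ℝ) + 1)) ≠ 0 := by positivity
    set ε : ℝ := 1 / ((n : ℝ) + 1) with hεd
    have hQ : b + ε • l ∈ D.Q := by
      refine D.add_mem_Q hb (D.smul_mem_Q hlQ ⟨1 / ((n : ℚ) + 1), ?_⟩)
      rw [hεd]; push_cast; rfl
    have c1 : ∀ x, D.F b b x = 0 := fun x => by rw [hb1]; rfl
    have c2 : ∀ x, D.F b l x = 0 := fun x => by rw [hlk]; rfl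
    have c3 : ∀ x, D.F l b x = 0 := fun x => by rw [D.s12]; exact c2 x
    have hgrad : ∀ x, D.F (b + ε • l) (b + ε • l) x = ε ^ 2 * D.F l l x := by
      intro x
      simp only [map_add, LinearMap.add_apply, map_smul, LinearMap.smul_apply, smul_eq_mul, c1, c2,
        c3]
      ring
    have hX : D.F (b + ε • l) (b + ε • l) (b + ε • l) = 0 := by
      rw [hgrad]
      have c4 : D.F l l b = 0 := by rw [D.s23]; exact c3 l
      simp only [map_add, map_smul, smul_eq_mul, c4, hll]
      ring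
    refine ⟨D.ratX_subset_K ⟨hQ, hX⟩, hX, fun hcon => ?_⟩
    have h1 : D.F (b + ε • l) (b + ε • l) u = 0 := by rw [hcon]; rfl
    rw [hgrad] at h1
    exact (mul_ne_zero (pow_ne_zero 2 hε) hl1) h1
  intro l l' hl hl'
  ext x
  simp only [LinearMap.zero_apply]
  have h1 : D.F (l + l') (l + l') x = 0 := by
    rw [second (l + l') (by rw [map_add, hl, hl', add_zero])]; rfl
  have h2 : D.F l l x = 0 := by rw [second l hl]; rfl
  have h3 : D.F l' l' x = 0 := by rw [second l' hl']; rfl
  have h4 : D.F l' l x = D.F l l' x := D.s12 l' l x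
  simp only [map_add, LinearMap.add_apply, h2, h3, h4] at h1
  linarith

end CubData

end Pool.Agent.Lib.MP42.CubicHyp
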