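import Pool.Agent.Lib.MP_42de19_nt.CubicHyp.RatSub

set_option autoImplicit false

/-! Lemma R: no rational hyperplane implies no real hyperplane, if there is a smooth rational
point. -/

namespace Pool.Agent.Lib.MP42.CubicHyp

open Topology Filter

namespace LemmaR

/-- rational real numbers -/
def Rt (x : ℝ) : Prop := ∃ r : ℚ, x = r

theorem Rt.add {x y : ℝ} (hx : Rt x) (hy : Rt y) : Rt (x + y) := by
  obtain ⟨r, rfl⟩ := hx; obtain ⟨s, rfl⟩ := hy; exact ⟨r + s, by push_cast; ring⟩
theorem Rt.sub {x y : ℝ} (hx : Rt x) (hy : Rt y) : Rt (x - y) := by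
  obtain ⟨r, rfl⟩ := hx; obtain ⟨s, rfl⟩ := hy; exact ⟨r - s, by push_cast; ring⟩
theorem Rt.mul {x y : ℝ} (hx : Rt x) (hy : Rt y) : Rt (x * y) := by
  obtain ⟨r, rfl⟩ := hx; obtain ⟨s, rfl⟩ := hy; exact ⟨r * s, by push_cast; ring⟩
theorem Rt.div {x y : ℝ} (hx : Rt x) (hy : Rt y) : Rt (x / y) := by
  obtain ⟨r, rfl⟩ := hx; obtain ⟨s, rfl⟩ := hy; exact ⟨r / s, by push_cast; ring⟩
theorem Rt.nat (n : ℕ) : Rt (n : ℝ) := ⟨n, by simp⟩

end LemmaR

open LemmaR

namespace CubData

variable {V : Type*} [NormedAddCommGroup V] [NormedSpace ℝ V] [FiniteDimensional ℝ V] (D : CubData V)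

theorem noHyp_of_noRatHyp (hH : D.NoRatHyp) {P : V} (hP : P ∈ D.Q) (hPX : D.F P P P = 0)
    (hPs : D.F P P ≠ 0) : D.NoHyp := by
  intro l₀ hl₀
  by_contra hcon
  push Not at hcon
  have hLrat : D.RatFun (D.F P P) := D.ratFun_F hP hP
  by_cases hlP : l₀ P = 0
  · -- `l₀ P = 0`
    have h1 : ∀ v, l₀ v = 0 → D.F P P v = 0 := by
      intro v hv
      have h2 : ∀ t : ℝ, 3 * t * D.F P P v + 3 * t ^ 2 * D.F P v v + t ^ 3 * D.F v v v = 0 := by
        intro t
        have h3 := hcon (P + t • v) (by rw [map_add, map_smul, hlP, hv, smul_zero, add_zero])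
        have h4 : D.F (P + t • v) (P + t • v) (P + t • v) = D.F P P P + 3 * t * D.F P P v +
            3 * t ^ 2 * D.F P v v + t ^ 3 * D.F v v v := by
          simp only [map_add, map_sub, map_neg, map_smul, map_zero, LinearMap.add_apply, LinearMap.sub_apply, LinearMap.neg_apply, LinearMap.smul_apply, LinearMap.zero_apply, smul_eq_mul, CubData.s12, CubData.s23]; ring
        rw [h4, hPX] at h3
        linarith
      have e1 := h2 1
      have e2 := h2 (-1)
      have e3 := h2 2
      linarith
    obtain ⟨v, hv1, hv2⟩ := hH (D.F P P) hLrat hPs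
    refine hv2 (hcon v ?_)
    by_contra hv3
    apply hPs
    ext x
    have h5 := h1 (x - (l₀ x / l₀ v) • v) (by
      rw [map_sub, map_smul, smul_eq_mul, div_mul_cancel₀ _ hv3, sub_self])
    rw [map_sub, map_smul, hv1, smul_zero, sub_zero] at h5
    rw [h5, LinearMap.zero_apply]
  · -- `l₀ P ≠ 0`, normalise
    set l : V →ₗ[ℝ] ℝ := (l₀ P)⁻¹ • l₀ with hldef
    have hlP1 : l P = 1 := by
      rw [hldef, LinearMap.smul_apply, smul_eq_mul, inv_mul_cancel₀ hlP]
    have hker : ∀ v, l v = 0 → D.F v v v = 0 := by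
      intro v hv
      refine hcon v ?_
      rw [hldef, LinearMap.smul_apply, smul_eq_mul] at hv
      rcases mul_eq_zero.mp hv with h | h
      · exact absurd (inv_eq_zero.mp h) hlP
      · exact h
    have hl0 : l ≠ 0 := fun h => by rw [h, LinearMap.zero_apply] at hlP1; exact zero_ne_one hlP1
    -- the quadratic equation for `l v`
    have star : ∀ v, D.F v v v - l v * (3 * D.F P v v) + (l v) ^ 2 * (3 * D.F P P v) = 0 := by
      intro v
      have h1 := hker (v - (l v) • P) (by
        rw [map_sub, map_smul, hlP1, smul_eq_mul, mul_one, sub_self])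
      have h2 : D.F (v - (l v) • P) (v - (l v) • P) (v - (l v) • P) = D.F v v v
          - l v * (3 * D.F P v v) + (l v) ^ 2 * (3 * D.F P P v) - (l v) ^ 3 * D.F P P P := by
        simp only [map_add, map_sub, map_neg, map_smul, map_zero, LinearMap.add_apply, LinearMap.sub_apply, LinearMap.neg_apply, LinearMap.smul_apply, LinearMap.zero_apply, smul_eq_mul, CubData.s12, CubData.s23]; ring
      rw [h2, hPX] at h1
      linarith
    have hratF : ∀ a b c, a ∈ D.Q → b ∈ D.Q → c ∈ D.Q → Rt (D.F a b c) := fun a b c ha hb hc =>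
      D.ratQ a ha b hb c hc
    -- a rational tangent vector with `A ≠ 0`
    obtain ⟨u₁, hu₁Q, hu₁L, hu₁A⟩ : ∃ u ∈ D.Q, D.F P P u = 0 ∧ D.F P u u ≠ 0 := by
      by_contra hno
      push Not at hno
      obtain ⟨v, hv1, hv2⟩ := hH (D.F P P) hLrat hPs
      have h1 : v ∈ closure {u : V | u ∈ D.Q ∧ D.F P P u = 0} := D.dense_ker hLrat hv1
      have h2 : IsClosed {u : V | D.F P u u = 0} :=
        isClosed_singleton.preimage (D.cont_F continuous_const continuous_id continuous_id)
      have h3 : D.F P v v = 0 := closure_minimal (fun u hu => hno u hu.1 hu.2) h2 h1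
      have h4 := star v
      rw [h3, hv1] at h4
      apply hv2
      linarith
    have hrat1 : ∀ u ∈ D.Q, D.F P P u = 0 → D.F P u u ≠ 0 → Rt (l u) := by
      intro u hu h1 h2
      have h3 := star u
      rw [h1] at h3
      have h4 : l u = D.F u u u / (3 * D.F P u u) := by
        rw [eq_div_iff (by simpa using h2)]
        linarith
      rw [h4]
      exact (hratF _ _ _ hu hu hu).div ((Rt.nat 3).mul (hratF _ _ _ hP hu hu))
    -- `l` is rational on the rational tangent vectors
    have hrat2 : ∀ u ∈ D.Q, D.F P P u = 0 → Rt (l u) := by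
      intro u hu h1
      -- a small rational `t ≠ 0` with `A (u₁ + t u) ≠ 0`
      obtain ⟨t, ht0, ht⟩ : ∃ t : ℚ, t ≠ 0 ∧
          D.F P (u₁ + (t : ℝ) • u) (u₁ + (t : ℝ) • u) ≠ 0 := by
        have hc : Continuous fun t : ℝ => D.F P (u₁ + t • u) (u₁ + t • u) :=
          D.cont_F continuous_const (by fun_prop) (by fun_prop)
        have hO : IsOpen {t : ℝ | D.F P (u₁ + t • u) (u₁ + t • u) ≠ 0} :=
          isOpen_ne.preimage hc
        have h0 : (0 : ℝ) ∈ {t : ℝ | D.F P (u₁ + t • u) (u₁ + t • u) ≠ 0} := by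
          show D.F P (u₁ + (0 : ℝ) • u) (u₁ + (0 : ℝ) • u) ≠ 0
          rw [zero_smul, add_zero]
          exact hu₁A
        obtain ⟨ε, hε, hball⟩ := Metric.isOpen_iff.mp hO 0 h0
        obtain ⟨t, ht1, ht2⟩ := exists_rat_btwn hε
        refine ⟨t, ?_, hball ?_⟩
        · rintro rfl
          simp at ht1
        · rw [Metric.mem_ball, dist_zero_right, Real.norm_eq_abs, abs_of_pos ht1]
          exact ht2
      have h2 : u₁ + (t : ℝ) • u ∈ D.Q := D.add_mem_Q hu₁Q (D.smulQ t u hu)
      have h3 : D.F P P (u₁ + (t : ℝ) • u) = 0 := by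
        rw [map_add, map_smul, hu₁L, h1, smul_zero, add_zero]
      have h4 := hrat1 _ h2 h3 ht
      have h5 := hrat1 _ hu₁Q hu₁L hu₁A
      have h6 : l u = (l (u₁ + (t : ℝ) • u) - l u₁) / t := by
        have : (t : ℝ) ≠ 0 := by exact_mod_cast ht0
        rw [map_add, map_smul, smul_eq_mul]
        field_simp
        ring
      rw [h6]
      exact (h4.sub h5).div ⟨t, rfl⟩
    -- a rational vector with `L e = 1`
    obtain ⟨e, heQ, he⟩ : ∃ e ∈ D.Q, D.F P P e = 1 := by
      obtain ⟨e, he1, he2⟩ := D.exists_mem_Q_ne hPs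
      refine ⟨(D.F P P e)⁻¹ • e, D.smul_mem_Q he1 ?_, ?_⟩
      · have := (Rt.nat 1).div (hratF _ _ _ hP hP he1)
        simpa [Rt] using this
      · rw [map_smul, smul_eq_mul, inv_mul_cancel₀ he2]
    by_cases hω : Rt (l e)
    · -- `l` is rational
      have hlr : D.RatFun l := by
        intro v hv
        have h1 : Rt (D.F P P v) := hratF _ _ _ hP hP hv
        have h2 : v - (D.F P P v) • e ∈ D.Q := D.sub_mem_Q hv (D.smul_mem_Q heQ h1)
        have h3 : D.F P P (v - (D.F P P v) • e) = 0 := by
          rw [map_sub, map_smul, he, smul_eq_mul, mul_one, sub_self]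
        have h4 := hrat2 _ h2 h3
        rw [map_sub, map_smul, smul_eq_mul] at h4
        have h5 := h4.add (h1.mul hω)
        simpa [Rt] using h5
      obtain ⟨v, hv1, hv2⟩ := hH l hlr hl0
      exact hv2 (hker v hv1)
    · -- `l e` is irrational
      have key : ∀ u ∈ D.Q, D.F P P u = 0 → 3 * D.F P u u + 6 * D.F P e u = 3 * 2 * l u := by
        intro u hu h1
        have hr := hrat2 u hu h1
        have s1 := star (e + u)
        have s0 := star e
        have x1 : D.F P (e + u) (e + u) = D.F P e e + 2 * D.F P e u + D.F P u u := by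
          simp only [map_add, map_sub, map_neg, map_smul, map_zero, LinearMap.add_apply, LinearMap.sub_apply, LinearMap.neg_apply, LinearMap.smul_apply, LinearMap.zero_apply, smul_eq_mul, CubData.s12, CubData.s23]; ring
        have x2 : D.F P P (e + u) = 1 := by rw [map_add, he, h1, add_zero]
        have x3 : l (e + u) = l e + l u := map_add _ _ _
        rw [x2, x3] at s1
        rw [he] at s0
        -- the coefficient of `ω`
        set c : ℝ := 3 * D.F P e e + 3 * 2 * l u - 3 * D.F P (e + u) (e + u) with hc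
        have hcr : Rt c := (((Rt.nat 3).mul (hratF _ _ _ hP heQ heQ)).add
          (((Rt.nat 3).mul (Rt.nat 2)).mul hr)).sub
          ((Rt.nat 3).mul (hratF _ _ _ hP (D.add_mem_Q heQ hu) (D.add_mem_Q heQ hu)))
        have hd : l e * c = D.F e e e - 3 * (l u) ^ 2 + l u * (3 * D.F P (e + u) (e + u)) -
            D.F (e + u) (e + u) (e + u) := by
          rw [hc]
          linear_combination s1 - s0
        have hdr : Rt (D.F e e e - 3 * (l u) ^ 2 + l u * (3 * D.F P (e + u) (e + u)) -
            D.F (e + u) (e + u) (e + u)) := by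
          have y1 := hratF _ _ _ heQ heQ heQ
          have y2 : Rt (3 * (l u) ^ 2) := by
            rw [pow_two]; exact (Rt.nat 3).mul (hr.mul hr)
          have y3 : Rt (l u * (3 * D.F P (e + u) (e + u))) :=
            hr.mul ((Rt.nat 3).mul (hratF _ _ _ hP (D.add_mem_Q heQ hu) (D.add_mem_Q heQ hu)))
          exact ((y1.sub y2).add y3).sub
            (hratF _ _ _ (D.add_mem_Q heQ hu) (D.add_mem_Q heQ hu) (D.add_mem_Q heQ hu))
        have hc0 : c = 0 := by
          by_contra hne
          apply hω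
          have : l e = (l e * c) / c := by field_simp
          rw [this, hd]
          exact hdr.div hcr
        rw [hc, x1] at hc0
        linarith
      have k1 := key u₁ hu₁Q hu₁L
      have k2 := key (-u₁) (D.Q.neg_mem hu₁Q) (by rw [map_neg, hu₁L, neg_zero])
      have k3 : D.F P (-u₁) (-u₁) = D.F P u₁ u₁ := by simp only [map_add, map_sub, map_neg, map_smul, map_zero, LinearMap.add_apply, LinearMap.sub_apply, LinearMap.neg_apply, LinearMap.smul_apply, LinearMap.zero_apply, smul_eq_mul, CubData.s12, CubData.s23]; ring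
      have k4 : D.F P e (-u₁) = - D.F P e u₁ := by simp only [map_add, map_sub, map_neg, map_smul, map_zero, LinearMap.add_apply, LinearMap.sub_apply, LinearMap.neg_apply, LinearMap.smul_apply, LinearMap.zero_apply, smul_eq_mul, CubData.s12, CubData.s23]
      have k5 : l (-u₁) = - l u₁ := map_neg _ _
      rw [k3, k4, k5] at k2
      apply hu₁A
      linarith

end CubData

end Pool.Agent.Lib.MP42.CubicHyp
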