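import Pool.Agent.Lib.MP_42de19_nt.CubicHyp.Coord
import Pool.Agent.Lib.MP_42de19_nt.CubicHyp.RatSub

set_option autoImplicit false

/-! MP_42de19_nt: linear subspaces attached to a cubic form; the case without smooth rational
points. -/

namespace Pool.Agent.Lib.MP42.CubicHyp

open Topology Filter Set

theorem single_mem_ratV {N : ℕ} (i : Fin N) : (Pi.single i 1 : Fin N → ℝ) ∈ ratV N := by
  refine ⟨Pi.single i 1, ?_⟩
  funext j
  by_cases h : j = i
  · subst h; simp [castV]
  · simp [castV, h]

/-- a functional that vanishes on the standard vectors is zero -/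
theorem lin_eq_zero {N : ℕ} {W : Type*} [AddCommGroup W] [Module ℝ W]
    (l : (Fin N → ℝ) →ₗ[ℝ] W) (h : ∀ i, l (Pi.single i 1) = 0) : l = 0 := by
  refine LinearMap.ext fun x => ?_
  have hx : x = ∑ i, x i • (Pi.single i (1 : ℝ) : Fin N → ℝ) := by
    funext j
    simp [Finset.sum_apply, Pi.single_apply]
  rw [hx, map_sum, LinearMap.zero_apply]
  refine Finset.sum_eq_zero fun i _ => ?_
  rw [map_smul, h i, smul_zero]

theorem F_b_eq_zero {N : ℕ} (T : SymT N) (b v : Fin N → ℝ) :
    (cub T).F b v = 0 ↔ ∀ i, (cub T).F b (Pi.single i 1) v = 0 := by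
  constructor
  · intro h i
    rw [(cub T).s23, h]; rfl
  · intro h
    refine lin_eq_zero _ fun i => ?_
    rw [(cub T).s23]; exact h i

theorem F_eq_zero {N : ℕ} (T : SymT N) (v : Fin N → ℝ) :
    (cub T).F v = 0 ↔ ∀ p : Fin N × Fin N,
      (cub T).F (Pi.single p.1 1) (Pi.single p.2 1) v = 0 := by
  constructor
  · intro h p
    rw [(cub T).s23, (cub T).s12, h]; rfl
  · intro h
    refine lin_eq_zero _ fun i => ?_
    refine lin_eq_zero _ fun j => ?_
    rw [(cub T).s12, (cub T).s23]; exact h (i, j)

theorem ratSub_ker_F {N : ℕ} (T : SymT N) {b : Fin N → ℝ} (hb : b ∈ ratV N) :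
    (cub T).RatSub (LinearMap.ker ((cub T).F b)) := by
  have h := (CubData.ratSub_top (cub T)).inf_iInf_ker Finset.univ
    (fun i : Fin N => (cub T).F b (Pi.single i 1))
    (fun i _ => CubData.ratFun_F (cub T) hb (single_mem_ratV i))
  have e : (⊤ : Submodule ℝ (Fin N → ℝ)) ⊓ ⨅ i ∈ (Finset.univ : Finset (Fin N)),
      LinearMap.ker ((cub T).F b (Pi.single i 1)) = LinearMap.ker ((cub T).F b) := by
    ext v
    simp only [top_inf_eq, Submodule.mem_iInf, Finset.mem_univ, LinearMap.mem_ker,
      forall_true_left]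
    exact (F_b_eq_zero T b v).symm
  rwa [e] at h

theorem ratSub_vertex {N : ℕ} (T : SymT N) :
    (cub T).RatSub (LinearMap.ker (cub T).F) := by
  have h := (CubData.ratSub_top (cub T)).inf_iInf_ker Finset.univ
    (fun p : Fin N × Fin N => (cub T).F (Pi.single p.1 1) (Pi.single p.2 1))
    (fun p _ => CubData.ratFun_F (cub T) (single_mem_ratV p.1) (single_mem_ratV p.2))
  have e : (⊤ : Submodule ℝ (Fin N → ℝ)) ⊓ ⨅ p ∈ (Finset.univ : Finset (Fin N × Fin N)),
      LinearMap.ker ((cub T).F (Pi.single p.1 1) (Pi.single p.2 1)) =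
        LinearMap.ker (cub T).F := by
    ext v
    simp only [top_inf_eq, Submodule.mem_iInf, Finset.mem_univ, LinearMap.mem_ker,
      forall_true_left]
    exact (F_eq_zero T v).symm
  rwa [e] at h

theorem sa_ker_F {N : ℕ} (T : SymT N) {b : Fin N → ℝ} (hb : b ∈ ratV N) :
    SA (evR N) {v | (cub T).F b v = 0} := by
  have h := SA.iInter_finite (ev := evR N)
    (fun i : Fin N => {v | (cub T).F b (Pi.single i 1) v = 0})
    (fun i => (isPoly_of_ratFun _
      (CubData.ratFun_F (cub T) hb (single_mem_ratV i))).sa_eq_zero)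
  have e : {v | (cub T).F b v = 0} = ⋂ i : Fin N, {v | (cub T).F b (Pi.single i 1) v = 0} := by
    ext v
    simp only [mem_iInter, mem_ofPred_eq]
    exact F_b_eq_zero T b v
  rwa [← e] at h

theorem sa_vertexSpace {N : ℕ} (T : SymT N) : SA (evR N) {v | (cub T).F v = 0} := by
  have h := SA.iInter_finite (ev := evR N)
    (fun p : Fin N × Fin N => {v | (cub T).F (Pi.single p.1 1) (Pi.single p.2 1) v = 0})
    (fun p => (isPoly_of_ratFun _
      (CubData.ratFun_F (cub T) (single_mem_ratV p.1) (single_mem_ratV p.2))).sa_eq_zero)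
  have e : {v | (cub T).F v = 0} = ⋂ p : Fin N × Fin N,
      {v | (cub T).F (Pi.single p.1 1) (Pi.single p.2 1) v = 0} := by
    ext v
    simp only [mem_iInter, mem_ofPred_eq]
    exact F_eq_zero T v
  rwa [← e] at h

theorem sa_Xs {N : ℕ} (T : SymT N) : SA (evR N) (cub T).Xs := by
  have h1 : SA (evR N) {v | (cub T).F v v v = 0} :=
    (isPoly_F T (fun i => IsPoly.coord i) (fun i => IsPoly.coord i)
      (fun i => IsPoly.coord i)).sa_eq_zero
  have h2 : SA (evR N) {v | (cub T).F v v = 0} := by
    have h := SA.iInter_finite (ev := evR N)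
      (fun i : Fin N => {v | (cub T).F v v (Pi.single i 1) = 0})
      (fun i => (isPoly_F T (fun i => IsPoly.coord i) (fun i => IsPoly.coord i)
        (fun j => isPoly_of_mem_ratV (single_mem_ratV i) j)).sa_eq_zero)
    have e : {v | (cub T).F v v = 0} = ⋂ i : Fin N,
        {v | (cub T).F v v (Pi.single i 1) = 0} := by
      ext v
      simp only [mem_iInter, mem_ofPred_eq]
      constructor
      · intro h i
        rw [h]; rfl
      · intro h
        exact lin_eq_zero _ h
    rwa [← e] at h
  have e : (cub T).Xs = {v | (cub T).F v v v = 0} ∩ {v | (cub T).F v v = 0}ᶜ := by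
    ext v
    simp only [CubData.Xs, mem_ofPred_eq, mem_inter_iff, mem_compl_iff]
  rw [e]
  exact h1.inter h2.compl

theorem sa_no_smooth {N : ℕ} (T : SymT N)
    (h : ∀ P ∈ ratV N, (cub T).F P P P = 0 → (cub T).F P P = 0) : SA (evR N) (cub T).K := by
  have hvert : ∀ a ∈ ratV N, (cub T).F a a a = 0 → (cub T).F a = 0 := by
    intro a ha ha0
    have ha1 := h a ha ha0
    -- all values of the quadratic form `F a` vanish
    have hq : ∀ v ∈ ratV N, (cub T).F a v v = 0 := by
      intro v hv
      by_contra hne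
      obtain ⟨r, hr⟩ := (cub T).ratQ v hv v hv v hv
      obtain ⟨s, hs⟩ := (cub T).ratQ a ha v hv v hv
      set t : ℝ := (cub T).F v v v / (3 * (cub T).F a v v) with ht
      have hy : v + (-t) • a ∈ ratV N := by
        refine (cub T).add_mem_Q hv ((cub T).smul_mem_Q ha ⟨-(r / (3 * s)), ?_⟩)
        rw [ht, hr, hs]; push_cast; ring
      have e1 : (cub T).F a a v = 0 := by rw [ha1]; rfl
      have e2 : (cub T).F v a a = 0 := by rw [(cub T).s12, (cub T).s23]; exact e1
      have e3 : (cub T).F v v a = (cub T).F a v v := by rw [(cub T).s23, (cub T).s12]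
      have e4 : (cub T).F v a v = (cub T).F a v v := (cub T).s12 _ _ _
      have e5 : (cub T).F a v a = 0 := by rw [(cub T).s23]; exact e1
      have hyX : (cub T).F (v + (-t) • a) (v + (-t) • a) (v + (-t) • a) = 0 := by
        simp only [map_add, map_smul, LinearMap.add_apply, LinearMap.smul_apply, smul_eq_mul]
        rw [ha0, e1, e2, e3, e4, e5, ht]
        field_simp
        ring
      have hys := h _ hy hyX
      have hya : (cub T).F (v + (-t) • a) (v + (-t) • a) a = (cub T).F a v v := by
        simp only [map_add, map_smul, LinearMap.add_apply, LinearMap.smul_apply, smul_eq_mul]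
        rw [ha0, e2, e3, e5]
        ring
      rw [hys] at hya
      exact hne hya.symm
    -- polarisation
    refine lin_eq_zero _ fun i => lin_eq_zero _ fun j => ?_
    have h1 := hq _ (single_mem_ratV i)
    have h2 := hq _ (single_mem_ratV j)
    have h3 := hq _ ((cub T).add_mem_Q (single_mem_ratV i) (single_mem_ratV j))
    simp only [map_add, LinearMap.add_apply] at h3
    rw [h1, h2, (cub T).s23 a (Pi.single j 1) (Pi.single i 1)] at h3
    linarith
  have hK : (cub T).K = {v | (cub T).F v = 0} := by
    apply Subset.antisymm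
    · refine closure_minimal (fun v hv => hvert v hv.1 hv.2) ?_
      have e : {v | (cub T).F v = 0} = ⋂ p : Fin N × Fin N,
          {v | (cub T).F (Pi.single p.1 1) (Pi.single p.2 1) v = 0} := by
        ext v
        simp only [mem_iInter, mem_ofPred_eq]
        exact F_eq_zero T v
      rw [e]
      exact isClosed_iInter fun p => isClosed_singleton.preimage
        (CubData.continuous_lin ((cub T).F (Pi.single p.1 1) (Pi.single p.2 1)))
    · intro v hv
      have h1 := ratSub_vertex T v hv
      refine closure_mono ?_ h1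
      rintro u ⟨hu1, hu2⟩
      refine ⟨hu1, ?_⟩
      rw [show (cub T).F u = 0 from hu2]; rfl
  rw [hK]
  exact sa_vertexSpace T

end Pool.Agent.Lib.MP42.CubicHyp
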