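import Pool.Agent.Lib.MP_42de19_nt.CubicHyp.Open
import Pool.Agent.Lib.MP_42de19_nt.CubicHyp.Choose

set_option autoImplicit false

namespace Pool.Agent.Lib.MP42.CubicHyp

open Topology Filter Set

namespace CubData

variable {V : Type*} [NormedAddCommGroup V] [NormedSpace ℝ V] [FiniteDimensional ℝ V]
  (D : CubData V)

/-- If the cubic contains no real hyperplane and the closure of the rational points has interior
in the smooth locus, then it is open (and closed) in the smooth locus. -/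
theorem clopen (hH : D.NoHyp) (hI : D.HasInt) :
    ∃ O : Set V, IsOpen O ∧ D.K ∩ D.Xs = D.Xs ∩ O := by
  refine ⟨⋃₀ {O : Set V | IsOpen O ∧ O ∩ D.X ⊆ D.K}, isOpen_sUnion fun O hO => hO.1, ?_⟩
  obtain ⟨y₀, hy₀, O, hO, hyO, hOK⟩ := hI
  apply Set.Subset.antisymm
  · rintro x ⟨hxK, hx⟩
    obtain ⟨y, hy, hyO', h1, h2⟩ := D.exists_aux hH hx hy₀ hO hyO
    obtain ⟨O', hO', hxO', hOK'⟩ := D.open_at hxK hy hO hyO' hOK h1 h2
    exact ⟨hx, mem_sUnion.mpr ⟨O', ⟨hO', hOK'⟩, hxO'⟩⟩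
  · rintro x ⟨hx, hxO⟩
    obtain ⟨O', ⟨hO', hOK'⟩, hxO'⟩ := mem_sUnion.mp hxO
    exact ⟨hOK' ⟨hxO', hx.1⟩, hx⟩

end CubData

end Pool.Agent.Lib.MP42.CubicHyp
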