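import Pool.Agent.Lib.MP_42de19_nt.CubicHyp.Coord

set_option autoImplicit false

/-! S6: a rational vertex -/

namespace Pool.Agent.Lib.MP42.CubicHyp

open Topology Filter Set

namespace Vertex

variable {N : ℕ}

/-- the tensor with one coordinate removed -/
def restr (T : SymT (N + 1)) (i : Fin (N + 1)) : SymT N where
  T j k l := T.T (i.succAbove j) (i.succAbove k) (i.succAbove l)
  s12 _ _ _ := T.s12 _ _ _
  s23 _ _ _ := T.s23 _ _ _

/-- projection along `a` -/
noncomputable def rr (a : Fin (N + 1) → ℝ) (i : Fin (N + 1)) (v : Fin (N + 1) → ℝ) : Fin N → ℝ :=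
  fun j => v (i.succAbove j) - v i * (a (i.succAbove j) / a i)

/-- insertion of a zero coordinate -/
noncomputable def ins (i : Fin (N + 1)) (u : Fin N → ℝ) : Fin (N + 1) → ℝ :=
  i.insertNth (α := fun _ => ℝ) 0 u

theorem ins_self (i : Fin (N + 1)) (u : Fin N → ℝ) : ins i u i = 0 := by simp [ins]

theorem ins_succ (i : Fin (N + 1)) (u : Fin N → ℝ) (j : Fin N) : ins i u (i.succAbove j) = u j := by
  simp [ins]

theorem F_ins (T : SymT (N + 1)) (i : Fin (N + 1)) (u v w : Fin N → ℝ) :
    (cub T).F (ins i u) (ins i v) (ins i w) = (cub (restr T i)).F u v w := by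
  rw [cub_F, cub_F]
  simp only [Fin.sum_univ_succAbove _ i, ins_self, ins_succ, zero_mul, mul_zero, Finset.sum_const_zero,
    zero_add, restr]

theorem split (a : Fin (N + 1) → ℝ) (i : Fin (N + 1)) (hi : a i ≠ 0) (v : Fin (N + 1) → ℝ) :
    ins i (rr a i v) + (v i / a i) • a = v := by
  funext k
  refine Fin.succAboveCases i ?_ (fun j => ?_) k
  · simp only [Pi.add_apply, Pi.smul_apply, smul_eq_mul, ins_self]
    field_simp; ring
  · simp only [Pi.add_apply, Pi.smul_apply, smul_eq_mul, ins_succ, rr]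
    field_simp; ring

theorem F_vert {T : SymT (N + 1)} {a : Fin (N + 1) → ℝ} (hv : (cub T).F a = 0)
    (x : Fin (N + 1) → ℝ) (s : ℝ) :
    (cub T).F (x + s • a) (x + s • a) (x + s • a) = (cub T).F x x x := by
  have h1 : (cub T).F (x + s • a) (x + s • a) (x + s • a) = (cub T).F x x x +
      3 * s * (cub T).F a x x + 3 * s ^ 2 * (cub T).F a a x + s ^ 3 * (cub T).F a a a := by
    simp only [map_add, map_sub, map_neg, map_smul, map_zero, LinearMap.add_apply, LinearMap.sub_apply, LinearMap.neg_apply, LinearMap.smul_apply, LinearMap.zero_apply, smul_eq_mul, CubData.s12, CubData.s23]; ring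
  rw [h1, hv]
  simp

end Vertex

open Vertex

theorem sa_vertex {N : ℕ} (ih : ∀ T : SymT N, SA (evR N) (cub T).K) (T : SymT (N + 1))
    {a : Fin (N + 1) → ℝ} (ha : a ∈ ratV (N + 1)) (ha0 : a ≠ 0) (hv : (cub T).F a = 0) :
    SA (evR (N + 1)) (cub T).K := by
  obtain ⟨i, hi⟩ : ∃ i, a i ≠ 0 := by
    by_contra h
    push Not at h
    exact ha0 (funext h)
  obtain ⟨q, hq⟩ := ha
  have hqi : ∀ k, a k = (q k : ℝ) := fun k => by rw [← hq]; rfl
  have hpoly : ∀ j, IsPoly (fun v : Fin (N + 1) → ℝ => rr a i v j) := by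
    intro j
    have h1 := (IsPoly.coord (N := N + 1) (i.succAbove j)).sub
      ((IsPoly.coord (N := N + 1) i).mul (IsPoly.const (N := N + 1) (q (i.succAbove j) / q i)))
    refine h1.congr fun x => ?_
    simp only [rr, hqi]
    push_cast
    ring
  have hrc : Continuous (rr a i) := continuous_pi fun j => (hpoly j).continuous
  have hic : Continuous (ins i : (Fin N → ℝ) → (Fin (N + 1) → ℝ)) := by
    refine continuous_pi fun k => ?_
    refine Fin.succAboveCases i ?_ (fun j => ?_) k
    · simp only [ins_self]; exact continuous_const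
    · simp only [ins_succ]; exact continuous_apply j
  have hFr : ∀ v, (cub T).F v v v = (cub (restr T i)).F (rr a i v) (rr a i v) (rr a i v) := by
    intro v
    rw [← F_ins, ← F_vert hv (ins i (rr a i v)) (v i / a i), split a i hi v]
  have hrat : ∀ v ∈ ratV (N + 1), rr a i v ∈ ratV N := by
    rintro _ ⟨p, rfl⟩
    refine ⟨fun j => p (i.succAbove j) - p i * (q (i.succAbove j) / q i), ?_⟩
    funext j
    simp only [rr, hqi, castV]
    push_cast
    ring
  have hirat : ∀ u ∈ ratV N, ins i u ∈ ratV (N + 1) := by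
    rintro _ ⟨p, rfl⟩
    refine ⟨i.insertNth (α := fun _ => ℚ) 0 p, ?_⟩
    funext k
    refine Fin.succAboveCases i ?_ (fun j => ?_) k
    · rw [ins_self]; simp [castV]
    · rw [ins_succ]; simp [castV]
  have key : (cub T).K = rr a i ⁻¹' (cub (restr T i)).K := by
    apply Set.Subset.antisymm
    · refine closure_minimal ?_ ((CubData.isClosed_K _).preimage hrc)
      rintro v ⟨hv1, hv2⟩
      refine (cub (restr T i)).ratX_subset_K ⟨hrat v hv1, ?_⟩
      rw [← hFr]; exact hv2
    · intro v hv1
      have h1 : (rr a i v, v i / a i) ∈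
          closure ((cub (restr T i)).ratX ×ˢ (Set.range (fun q : ℚ => (q : ℝ)))) := by
        rw [closure_prod_eq]
        exact ⟨hv1, Rat.denseRange_cast _⟩
      have hc : Continuous fun p : (Fin N → ℝ) × ℝ => ins i p.1 + p.2 • a :=
        (hic.comp continuous_fst).add (continuous_snd.smul continuous_const)
      have h2 := (hc.continuousWithinAt (s := (cub (restr T i)).ratX ×ˢ
        (Set.range (fun q : ℚ => (q : ℝ))))).mem_closure (x := (rr a i v, v i / a i))
        (t := (cub T).ratX) h1 ?_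
      · simp only [split a i hi v] at h2
        exact h2
      · rintro ⟨u, s⟩ ⟨hu, ⟨s', rfl⟩⟩
        refine ⟨(ratV (N + 1)).add_mem (hirat u hu.1) ((cub T).smulQ s' a ⟨q, hq⟩), ?_⟩
        rw [F_vert hv, F_ins]
        exact hu.2
  rw [key]
  exact SA.comap_poly (ih _) hpoly

end Pool.Agent.Lib.MP42.CubicHyp
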