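import Pool.Agent.Lib.MP_42de19_nt.CubicHyp.Homog
import Pool.Agent.Lib.MP_42de19_nt.CubicHyp.Cone
import Pool.Agent.Lib.MP_42de19_nt.CubicHyp.Curve
import Pool.Agent.Lib.MP_42de19_nt.CubicHyp.Vertex
import Pool.Agent.Lib.MP_42de19_nt.CubicHyp.NoSmooth
import Pool.Agent.Lib.MP_42de19_nt.CubicHyp.Hyp
import Pool.Agent.Lib.MP_42de19_nt.CubicHyp.PropA
import Pool.Agent.Lib.MP_42de19_nt.CubicHyp.LemmaR
import Pool.Agent.Lib.MP_42de19_nt.CubicHyp.Double
import Pool.Agent.Lib.MP_42de19_nt.CubicHyp.Sing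
import Pool.Agent.Lib.MP_42de19_nt.CubicHyp.Interior

set_option autoImplicit false

namespace Pool.Agent.Lib.MP42.CubicHyp

open Topology Filter Set

/-- The closure of the rational points of (the cone over) any cubic hypersurface is
semialgebraic over `ℚ`. -/
theorem sa_K : ∀ (N : ℕ) (T : SymT N), SA (evR N) (cub T).K := by
  intro N
  induction N with
  | zero =>
    intro T
    refine sa_no_smooth T fun P _ _ => ?_
    refine LinearMap.ext fun v => ?_
    have : v = 0 := by funext i; exact i.elim0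
    rw [this, map_zero]; rfl
  | succ N ih =>
    intro T
    by_cases hv : ∃ a ∈ ratV (N + 1), a ≠ 0 ∧ (cub T).F a = 0
    · obtain ⟨a, ha, ha0, hv⟩ := hv
      exact sa_vertex ih T ha ha0 hv
    by_cases hs : ∀ P ∈ ratV (N + 1), (cub T).F P P P = 0 → (cub T).F P P = 0
    · exact sa_no_smooth T hs
    push Not at hs
    obtain ⟨P, hP, hPX, hPs⟩ := hs
    by_cases hh : (cub T).NoRatHyp
    swap
    · unfold CubData.NoRatHyp at hh
      push Not at hh
      obtain ⟨l, hl, hl0, hh⟩ := hh
      exact sa_hyp T l hl hl0 hh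
    have hH := (cub T).noHyp_of_noRatHyp hh hP hPX hPs
    rcases Nat.lt_or_ge 2 (N + 1) with h3 | h3
    swap
    · exact sa_small h3 T hP hPX hPs
    rcases Nat.lt_or_ge 3 (N + 1) with h4 | h4
    swap
    · have : N = 2 := by omega
      subst this
      exact sa_curve T hP hPX hPs
    have hV : (cub T).NoVertex := by
      intro v hv0 hv1
      have h1 : v ∈ LinearMap.ker (cub T).F := hv1
      have h2 := ratSub_vertex T v h1
      obtain ⟨u, hu1, hu2⟩ := mem_closure_iff.mp h2 {u | u ≠ 0} isOpen_ne hv0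
      exact hv ⟨u, hu2.1, hu1, hu2.2⟩
    have hI : (cub T).HasInt := by
      by_cases hd : (cub T).NoRatDouble
      · refine (cub T).interior ?_ hH hV hd hP hPX hPs
        rw [Module.finrank_fin_fun]; omega
      · unfold CubData.NoRatDouble at hd
        push Not at hd
        obtain ⟨a, ha, ha0, ha1⟩ := hd
        exact (cub T).hasInt_of_double ha ha1 (hV a ha0)
    obtain ⟨O, hO, hOK⟩ := (cub T).clopen hH hI
    have h1 : SA (evR (N + 1)) ((cub T).K ∩ (cub T).Xs) := by
      refine SA.of_clopen (sa_Xs T) hO (CubData.isClosed_K (cub T)) hOK ?_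
      rw [inter_comm]
    have h2 := h1.closure
    rcases (cub T).K_eq hH hV ⟨P, ⟨hP, hPX⟩, hPX, hPs⟩ (fun b hb => ratSub_ker_F T hb) with
      h3 | ⟨b, hb, h3⟩
    · rw [h3]; exact h2
    · rw [h3]; exact h2.union (sa_ker_F T hb)

/-- The closure of the rational zeros of a polynomial of degree at most three with rational
coefficients is semialgebraic over `ℚ`. -/
theorem cubic {n : ℕ} (f : MvPolynomial (Fin n) ℚ) (hf : f.totalDegree ≤ 3) :
    Semialgebraic (ratClosure {f}) := by
  obtain ⟨T, hT⟩ := exists_symT f hf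
  rw [ratClosure_eq f T hT]
  refine SA.isSemialg (SA.comap_poly (sa_K _ T) ?_)
  intro i
  refine Fin.cases ?_ (fun j => ?_) i
  · simpa using IsPoly.const (N := n) 1
  · simpa using IsPoly.coord j

end Pool.Agent.Lib.MP42.CubicHyp
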