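import Pool.Agent.Lib.MP_42de19_nt.CubicHyp.Basic

set_option autoImplicit false

/-! Points of the hypersurface near a smooth point. -/

namespace Pool.Agent.Lib.MP42.CubicHyp

open Topology Filter

namespace CubData

variable {V : Type*} [NormedAddCommGroup V] [NormedSpace ℝ V] [FiniteDimensional ℝ V] (D : CubData V)

private theorem near_tangent_aux {y e v : V} (hy : D.F y y y = 0) (he : 0 < D.F y y e)
    (hv : D.F y y v = 0) : ∃ C : ℝ, 0 < C ∧ ∃ δ : ℝ, 0 < δ ∧ ∀ t : ℝ, |t| < δ →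
      ∃ s : ℝ, |s| ≤ C * t ^ 2 ∧ y + t • v + s • e ∈ D.X := by
  set b := D.F y y e with hb
  set p := D.F y v v with hp
  set G : ℝ → ℝ → ℝ := fun t σ => 3 * σ * b + 3 * p + 3 * (2 * t * σ * D.F y v e +
    σ ^ 2 * t ^ 2 * D.F y e e) + t * D.F v v v + 3 * t ^ 2 * σ * D.F v v e +
    3 * t ^ 3 * σ ^ 2 * D.F v e e + t ^ 4 * σ ^ 3 * D.F e e e with hG
  have hFG : ∀ t σ : ℝ, D.F (y + t • v + (σ * t ^ 2) • e) (y + t • v + (σ * t ^ 2) • e)
      (y + t • v + (σ * t ^ 2) • e) = t ^ 2 * G t σ := by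
    intro t σ
    have h1 : D.F (y + t • v + (σ * t ^ 2) • e) (y + t • v + (σ * t ^ 2) • e)
      (y + t • v + (σ * t ^ 2) • e) = D.F y y y + 3 * t * D.F y y v + 3 * (σ * t ^ 2) * D.F y y e
        + 3 * t ^ 2 * D.F y v v + 6 * t * (σ * t ^ 2) * D.F y v e
        + 3 * (σ * t ^ 2) ^ 2 * D.F y e e + t ^ 3 * D.F v v v
        + 3 * t ^ 2 * (σ * t ^ 2) * D.F v v e + 3 * t * (σ * t ^ 2) ^ 2 * D.F v e e
        + (σ * t ^ 2) ^ 3 * D.F e e e := by
      simp only [map_add, map_sub, map_neg, map_smul, map_zero, LinearMap.add_apply, LinearMap.sub_apply, LinearMap.neg_apply, LinearMap.smul_apply, LinearMap.zero_apply, smul_eq_mul, CubData.s12, CubData.s23]; ring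
    rw [h1, hy, hv, hG]
    simp only
    rw [← hb, ← hp]
    ring
  set C : ℝ := (|p| + 1) / b with hC
  have hC0 : 0 < C := by positivity
  have hCb : C * b = |p| + 1 := by rw [hC]; field_simp
  have c1 : Continuous fun t => G t C := by rw [hG]; fun_prop
  have c2 : Continuous fun t => G t (-C) := by rw [hG]; fun_prop
  have g1 : 0 < G 0 C := by
    have : G 0 C = 3 * (C * b) + 3 * p := by rw [hG]; ring
    rw [this, hCb]
    have := neg_abs_le p
    linarith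
  have g2 : G 0 (-C) < 0 := by
    have : G 0 (-C) = -3 * (C * b) + 3 * p := by rw [hG]; ring
    rw [this, hCb]
    have := le_abs_self p
    linarith
  have e1 : ∀ᶠ t in 𝓝 (0 : ℝ), 0 < G t C := (c1.tendsto 0).eventually (lt_mem_nhds g1)
  have e2 : ∀ᶠ t in 𝓝 (0 : ℝ), G t (-C) < 0 := (c2.tendsto 0).eventually (gt_mem_nhds g2)
  obtain ⟨δ, hδ, hball⟩ := Metric.eventually_nhds_iff.mp (e1.and e2)
  refine ⟨C, hC0, δ, hδ, fun t ht => ?_⟩
  obtain ⟨h1, h2⟩ := hball (y := t) (by rwa [dist_zero_right, Real.norm_eq_abs])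
  have hcσ : Continuous fun σ => G t σ := by rw [hG]; fun_prop
  obtain ⟨σ, hσ, hσ0⟩ := intermediate_value_Icc (by linarith : -C ≤ C) hcσ.continuousOn
    (show (0 : ℝ) ∈ Set.Icc (G t (-C)) (G t C) from ⟨h2.le, h1.le⟩)
  refine ⟨σ * t ^ 2, ?_, ?_⟩
  · rw [abs_mul, abs_of_nonneg (sq_nonneg t)]
    exact mul_le_mul_of_nonneg_right (abs_le.mpr ⟨hσ.1, hσ.2⟩) (sq_nonneg t)
  · show D.F _ _ _ = 0
    have hσ1 : G t σ = 0 := hσ0
    rw [hFG, hσ1, mul_zero]

/-- second order points of `X` near a smooth point in a tangent direction -/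
theorem exists_tangent_point {y e v : V} (hy : D.F y y y = 0) (he : D.F y y e ≠ 0)
    (hv : D.F y y v = 0) : ∃ C : ℝ, 0 < C ∧ ∃ δ : ℝ, 0 < δ ∧ ∀ t : ℝ, |t| < δ →
      ∃ s : ℝ, |s| ≤ C * t ^ 2 ∧ y + t • v + s • e ∈ D.X := by
  rcases lt_or_gt_of_ne he with h | h
  · obtain ⟨C, hC, δ, hδ, H⟩ := D.near_tangent_aux (e := -e) hy (by rw [map_neg]; linarith) hv
    refine ⟨C, hC, δ, hδ, fun t ht => ?_⟩
    obtain ⟨s, hs, hX⟩ := H t ht
    refine ⟨-s, by rwa [abs_neg], ?_⟩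
    rwa [smul_neg, ← neg_smul] at hX
  · exact D.near_tangent_aux hy h hv

private theorem near_point_aux {y e : V} (hy : D.F y y y = 0) (he : 0 < D.F y y e) (ε : ℝ)
    (hε : 0 < ε) : ∃ δ : ℝ, 0 < δ ∧ ∀ v : V, ‖v‖ < δ → ∃ s : ℝ, |s| < ε ∧
      y + v + s • e ∈ D.X := by
  have hc : ∀ s : ℝ, Continuous fun v : V => D.F (y + v + s • e) (y + v + s • e) (y + v + s • e) :=
    fun s => D.cont_F (by fun_prop) (by fun_prop) (by fun_prop)
  -- the size of `s`
  obtain ⟨s₀, hs0, hs1, hs2, hs3⟩ : ∃ s₀ : ℝ, 0 < s₀ ∧ s₀ < ε ∧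
      0 < D.F (y + s₀ • e) (y + s₀ • e) (y + s₀ • e) ∧
      D.F (y + (-s₀) • e) (y + (-s₀) • e) (y + (-s₀) • e) < 0 := by
    have c1 : Continuous fun s : ℝ => 3 * D.F y y e + 3 * s * D.F y e e + s ^ 2 * D.F e e e := by
      fun_prop
    have e1 : ∀ᶠ s in 𝓝 (0 : ℝ), 0 < 3 * D.F y y e + 3 * s * D.F y e e + s ^ 2 * D.F e e e := by
      refine (c1.tendsto 0).eventually (lt_mem_nhds ?_)
      simpa using he
    obtain ⟨δ, hδ, hball⟩ := Metric.eventually_nhds_iff.mp e1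
    refine ⟨min (ε / 2) (δ / 2), by positivity, ?_, ?_, ?_⟩
    · exact lt_of_le_of_lt (min_le_left _ _) (by linarith)
    all_goals
      set s₀ := min (ε / 2) (δ / 2) with hs₀
      have hpos : 0 < s₀ := by positivity
      have hlt : s₀ < δ := lt_of_le_of_lt (min_le_right _ _) (by linarith)
    · have h1 := hball (y := s₀) (by rwa [dist_zero_right, Real.norm_eq_abs, abs_of_pos hpos])
      have h2 : D.F (y + s₀ • e) (y + s₀ • e) (y + s₀ • e) = D.F y y y +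
          s₀ * (3 * D.F y y e + 3 * s₀ * D.F y e e + s₀ ^ 2 * D.F e e e) := by
        simp only [map_add, map_sub, map_neg, map_smul, map_zero, LinearMap.add_apply, LinearMap.sub_apply, LinearMap.neg_apply, LinearMap.smul_apply, LinearMap.zero_apply, smul_eq_mul, CubData.s12, CubData.s23]; ring
      rw [h2, hy, zero_add]
      positivity
    · have h1 := hball (y := -s₀) (by
        rwa [dist_zero_right, Real.norm_eq_abs, abs_neg, abs_of_pos hpos])
      have h2 : D.F (y + (-s₀) • e) (y + (-s₀) • e) (y + (-s₀) • e) = D.F y y y -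
          s₀ * (3 * D.F y y e + 3 * (-s₀) * D.F y e e + (-s₀) ^ 2 * D.F e e e) := by
        simp only [map_add, map_sub, map_neg, map_smul, map_zero, LinearMap.add_apply, LinearMap.sub_apply, LinearMap.neg_apply, LinearMap.smul_apply, LinearMap.zero_apply, smul_eq_mul, CubData.s12, CubData.s23]; ring
      rw [h2, hy, zero_sub, neg_lt_zero]
      exact mul_pos hpos h1
  have e1 : ∀ᶠ v in 𝓝 (0 : V), 0 < D.F (y + v + s₀ • e) (y + v + s₀ • e) (y + v + s₀ • e) := by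
    refine ((hc s₀).tendsto 0).eventually (lt_mem_nhds ?_)
    rwa [add_zero]
  have e2 : ∀ᶠ v in 𝓝 (0 : V),
      D.F (y + v + (-s₀) • e) (y + v + (-s₀) • e) (y + v + (-s₀) • e) < 0 := by
    refine ((hc (-s₀)).tendsto 0).eventually (gt_mem_nhds ?_)
    rwa [add_zero]
  obtain ⟨δ, hδ, hball⟩ := Metric.eventually_nhds_iff.mp (e1.and e2)
  refine ⟨δ, hδ, fun v hv => ?_⟩
  obtain ⟨h1, h2⟩ := hball (y := v) (by rwa [dist_zero_right])
  have hcs : Continuous fun s : ℝ => D.F (y + v + s • e) (y + v + s • e) (y + v + s • e) :=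
    D.cont_F (by fun_prop) (by fun_prop) (by fun_prop)
  obtain ⟨s, hs, hs0'⟩ := intermediate_value_Icc (by linarith : -s₀ ≤ s₀) hcs.continuousOn
    (show (0 : ℝ) ∈ Set.Icc (D.F (y + v + (-s₀) • e) (y + v + (-s₀) • e) (y + v + (-s₀) • e))
      (D.F (y + v + s₀ • e) (y + v + s₀ • e) (y + v + s₀ • e)) from ⟨h2.le, h1.le⟩)
  exact ⟨s, lt_of_le_of_lt (abs_le.mpr ⟨hs.1, hs.2⟩) hs1, hs0'⟩

/-- points of `X` near a smooth point in all directions -/
theorem exists_near_point {y e : V} (hy : D.F y y y = 0) (he : D.F y y e ≠ 0) (ε : ℝ)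
    (hε : 0 < ε) : ∃ δ : ℝ, 0 < δ ∧ ∀ v : V, ‖v‖ < δ → ∃ s : ℝ, |s| < ε ∧
      y + v + s • e ∈ D.X := by
  rcases lt_or_gt_of_ne he with h | h
  · obtain ⟨δ, hδ, H⟩ := D.near_point_aux (e := -e) hy (by rw [map_neg]; linarith) ε hε
    refine ⟨δ, hδ, fun v hv => ?_⟩
    obtain ⟨s, hs, hX⟩ := H v hv
    refine ⟨-s, by rwa [abs_neg], ?_⟩
    rwa [smul_neg, ← neg_smul] at hX
  · exact D.near_point_aux hy h ε hε

end CubData

end Pool.Agent.Lib.MP42.CubicHyp
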