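import Pool.Agent.Lib.MP_42de19_nt.CubicHyp.Basic

set_option autoImplicit false

/-! Openness of `K` in the smooth locus (B2). -/

namespace Pool.Agent.Lib.MP42.CubicHyp

open Topology Filter

namespace CubData

variable {V : Type*} [NormedAddCommGroup V] [NormedSpace ℝ V] [FiniteDimensional ℝ V] (D : CubData V)

/-- openness at `x` if a suitable interior point `y` is given -/
theorem open_at {x y : V} (hx : x ∈ D.K) (hy : y ∈ D.X) {O : Set V} (hO : IsOpen O)
    (hyO : y ∈ O) (hOK : O ∩ D.X ⊆ D.K) (hα : D.F x y y ≠ 0) (hβ : D.F x x y ≠ 0) :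
    ∃ O' : Set V, IsOpen O' ∧ x ∈ O' ∧ O' ∩ D.X ⊆ D.K := by
  have hyK : y ∈ D.K := hOK ⟨hyO, hy⟩
  have hxX : x ∈ D.X := D.K_subset_X hx
  have hx0 : D.F x x x = 0 := hxX
  obtain ⟨z, hz⟩ : ∃ z, z = D.c x y := ⟨_, rfl⟩
  have hzK : z ∈ D.K := by rw [hz]; exact D.c_mem_K hx hyK
  have hzX : z ∈ D.X := D.K_subset_X hzK
  have h1 : D.F x z z = -(D.F x y y * (D.F x x y) ^ 2) := by
    rw [hz, c]; simp only [map_add, map_sub, map_neg, map_smul, map_zero, LinearMap.add_apply, LinearMap.sub_apply, LinearMap.neg_apply, LinearMap.smul_apply, LinearMap.zero_apply, smul_eq_mul, CubData.s12, CubData.s23]; rw [hx0]; ring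
  have h2 : D.F x x z = -(D.F x x y) ^ 2 := by
    rw [hz, c]; simp only [map_add, map_sub, map_neg, map_smul, map_zero, LinearMap.add_apply, LinearMap.sub_apply, LinearMap.neg_apply, LinearMap.smul_apply, LinearMap.zero_apply, smul_eq_mul, CubData.s12, CubData.s23]; rw [hx0]; ring
  have h3 : D.c x z = (-(D.F x x y) ^ 3) • y := by
    have e : D.c x z = D.F x z z • x - D.F x x z • z := rfl
    rw [e, h1, h2, hz, c]
    module
  have hβ3 : (-(D.F x x y) ^ 3) ≠ 0 := neg_ne_zero.2 (pow_ne_zero 3 hβ)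
  refine ⟨{x' | (-(D.F x x y) ^ 3)⁻¹ • D.c x' z ∈ O ∧ D.F x' z z ≠ 0}, ?_, ⟨?_, ?_⟩, ?_⟩
  · refine IsOpen.inter ?_ ?_
    · exact hO.preimage ((D.continuous_c continuous_id continuous_const).const_smul _)
    · exact isOpen_ne.preimage (D.cont_F continuous_id continuous_const continuous_const)
  · rw [h3, smul_smul, inv_mul_cancel₀ hβ3, one_smul]; exact hyO
  · rw [h1]; exact neg_ne_zero.2 (mul_ne_zero hα (pow_ne_zero 2 hβ))
  · rintro x' ⟨⟨hx1, hx2⟩, hx'⟩
    have hu : D.c x' z ∈ D.X := D.c_mem_X hx' hzX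
    have hu' : D.c x' z ∈ D.K :=
      D.mem_K_of_smul (inv_ne_zero hβ3) (hOK ⟨hx1, D.smul_mem_X hu _⟩)
    have h4 := D.c_mem_K hu' hzK
    rw [D.c_c hx' hzX] at h4
    exact D.mem_K_of_smul (pow_ne_zero 3 hx2) h4

end CubData

end Pool.Agent.Lib.MP42.CubicHyp
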