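import Pool.Agent.Lib.MP_42de19_nt.CubicHyp.QuadDefs
import Pool.Agent.Lib.MP_42de19_nt.CubicHyp.Quadric

set_option autoImplicit false

/-! Pairs of quadratic forms all of whose rational common zeros are singular. -/

namespace Pool.Agent.Lib.MP42.CubicHyp

open Topology Filter Set

theorem QuadSing.single_mem {N : ℕ} (i : Fin N) : (Pi.single i 1 : Fin N → ℝ) ∈ ratV N := by
  refine ⟨Pi.single i 1, ?_⟩
  funext j
  by_cases h : j = i
  · subst h; simp [castV]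
  · simp [castV, h]

theorem QuadSing.smul_mem {N : ℕ} (r : ℚ) {v : Fin N → ℝ} (hv : v ∈ ratV N) :
    (r : ℝ) • v ∈ ratV N := by
  obtain ⟨q, rfl⟩ := hv
  exact ⟨r • q, by funext i; simp [castV]⟩

theorem QuadSing.ext_of_single {N : ℕ} {l l' : (Fin N → ℝ) →ₗ[ℝ] ℝ}
    (h : ∀ i, l (Pi.single i 1) = l' (Pi.single i 1)) : l = l' := by
  refine LinearMap.pi_ext' fun i => ?_
  refine LinearMap.ext_ring ?_
  simpa using h i

/-- a nonzero functional is nonzero on a rational vector -/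
theorem QuadSing.exists_ne {N : ℕ} {l : (Fin N → ℝ) →ₗ[ℝ] ℝ} (hl : l ≠ 0) :
    ∃ v ∈ ratV N, l v ≠ 0 := by
  by_contra hcon
  push Not at hcon
  refine hl (QuadSing.ext_of_single fun i => ?_)
  rw [hcon _ (QuadSing.single_mem i)]; rfl

/-- two nonzero functionals are both nonzero on a rational vector -/
theorem QuadSing.exists_ne2 {N : ℕ} {l l' : (Fin N → ℝ) →ₗ[ℝ] ℝ} (hl : l ≠ 0) (hl' : l' ≠ 0) :
    ∃ v ∈ ratV N, l v ≠ 0 ∧ l' v ≠ 0 := by
  obtain ⟨u, hu, hu1⟩ := QuadSing.exists_ne hl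
  obtain ⟨w, hw, hw1⟩ := QuadSing.exists_ne hl'
  by_cases h1 : l' u = 0
  · by_cases h2 : l w = 0
    · refine ⟨u + w, (ratV N).add_mem hu hw, ?_, ?_⟩
      · rw [map_add, h2, add_zero]; exact hu1
      · rw [map_add, h1, zero_add]; exact hw1
    · exact ⟨w, hw, h2, hw1⟩
  · exact ⟨u, hu, hu1, h1⟩

theorem QuadSing.ratW_ker {N : ℕ} {q : (Fin N → ℝ) →ₗ[ℝ] (Fin N → ℝ) →ₗ[ℝ] ℝ} (h : RatB q) :
    RatW (LinearMap.ker q) := by
  refine ⟨N, fun i => q (Pi.single i 1), fun i v hv => h.rat _ (QuadSing.single_mem i) v hv, ?_⟩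
  ext v
  rw [LinearMap.mem_ker, Submodule.mem_iInf]
  constructor
  · intro hv i
    rw [LinearMap.mem_ker, h.symm, hv]; rfl
  · intro hv
    refine QuadSing.ext_of_single fun i => ?_
    rw [h.symm, (LinearMap.mem_ker).1 (hv i)]; rfl

theorem QuadSing.ratW_inf {N : ℕ} {W W' : Submodule ℝ (Fin N → ℝ)} (h : RatW W) (h' : RatW W') :
    RatW (W ⊓ W') := by
  obtain ⟨m, l, hl, rfl⟩ := h
  obtain ⟨m', l', hl', rfl⟩ := h'
  refine ⟨m + m', Fin.append l l', ?_, ?_⟩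
  · intro i
    refine Fin.addCases (fun j => ?_) (fun j => ?_) i
    · rw [Fin.append_left]; exact hl j
    · rw [Fin.append_right]; exact hl' j
  · ext v
    simp only [Submodule.mem_inf, Submodule.mem_iInf, LinearMap.mem_ker]
    constructor
    · rintro ⟨h1, h2⟩ i
      refine Fin.addCases (fun j => ?_) (fun j => ?_) i
      · rw [Fin.append_left]; exact h1 j
      · rw [Fin.append_right]; exact h2 j
    · intro h3
      refine ⟨fun j => ?_, fun j => ?_⟩
      · have := h3 (Fin.castAdd m' j); rwa [Fin.append_left] at this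
      · have := h3 (Fin.natAdd m j); rwa [Fin.append_right] at this

/-- the main step: `a` is a rational common zero with `q₁ a = 0`, `q₂ a ≠ 0` -/
theorem QuadSing.claim {N : ℕ} {q₁ q₂ : (Fin N → ℝ) →ₗ[ℝ] (Fin N → ℝ) →ₗ[ℝ] ℝ}
    (h₁ : RatB q₁) (h₂ : RatB q₂)
    (hsing : ∀ P ∈ ratV N, q₁ P P = 0 → q₂ P P = 0 →
      ∃ α β : ℝ, (α ≠ 0 ∨ β ≠ 0) ∧ α • q₁ P + β • q₂ P = 0)
    {a : Fin N → ℝ} (ha : a ∈ ratV N) (ha1 : q₁ a = 0) (ha2 : q₂ a ≠ 0) (haa : q₂ a a = 0)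
    {b : Fin N → ℝ} (hb : b ∈ ratV N) (hbb : q₁ b b = 0) : q₁ b = 0 := by
  by_contra hb0
  -- first make `q₂ a b ≠ 0`
  have hstep : ∃ b' ∈ ratV N, q₁ b' b' = 0 ∧ q₁ b' ≠ 0 ∧ q₂ a b' ≠ 0 := by
    by_cases h : q₂ a b = 0
    · obtain ⟨v, hv, hv1, hv2⟩ := QuadSing.exists_ne2 hb0 ha2
      obtain ⟨r, hr⟩ := h₁.rat v hv v hv
      obtain ⟨s, hs⟩ := h₁.rat b hb v hv
      refine ⟨q₁ v v • b - (2 * q₁ b v) • v, ?_, ?_, ?_, ?_⟩
      · refine (ratV N).sub_mem ?_ ?_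
        · rw [hr]; exact QuadSing.smul_mem r hb
        · rw [hs]
          have := QuadSing.smul_mem (2 * s) hv
          push_cast at this
          exact this
      · simp only [map_sub, map_smul, LinearMap.sub_apply, LinearMap.smul_apply, smul_eq_mul,
          hbb, h₁.symm v b]
        ring
      · intro h0
        have h3 := LinearMap.congr_fun h0 b
        simp only [map_sub, map_smul, LinearMap.sub_apply, LinearMap.smul_apply, smul_eq_mul,
          hbb, h₁.symm v b, LinearMap.zero_apply] at h3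
        have h4 : q₁ b v * q₁ b v = 0 := by linarith
        exact hv1 (mul_self_eq_zero.1 h4)
      · simp only [map_sub, map_smul, smul_eq_mul, h, mul_zero, zero_sub, neg_ne_zero]
        exact mul_ne_zero (mul_ne_zero two_ne_zero hv1) hv2
    · exact ⟨b, hb, hbb, hb0, h⟩
  obtain ⟨b', hb', hbb', hb0', hab⟩ := hstep
  obtain ⟨r, hr⟩ := h₂.rat b' hb' b' hb'
  obtain ⟨s, hs⟩ := h₂.rat a ha b' hb'
  have hp : b' + (-(q₂ b' b') / (2 * q₂ a b')) • a ∈ ratV N := by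
    refine (ratV N).add_mem hb' ?_
    rw [hr, hs]
    have := QuadSing.smul_mem (-r / (2 * s)) ha
    push_cast at this
    exact this
  set t : ℝ := -(q₂ b' b') / (2 * q₂ a b') with ht
  have h1 : q₁ (b' + t • a) = q₁ b' := by
    rw [map_add, map_smul, ha1, smul_zero, add_zero]
  have h1a : q₁ b' a = 0 := by rw [h₁.symm, ha1]; rfl
  have h11 : q₁ (b' + t • a) (b' + t • a) = 0 := by
    rw [h1, map_add, map_smul, hbb', h1a]; simp
  have h22 : q₂ (b' + t • a) (b' + t • a) = 0 := by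
    simp only [map_add, map_smul, LinearMap.add_apply, LinearMap.smul_apply, smul_eq_mul, haa,
      h₂.symm b' a]
    have : 2 * t * q₂ a b' = - q₂ b' b' := by
      rw [ht]; field_simp
    linarith
  obtain ⟨α, β, hαβ, hdep⟩ := hsing _ hp h11 h22
  have h3 := LinearMap.congr_fun hdep a
  simp only [LinearMap.add_apply, LinearMap.smul_apply, smul_eq_mul, h1, h1a, mul_zero, zero_add,
    LinearMap.zero_apply, map_add, map_smul, haa, add_zero] at h3
  rw [h₂.symm b' a] at h3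
  have hβ : β = 0 := by
    rcases mul_eq_zero.1 h3 with h | h
    · exact h
    · exact absurd h hab
  rw [hβ, zero_smul, add_zero, h1] at hdep
  have hα : α ≠ 0 := by
    rcases hαβ with h | h
    · exact h
    · exact absurd hβ h
  exact hb0' ((smul_eq_zero.1 hdep).resolve_left hα)

/-- the core case -/
theorem QuadSing.core {N : ℕ} (q₁ q₂ : (Fin N → ℝ) →ₗ[ℝ] (Fin N → ℝ) →ₗ[ℝ] ℝ)
    (h₁ : RatB q₁) (h₂ : RatB q₂)
    (hsub : ∀ (q₁ q₂ : (Fin N → ℝ) →ₗ[ℝ] (Fin N → ℝ) →ₗ[ℝ] ℝ) (W : Submodule ℝ (Fin N → ℝ)),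
      RatB q₁ → RatB q₂ → RatW W → W ≠ ⊤ → SA (evR N) (K2 q₁ q₂ W))
    (hsing : ∀ P ∈ ratV N, q₁ P P = 0 → q₂ P P = 0 →
      ∃ α β : ℝ, (α ≠ 0 ∨ β ≠ 0) ∧ α • q₁ P + β • q₂ P = 0)
    {a : Fin N → ℝ} (ha : a ∈ ratV N) (ha1 : q₁ a = 0) (ha2 : q₂ a ≠ 0) (haa : q₂ a a = 0) :
    SA (evR N) (K2 q₁ q₂ ⊤) := by
  have hcl : ∀ b ∈ ratV N, q₁ b b = 0 → q₁ b = 0 := fun b hb hbb =>
    QuadSing.claim h₁ h₂ hsing ha ha1 ha2 haa hb hbb
  by_cases h0 : q₁ = 0
  · have h3 : K2 q₁ q₂ ⊤ = closure {v | v ∈ ratV N ∧ q₂ v v = 0} := by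
      unfold K2
      congr 1
      ext v
      simp [h0]
    rw [h3]
    exact sa_quadric q₂ h₂.symm h₂.rat
  · have h3 : K2 q₁ q₂ ⊤ = K2 q₁ q₂ (LinearMap.ker q₁) := by
      unfold K2
      congr 1
      ext v
      simp only [Set.mem_ofPred_eq, Submodule.mem_top, true_and, LinearMap.mem_ker]
      constructor
      · rintro ⟨h4, h5, h6⟩
        exact ⟨h4, hcl v h4 h5, h5, h6⟩
      · rintro ⟨h4, _, h5, h6⟩
        exact ⟨h4, h5, h6⟩
    rw [h3]
    refine hsub q₁ q₂ _ h₁ h₂ (QuadSing.ratW_ker h₁) fun h4 => h0 (LinearMap.ker_eq_top.1 h4)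

theorem QuadSing.ratB_comb {N : ℕ} {q₁ q₂ : (Fin N → ℝ) →ₗ[ℝ] (Fin N → ℝ) →ₗ[ℝ] ℝ}
    (h₁ : RatB q₁) (h₂ : RatB q₂) (α β : ℚ) :
    RatB ((α : ℝ) • q₁ + (β : ℝ) • q₂) := by
  refine ⟨fun u v => ?_, fun u hu v hv => ?_⟩
  · simp only [LinearMap.add_apply, LinearMap.smul_apply]
    rw [h₁.symm u v, h₂.symm u v]
  · obtain ⟨r, hr⟩ := h₁.rat u hu v hv
    obtain ⟨s, hs⟩ := h₂.rat u hu v hv
    refine ⟨α * r + β * s, ?_⟩
    simp only [LinearMap.add_apply, LinearMap.smul_apply, smul_eq_mul, hr, hs]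
    push_cast
    ring

theorem sa_K2_sing {N : ℕ} (q₁ q₂ : (Fin N → ℝ) →ₗ[ℝ] (Fin N → ℝ) →ₗ[ℝ] ℝ)
    (h₁ : RatB q₁) (h₂ : RatB q₂)
    (hsub : ∀ (q₁ q₂ : (Fin N → ℝ) →ₗ[ℝ] (Fin N → ℝ) →ₗ[ℝ] ℝ) (W : Submodule ℝ (Fin N → ℝ)),
      RatB q₁ → RatB q₂ → RatW W → W ≠ ⊤ → SA (evR N) (K2 q₁ q₂ W))
    (hsing : ∀ P ∈ ratV N, q₁ P P = 0 → q₂ P P = 0 →
      ∃ α β : ℚ, (α ≠ 0 ∨ β ≠ 0) ∧ (α : ℝ) • q₁ P + (β : ℝ) • q₂ P = 0) :
    SA (evR N) (K2 q₁ q₂ ⊤) := by
  by_cases hall : ∀ P ∈ ratV N, q₁ P P = 0 → q₂ P P = 0 → q₁ P = 0 ∧ q₂ P = 0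
  · -- all rational points are vertices
    by_cases h0 : LinearMap.ker q₁ ⊓ LinearMap.ker q₂ = ⊤
    · have h3 : K2 q₁ q₂ ⊤ = Set.univ := by
        unfold K2
        rw [Set.eq_univ_iff_forall]
        have h4 : ∀ v : Fin N → ℝ, q₁ v = 0 ∧ q₂ v = 0 := by
          intro v
          have : v ∈ LinearMap.ker q₁ ⊓ LinearMap.ker q₂ := by rw [h0]; trivial
          exact this
        have h5 : {v | v ∈ ratV N ∧ v ∈ (⊤ : Submodule ℝ (Fin N → ℝ)) ∧ q₁ v v = 0 ∧ q₂ v v = 0}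
            = (ratV N : Set (Fin N → ℝ)) := by
          ext v
          simp [(h4 v).1, (h4 v).2]
        rw [h5]
        exact fun v => dense_ratV N v
      rw [h3]
      exact SA.univ
    · have h3 : K2 q₁ q₂ ⊤ = K2 q₁ q₂ (LinearMap.ker q₁ ⊓ LinearMap.ker q₂) := by
        unfold K2
        congr 1
        ext v
        simp only [Set.mem_ofPred_eq, Submodule.mem_top, true_and]
        constructor
        · rintro ⟨h4, h5, h6⟩
          exact ⟨h4, hall v h4 h5 h6, h5, h6⟩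
        · rintro ⟨h4, _, h5, h6⟩
          exact ⟨h4, h5, h6⟩
      rw [h3]
      exact hsub q₁ q₂ _ h₁ h₂
        (QuadSing.ratW_inf (QuadSing.ratW_ker h₁) (QuadSing.ratW_ker h₂)) h0
  · push Not at hall
    obtain ⟨a, ha, ha1, ha2, ha3⟩ := hall
    obtain ⟨α, β, hαβ, hdep⟩ := hsing a ha ha1 ha2
    by_cases hα : α = 0
    · -- `q₂ a = 0`
      have hβ : β ≠ 0 := by
        rcases hαβ with h | h
        · exact absurd hα h
        · exact h
      have h4 : q₂ a = 0 := by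
        rw [hα] at hdep
        simp only [Rat.cast_zero, zero_smul, zero_add] at hdep
        exact (smul_eq_zero.1 hdep).resolve_left (by exact_mod_cast hβ)
      have h5 : q₁ a ≠ 0 := fun h => ha3 h h4
      have h6 := QuadSing.core q₂ q₁ h₂ h₁ hsub (fun P hP hP2 hP1 => by
        obtain ⟨α, β, h7, h8⟩ := hsing P hP hP1 hP2
        refine ⟨β, α, ?_, ?_⟩
        · rcases h7 with h | h
          · exact Or.inr (by exact_mod_cast h)
          · exact Or.inl (by exact_mod_cast h)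
        · rw [add_comm]; exact h8) ha h4 h5 ha1
      have h7 : K2 q₂ q₁ ⊤ = K2 q₁ q₂ ⊤ := by
        unfold K2
        congr 1
        ext v
        simp only [Set.mem_ofPred_eq]
        tauto
      rw [← h7]
      exact h6
    · -- change of basis of the pencil
      have hα' : (α : ℝ) ≠ 0 := by exact_mod_cast hα
      have h4 : ((α : ℝ) • q₁ + (β : ℝ) • q₂) a = 0 := by
        simpa only [LinearMap.add_apply, LinearMap.smul_apply] using hdep
      have h5 : q₂ a ≠ 0 := by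
        intro h
        refine ha3 ?_ h
        rw [h, smul_zero, add_zero] at hdep
        exact (smul_eq_zero.1 hdep).resolve_left hα'
      have key : ∀ v, (((α : ℝ) • q₁ + (β : ℝ) • q₂) v v = 0 ∧ q₂ v v = 0) ↔
          (q₁ v v = 0 ∧ q₂ v v = 0) := by
        intro v
        simp only [LinearMap.add_apply, LinearMap.smul_apply, smul_eq_mul]
        constructor
        · rintro ⟨h6, h7⟩
          rw [h7, mul_zero, add_zero] at h6
          exact ⟨(mul_eq_zero.1 h6).resolve_left hα', h7⟩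
        · rintro ⟨h6, h7⟩
          rw [h6, h7]
          simp
      have h6 := QuadSing.core ((α : ℝ) • q₁ + (β : ℝ) • q₂) q₂ (QuadSing.ratB_comb h₁ h₂ α β) h₂
        hsub (fun P hP hP1 hP2 => by
          obtain ⟨h7, h8⟩ := (key P).1 ⟨hP1, hP2⟩
          obtain ⟨γ, δ, h9, h10⟩ := hsing P hP h7 h8
          refine ⟨γ / α, δ - γ * β / α, ?_, ?_⟩
          · by_cases hγ : γ = 0
            · right
              rw [hγ]
              rcases h9 with h | h
              · exact absurd hγ h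
              · simpa using h
            · left
              exact div_ne_zero (by exact_mod_cast hγ) hα'
          · rw [← h10]
            refine LinearMap.ext fun v => ?_
            simp only [LinearMap.add_apply, LinearMap.smul_apply, smul_eq_mul]
            field_simp
            ring) ha h4 h5 ha2
      have h7 : K2 ((α : ℝ) • q₁ + (β : ℝ) • q₂) q₂ ⊤ = K2 q₁ q₂ ⊤ := by
        unfold K2
        congr 1
        ext v
        simp only [Set.mem_ofPred_eq, Submodule.mem_top, true_and]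
        rw [key v]
      rw [← h7]
      exact h6

/-- rational dependence from real dependence -/
theorem rat_dep {N : ℕ} {q₁ q₂ : (Fin N → ℝ) →ₗ[ℝ] (Fin N → ℝ) →ₗ[ℝ] ℝ}
    (h₁ : RatB q₁) (h₂ : RatB q₂) {P : Fin N → ℝ} (hP : P ∈ ratV N)
    (h : ¬ ∀ α β : ℝ, α • q₁ P + β • q₂ P = 0 → α = 0 ∧ β = 0) :
    ∃ α β : ℚ, (α ≠ 0 ∨ β ≠ 0) ∧ (α : ℝ) • q₁ P + (β : ℝ) • q₂ P = 0 := by
  push Not at h
  obtain ⟨α, β, hdep, hne⟩ := h
  by_cases h2 : q₂ P = 0
  · exact ⟨0, 1, Or.inr one_ne_zero, by simp [h2]⟩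
  · obtain ⟨v, hv, hv2⟩ := QuadSing.exists_ne h2
    have hα : α ≠ 0 := by
      intro hα
      refine hne hα ?_
      rw [hα, zero_smul, zero_add] at hdep
      exact (smul_eq_zero.1 hdep).resolve_right h2
    obtain ⟨r, hr⟩ := h₁.rat P hP v hv
    obtain ⟨s, hs⟩ := h₂.rat P hP v hv
    have hs0 : (s : ℝ) ≠ 0 := by rw [← hs]; exact hv2
    have h3 := LinearMap.congr_fun hdep v
    simp only [LinearMap.add_apply, LinearMap.smul_apply, smul_eq_mul, hr, hs,
      LinearMap.zero_apply] at h3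
    refine ⟨1, -(r / s), Or.inl one_ne_zero, ?_⟩
    have h4 : β = -(α * r) / s := by
      field_simp
      linarith
    have h5 : ((1 : ℚ) : ℝ) • q₁ P + ((-(r / s) : ℚ) : ℝ) • q₂ P
        = α⁻¹ • (α • q₁ P + β • q₂ P) := by
      rw [smul_add, smul_smul, smul_smul, inv_mul_cancel₀ hα, h4]
      congr 2
      · push_cast; rfl
      · push_cast; field_simp
    rw [h5, hdep, smul_zero]

end Pool.Agent.Lib.MP42.CubicHyp
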