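import Pool.Agent.Lib.MP_42de19_nt.CubicHyp.QuadDefs
import Pool.Agent.Lib.MP_42de19_nt.CubicHyp.Main

set_option autoImplicit false

/-! Two quadrics with a common rational smooth point. -/

namespace Pool.Agent.Lib.MP42.CubicHyp

open Topology Filter Set

namespace QuadSmooth

theorem single_mem {N : ℕ} (i : Fin N) : (Pi.single i 1 : Fin N → ℝ) ∈ ratV N := by
  refine ⟨Pi.single i 1, ?_⟩
  funext j
  by_cases h : j = i
  · subst h; simp [castV]
  · simp [castV, h]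

theorem smul_mem {N : ℕ} (r : ℚ) {v : Fin N → ℝ} (hv : v ∈ ratV N) : (r : ℝ) • v ∈ ratV N := by
  obtain ⟨q, rfl⟩ := hv
  exact ⟨r • q, by funext i; simp [castV]⟩

theorem eq_sum {N : ℕ} (x : Fin N → ℝ) :
    x = ∑ i, x i • (Pi.single i (1 : ℝ) : Fin N → ℝ) := by
  funext j
  simp [Finset.sum_apply, Pi.single_apply]

theorem lin_sum {N : ℕ} (l : (Fin N → ℝ) →ₗ[ℝ] ℝ) (hl : RatL l) :
    ∃ a : Fin N → ℚ, ∀ x, l x = ∑ i, (a i : ℝ) * x i := by
  choose r hr using fun i => hl _ (single_mem i)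
  refine ⟨r, fun x => ?_⟩
  conv_lhs => rw [eq_sum x]
  rw [map_sum]
  refine Finset.sum_congr rfl fun i _ => ?_
  rw [map_smul, smul_eq_mul, hr]
  ring

theorem bil_sum {N : ℕ} (q : (Fin N → ℝ) →ₗ[ℝ] (Fin N → ℝ) →ₗ[ℝ] ℝ) (hq : RatB q) :
    ∃ B : Fin N → Fin N → ℚ, (∀ j k, B j k = B k j) ∧
      ∀ u v, q u v = ∑ j, ∑ k, (B j k : ℝ) * (u j * v k) := by
  choose r hr using fun i j : Fin N => hq.rat _ (single_mem i) _ (single_mem j)
  refine ⟨r, fun j k => ?_, fun u v => ?_⟩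
  · have := hq.symm (Pi.single j 1) (Pi.single k 1)
    rw [hr, hr] at this
    exact_mod_cast this
  · conv_lhs => rw [eq_sum u, eq_sum v]
    simp only [map_sum, LinearMap.sum_apply, map_smul, LinearMap.smul_apply, smul_eq_mul,
      Finset.mul_sum]
    rw [Finset.sum_comm]
    refine Finset.sum_congr rfl fun i _ => Finset.sum_congr rfl fun j _ => ?_
    rw [hr]
    ring

/-- the cubic form `l₁ q₂ - l₂ q₁` -/
theorem exists_cub {N : ℕ} (l₁ l₂ : (Fin N → ℝ) →ₗ[ℝ] ℝ) (hl₁ : RatL l₁) (hl₂ : RatL l₂)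
    (q₁ q₂ : (Fin N → ℝ) →ₗ[ℝ] (Fin N → ℝ) →ₗ[ℝ] ℝ) (h₁ : RatB q₁) (h₂ : RatB q₂) :
    ∃ T : SymT N, ∀ v, (cub T).F v v v = l₁ v * q₂ v v - l₂ v * q₁ v v := by
  obtain ⟨a, ha⟩ := lin_sum l₁ hl₁
  obtain ⟨b, hb⟩ := lin_sum l₂ hl₂
  obtain ⟨A, hA, hA'⟩ := bil_sum q₁ h₁
  obtain ⟨B, hB, hB'⟩ := bil_sum q₂ h₂
  let t : Fin N → Fin N → Fin N → ℚ := fun i j k => a i * B j k - b i * A j k
  have ht : ∀ i j k, t i j k = t i k j := by
    intro i j k
    simp only [t, hA j k, hB j k]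
  refine ⟨⟨fun i j k => (t i j k + t j k i + t k i j) / 3, fun i j k => ?_, fun i j k => ?_⟩,
    fun v => ?_⟩
  · rw [ht j i k, ht i k j, ht k j i]
    ring
  · rw [ht i k j, ht k j i, ht j i k]
    ring
  · rw [cub_F]
    let g : Fin N → Fin N → Fin N → ℝ := fun i j k => (t i j k : ℝ) * (v i * v j * v k)
    have e1 : ∀ i j k, (((t i j k + t j k i + t k i j) / 3 : ℚ) : ℝ) * (v i * v j * v k) =
        (g i j k + g j k i + g k i j) / 3 := by
      intro i j k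
      simp only [g]
      push_cast
      ring
    simp only [e1]
    have e2 : ∑ i, ∑ j, ∑ k, g j k i = ∑ i, ∑ j, ∑ k, g i j k := by
      rw [Finset.sum_comm]
      exact Finset.sum_congr rfl fun j _ => Finset.sum_comm
    have e3 : ∑ i, ∑ j, ∑ k, g k i j = ∑ i, ∑ j, ∑ k, g i j k := by
      calc ∑ i, ∑ j, ∑ k, g k i j = ∑ i, ∑ k, ∑ j, g k i j :=
            Finset.sum_congr rfl fun i _ => Finset.sum_comm
        _ = ∑ k, ∑ i, ∑ j, g k i j := Finset.sum_comm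
    have e4 : ∑ i, ∑ j, ∑ k, (g i j k + g j k i + g k i j) / 3 = ∑ i, ∑ j, ∑ k, g i j k := by
      simp only [← Finset.sum_div, Finset.sum_add_distrib]
      rw [e2, e3]
      ring
    have e5 : ∀ (x : Fin N → ℝ) (y : Fin N → Fin N → ℝ),
        (∑ i, x i) * (∑ j, ∑ k, y j k) = ∑ i, ∑ j, ∑ k, x i * y j k := by
      intro x y
      rw [Finset.sum_mul]
      refine Finset.sum_congr rfl fun i _ => ?_
      rw [Finset.mul_sum]
      exact Finset.sum_congr rfl fun j _ => Finset.mul_sum _ _ _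
    rw [e4, ha, hb, hA', hB', e5, e5]
    simp only [← Finset.sum_sub_distrib]
    refine Finset.sum_congr rfl fun i _ => Finset.sum_congr rfl fun j _ =>
      Finset.sum_congr rfl fun k _ => ?_
    simp only [g, t]
    push_cast
    ring

theorem continuous_diag {N : ℕ} (q : (Fin N → ℝ) →ₗ[ℝ] (Fin N → ℝ) →ₗ[ℝ] ℝ) (hq : RatB q) :
    Continuous fun v => q v v :=
  (isPoly_of_ratBil q hq.rat (a := fun x => x) (b := fun x => x) (fun i => IsPoly.coord i)
    (fun i => IsPoly.coord i)).continuous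

theorem smooth_pt {N : ℕ} {q q' : (Fin N → ℝ) →ₗ[ℝ] (Fin N → ℝ) →ₗ[ℝ] ℝ} (hq : RatB q)
    (hq' : RatB q') {P : Fin N → ℝ} (hP : P ∈ ratV N) (hP₁ : q P P = 0) (hP₂ : q' P P = 0)
    {v : Fin N → ℝ}
    (hv : v ∈ closure {u | u ∈ ratV N ∧ q P u * q' u u - q' P u * q u u = 0})
    (hqv : q v v = 0) (hne : q P v ≠ 0) :
    v ∈ closure {u | u ∈ ratV N ∧ q u u = 0 ∧ q' u u = 0} := by
  have hc1 : Continuous fun u => q u u := continuous_diag q hq
  have hc2 : Continuous fun u => q P u := (q P).continuous_of_finiteDimensional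
  have hopen : IsOpen {u | q P u ≠ 0} := isOpen_ne_fun hc2 continuous_const
  have hv2 := hopen.inter_closure ⟨hne, hv⟩
  have hcont : ContinuousAt (fun u : Fin N → ℝ => u - (q u u / (2 * q P u)) • P) v := by
    refine continuousAt_id.sub (ContinuousAt.smul (hc1.continuousAt.div
      (continuousAt_const.mul hc2.continuousAt) (mul_ne_zero two_ne_zero hne)) continuousAt_const)
  have hmem := hcont.continuousWithinAt.mem_closure hv2
    (t := {u | u ∈ ratV N ∧ q u u = 0 ∧ q' u u = 0}) ?_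
  · simpa [hqv] using hmem
  · rintro u ⟨hu0, hu1, hu2⟩
    have hu0' : q P u ≠ 0 := hu0
    obtain ⟨r1, hr1⟩ := hq.rat u hu1 u hu1
    obtain ⟨r2, hr2⟩ := hq.rat P hP u hu1
    have hr : q u u / (2 * q P u) * (2 * q P u) = q u u :=
      div_mul_cancel₀ _ (mul_ne_zero two_ne_zero hu0')
    refine ⟨?_, ?_, ?_⟩
    · have e : q u u / (2 * q P u) = ((r1 / (2 * r2) : ℚ) : ℝ) := by
        rw [hr1, hr2]; push_cast; ring
      show u - (q u u / (2 * q P u)) • P ∈ ratV N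
      rw [e]
      exact (ratV N).sub_mem hu1 (smul_mem _ hP)
    · simp only [map_sub, LinearMap.sub_apply, map_smul, LinearMap.smul_apply, smul_eq_mul,
        hq.symm u P, hP₁]
      linear_combination -hr
    · simp only [map_sub, LinearMap.sub_apply, map_smul, LinearMap.smul_apply, smul_eq_mul,
        hq'.symm u P, hP₂]
      apply mul_left_cancel₀ hu0'
      linear_combination hu2 - q' P u * hr

end QuadSmooth

open QuadSmooth

theorem sa_K2_smooth {N : ℕ} (q₁ q₂ : (Fin N → ℝ) →ₗ[ℝ] (Fin N → ℝ) →ₗ[ℝ] ℝ)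
    (h₁ : RatB q₁) (h₂ : RatB q₂)
    (hsub : ∀ W : Submodule ℝ (Fin N → ℝ), RatW W → W ≠ ⊤ → SA (evR N) (K2 q₁ q₂ W))
    {P : Fin N → ℝ} (hP : P ∈ ratV N) (hP₁ : q₁ P P = 0) (hP₂ : q₂ P P = 0)
    (hind : ∀ α β : ℝ, α • q₁ P + β • q₂ P = 0 → α = 0 ∧ β = 0) :
    SA (evR N) (K2 q₁ q₂ ⊤) := by
  have hl₁ : RatL (q₁ P) := fun v hv => h₁.rat P hP v hv
  have hl₂ : RatL (q₂ P) := fun v hv => h₂.rat P hP v hv
  obtain ⟨T, hT⟩ := exists_cub (q₁ P) (q₂ P) hl₁ hl₂ q₁ q₂ h₁ h₂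
  set W : Submodule ℝ (Fin N → ℝ) := LinearMap.ker (q₁ P) ⊓ LinearMap.ker (q₂ P) with hW
  have hWr : RatW W := by
    refine ⟨2, ![q₁ P, q₂ P], ?_, ?_⟩
    · intro i
      fin_cases i
      · exact hl₁
      · exact hl₂
    · rw [hW]
      ext v
      simp [Submodule.mem_iInf, Fin.forall_fin_two]
  have hne1 : q₁ P ≠ 0 := by
    intro h0
    have := (hind 1 0 (by simp [h0])).1
    exact one_ne_zero this
  have hWne : W ≠ ⊤ := by
    intro htop
    apply hne1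
    refine LinearMap.ext fun v => ?_
    have hv : v ∈ W := by rw [htop]; exact Submodule.mem_top
    rw [hW] at hv
    exact hv.1
  set A : Set (Fin N → ℝ) := ({v | q₁ v v = 0} ∩ {v | q₂ v v = 0} ∩ (cub T).K) ∩
    ({v | q₁ P v ≠ 0} ∪ {v | q₂ P v ≠ 0}) with hA
  have hSA : SA (evR N) A := by
    have hc : ∀ i, IsPoly (fun x : Fin N → ℝ => x i) := fun i => IsPoly.coord i
    refine (((IsPoly.sa_eq_zero (isPoly_of_ratBil q₁ h₁.rat (a := fun x => x)
      (b := fun x => x) hc hc)).inter (IsPoly.sa_eq_zero (isPoly_of_ratBil q₂ h₂.rat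
        (a := fun x => x) (b := fun x => x) hc hc))).inter (sa_K N T)).inter
      ((IsPoly.sa_ne_zero (isPoly_of_ratFun (q₁ P) hl₁)).union
        (IsPoly.sa_ne_zero (isPoly_of_ratFun (q₂ P) hl₂)))
  have hK : K2 q₁ q₂ ⊤ = closure {u | u ∈ ratV N ∧ q₁ u u = 0 ∧ q₂ u u = 0} := by
    unfold K2
    simp
  have hAK : A ⊆ K2 q₁ q₂ ⊤ := by
    rintro v ⟨⟨⟨hv1, hv2⟩, hv3⟩, hv4⟩
    rw [hK]
    rcases hv4 with hv4 | hv4
    · refine smooth_pt h₁ h₂ hP hP₁ hP₂ ?_ hv1 hv4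
      refine closure_mono ?_ hv3
      rintro u ⟨hu1, hu2⟩
      refine ⟨hu1, ?_⟩
      rw [← hT u]
      exact hu2
    · have := smooth_pt h₂ h₁ hP hP₂ hP₁ (v := v) ?_ hv2 hv4
      · refine closure_mono ?_ this
        rintro u ⟨hu1, hu2, hu3⟩
        exact ⟨hu1, hu3, hu2⟩
      · refine closure_mono ?_ hv3
        rintro u ⟨hu1, hu2⟩
        refine ⟨hu1, ?_⟩
        have e := hT u
        have hu2' : (cub T).F u u u = 0 := hu2
        rw [hu2'] at e
        linarith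
  have hfin : K2 q₁ q₂ ⊤ = closure A ∪ K2 q₁ q₂ W := by
    apply Subset.antisymm
    · rw [hK]
      have : {u | u ∈ ratV N ∧ q₁ u u = 0 ∧ q₂ u u = 0} ⊆
          A ∪ {v | v ∈ ratV N ∧ v ∈ W ∧ q₁ v v = 0 ∧ q₂ v v = 0} := by
        rintro u ⟨hu1, hu2, hu3⟩
        by_cases hu4 : q₁ P u ≠ 0 ∨ q₂ P u ≠ 0
        · left
          refine ⟨⟨⟨hu2, hu3⟩, subset_closure ⟨hu1, ?_⟩⟩, hu4⟩
          rw [hT u, hu2, hu3]
          ring
        · right
          push Not at hu4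
          exact ⟨hu1, hu4, hu2, hu3⟩
      refine (closure_mono this).trans ?_
      rw [closure_union]
      exact Subset.rfl
    · refine union_subset (closure_minimal hAK isClosed_closure) (closure_mono ?_)
      rintro u ⟨hu1, -, hu2⟩
      exact ⟨hu1, Submodule.mem_top, hu2⟩
  rw [hfin]
  exact hSA.closure.union (hsub W hWr hWne)

end Pool.Agent.Lib.MP42.CubicHyp
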