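import Pool.Agent.Lib.MP_42de19_nt.CubicHyp.QuadDefs

set_option autoImplicit false

namespace Pool.Agent.Lib.MP42.CubicHyp

open Topology Filter Set

theorem single_mem_ratV {N : ℕ} (i : Fin N) : (Pi.single i 1 : Fin N → ℝ) ∈ ratV N := by
  classical
  refine ⟨Pi.single i 1, ?_⟩
  funext j
  by_cases h : j = i
  · subst h; simp [castV]
  · simp [castV, h]

theorem smul_mem_ratV {N : ℕ} {v : Fin N → ℝ} (hv : v ∈ ratV N) {x : ℝ} (hx : ∃ r : ℚ, x = r) :
    x • v ∈ ratV N := by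
  obtain ⟨q, rfl⟩ := hv
  obtain ⟨r, rfl⟩ := hx
  exact ⟨r • q, by funext i; simp [castV]⟩

/-- the parametrisation of the hyperplane `l = 0` -/
noncomputable def parH {N : ℕ} (l : (Fin (N + 1) → ℝ) →ₗ[ℝ] ℝ) (j : Fin (N + 1)) :
    (Fin N → ℝ) →ₗ[ℝ] (Fin (N + 1) → ℝ) :=
  ∑ k : Fin N, (LinearMap.proj (R := ℝ) (φ := fun _ : Fin N => ℝ) k).smulRight
    ((Pi.single (j.succAbove k) 1 : Fin (N + 1) → ℝ) -
      (l (Pi.single (j.succAbove k) 1) / l (Pi.single j 1)) • (Pi.single j 1 : Fin (N + 1) → ℝ))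

theorem parH_apply {N : ℕ} (l : (Fin (N + 1) → ℝ) →ₗ[ℝ] ℝ) (j : Fin (N + 1)) (x : Fin N → ℝ) :
    parH l j x = ∑ k : Fin N, x k • ((Pi.single (j.succAbove k) 1 : Fin (N + 1) → ℝ) -
      (l (Pi.single (j.succAbove k) 1) / l (Pi.single j 1)) • (Pi.single j 1 : Fin (N + 1) → ℝ)) := by
  simp only [parH, LinearMap.sum_apply, LinearMap.smulRight_apply, LinearMap.proj_apply]

theorem l_parH {N : ℕ} (l : (Fin (N + 1) → ℝ) →ₗ[ℝ] ℝ) (j : Fin (N + 1))
    (hj : l (Pi.single j 1) ≠ 0) (x : Fin N → ℝ) : l (parH l j x) = 0 := by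
  rw [parH_apply, map_sum]
  refine Finset.sum_eq_zero fun k _ => ?_
  rw [map_smul, map_sub, map_smul, smul_eq_mul, smul_eq_mul, div_mul_cancel₀ _ hj, sub_self,
    mul_zero]

theorem parH_succAbove {N : ℕ} (l : (Fin (N + 1) → ℝ) →ₗ[ℝ] ℝ) (j : Fin (N + 1)) (x : Fin N → ℝ)
    (m : Fin N) : parH l j x (j.succAbove m) = x m := by
  rw [parH_apply, Finset.sum_apply, Finset.sum_eq_single m]
  · simp [Fin.succAbove_ne]
  · intro k _ hk
    have h1 : j.succAbove m ≠ j.succAbove k := fun h => hk (Fin.succAbove_right_injective h).symm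
    simp [Fin.succAbove_ne, h1]
  · intro h; exact absurd (Finset.mem_univ _) h

theorem parH_rest {N : ℕ} (l : (Fin (N + 1) → ℝ) →ₗ[ℝ] ℝ) (j : Fin (N + 1))
    (hj : l (Pi.single j 1) ≠ 0) {v : Fin (N + 1) → ℝ} (hv : l v = 0) :
    parH l j (fun k => v (j.succAbove k)) = v := by
  set w := parH l j (fun k => v (j.succAbove k)) with hw
  have h1 : ∀ m : Fin N, w (j.succAbove m) = v (j.succAbove m) := fun m => parH_succAbove l j _ m
  have h2 : w - v = (w j - v j) • (Pi.single j 1 : Fin (N + 1) → ℝ) := by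
    funext i
    rcases Fin.eq_self_or_eq_succAbove j i with h | ⟨m, rfl⟩
    · subst h; simp
    · simp [h1 m, Fin.succAbove_ne]
  have h3 : l (w - v) = 0 := by rw [map_sub, hv, hw, l_parH l j hj, sub_zero]
  rw [h2, map_smul, smul_eq_mul] at h3
  have h4 : w j - v j = 0 := (mul_eq_zero.mp h3).resolve_right hj
  rw [h4, zero_smul] at h2
  exact sub_eq_zero.mp h2

theorem parH_mem {N : ℕ} {l : (Fin (N + 1) → ℝ) →ₗ[ℝ] ℝ} (hl : RatL l) (j : Fin (N + 1))
    {x : Fin N → ℝ} (hx : x ∈ ratV N) : parH l j x ∈ ratV (N + 1) := by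
  rw [parH_apply]
  refine AddSubgroup.sum_mem _ fun k _ => ?_
  obtain ⟨q, rfl⟩ := hx
  refine smul_mem_ratV ?_ ⟨q k, rfl⟩
  refine (ratV (N + 1)).sub_mem (single_mem_ratV _) (smul_mem_ratV (single_mem_ratV _) ?_)
  obtain ⟨a, ha⟩ := hl _ (single_mem_ratV (j.succAbove k))
  obtain ⟨b, hb⟩ := hl _ (single_mem_ratV j)
  exact ⟨a / b, by rw [ha, hb]; push_cast; rfl⟩

theorem sa_K2_of_ne_top {N : ℕ}
    (ih : ∀ (q₁ q₂ : (Fin N → ℝ) →ₗ[ℝ] (Fin N → ℝ) →ₗ[ℝ] ℝ) (W : Submodule ℝ (Fin N → ℝ)),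
      RatB q₁ → RatB q₂ → RatW W → SA (evR N) (K2 q₁ q₂ W))
    (q₁ q₂ : (Fin (N + 1) → ℝ) →ₗ[ℝ] (Fin (N + 1) → ℝ) →ₗ[ℝ] ℝ)
    (W : Submodule ℝ (Fin (N + 1) → ℝ)) (h₁ : RatB q₁) (h₂ : RatB q₂) (hW : RatW W)
    (hne : W ≠ ⊤) : SA (evR (N + 1)) (K2 q₁ q₂ W) := by
  obtain ⟨m, l', hl', hWl⟩ := hW
  -- a nonzero functional
  obtain ⟨i₀, hi₀⟩ : ∃ i, l' i ≠ 0 := by
    by_contra hcon
    push Not at hcon
    apply hne
    rw [hWl, eq_top_iff]
    intro v _
    rw [Submodule.mem_iInf]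
    intro i
    rw [LinearMap.mem_ker, hcon i, LinearMap.zero_apply]
  obtain ⟨j, hj⟩ : ∃ j, l' i₀ (Pi.single j 1) ≠ 0 := by
    by_contra hcon
    push Not at hcon
    apply hi₀
    refine LinearMap.ext fun x => ?_
    have hx : x = ∑ i, x i • (Pi.single i (1 : ℝ) : Fin (N + 1) → ℝ) := by
      funext j
      simp [Finset.sum_apply, Pi.single_apply]
    rw [hx, map_sum]
    refine Finset.sum_eq_zero fun i _ => ?_
    rw [map_smul, hcon i, smul_zero]
  set l := l' i₀ with hl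
  have hlR : RatL l := hl' i₀
  set φ := parH l j with hφ
  have hWle : ∀ v ∈ W, l v = 0 := by
    intro v hv
    rw [hWl, Submodule.mem_iInf] at hv
    exact hv i₀
  -- the restricted data
  have hB : ∀ q : (Fin (N + 1) → ℝ) →ₗ[ℝ] (Fin (N + 1) → ℝ) →ₗ[ℝ] ℝ, RatB q →
      RatB (q.compl₁₂ φ φ) := by
    intro q hq
    refine ⟨fun u v => ?_, fun u hu v hv => ?_⟩
    · simp only [LinearMap.compl₁₂_apply]; exact hq.symm _ _
    · simp only [LinearMap.compl₁₂_apply]; exact hq.rat _ (parH_mem hlR j hu) _ (parH_mem hlR j hv)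
  have hWc : RatW (W.comap φ) := by
    refine ⟨m, fun i => l' i ∘ₗ φ, fun i v hv => ?_, ?_⟩
    · rw [LinearMap.comp_apply]; exact hl' i _ (parH_mem hlR j hv)
    · ext x
      rw [Submodule.mem_comap, hWl, Submodule.mem_iInf, Submodule.mem_iInf]
      rfl
  have hSA := ih (q₁.compl₁₂ φ φ) (q₂.compl₁₂ φ φ) (W.comap φ) (hB _ h₁) (hB _ h₂) hWc
  have key : K2 q₁ q₂ W = {v | l v = 0} ∩
      (fun v : Fin (N + 1) → ℝ => fun k : Fin N => v (j.succAbove k)) ⁻¹'
        K2 (q₁.compl₁₂ φ φ) (q₂.compl₁₂ φ φ) (W.comap φ) := by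
    apply Subset.antisymm
    · refine closure_minimal ?_ ?_
      · rintro v ⟨hv, hvW, hv1, hv2⟩
        have hlv := hWle v hvW
        have hpar : φ (fun k => v (j.succAbove k)) = v := parH_rest l j hj hlv
        refine ⟨hlv, subset_closure ⟨?_, ?_, ?_, ?_⟩⟩
        · obtain ⟨q, rfl⟩ := hv
          exact ⟨fun k => q (j.succAbove k), rfl⟩
        · show φ _ ∈ W
          rw [hpar]; exact hvW
        · rw [LinearMap.compl₁₂_apply, hpar]; exact hv1
        · rw [LinearMap.compl₁₂_apply, hpar]; exact hv2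
      · refine (isClosed_singleton.preimage l.continuous_of_finiteDimensional).inter
          (IsClosed.preimage ?_ isClosed_closure)
        exact continuous_pi fun k => continuous_apply _
    · rintro v ⟨hlv, hv⟩
      have hpar : φ (fun k => v (j.succAbove k)) = v := parH_rest l j hj hlv
      have hc : Continuous φ := φ.continuous_of_finiteDimensional
      rw [← hpar]
      refine closure_mono ?_ (image_closure_subset_closure_image hc ⟨_, hv, rfl⟩)
      rintro _ ⟨x, ⟨hx, hxW, hx1, hx2⟩, rfl⟩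
      exact ⟨parH_mem hlR j hx, hxW, by simpa only [LinearMap.compl₁₂_apply] using hx1,
        by simpa only [LinearMap.compl₁₂_apply] using hx2⟩
  rw [key]
  exact (isPoly_of_ratFun l hlR).sa_eq_zero.inter
    (SA.comap_poly hSA fun k => IsPoly.coord (j.succAbove k))

end Pool.Agent.Lib.MP42.CubicHyp
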