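import Pool.Agent.Lib.MP_42de19_nt.CubicHyp.Homog
import Pool.Agent.Lib.MP_42de19_nt.CubicHyp.Cone
import Pool.Agent.Lib.MP_42de19_nt.CubicHyp.Restrict
import Pool.Agent.Lib.MP_42de19_nt.CubicHyp.QuadSmooth
import Pool.Agent.Lib.MP_42de19_nt.CubicHyp.QuadSing

set_option autoImplicit false

namespace Pool.Agent.Lib.MP42.CubicHyp

open Topology Filter Set

theorem sa_K2_top {N : ℕ}
    (hsub : ∀ (q₁ q₂ : (Fin N → ℝ) →ₗ[ℝ] (Fin N → ℝ) →ₗ[ℝ] ℝ) (W : Submodule ℝ (Fin N → ℝ)),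
      RatB q₁ → RatB q₂ → RatW W → W ≠ ⊤ → SA (evR N) (K2 q₁ q₂ W))
    (q₁ q₂ : (Fin N → ℝ) →ₗ[ℝ] (Fin N → ℝ) →ₗ[ℝ] ℝ) (h₁ : RatB q₁) (h₂ : RatB q₂) :
    SA (evR N) (K2 q₁ q₂ ⊤) := by
  by_cases hs : ∃ P ∈ ratV N, q₁ P P = 0 ∧ q₂ P P = 0 ∧
      ∀ α β : ℝ, α • q₁ P + β • q₂ P = 0 → α = 0 ∧ β = 0
  · obtain ⟨P, hP, hP1, hP2, hind⟩ := hs
    exact sa_K2_smooth q₁ q₂ h₁ h₂ (fun W hW hne => hsub q₁ q₂ W h₁ h₂ hW hne) hP hP1 hP2 hind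
  · refine sa_K2_sing q₁ q₂ h₁ h₂ hsub fun P hP hP1 hP2 => rat_dep h₁ h₂ hP fun hcon => ?_
    exact hs ⟨P, hP, hP1, hP2, hcon⟩

/-- The closure of the rational common zeros of two rational quadratic forms on a rational
subspace of `ℝ^N` is semialgebraic over `ℚ`. -/
theorem sa_K2 : ∀ (N : ℕ) (q₁ q₂ : (Fin N → ℝ) →ₗ[ℝ] (Fin N → ℝ) →ₗ[ℝ] ℝ)
    (W : Submodule ℝ (Fin N → ℝ)), RatB q₁ → RatB q₂ → RatW W → SA (evR N) (K2 q₁ q₂ W) := by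
  intro N
  induction N with
  | zero =>
    intro q₁ q₂ W h₁ h₂ hW
    have hW' : ∀ W' : Submodule ℝ (Fin 0 → ℝ), W' = ⊤ := by
      intro W'
      refine eq_top_iff.mpr fun v _ => ?_
      have : v = 0 := by funext i; exact i.elim0
      rw [this]; exact W'.zero_mem
    rw [hW' W]
    exact sa_K2_top (fun _ _ W' _ _ _ hne => absurd (hW' W') hne) q₁ q₂ h₁ h₂
  | succ N ih =>
    intro q₁ q₂ W h₁ h₂ hW
    have hsub := sa_K2_of_ne_top ih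
    by_cases hne : W = ⊤
    · rw [hne]; exact sa_K2_top hsub q₁ q₂ h₁ h₂
    · exact hsub q₁ q₂ W h₁ h₂ hW hne

/-- The closure of the rational common zeros of two polynomials of degree at most two with
rational coefficients is semialgebraic over `ℚ`. -/
theorem two_quadrics {n : ℕ} (f₁ f₂ : MvPolynomial (Fin n) ℚ) (hf₁ : f₁.totalDegree ≤ 2)
    (hf₂ : f₂.totalDegree ≤ 2) : Semialgebraic (ratClosure {f₁, f₂}) := by
  obtain ⟨q₁, hq₁, h₁⟩ := exists_ratB f₁ hf₁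
  obtain ⟨q₂, hq₂, h₂⟩ := exists_ratB f₂ hf₂
  rw [ratClosure_pair f₁ f₂ q₁ q₂ h₁ h₂]
  refine SA.isSemialg (SA.comap_poly (sa_K2 _ q₁ q₂ ⊤ hq₁ hq₂ ⟨0, fun i => i.elim0,
    fun i => i.elim0, (iInf_of_empty _).symm⟩) ?_)
  intro i
  refine Fin.cases ?_ (fun j => ?_) i
  · simpa using IsPoly.const (N := n) 1
  · simpa using IsPoly.coord j

end Pool.Agent.Lib.MP42.CubicHyp
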