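import Pool.Agent.Lib.MP_42de19_nt.CubicHyp.Isolated
import Pool.Agent.Lib.MP_42de19_nt.CubicHyp.RatSub

set_option autoImplicit false

/-! The structure of `K` away from the closure of its smooth part (E4). -/

namespace Pool.Agent.Lib.MP42.CubicHyp

open Topology Filter

namespace CubData

variable {V : Type*} [NormedAddCommGroup V] [NormedSpace ℝ V] [FiniteDimensional ℝ V] (D : CubData V)

theorem K_eq (hH : D.NoHyp) (hV : D.NoVertex) (hs : (D.ratX ∩ D.Xs).Nonempty)
    (hR : ∀ b ∈ D.Q, D.RatSub (LinearMap.ker (D.F b))) :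
    D.K = closure (D.K ∩ D.Xs) ∨
      ∃ b ∈ D.Q, D.K = closure (D.K ∩ D.Xs) ∪ {v | D.F b v = 0} := by
  have hsub : closure (D.K ∩ D.Xs) ⊆ D.K := closure_minimal (fun _ h => h.1) D.isClosed_K
  by_cases hall : ∀ x ∈ D.ratX, x ∈ closure (D.K ∩ D.Xs)
  · left
    exact Set.Subset.antisymm (closure_minimal hall isClosed_closure) hsub
  right
  push Not at hall
  obtain ⟨b, hb, hbn⟩ := hall
  have hbb : D.F b b = 0 := by
    by_contra h
    exact hbn (subset_closure ⟨D.ratX_subset_K hb, hb.2, h⟩)
  have hb0 : b ≠ 0 := by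
    rintro rfl
    apply hbn
    obtain ⟨P, hP, hPs⟩ := hs
    have h1 : Tendsto (fun t : ℝ => t • P) (𝓝[≠] 0) (𝓝 (0 : V)) := by
      have h2 : Continuous fun t : ℝ => t • P := continuous_id.smul continuous_const
      have := h2.tendsto 0
      rw [zero_smul] at this
      exact this.mono_left nhdsWithin_le_nhds
    refine mem_closure_of_tendsto h1 ?_
    filter_upwards [self_mem_nhdsWithin] with t ht
    have ht' : t ≠ 0 := ht
    refine ⟨D.smul_mem_K (D.ratX_subset_K hP) t, D.smul_mem_X hPs.1 t, ?_⟩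
    intro h
    apply hPs.2
    have h3 : D.F (t • P) (t • P) = (t ^ 2) • D.F P P := by
      ext u; simp only [map_smul, LinearMap.smul_apply, smul_eq_mul]; ring
    rw [h3] at h
    exact (smul_eq_zero.1 h).resolve_left (pow_ne_zero 2 ht')
  obtain ⟨i1, i2⟩ := D.isolated_double hH hV hb.1 hbb hbn hb0 (hR b hb.1)
  refine ⟨b, hb.1, Set.Subset.antisymm (closure_minimal ?_ ?_) (Set.union_subset hsub ?_)⟩
  · intro x hx
    by_cases hxs : D.F x x = 0
    · right
      apply i1
      have : D.F b x x = D.F x x b := by rw [D.s12 b x x, D.s23 x b x]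
      rw [this, hxs]; rfl
    · exact Or.inl (subset_closure ⟨D.ratX_subset_K hx, hx.2, hxs⟩)
  · refine isClosed_closure.union ?_
    have : {v | D.F b v = 0} = ((LinearMap.ker (D.F b) : Submodule ℝ V) : Set V) := by
      ext v; simp
    rw [this]
    exact Submodule.closed_of_finiteDimensional _
  · have h1 := (hR b hb.1).subset_K (D := D) (fun v hv => by
      have hv' : D.F b v = 0 := by simpa using hv
      have h2 := i2 v v hv' hv'
      rw [h2]; rfl)
    intro v hv
    exact h1 (by simpa using hv)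

end CubData

end Pool.Agent.Lib.MP42.CubicHyp
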